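import Pool.Agent.X40.VAR.V21

/-!
The variance with the true constant.
-/

set_option autoImplicit false

namespace Pool.Agent.X40.VAR

open Finset Filter Topology
open Pool.Agent.H373R2.T7 (pz Vz lamz mem_pz Vz_inv_small)
open Pool.Agent.TH892.OW (pz_mono Vz_anti one_le_Vz_inv near_sqD evt_ll evt_ll_ge Vz_log)
open Pool.Agent.TH892.SW (HP rk root_card prod_rk js_le HP_nonneg vn model hK_most)
open Pool.Agent.H442R2.EHI (evt_log_pow evt_log_ge)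

/-- Minkowski's inequality, in the form we need -/
lemma mink (T : Finset ℕ) (x y : ℕ → ℝ) (τ A0 e2 e3 ε : ℝ) (hτ : 0 < τ) (hτ1 : τ ≤ 1) (hA0 : 0 ≤ A0)
    (hA : |∑ K ∈ T, x K ^ 2 - A0| ≤ e2) (hB : ∑ K ∈ T, y K ^ 2 ≤ e3) (h1 : τ * A0 ≤ ε / 4) (h2 : 2 * e2 ≤ ε / 4)
    (h3 : (1 + 1 / τ) * e3 ≤ ε / 4) : |∑ K ∈ T, (x K + y K) ^ 2 - A0| ≤ ε := by
  obtain ⟨A, hAd⟩ : ∃ A, A = ∑ K ∈ T, x K ^ 2 := ⟨_, rfl⟩
  obtain ⟨B, hBd⟩ : ∃ B, B = ∑ K ∈ T, y K ^ 2 := ⟨_, rfl⟩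
  obtain ⟨C, hCd⟩ : ∃ C, C = ∑ K ∈ T, (x K + y K) ^ 2 := ⟨_, rfl⟩
  rw [← hAd] at hA
  rw [← hBd] at hB
  rw [← hCd]
  have hA' : 0 ≤ A := by rw [hAd]; exact sum_nonneg fun _ _ => sq_nonneg _
  have hB' : 0 ≤ B := by rw [hBd]; exact sum_nonneg fun _ _ => sq_nonneg _
  have key : ∀ a b : ℝ, (a + b) ^ 2 ≤ (1 + τ) * a ^ 2 + (1 + 1 / τ) * b ^ 2 := by
    intro a b
    have h8 : (1 + τ) * a ^ 2 + (1 + 1 / τ) * b ^ 2 - (a + b) ^ 2 = (τ * a - b) ^ 2 / τ := by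
      field_simp
      ring
    have h9 : 0 ≤ (τ * a - b) ^ 2 / τ := by positivity
    linarith
  have c1 : C ≤ (1 + τ) * A + (1 + 1 / τ) * B := by
    rw [hCd, hAd, hBd, mul_sum, mul_sum, ← sum_add_distrib]
    exact sum_le_sum fun K _ => key (x K) (y K)
  have c2 : A ≤ (1 + τ) * C + (1 + 1 / τ) * B := by
    rw [hCd, hAd, hBd, mul_sum, mul_sum, ← sum_add_distrib]
    refine sum_le_sum fun K _ => ?_
    have := key (x K + y K) (-(y K))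
    rw [add_neg_cancel_right, neg_sq] at this
    exact this
  have hA2 := abs_le.1 hA
  have c3 : (1 + 1 / τ) * B ≤ ε / 4 := (mul_le_mul_of_nonneg_left hB (by positivity)).trans h3
  have c4 : τ * A ≤ τ * A0 + e2 := by nlinarith
  have c5 : 0 ≤ (1 + 1 / τ) * B := by positivity
  have c6 : C ≤ A0 + ε := by nlinarith
  rw [abs_le]
  constructor
  · have c7 : (1 - τ) * A ≤ (1 - τ) * ((1 + τ) * C + (1 + 1 / τ) * B) := mul_le_mul_of_nonneg_left c2 (by linarith)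
    have hC' : 0 ≤ C := by rw [hCd]; exact sum_nonneg fun _ _ => sq_nonneg _
    have c8 : (1 - τ) * ((1 + τ) * C + (1 + 1 / τ) * B) ≤ C + (1 + 1 / τ) * B := by nlinarith [mul_nonneg (sq_nonneg τ) hC']
    nlinarith
  · linarith

theorem var_main (U : ℕ) (lam ε : ℝ) (hlam : 0 < lam) (hε : 0 < ε) : ∃ X0 : ℕ, ∀ X : ℕ, X0 ≤ X → ∃ Bad : Finset ℕ, Bad ⊆ Icc 1 X ∧
    (#Bad : ℝ) ≤ X / Real.log X ^ U ∧ ∃ h : ℕ → ℝ,
      (∀ K ∈ Icc 1 X, K ∉ Bad → ¬ IsSquare (K : ℤ) ∧ 0 < h K ∧ Tendsto (fun N => HP (K : ℤ) N) atTop (𝓝 (h K))) ∧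
      |∑ K ∈ Icc 1 X \ Bad, (NL (lam * Real.log X) K - 4 * lam * h K) ^ 2 - 4 * lam * X| ≤ ε * X := by
  classical
  obtain ⟨u, hu⟩ : ∃ u, u = 4 * lam := ⟨_, rfl⟩
  have hu0 : 0 < u := by rw [hu]; positivity
  obtain ⟨τ, hτ⟩ : ∃ τ, τ = min 1 (ε / (4 * u)) := ⟨_, rfl⟩
  have hτ0 : 0 < τ := by rw [hτ]; positivity
  have hτ1 : τ ≤ 1 := by rw [hτ]; exact min_le_left _ _
  have hτ2 : τ * u ≤ ε / 4 := by
    have h1 : τ ≤ ε / (4 * u) := by rw [hτ]; exact min_le_right _ _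
    rw [le_div_iff₀ (by positivity)] at h1
    linarith
  obtain ⟨w0, hw0⟩ := S1_main lam (ε / 16) hlam (by positivity)
  obtain ⟨w1, hw1⟩ := exists_nat_ge (u ^ 2 * 36 * (1 + 1 / τ) * 8 / ε)
  obtain ⟨w, hw⟩ : ∃ w, w = w0 + w1 + 2 := ⟨_, rfl⟩
  have hw2 : 2 ≤ w := by omega
  obtain ⟨X1, hX1⟩ := hw0 w (by omega) hw2
  obtain ⟨κ, hκ⟩ : ∃ κ, κ = ε / (u ^ 2 * (1 + 1 / τ) * 8) := ⟨_, rfl⟩
  have hκ0 : 0 < κ := by rw [hκ]; positivity
  obtain ⟨X2, hX2⟩ := h_mean (U + 3) w hw2 κ hκ0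
  have hwκ : u ^ 2 * (36 / ((w : ℝ) - 1) + κ) * (1 + 1 / τ) ≤ ε / 4 := by
    have hwr : (w : ℝ) - 1 = w0 + w1 + 1 := by rw [hw]; push_cast; ring
    have hw3 : 0 < (w : ℝ) - 1 := by rw [hwr]; positivity
    have hw4 : u ^ 2 * 36 * (1 + 1 / τ) * 8 / ε ≤ (w : ℝ) - 1 := by
      have : (0 : ℝ) ≤ w0 := Nat.cast_nonneg _
      linarith
    have e1 : u ^ 2 * (36 / ((w : ℝ) - 1) + κ) * (1 + 1 / τ) = u ^ 2 * 36 * (1 + 1 / τ) / ((w : ℝ) - 1) + κ * (u ^ 2 * (1 + 1 / τ)) := by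
      field_simp
    have e2 : κ * (u ^ 2 * (1 + 1 / τ)) = ε / 8 := by rw [hκ]; field_simp
    have e3 : u ^ 2 * 36 * (1 + 1 / τ) / ((w : ℝ) - 1) ≤ ε / 8 := by
      rw [div_le_iff₀ hw3]
      rw [div_le_iff₀ hε] at hw4
      linarith
    rw [e1, e2]
    linarith
  obtain ⟨V, hV⟩ : ∃ V, V = (Vz w)⁻¹ := ⟨_, rfl⟩
  have hV1 : 1 ≤ V := by rw [hV]; exact one_le_Vz_inv w
  obtain ⟨X3, hX3⟩ := eventually_atTop.1 ((evt_log_ge 2).and (evt_log_ge (16 * (2 * lam + 7 + u * V) ^ 2 / ε)))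
  refine ⟨max (max X1 X2) X3, fun X hX => ?_⟩
  have h1 := hX1 X (((le_max_left _ _).trans (le_max_left _ _)).trans hX)
  obtain ⟨Bad, hB1, hB2, h, hh, hD⟩ := hX2 X (((le_max_right _ _).trans (le_max_left _ _)).trans hX)
  obtain ⟨hL2, hLε⟩ := hX3 X ((le_max_right _ _).trans hX)
  obtain ⟨l, hl⟩ : ∃ l, l = Real.log X := ⟨_, rfl⟩
  rw [← hl] at h1 hB2 hL2 hLε ⊢
  have hl0 : 0 < l := by linarith
  have hl1 : 1 ≤ l := by linarith
  have hX0 : (0 : ℝ) ≤ X := Nat.cast_nonneg X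
  rw [← hu] at h1 ⊢
  -- the exceptional set
  have hbad : ∑ K ∈ Bad, (NL (lam * l) K - u * HP (K : ℤ) w) ^ 2 ≤ ε / 16 * X := by
    obtain ⟨m, hm⟩ : ∃ m : ℕ, m = ⌊lam * l⌋₊ + 2 := ⟨_, rfl⟩
    have hm1 : lam * l + 1 ≤ m := by
      rw [hm]; push_cast
      linarith [Nat.lt_floor_add_one (lam * l)]
    have hm2 : (m : ℝ) ≤ lam * l + 2 := by
      rw [hm]; push_cast
      linarith [Nat.floor_le (show 0 ≤ lam * l by positivity)]
    have a1 : ∀ K ∈ Bad, (NL (lam * l) K - u * HP (K : ℤ) w) ^ 2 ≤ ((2 * lam + 7 + u * V) * l) ^ 2 := by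
      intro K _
      have b1 := NL_triv (lam * l) K m (by omega) hm1
      have b2 := NL_nonneg (lam * l) K
      have b3 := HP_nonneg K w
      have b4 : HP (K : ℤ) w ≤ V := by rw [hV]; exact HP_le K w
      have b5 : NL (lam * l) K ≤ (2 * lam + 7) * l := by nlinarith
      have b6 : u * HP (K : ℤ) w ≤ u * V * l := by
        have c1 : u * HP (K : ℤ) w ≤ u * V := mul_le_mul_of_nonneg_left b4 hu0.le
        have c2 : u * V * 1 ≤ u * V * l := mul_le_mul_of_nonneg_left hl1 (by positivity)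
        linarith
      have b7 : 0 ≤ u * HP (K : ℤ) w := by positivity
      have b8 : 0 ≤ u * V * l := by positivity
      have b9 : 0 ≤ (2 * lam + 7) * l := by positivity
      apply sq_le_sq' <;> nlinarith
    refine (sum_le_sum a1).trans ?_
    rw [sum_const, nsmul_eq_mul]
    have a2 : (#Bad : ℝ) * ((2 * lam + 7 + u * V) * l) ^ 2 ≤ X / l ^ (U + 3) * ((2 * lam + 7 + u * V) * l) ^ 2 :=
      mul_le_mul_of_nonneg_right hB2 (by positivity)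
    refine a2.trans ?_
    have e1 : X / l ^ (U + 3) * ((2 * lam + 7 + u * V) * l) ^ 2 = X * ((2 * lam + 7 + u * V) ^ 2 / l) / l ^ U := by
      rw [pow_add]; field_simp
    rw [e1]
    have a3 : (2 * lam + 7 + u * V) ^ 2 / l ≤ ε / 16 := by
      rw [div_le_iff₀ hl0]
      rw [div_le_iff₀ hε] at hLε
      linarith
    have a4 : X * ((2 * lam + 7 + u * V) ^ 2 / l) / l ^ U ≤ X * ((2 * lam + 7 + u * V) ^ 2 / l) :=
      div_le_self (by positivity) (one_le_pow₀ hl1)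
    have a5 : X * ((2 * lam + 7 + u * V) ^ 2 / l) ≤ X * (ε / 16) := mul_le_mul_of_nonneg_left a3 hX0
    linarith
  have hBU : (#Bad : ℝ) ≤ X / l ^ U := by
    refine hB2.trans ?_
    apply div_le_div_of_nonneg_left hX0 (by positivity)
    exact pow_le_pow_right₀ hl1 (by omega)
  refine ⟨Bad, hB1, hBU, h, hh, ?_⟩
  have e1 : ∀ K : ℕ, NL (lam * l) K - u * h K = (NL (lam * l) K - u * HP (K : ℤ) w) + u * (HP (K : ℤ) w - h K) := fun K => by ring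
  simp_rw [e1]
  apply mink (Icc 1 X \ Bad) (fun K => NL (lam * l) K - u * HP (K : ℤ) w) (fun K => u * (HP (K : ℤ) w - h K)) τ (u * X) (ε / 8 * X)
    (u ^ 2 * ((36 / ((w : ℝ) - 1) + κ) * X)) (ε * X) hτ0 hτ1 (by positivity)
  · have a1 : ∑ K ∈ Icc 1 X \ Bad, (NL (lam * l) K - u * HP (K : ℤ) w) ^ 2 =
        ∑ K ∈ Icc 1 X, (NL (lam * l) K - u * HP (K : ℤ) w) ^ 2 - ∑ K ∈ Bad, (NL (lam * l) K - u * HP (K : ℤ) w) ^ 2 := by
      rw [← sum_sdiff hB1]; ring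
    rw [a1]
    have a2 : 0 ≤ ∑ K ∈ Bad, (NL (lam * l) K - u * HP (K : ℤ) w) ^ 2 := sum_nonneg fun _ _ => sq_nonneg _
    have a3 := abs_le.1 h1
    have a4 : 0 ≤ ε * X := by positivity
    rw [abs_le]
    constructor <;> linarith
  · have a1 : ∀ K : ℕ, (u * (HP (K : ℤ) w - h K)) ^ 2 = u ^ 2 * (HP (K : ℤ) w - h K) ^ 2 := fun K => by ring
    simp_rw [a1]
    rw [← mul_sum]
    exact mul_le_mul_of_nonneg_left hD (by positivity)
  · have := mul_le_mul_of_nonneg_right hτ2 hX0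
    linarith
  · have : 0 ≤ ε * X := by positivity
    linarith
  · have := mul_le_mul_of_nonneg_right hwκ hX0
    have e2 : (1 + 1 / τ) * (u ^ 2 * ((36 / ((w : ℝ) - 1) + κ) * X)) = u ^ 2 * (36 / ((w : ℝ) - 1) + κ) * (1 + 1 / τ) * X := by ring
    rw [e2]
    linarith

end Pool.Agent.X40.VAR
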