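import Pool.Agent.X40.VAR.V21

/-!
Positive proportions without primes, and with many primes.
-/

set_option autoImplicit false

namespace Pool.Agent.X40.VAR

open Finset Filter Topology
open Pool.Agent.H373R2.T7 (pz Vz lamz mem_pz Vz_inv_small)
open Pool.Agent.TH892.OW (pz_mono Vz_anti one_le_Vz_inv Vz_pos)
open Pool.Agent.TH892.SW (HP rk root_card prod_rk js_le HP_nonneg vn)
open Pool.Agent.X40.HLK (P1 P1_nonneg P1_le)

lemma Vz_small (ε : ℝ) (hε : 0 < ε) : ∃ w0 : ℕ, ∀ w : ℕ, w0 ≤ w → Vz w ≤ ε := by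
  obtain ⟨C, hC⟩ := Pool.Agent.Helper256.KM.mertens_inv
  have hlim : Tendsto (fun w : ℕ => Real.log (w : ℝ)) atTop atTop :=
    Real.tendsto_log_atTop.comp (tendsto_natCast_atTop_atTop (R := ℝ))
  obtain ⟨w1, hw1⟩ := eventually_atTop.1 (hlim.eventually_ge_atTop (max 1 (Real.exp C / ε)))
  refine ⟨max w1 3, fun w hw => ?_⟩
  have h3 : 3 ≤ w := (le_max_right _ _).trans hw
  have h1 := hw1 w ((le_max_left _ _).trans hw)
  have hl1 : 1 ≤ Real.log w := (le_max_left _ _).trans h1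
  have hl2 : Real.exp C / ε ≤ Real.log w := (le_max_right _ _).trans h1
  have hC' := (abs_le.1 (hC w h3)).1
  have hpz : (Icc 1 w).filter Nat.Prime = pz w := by
    ext p
    rw [mem_filter, mem_Icc, mem_pz]
    constructor
    · rintro ⟨⟨_, h⟩, hp⟩; exact ⟨h, hp⟩
    · rintro ⟨h, hp⟩; exact ⟨⟨hp.one_le, h⟩, hp⟩
  rw [hpz] at hC'
  have h2 : Vz w ≤ Real.exp (-∑ p ∈ pz w, (1 : ℝ) / p) := by
    unfold Vz
    rw [← sum_neg_distrib, Real.exp_sum]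
    apply Finset.prod_le_prod
    · intro p hp
      have hp2 : (2 : ℝ) ≤ p := by exact_mod_cast (mem_pz.1 hp).2.two_le
      rw [sub_nonneg, div_le_one (by linarith)]
      linarith
    · intro p _
      have := Real.add_one_le_exp (-(1 / (p : ℝ)))
      linarith
  refine h2.trans ?_
  have h4 : Real.exp (-∑ p ∈ pz w, (1 : ℝ) / p) ≤ Real.exp (C - Real.log (Real.log w)) := by
    rw [Real.exp_le_exp]; linarith
  refine h4.trans ?_
  rw [Real.exp_sub, Real.exp_log (by linarith), div_le_iff₀ (by linarith)]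
  rw [div_le_iff₀ hε] at hl2
  linarith

lemma HP_one_le (w : ℕ) (hw : 2 ≤ w) : HP 1 w ≤ 2 * Vz w := by
  have h2 : 2 ∈ pz w := mem_pz.2 ⟨hw, Nat.prime_two⟩
  rw [HP_gp, ← mul_prod_erase _ _ h2]
  unfold Vz
  rw [← mul_prod_erase (pz w) (fun p : ℕ => (1 - 1 / (p : ℝ))) h2]
  have e : gp 1 2 = 1 := by unfold gp; simp
  rw [e, one_mul]
  have e2 : (2 : ℝ) * ((1 - 1 / ((2 : ℕ) : ℝ)) * ∏ p ∈ (pz w).erase 2, (1 - 1 / (p : ℝ))) = ∏ p ∈ (pz w).erase 2, (1 - 1 / (p : ℝ)) := by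
    push_cast; ring
  rw [e2]
  apply Finset.prod_le_prod
  · intro p hp
    rw [mem_erase, mem_pz] at hp
    have hp3 : (3 : ℝ) ≤ p := by
      have := hp.2.2.two_le
      exact_mod_cast (by omega : 3 ≤ p)
    unfold gp
    rw [if_pos hp.1, jacobiSym.one_left]
    push_cast
    rw [sub_nonneg, div_le_one (by linarith)]
    linarith
  · intro p hp
    rw [mem_erase, mem_pz] at hp
    have hp3 : (3 : ℝ) ≤ p := by
      have := hp.2.2.two_le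
      exact_mod_cast (by omega : 3 ≤ p)
    unfold gp
    rw [if_pos hp.1, jacobiSym.one_left]
    push_cast
    have : 1 / (p : ℝ) ≤ 1 / ((p : ℝ) - 1) := one_div_le_one_div_of_le (by linarith) (by linarith)
    linarith

/-- there is a nonresidue -/
lemma exists_nonres (p : ℕ) (hp : p.Prime) (h2 : p ≠ 2) : ∃ n : ℕ, jacobiSym (n : ℤ) p = -1 := by
  by_contra hc
  push Not at hc
  have h0 : ∀ n ∈ range p, (0 : ℝ) ≤ (jacobiSym (n : ℤ) p : ℝ) := by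
    intro n _
    rcases jacobiSym.trichotomy (n : ℤ) p with h | h | h
    · rw [h]; norm_num
    · rw [h]; norm_num
    · exact absurd h (hc n)
  have h1 := (sum_eq_zero_iff_of_nonneg h0).1 (sum_jac p hp h2) 1 (mem_range.2 hp.one_lt)
  rw [Nat.cast_one, jacobiSym.one_left] at h1
  norm_num at h1

lemma HP_nonres (w : ℕ) (hw : 2 ≤ w) : ∃ K0 : ℕ, HP (K0 : ℤ) w = (Vz w)⁻¹ / 2 := by
  classical
  have hex : ∀ p : ℕ, ∃ n : ℕ, p ∈ pz w → p ≠ 2 → jacobiSym (n : ℤ) p = -1 := by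
    intro p
    by_cases h : p ∈ pz w ∧ p ≠ 2
    · obtain ⟨n, hn⟩ := exists_nonres p (mem_pz.1 h.1).2 h.2
      exact ⟨n, fun _ _ => hn⟩
    · exact ⟨0, fun h1 h2 => absurd ⟨h1, h2⟩ h⟩
  choose a ha using hex
  obtain ⟨K0, hK0⟩ := Nat.chineseRemainderOfFinset a (fun p => p) (pz w) (fun p hp => (mem_pz.1 hp).2.ne_zero)
    (fun p hp q hq hpq => (Nat.coprime_primes (mem_pz.1 (mem_coe.1 hp)).2 (mem_pz.1 (mem_coe.1 hq)).2).2 hpq)
  refine ⟨K0, ?_⟩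
  have h2 : 2 ∈ pz w := mem_pz.2 ⟨hw, Nat.prime_two⟩
  rw [HP_gp, ← mul_prod_erase _ _ h2]
  unfold Vz
  rw [← prod_inv_distrib, ← mul_prod_erase (pz w) (fun p : ℕ => (1 - 1 / (p : ℝ))⁻¹) h2]
  have e : gp (K0 : ℤ) 2 = 1 := by unfold gp; simp
  rw [e, one_mul]
  have e2 : (1 - 1 / ((2 : ℕ) : ℝ))⁻¹ = 2 := by norm_num
  rw [e2, mul_comm (2 : ℝ), mul_div_assoc, div_self two_ne_zero, mul_one]
  refine prod_congr rfl fun p hp => ?_
  rw [mem_erase] at hp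
  have hp3 : (3 : ℝ) ≤ p := by
    have h3 := (mem_pz.1 hp.2).2.two_le
    have h4 := hp.1
    exact_mod_cast (by omega : 3 ≤ p)
  have h5 : jacobiSym (K0 : ℤ) p = -1 := by
    have h6 : K0 % p = a p % p := hK0 p hp.2
    rw [← ha p hp.2 hp.1, jacobiSym.mod_left (K0 : ℤ) p, jacobiSym.mod_left (a p : ℤ) p]
    have h7 : ((K0 : ℤ) % (p : ℤ)) = ((a p : ℤ) % (p : ℤ)) := by exact_mod_cast h6
    rw [h7]
  unfold gp
  rw [if_pos hp.1, h5]
  push_cast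
  have h8 : (p : ℝ) - 1 ≠ 0 := by linarith
  have h9 : (p : ℝ) ≠ 0 := by linarith
  have h10 : 1 - 1 / (p : ℝ) = ((p : ℝ) - 1) / p := by field_simp
  rw [h10, inv_div]
  field_simp
  ring

/-- counting in a class -/
lemma CL_count (W : ℕ) (K0 : ℤ) (X : ℕ) (T : Finset ℕ) (hT : T ⊆ Icc 1 X) (F : ℕ → ℝ) (c : ℝ) (hF : ∀ K, 0 ≤ F K)
    (h : ∀ K ∈ Icc 1 X, K ∉ T → c ≤ F K) :
    c * (CL W K0 X (fun _ => 1) - #T) ≤ CL W K0 X F ∨ c < 0 := by
  classical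
  rcases lt_or_ge c 0 with hc | hc
  · right; exact hc
  left
  have h1 : c * CL W K0 X (fun _ => 1) ≤ CL W K0 X F + c * #T := by
    unfold CL
    have h2 : (#T : ℝ) = ∑ K ∈ Icc 1 X, (if K ∈ T then (1 : ℝ) else 0) := by
      rw [sum_boole]
      congr 2
      ext K
      rw [mem_filter]
      exact ⟨fun hK => ⟨hT hK, hK⟩, fun hK => hK.2⟩
    rw [h2, mul_sum, mul_sum, ← sum_add_distrib]
    refine sum_le_sum fun K hK => ?_
    by_cases hKT : K ∈ T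
    · rw [if_pos hKT]
      split_ifs
      · linarith [hF K]
      · linarith
    · rw [if_neg hKT]
      split_ifs
      · linarith [h K hK hKT]
      · linarith
  linarith

lemma NL_int (R : ℝ) (K : ℕ) : ∃ n : ℕ, NL R K = n := by
  classical
  unfold NL P1
  rw [sum_boole]
  exact ⟨_, rfl⟩

theorem none_pos (lam : ℝ) (hlam : 0 < lam) : ∃ c : ℝ, 0 < c ∧ ∃ X0 : ℕ, ∀ X : ℕ, X0 ≤ X →
    c * X ≤ #((Icc 1 X).filter (fun K => NL (lam * Real.log X) K = 0)) := by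
  obtain ⟨w0, hw0⟩ := Vz_small (1 / (64 * lam)) (by positivity)
  obtain ⟨w, hw⟩ : ∃ w, w = w0 + 2 := ⟨_, rfl⟩
  have hw2 : 2 ≤ w := by omega
  have hV := hw0 w (by omega)
  have hPW := PW_pos w
  obtain ⟨W, hW⟩ : ∃ W : ℝ, W = (PW w : ℝ) := ⟨_, rfl⟩
  have hW1 : 1 ≤ W := by rw [hW]; exact_mod_cast hPW
  have hH : 4 * lam * HP ((1 : ℕ) : ℤ) w ≤ 1 / 8 := by
    have h1 := HP_one_le w hw2
    have h2 : 4 * lam * HP ((1 : ℕ) : ℤ) w ≤ 4 * lam * (2 * (1 / (64 * lam))) := by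
      apply mul_le_mul_of_nonneg_left _ (by positivity)
      rw [Nat.cast_one]
      linarith
    have e : 4 * lam * (2 * (1 / (64 * lam))) = 1 / 8 := by field_simp; norm_num
    linarith
  obtain ⟨X1, hX1⟩ := CM w hw2 lam hlam (1 / (8 * W)) (by positivity)
  obtain ⟨X2, hX2⟩ := exists_nat_ge (4 * W)
  refine ⟨1 / (2 * W), by positivity, max X1 X2, fun X hX => ?_⟩
  obtain ⟨c1, -⟩ := hX1 X ((le_max_left _ _).trans hX) ((1 : ℕ) : ℤ)
  have hXW : 4 * W ≤ X := hX2.trans (by exact_mod_cast (le_max_right _ _).trans hX)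
  have hX0 : (0 : ℝ) ≤ X := Nat.cast_nonneg X
  rw [HW_eq, ← hW] at c1
  have c2 := CL_one (PW w) hPW 1 X
  rw [← hW] at c2
  have c3 := CL_count (PW w) ((1 : ℕ) : ℤ) X ((Icc 1 X).filter (fun K => NL (lam * Real.log X) K = 0)) (filter_subset _ _)
    (NL (lam * Real.log X)) 1 (fun K => NL_nonneg _ _) (by
      intro K hK hKT
      obtain ⟨n, hn⟩ := NL_int (lam * Real.log X) K
      rw [hn]
      have : n ≠ 0 := by
        intro h0
        apply hKT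
        rw [mem_filter]
        refine ⟨hK, ?_⟩
        rw [hn, h0]; norm_num
      exact_mod_cast Nat.one_le_iff_ne_zero.2 this)
  rcases c3 with c3 | c3
  swap
  · norm_num at c3
  rw [one_mul] at c3
  have c1' := (abs_le.1 c1).2
  have c2' := (abs_le.1 c2).1
  obtain ⟨Y, hY⟩ : ∃ Y, Y = (X : ℝ) / W := ⟨_, rfl⟩
  rw [← hY] at c1' c2'
  have hY4 : 4 ≤ Y := by rw [hY, le_div_iff₀ (by linarith)]; exact hXW
  have e1 : 1 / (8 * W) * X = Y / 8 := by rw [hY]; field_simp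
  have e2 : 1 / (2 * W) * X = Y / 2 := by rw [hY]; field_simp
  rw [e1] at c1'
  rw [e2]
  have e3 : Y * (4 * lam) * HP ((1 : ℕ) : ℤ) w ≤ Y * (1 / 8) := by
    rw [mul_assoc, mul_assoc, ← mul_assoc 4]
    exact mul_le_mul_of_nonneg_left hH (by linarith)
  obtain ⟨S0, hS0⟩ : ∃ S0, S0 = CL (PW w) ((1 : ℕ) : ℤ) X (fun _ => 1) := ⟨_, rfl⟩
  obtain ⟨S1, hS1⟩ : ∃ S1, S1 = CL (PW w) ((1 : ℕ) : ℤ) X (NL (lam * Real.log X)) := ⟨_, rfl⟩
  rw [← hS1, ← hS0] at c3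
  rw [← hS1] at c1'
  rw [← hS0] at c2'
  obtain ⟨q, hq⟩ : ∃ q, q = Y * (4 * lam) * HP ((1 : ℕ) : ℤ) w := ⟨_, rfl⟩
  rw [← hq] at c1' e3
  linarith

theorem many_pos (lam : ℝ) (hlam : 0 < lam) (k : ℕ) : ∃ c : ℝ, 0 < c ∧ ∃ X0 : ℕ, ∀ X : ℕ, X0 ≤ X →
    c * X ≤ #((Icc 1 X).filter (fun K => (k : ℝ) ≤ NL (lam * Real.log X) K)) := by
  classical
  obtain ⟨w0, hw0⟩ := Vz_small (2 * lam / (64 + 2 * k)) (by positivity)
  obtain ⟨w, hw⟩ : ∃ w, w = w0 + 64 := ⟨_, rfl⟩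
  have hw2 : 2 ≤ w := by omega
  have hw64 : (64 : ℝ) ≤ w := by rw [hw]; push_cast; linarith [(Nat.cast_nonneg w0 : (0 : ℝ) ≤ w0)]
  have hV := hw0 w (by omega)
  have hVp := Vz_pos w
  have hPW := PW_pos w
  obtain ⟨W, hW⟩ : ∃ W : ℝ, W = (PW w : ℝ) := ⟨_, rfl⟩
  have hW1 : 1 ≤ W := by rw [hW]; exact_mod_cast hPW
  obtain ⟨K0, hK0⟩ := HP_nonres w hw2
  obtain ⟨μ, hμ⟩ : ∃ μ, μ = 4 * lam * HP (K0 : ℤ) w := ⟨_, rfl⟩
  have hμ1 : 64 + 2 * (k : ℝ) ≤ μ := by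
    rw [hμ, hK0]
    rw [le_div_iff₀ (by positivity)] at hV
    have e : 4 * lam * ((Vz w)⁻¹ / 2) = 2 * lam / Vz w := by field_simp; ring
    rw [e, le_div_iff₀ hVp]
    linarith
  have hk0 : (0 : ℝ) ≤ k := Nat.cast_nonneg k
  have hμ64 : 64 ≤ μ := by linarith
  obtain ⟨e, he⟩ : ∃ e, e = 1 / (W * (1 + 2 * μ)) := ⟨_, rfl⟩
  have he0 : 0 < e := by rw [he]; positivity
  obtain ⟨X1, hX1⟩ := CM w hw2 lam hlam e he0
  obtain ⟨X2, hX2⟩ := exists_nat_ge (64 * W)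
  refine ⟨1 / (2 * W), by positivity, max X1 X2, fun X hX => ?_⟩
  obtain ⟨c1, c1'⟩ := hX1 X ((le_max_left _ _).trans hX) (K0 : ℤ)
  have hXW : 64 * W ≤ X := hX2.trans (by exact_mod_cast (le_max_right _ _).trans hX)
  have hX0 : (0 : ℝ) ≤ X := Nat.cast_nonneg X
  rw [HW_eq, ← hW] at c1 c1'
  have c2 := CL_one (PW w) hPW K0 X
  rw [← hW] at c2
  obtain ⟨Y, hY⟩ : ∃ Y, Y = (X : ℝ) / W := ⟨_, rfl⟩
  rw [← hY] at c1 c1' c2
  have hY64 : 64 ≤ Y := by rw [hY, le_div_iff₀ (by linarith)]; exact hXW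
  have c4 := class_sq w X K0 (NL (lam * Real.log X)) (4 * lam)
  rw [← hμ] at c4
  have c3 := CL_count (PW w) (K0 : ℤ) X ((Icc 1 X).filter (fun K => (k : ℝ) ≤ NL (lam * Real.log X) K)) (filter_subset _ _)
    (fun K => if (PW w : ℤ) ∣ (K : ℤ) - K0 then (NL (lam * Real.log X) K - 4 * lam * HP (K : ℤ) w) ^ 2 else μ ^ 2 / 4) (μ ^ 2 / 4)
    (fun K => by
      split_ifs
      · exact sq_nonneg _
      · positivity) (by
      intro K hK hKT
      split_ifs with hd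
      · rw [HP_congr w (K : ℤ) (K0 : ℤ) hd, ← hμ]
        have h1 : NL (lam * Real.log X) K < k := by
          by_contra hc
          push Not at hc
          exact hKT (mem_filter.2 ⟨hK, hc⟩)
        have h2 := NL_nonneg (lam * Real.log X) K
        nlinarith
      · exact le_rfl)
  rcases c3 with c3 | c3
  swap
  · exfalso
    have : 0 ≤ μ ^ 2 / 4 := by positivity
    linarith
  have c5 : CL (PW w) (K0 : ℤ) X (fun K => if (PW w : ℤ) ∣ (K : ℤ) - K0 then (NL (lam * Real.log X) K - 4 * lam * HP (K : ℤ) w) ^ 2 else μ ^ 2 / 4) =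
      CL (PW w) (K0 : ℤ) X (fun K => (NL (lam * Real.log X) K - 4 * lam * HP (K : ℤ) w) ^ 2) := by
    unfold CL
    refine sum_congr rfl fun K _ => ?_
    by_cases hd : (PW w : ℤ) ∣ (K : ℤ) - K0
    · simp only [if_pos hd]
    · simp only [if_neg hd]
  rw [c5, c4] at c3
  obtain ⟨h, hh⟩ : ∃ h, h = HP (K0 : ℤ) w := ⟨_, rfl⟩
  rw [← hh] at hμ c1 c1'
  obtain ⟨S1, hS1⟩ : ∃ S1, S1 = CL (PW w) (K0 : ℤ) X (NL (lam * Real.log X)) := ⟨_, rfl⟩
  obtain ⟨S2, hS2⟩ : ∃ S2, S2 = CL (PW w) (K0 : ℤ) X (fun K => NL (lam * Real.log X) K ^ 2) := ⟨_, rfl⟩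
  obtain ⟨S0, hS0⟩ : ∃ S0, S0 = CL (PW w) (K0 : ℤ) X (fun _ => 1) := ⟨_, rfl⟩
  rw [← hS1] at c1 c3
  rw [← hS2] at c1' c3
  rw [← hS0] at c2 c3
  have d1 := (abs_le.1 c1).1
  have d2 := (abs_le.1 c1').2
  have d3 := abs_le.1 c2
  have e1 : Y * (4 * lam) * h = Y * μ := by rw [hμ]; ring
  have e2 : Y * (4 * lam * h + (4 * lam) ^ 2 * h ^ 2) = Y * (μ + μ ^ 2) := by rw [hμ]; ring
  have e3 : Y * ((4 * lam) ^ 2 * h ^ 2) = Y * μ ^ 2 := by rw [hμ]; ring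
  rw [e1] at d1
  rw [e2, e3] at d2
  have e4 : e * X = Y / (1 + 2 * μ) := by rw [he, hY]; field_simp
  rw [e4] at d1 d2
  have e5 : 2 / w * (Y * μ ^ 2) ≤ 1 / 32 * (Y * μ ^ 2) := by
    apply mul_le_mul_of_nonneg_right _ (by positivity)
    rw [div_le_div_iff₀ (by linarith) (by norm_num)]
    linarith
  obtain ⟨q, hq⟩ : ∃ q, q = Y / (1 + 2 * μ) := ⟨_, rfl⟩
  rw [← hq] at d1 d2
  have hqY : q + 2 * μ * q = Y := by rw [hq]; field_simp
  have hq0 : 0 ≤ q := by rw [hq]; positivity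
  have d4 : S2 - 2 * μ * S1 + μ ^ 2 * S0 ≤ Y * μ + 1 / 32 * (Y * μ ^ 2) + Y + μ ^ 2 := by
    have a1 : 2 * μ * (Y * μ - q) ≤ 2 * μ * S1 := mul_le_mul_of_nonneg_left (by linarith) (by positivity)
    have a2 : μ ^ 2 * S0 ≤ μ ^ 2 * (Y + 1) := mul_le_mul_of_nonneg_left (by linarith) (by positivity)
    nlinarith
  have d5 : Y * μ ≤ 1 / 64 * (Y * μ ^ 2) := by nlinarith [mul_nonneg (show 0 ≤ Y by linarith) (show 0 ≤ μ by linarith)]
  have d6 : Y ≤ 1 / 4096 * (Y * μ ^ 2) := by nlinarith [mul_nonneg (show 0 ≤ Y by linarith) (show 0 ≤ μ by linarith)]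
  have d7 : μ ^ 2 ≤ 1 / 64 * (Y * μ ^ 2) := by nlinarith [sq_nonneg μ]
  have d8 : μ ^ 2 / 4 * (S0 - #((Icc 1 X).filter (fun K => (k : ℝ) ≤ NL (lam * Real.log X) K))) ≤ μ ^ 2 / 4 * (Y * (5 / 16)) := by
    refine c3.trans ?_
    linarith
  have hμ2 : 0 < μ ^ 2 / 4 := by positivity
  have d9 := le_of_mul_le_mul_left d8 hμ2
  have e6 : 1 / (2 * W) * X = Y / 2 := by rw [hY]; field_simp
  rw [e6]
  linarith

end Pool.Agent.X40.VAR
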