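import Pool.Agent.X40.HLK.E6

/-!
Pair sums over the cells `[s², s² + 2 s]` with `K` in a residue class.
-/

set_option autoImplicit false

namespace Pool.Agent.X40.VAR

open Finset
open Pool.Agent.W110.HV (ES)
open Pool.Agent.X40.HLK (pairs)

/-- the integers with integer part of the square root `s` -/
noncomputable def cel (s : ℕ) : Finset ℤ := Icc ((s : ℤ) ^ 2) ((s : ℤ) ^ 2 + 2 * s)

/-- the cell in a residue class -/
noncomputable def celW (W : ℕ) (K0 : ℤ) (s : ℕ) : Finset ℤ := (cel s).filter (fun K => (W : ℤ) ∣ K - K0)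

noncomputable def QT (W : ℕ) (K0 : ℤ) (A S : ℕ) (φ ψ : ℤ → ℝ) (i j : ℤ) : ℝ :=
  ∑ s ∈ Ico A S, ∑ K ∈ celW W K0 s, φ (((s : ℤ) + i) ^ 2 - K) * ψ (((s : ℤ) + j) ^ 2 - K)

lemma QT_comm (W : ℕ) (K0 : ℤ) (A S : ℕ) (φ ψ : ℤ → ℝ) (i j : ℤ) : QT W K0 A S φ ψ i j = QT W K0 A S ψ φ j i := by
  unfold QT
  exact sum_congr rfl fun s _ => sum_congr rfl fun K _ => mul_comm _ _

theorem QT_pairs (W : ℕ) (hW : 1 ≤ W) (K0 : ℤ) (A S m : ℕ) (hm : m < A) (φ ψ : ℤ → ℝ) (Z G : ℝ) (hZ : 0 ≤ Z) (hG : 0 ≤ G)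
    (hφ : ∀ v, |φ v| ≤ G) (hψ : ∀ v, |ψ v| ≤ G) (Y q : ℕ) (hq : 1 ≤ q) (hqY : q ≤ Y) (hY : 2 * S * (m + 1) + m ^ 2 ≤ Y)
    (hsup : ∀ α : ℝ, ‖ES (-(Y : ℤ)) Y (fun n => (ψ n : ℂ)) α‖ ≤ Z)
    (i j : ℤ) (hi : |i| ≤ m) (hj : |j| ≤ m) (hij : i ≠ j) :
    |QT W K0 A S φ ψ i j| ≤ W * (8 * Y * √(Y / q) * (1 + Real.log (2 * Y)) ^ 2 * Z * G + 2 * q * G ^ 2 * S) := by
  classical
  have hW0 : (0 : ℤ) < W := by exact_mod_cast hW
  have hi' := abs_le.1 hi
  have hj' := abs_le.1 hj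
  obtain ⟨I, hI⟩ : ∃ I : ℕ → ℝ, I = fun s => ∑ K ∈ celW W K0 s, φ (((s : ℤ) + i) ^ 2 - K) * ψ (((s : ℤ) + j) ^ 2 - K) := ⟨_, rfl⟩
  have h0 : |QT W K0 A S φ ψ i j| ≤ ∑ s ∈ Ico A S, |I s| := by
    unfold QT
    rw [hI]
    exact abs_sum_le_sum_abs _ _
  refine h0.trans ?_
  obtain ⟨gg, hgg⟩ : ∃ gg : ℕ → ℕ, gg = fun s : ℕ => (((s : ℤ) + i) % W).toNat := ⟨_, rfl⟩
  have hmaps : ∀ s ∈ Ico A S, gg s ∈ range W := by
    intro s _
    rw [hgg, mem_range]
    have h1 := Int.emod_lt_of_pos ((s : ℤ) + i) hW0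
    have h2 := Int.emod_nonneg ((s : ℤ) + i) hW0.ne'
    simp only
    omega
  rw [← sum_fiberwise_of_maps_to hmaps]
  have hone : ∀ ν ∈ range W, ∑ s ∈ (Ico A S).filter (fun s => gg s = ν), |I s| ≤
      8 * Y * √(Y / q) * (1 + Real.log (2 * Y)) ^ 2 * Z * G + 2 * q * G ^ 2 * S := by
    intro ν _
    set T := (Ico A S).filter (fun s => gg s = ν) with hT
    have hTA : ∀ s ∈ T, A ≤ s ∧ s < S ∧ ((W : ℤ) ∣ (s : ℤ) + i - ν) := by
      intro s hs
      rw [hT, mem_filter, mem_Ico] at hs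
      refine ⟨hs.1.1, hs.1.2, ?_⟩
      have h2 := Int.emod_nonneg ((s : ℤ) + i) hW0.ne'
      have h3 : ((s : ℤ) + i) % W = ν := by
        have := hs.2
        rw [hgg] at this
        simp only at this
        omega
      rw [← h3]
      exact Int.dvd_self_sub_emod
    obtain ⟨e, he⟩ : ∃ e : ℕ → ℕ × ℕ, e = fun s : ℕ => (((s : ℤ) + i).toNat, ((s : ℤ) + j).toNat) := ⟨_, rfl⟩
    have he1 : ∀ s ∈ T, (((e s).1 : ℕ) : ℤ) = s + i ∧ (((e s).2 : ℕ) : ℤ) = s + j := by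
      intro s hs
      have := hTA s hs
      rw [he]
      simp only
      constructor <;> omega
    have hinj : Set.InjOn e T := by
      intro s hs s' hs' h
      have h1 := (he1 s hs).1
      have h2 := (he1 s' hs').1
      rw [h] at h1
      have : (s : ℤ) = s' := by linarith
      exact_mod_cast this
    obtain ⟨φν, hφν⟩ : ∃ φν : ℤ → ℝ, φν = fun v => if (W : ℤ) ∣ v - ((ν : ℤ) ^ 2 - K0) then φ v else 0 := ⟨_, rfl⟩
    have hφν1 : ∀ v, |φν v| ≤ G := by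
      intro v
      rw [hφν]
      simp only
      split_ifs
      · exact hφ v
      · rw [abs_zero]; exact hG
    have hbd : ∀ s ∈ T, ∀ v, ((s : ℤ) + i) ^ 2 - ((s : ℤ) ^ 2 + 2 * s) ≤ v → v ≤ ((s : ℤ) + i) ^ 2 - (s : ℤ) ^ 2 →
        -(Y : ℤ) ≤ v ∧ v ≤ Y ∧ -(Y : ℤ) ≤ v + (((s : ℤ) + j) ^ 2 - ((s : ℤ) + i) ^ 2) ∧
          v + (((s : ℤ) + j) ^ 2 - ((s : ℤ) + i) ^ 2) ≤ Y := by
      intro s hs v h1 h2
      have h3 := hTA s hs
      have hsS : (s : ℤ) ≤ S := by exact_mod_cast h3.2.1.le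
      have hs0 : (0 : ℤ) ≤ s := Int.natCast_nonneg s
      have hYz : (2 * S * (m + 1) + m ^ 2 : ℤ) ≤ Y := by exact_mod_cast hY
      have hm0 : (0 : ℤ) ≤ m := Int.natCast_nonneg m
      have k1 : |2 * (s : ℤ) * i| ≤ 2 * s * m := by
        rw [abs_mul, abs_of_nonneg (by positivity : (0 : ℤ) ≤ 2 * s)]
        exact mul_le_mul_of_nonneg_left hi (by positivity)
      have k2 : |2 * (s : ℤ) * j| ≤ 2 * s * m := by
        rw [abs_mul, abs_of_nonneg (by positivity : (0 : ℤ) ≤ 2 * s)]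
        exact mul_le_mul_of_nonneg_left hj (by positivity)
      have k3 : i ^ 2 ≤ (m : ℤ) ^ 2 := by rw [sq_le_sq, Nat.abs_cast]; exact hi
      have k4 : j ^ 2 ≤ (m : ℤ) ^ 2 := by rw [sq_le_sq, Nat.abs_cast]; exact hj
      have k5 : 2 * (s : ℤ) * m ≤ 2 * S * m := by
        apply mul_le_mul_of_nonneg_right _ hm0
        linarith
      have k1' := abs_le.1 k1
      have k2' := abs_le.1 k2
      have k6 : 0 ≤ i ^ 2 := sq_nonneg _
      have k7 : 0 ≤ j ^ 2 := sq_nonneg _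
      have k8 : 0 ≤ (m : ℤ) ^ 2 := sq_nonneg _
      refine ⟨?_, ?_, ?_, ?_⟩ <;> nlinarith [k1'.1, k1'.2, k2'.1, k2'.2]
    have key := pairs (S + m) Y q hq hqY φν ψ Z G hZ hG hφν1 hψ hsup (T.image e)
      (by
        intro p hp
        rw [mem_image] at hp
        obtain ⟨s, hs, rfl⟩ := hp
        have h1 := hTA s hs
        have h2 := he1 s hs
        rw [mem_product, mem_Icc, mem_Icc]
        omega)
      (by
        intro p hp
        rw [mem_image] at hp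
        obtain ⟨s, hs, rfl⟩ := hp
        have h2 := he1 s hs
        intro hc
        have : (((e s).1 : ℕ) : ℤ) = (((e s).2 : ℕ) : ℤ) := by rw [hc]
        rw [h2.1, h2.2] at this
        exact hij (by linarith))
      (fun p => (p.1 : ℤ) ^ 2 - (((p.1 : ℤ) - i) ^ 2 + 2 * ((p.1 : ℤ) - i))) (fun p => (p.1 : ℤ) ^ 2 - ((p.1 : ℤ) - i) ^ 2)
      (by
        intro p hp v h3 h4
        rw [mem_image] at hp
        obtain ⟨s, hs, rfl⟩ := hp
        have h2 := he1 s hs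
        rw [h2.1] at h3 h4
        rw [h2.1, h2.2]
        have e1 : (s : ℤ) + i - i = s := by ring
        rw [e1] at h3 h4
        exact hbd s hs v h3 h4)
    have hcard : ((#(T.image e) : ℕ) : ℝ) ≤ S := by
      have h1 : #(T.image e) ≤ S := by
        refine card_image_le.trans ?_
        rw [hT]
        refine (card_filter_le _ _).trans ?_
        rw [Nat.card_Ico]
        omega
      exact_mod_cast h1
    have hsum : ∑ s ∈ T, |I s| = ∑ p ∈ T.image e, |∑ v ∈ Icc ((p.1 : ℤ) ^ 2 - (((p.1 : ℤ) - i) ^ 2 + 2 * ((p.1 : ℤ) - i)))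
        ((p.1 : ℤ) ^ 2 - ((p.1 : ℤ) - i) ^ 2), φν v * ψ (v + ((p.2 : ℤ) ^ 2 - (p.1 : ℤ) ^ 2))| := by
      rw [sum_image hinj]
      refine sum_congr rfl fun s hs => ?_
      congr 1
      have h2 := he1 s hs
      have h3 := hTA s hs
      rw [h2.1, h2.2, hI]
      have e1 : (s : ℤ) + i - i = s := by ring
      rw [e1]
      simp only
      unfold celW cel
      rw [sum_filter]
      refine sum_nbij' (fun K => ((s : ℤ) + i) ^ 2 - K) (fun v => ((s : ℤ) + i) ^ 2 - v) ?_ ?_ ?_ ?_ ?_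
      · intro K hK; rw [mem_Icc] at hK ⊢; constructor <;> linarith [hK.1, hK.2]
      · intro v hv; rw [mem_Icc] at hv ⊢; constructor <;> linarith [hv.1, hv.2]
      · intro K _; ring
      · intro v _; ring
      · intro K _
        rw [hφν]
        simp only
        have hiff : ((W : ℤ) ∣ K - K0) ↔ ((W : ℤ) ∣ ((s : ℤ) + i) ^ 2 - K - ((ν : ℤ) ^ 2 - K0)) := by
          have e2 : ((s : ℤ) + i) ^ 2 - K - ((ν : ℤ) ^ 2 - K0) = ((s : ℤ) + i - ν) * ((s : ℤ) + i + ν) - (K - K0) := by ring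
          rw [e2]
          have h4 : (W : ℤ) ∣ ((s : ℤ) + i - ν) * ((s : ℤ) + i + ν) := h3.2.2.mul_right _
          constructor
          · intro h5; exact dvd_sub h4 h5
          · intro h5
            have := dvd_sub h4 h5
            rwa [sub_sub_cancel] at this
        have e3 : ((s : ℤ) + i) ^ 2 - K + (((s : ℤ) + j) ^ 2 - ((s : ℤ) + i) ^ 2) = ((s : ℤ) + j) ^ 2 - K := by ring
        rw [e3]
        by_cases hd : (W : ℤ) ∣ K - K0
        · rw [if_pos hd, if_pos (hiff.1 hd)]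
        · rw [if_neg hd, if_neg (fun h => hd (hiff.2 h)), zero_mul]
    rw [hsum]
    refine key.trans ?_
    have : 2 * (q : ℝ) * G ^ 2 * #(T.image e) ≤ 2 * q * G ^ 2 * S := mul_le_mul_of_nonneg_left hcard (by positivity)
    linarith
  refine (sum_le_sum hone).trans (le_of_eq ?_)
  rw [sum_const, card_range, nsmul_eq_mul]

end Pool.Agent.X40.VAR
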