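import Pool.Agent.X40.VAR.V9

/-!
The second factorial moment in a residue class: the theorem.
-/

set_option autoImplicit false

namespace Pool.Agent.X40.VAR

open Finset Filter
open Pool.Agent.H373R2.T7 (pz Vz lamz mem_pz Vz_inv_small)
open Pool.Agent.TH892.OW (fac_pos fac_inv prod_fac_le pz_mono Vz_pos Vz_anti evt_ll Vz_log one_le_Vz_inv)
open Pool.Agent.H442R2.EHI (evt_log_pow evt_log_ge)
open Pool.Agent.TH892.SW (wt wt_nonneg wt_anti)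
open Pool.Agent.X40.HLK (P1 Mz Mz_nonneg)

/-- bounds of the small terms -/
lemma small_R1 (X W Vw rr m L Vm δ Cv C0 l : ℝ) (hX : 0 ≤ X) (hW : 1 ≤ W) (hVw : 1 ≤ Vw) (hrr : 0 ≤ rr) (hrrW : rr ≤ W)
    (hm0 : 0 ≤ m) (hm : m ≤ C0 * L) (hL : 1 ≤ L) (hδ : 0 < δ) (hCv : 1 ≤ Cv) (hC0 : 1 ≤ C0) (hVm0 : 0 ≤ Vm)
    (hVm : Vm ≤ Cv * (2 * l) ^ 2) (hl : 1 ≤ l) (hc : 64 * Vw ^ 2 * C0 * Cv / δ * l ^ 4 ≤ L) :
    4 / L ^ 2 * (X / W ^ 2 * Vw ^ 2) * (4 * m * rr ^ 2 * Vm) ≤ δ * X := by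
  have hL0 : 0 < L := by linarith
  have h1 : rr ^ 2 / W ^ 2 ≤ 1 := by
    rw [div_le_one (by positivity)]
    exact pow_le_pow_left₀ hrr hrrW 2
  have h2 : 64 * Vw ^ 2 * C0 * Cv * l ^ 4 ≤ δ * L := by
    have : 64 * Vw ^ 2 * C0 * Cv / δ * l ^ 4 = (64 * Vw ^ 2 * C0 * Cv * l ^ 4) / δ := by ring
    rw [this, div_le_iff₀ hδ] at hc
    linarith
  have h3 : l ^ 2 ≤ l ^ 4 := pow_le_pow_right₀ hl (by norm_num)
  calc 4 / L ^ 2 * (X / W ^ 2 * Vw ^ 2) * (4 * m * rr ^ 2 * Vm) = (rr ^ 2 / W ^ 2) * (16 * X * Vw ^ 2 / L ^ 2 * (m * Vm)) := by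
        field_simp; ring
    _ ≤ 1 * (16 * X * Vw ^ 2 / L ^ 2 * (m * Vm)) := mul_le_mul_of_nonneg_right h1 (by positivity)
    _ ≤ 1 * (16 * X * Vw ^ 2 / L ^ 2 * ((C0 * L) * (Cv * (2 * l) ^ 2))) := by gcongr
    _ = X / L * (64 * Vw ^ 2 * C0 * Cv * l ^ 2) := by field_simp; ring
    _ ≤ X / L * (64 * Vw ^ 2 * C0 * Cv * l ^ 4) := by gcongr
    _ ≤ X / L * (δ * L) := mul_le_mul_of_nonneg_left h2 (by positivity)
    _ = δ * X := by field_simp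

lemma small_R2 (X W Vw rr m L δ C0 : ℝ) (hX : 0 ≤ X) (hW : 1 ≤ W) (hVw : 1 ≤ Vw) (hrr : 0 ≤ rr) (hrrW : rr ≤ W)
    (hm0 : 0 ≤ m) (hm : m ≤ C0 * L) (hL : 1 ≤ L) (hδ : 0 < δ) (hC0 : 1 ≤ C0) (hc : 8 * Vw ^ 2 * C0 / δ ≤ L) :
    4 / L ^ 2 * (X / W ^ 2 * Vw ^ 2) * (2 * m * rr) ≤ δ * X := by
  have hL0 : 0 < L := by linarith
  have h1 : rr / W ^ 2 ≤ 1 := by
    rw [div_le_one (by positivity)]
    nlinarith
  rw [div_le_iff₀ hδ] at hc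
  calc 4 / L ^ 2 * (X / W ^ 2 * Vw ^ 2) * (2 * m * rr) = (rr / W ^ 2) * (8 * X * Vw ^ 2 / L ^ 2 * m) := by
        field_simp; ring
    _ ≤ 1 * (8 * X * Vw ^ 2 / L ^ 2 * m) := mul_le_mul_of_nonneg_right h1 (by positivity)
    _ ≤ 1 * (8 * X * Vw ^ 2 / L ^ 2 * (C0 * L)) := by gcongr
    _ = X / L * (8 * Vw ^ 2 * C0) := by field_simp
    _ ≤ X / L * (L * δ) := mul_le_mul_of_nonneg_left hc (by positivity)
    _ = δ * X := by field_simp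

lemma small_e2 (X S Y W Vz m L Z δ C0 : ℝ) (n : ℕ) (hX : 0 ≤ X) (hSX : S ≤ √X) (hS1 : 1 ≤ S) (hY : Y ≤ S * L ^ 2) (hY0 : 0 ≤ Y) (hW : 0 ≤ W)
    (hWL : W ≤ L) (hVz0 : 0 ≤ Vz) (hVz : Vz ≤ L) (hm0 : 0 ≤ m) (hm : m ≤ C0 * L) (hL : 3 ≤ L) (hZ0 : 0 ≤ Z) (hZ : Z ≤ L ^ n) (hδ : 0 < δ)
    (hC0 : 1 ≤ C0) (hc : 320 * C0 ^ 2 / δ ≤ L) (hM : L ^ (n + 7) ≤ √X) :
    4 / L ^ 2 * (4 * m ^ 2 * (W * (20 * (S + Y + 1) * Vz ^ 2 * Z))) ≤ δ * X := by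
  have hL0 : 0 < L := by linarith
  rw [div_le_iff₀ hδ] at hc
  have h1 : S + Y + 1 ≤ √X * L ^ 3 := by
    have h2 : S + Y + 1 ≤ S * L ^ 3 := by
      have : S * L ^ 2 * 3 ≤ S * L ^ 2 * L := mul_le_mul_of_nonneg_left hL (by positivity)
      nlinarith
    exact h2.trans (mul_le_mul_of_nonneg_right hSX (by positivity))
  calc 4 / L ^ 2 * (4 * m ^ 2 * (W * (20 * (S + Y + 1) * Vz ^ 2 * Z))) ≤
        4 / L ^ 2 * (4 * (C0 * L) ^ 2 * (L * (20 * (√X * L ^ 3) * L ^ 2 * L ^ n))) := by gcongr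
    _ = (320 * C0 ^ 2) * (L ^ (n + 6) * √X) := by
        rw [pow_add]; field_simp; ring
    _ ≤ (L * δ) * (L ^ (n + 6) * √X) := mul_le_mul_of_nonneg_right hc (by positivity)
    _ = δ * (L ^ (n + 7) * √X) := by rw [pow_succ L (n + 6)]; ring
    _ ≤ δ * (√X * √X) := by gcongr
    _ = δ * X := by rw [Real.mul_self_sqrt hX]

theorem G2 (w : ℕ) (hw : 2 ≤ w) (c0 C0 : ℝ) (hc0 : 0 < c0) (hC0 : 1 ≤ C0) (ε : ℝ) (hε : 0 < ε) : ∃ X0 : ℕ, ∀ X : ℕ, X0 ≤ X →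
    ∀ m : ℕ, c0 * Real.log X ≤ m → (m : ℝ) ≤ C0 * Real.log X → ∀ K0 : ℤ,
      |SS2 w K0 (AA X) (Nat.sqrt X) m - (X : ℝ) / PW w * (4 * m / Real.log X) ^ 2 * HW w K0 ^ 2| ≤
        2 / w * ((X : ℝ) / PW w * (4 * m / Real.log X) ^ 2 * HW w K0 ^ 2) + ε * X := by
  obtain ⟨C1, y0, hC1, hy0, hQQ⟩ := QQ_sum
  obtain ⟨Cv, hCv, hVlog⟩ := Vz_log
  obtain ⟨Vw, hVw⟩ : ∃ Vw, Vw = (Vz w)⁻¹ := ⟨_, rfl⟩
  have hVw1 : 1 ≤ Vw := by rw [hVw]; exact one_le_Vz_inv w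
  obtain ⟨C5, hC5⟩ : ∃ C5 : ℝ, C5 = 16 * C0 ^ 2 * Vw ^ 2 := ⟨_, rfl⟩
  have hC50 : 0 ≤ C5 := by rw [hC5]; positivity
  obtain ⟨δ, hδd⟩ : ∃ δ, δ = min (1 / 10) (ε / (8 * C5 + 10)) := ⟨_, rfl⟩
  have hδ : 0 < δ := by rw [hδd]; positivity
  have hδ1 : δ ≤ 1 / 10 := by rw [hδd]; exact min_le_left _ _
  have hδε : δ * (8 * C5 + 10) ≤ ε := by
    have : δ ≤ ε / (8 * C5 + 10) := by rw [hδd]; exact min_le_right _ _
    rwa [le_div_iff₀ (by positivity)] at this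
  obtain ⟨b0, hb0⟩ := exists_pow_lt_of_lt_one (show 0 < δ / 3 by positivity) (show (1 / 2 : ℝ) < 1 by norm_num)
  obtain ⟨b, hb⟩ : ∃ b, b = max C1 b0 := ⟨_, rfl⟩
  have hbq : 3 * (1 / 2 : ℝ) ^ b ≤ δ := by
    have h1 : (1 / 2 : ℝ) ^ b ≤ (1 / 2 : ℝ) ^ b0 := by
      apply pow_le_pow_of_le_one (by norm_num) (by norm_num)
      rw [hb]; exact le_max_right _ _
    linarith
  obtain ⟨E, hE1, hA⟩ := partA (PW w) (PW_pos w) C0 hC0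
  obtain ⟨X1, hX1⟩ := hA E le_rfl
  obtain ⟨X2, hX2⟩ := Vz_inv_small E
  obtain ⟨c, hcd⟩ : ∃ c : ℝ, c = 64 * Vw ^ 2 * C0 * Cv / δ + 8 * Vw ^ 2 * C0 / δ + 320 * C0 ^ 2 / δ + 1 / (c0 * δ) + w + y0 + 1 + PW w + 3 := ⟨_, rfl⟩
  have hparts : 0 < 64 * Vw ^ 2 * C0 * Cv / δ ∧ 0 < 8 * Vw ^ 2 * C0 / δ ∧ 0 < 320 * C0 ^ 2 / δ ∧ 0 < 1 / (c0 * δ) := by
    refine ⟨by positivity, by positivity, by positivity, by positivity⟩
  obtain ⟨hp1, hp2, hp3, hp4⟩ := hparts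
  have hc : 0 < c := by rw [hcd]; positivity
  obtain ⟨X3, hX3⟩ := eventually_atTop.1 (evt_G C0 δ c hc (E * (C1 * b) + 7))
  refine ⟨max (max X1 X2) X3, fun X hX m hm1 hm2 K0 => ?_⟩
  have hpA := hX1 X (((le_max_left _ _).trans (le_max_left _ _)).trans hX)
  have hVs := hX2 X (((le_max_right _ _).trans (le_max_left _ _)).trans hX)
  obtain ⟨hL, hll, hLδ, hL12, hLC, hLM, hll4, hLc⟩ := hX3 X ((le_max_right _ _).trans hX)
  obtain ⟨a1, a2, a3, a4, a5, a6, a7, a8⟩ := A_facts X δ C0 hδ hδ1 hC0 hL hll hLδ hL12 m hm2 hLC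
  obtain ⟨f1, f2, f3, f4, -, f6, f7⟩ := Pool.Agent.TH892.OW.S_facts X hL
  obtain ⟨z, hz⟩ : ∃ z, z = ⌊Real.log X ^ E⌋₊ := ⟨_, rfl⟩
  rw [← hz] at hpA
  obtain ⟨A, hAd⟩ : ∃ A, A = AA X := ⟨_, rfl⟩
  obtain ⟨S, hSd⟩ : ∃ S, S = Nat.sqrt X := ⟨_, rfl⟩
  rw [← hSd] at hpA a3 a4 a6 a7 a8 f2 f3 f4 f6 f7 ⊢
  rw [← hAd] at a1 a2 a3 a5 a7 a8 ⊢
  have hpA' := hpA m A hm2 a1 K0
  clear hpA
  obtain ⟨L, hLd⟩ : ∃ L, L = Real.log X := ⟨_, rfl⟩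
  rw [← hLd] at hL hll hLδ hL12 hLC hLM hll4 hLc hm1 hm2 a4 a5 a6 hz hVs hpA' ⊢
  obtain ⟨Y, hY⟩ : ∃ Y : ℕ, Y = 2 * S * (m + 1) + m ^ 2 := ⟨_, rfl⟩
  rw [← hY] at a4 a6
  have hL0 : 0 < L := by linarith
  have hL1 : 1 ≤ L := by linarith
  have hX0 : (0 : ℝ) ≤ X := Nat.cast_nonneg X
  have hm0 : (0 : ℝ) ≤ m := Nat.cast_nonneg m
  have hy0r : (0 : ℝ) ≤ y0 := Nat.cast_nonneg _
  have hwr0 : (0 : ℝ) ≤ w := Nat.cast_nonneg _
  have hPW0 : (0 : ℝ) ≤ PW w := Nat.cast_nonneg _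
  have hLE : L ≤ L ^ E := le_self_pow₀ hL1 (by omega)
  have hzle : (z : ℝ) ≤ L ^ E := by rw [hz]; exact Nat.floor_le (by positivity)
  have hzge : L - 1 ≤ z := by
    have h1 := Nat.lt_floor_add_one (L ^ E)
    rw [← hz] at h1
    linarith
  have hwz : w ≤ z := by
    have : (w : ℝ) ≤ z := by linarith
    exact_mod_cast this
  have hyz : y0 ≤ z := by
    have : (y0 : ℝ) ≤ z := by linarith
    exact_mod_cast this
  have hz1 : 1 ≤ z := by omega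
  have hV := hVs z hz1 hzle
  have hWL : (PW w : ℝ) ≤ L := by linarith
  have hmδ : 1 ≤ δ * m := by
    have h1 : 1 / (c0 * δ) ≤ L := by linarith
    rw [div_le_iff₀ (by positivity)] at h1
    nlinarith
  have hm1' : 1 ≤ m := by
    have : (1 : ℝ) ≤ m := by nlinarith
    exact_mod_cast this
  obtain ⟨MM, hMM⟩ : ∃ MM, MM = ∑ i ∈ JJ m, ∑ j ∈ (JJ m).erase i, QT (PW w) K0 A S (Mz z) (Mz z) i j := ⟨_, rfl⟩
  obtain ⟨QQ, hQQd⟩ : ∃ QQ, QQ = ∑ i ∈ JJ m, ∑ j ∈ (JJ m).erase i, QT (PW w) K0 A S (La z) (La z) i j := ⟨_, rfl⟩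
  obtain ⟨Sg, hSg⟩ : ∃ Sg, Sg = ∑ i ∈ JJ m, ∑ j ∈ (JJ m).erase i, nn w K0 i j * cc w z (j - i) := ⟨_, rfl⟩
  have hq := hQQ b (by rw [hb]; exact le_max_left _ _) w z hw hwz hyz K0 A S m Y hm1' a1 a3 (by rw [hY])
  rw [← hQQd, ← hSg] at hq
  have hQQ0 : 0 ≤ QQ := by
    rw [hQQd]
    unfold QT
    exact sum_nonneg fun i _ => sum_nonneg fun j _ => sum_nonneg fun s _ => sum_nonneg fun K _ =>
      mul_nonneg (La_nonneg _ _) (La_nonneg _ _)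
  have hSg0 : 0 ≤ Sg := by
    rw [hSg]
    refine sum_nonneg fun i _ => sum_nonneg fun j _ => mul_nonneg ?_ (cc_nonneg _ _ _)
    unfold nn
    exact sum_nonneg fun ν _ => mul_nonneg (rI_nonneg _ _ _) (rI_nonneg _ _ _)
  have hrr0 := rr_nonneg w K0
  have hrrle := rr_le w K0
  have hPW1 : (1 : ℝ) ≤ PW w := by exact_mod_cast PW_pos w
  have hpair : ∀ i ∈ JJ m, ∀ j ∈ (JJ m).erase i, wt Y ^ 2 * QT (PW w) K0 A S (La z) (La z) i j ≤ QT (PW w) K0 A S (Mz z) (Mz z) i j ∧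
      QT (PW w) K0 A S (Mz z) (Mz z) i j ≤ wt A ^ 2 * QT (PW w) K0 A S (La z) (La z) i j := fun i hi j hj =>
    QT_M_La (PW w) K0 A S m z Y a1 a2 (by rw [hY]) i j hi (mem_erase.1 hj).2
  have h2 : wt Y ^ 2 * QQ ≤ MM := by
    rw [hQQd, hMM]
    simp_rw [mul_sum]
    exact sum_le_sum fun i hi => sum_le_sum fun j hj => (hpair i hi j hj).1
  have h2' : MM ≤ wt A ^ 2 * QQ := by
    rw [hQQd, hMM]
    simp_rw [mul_sum]
    exact sum_le_sum fun i hi => sum_le_sum fun j hj => (hpair i hi j hj).2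
  have h1 : |SS2 w K0 A S m - MM| ≤ 4 * (m : ℝ) ^ 2 * (X / L ^ 5) := by
    rw [hMM]
    unfold SS2
    rw [← sum_sub_distrib]
    simp_rw [← sum_sub_distrib]
    refine (abs_sum_le_sum_abs _ _).trans ((sum_le_sum fun i _ => abs_sum_le_sum_abs _ _).trans ?_)
    refine (sum_le_sum fun i hi => sum_le_sum fun j hj => hpA' i j (mem_JJ hi).1 (mem_JJ (mem_erase.1 hj).2).1
      (Ne.symm (mem_erase.1 hj).1)).trans ?_
    simp_rw [sum_const, nsmul_eq_mul]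
    have h4 : ∀ i ∈ JJ m, ((#((JJ m).erase i) : ℕ) : ℝ) * (X / L ^ 5) ≤ 2 * m * (X / L ^ 5) := by
      intro i hi
      apply mul_le_mul_of_nonneg_right _ (by positivity)
      rw [card_erase_of_mem hi, JJ_card m hm1']
      exact_mod_cast (by omega : 2 * m - 1 - 1 ≤ 2 * m)
    refine (sum_le_sum h4).trans ?_
    rw [sum_const, JJ_card m hm1', nsmul_eq_mul]
    have h5 : ((2 * m - 1 : ℕ) : ℝ) ≤ 2 * m := by exact_mod_cast (by omega : 2 * m - 1 ≤ 2 * m)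
    calc ((2 * m - 1 : ℕ) : ℝ) * (2 * m * (X / L ^ 5)) ≤ (2 * m) * (2 * m * (X / L ^ 5)) :=
          mul_le_mul_of_nonneg_right h5 (by positivity)
      _ = _ := by ring
  have hlo := sig_lo w z m hm1' K0
  have hup := sig_up w z m hw hm1' K0
  rw [← hSg] at hlo hup
  obtain ⟨r, hr⟩ : ∃ r, r = rr w K0 := ⟨_, rfl⟩
  obtain ⟨W, hW⟩ : ∃ W : ℝ, W = PW w := ⟨_, rfl⟩
  have hHW : HW w K0 = r * Vw / W := by unfold HW; rw [hr, hVw, hW]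
  rw [hHW]
  rw [← hr] at hrr0 hrrle hlo hup
  rw [← hW] at hrrle hlo hup hPW1 hWL hq ⊢
  rw [← hVw] at hq
  have hW0 : 0 < W := by linarith
  obtain ⟨Vm, hVm⟩ : ∃ Vm, Vm = (Vz (2 * m))⁻¹ := ⟨_, rfl⟩
  rw [← hVm] at hup
  have hVm0 : 0 ≤ Vm := by rw [hVm]; exact (inv_pos.2 (Vz_pos _)).le
  have hw2r : (2 : ℝ) ≤ w := by exact_mod_cast hw
  have hlog1 : 1 ≤ Real.log L := by
    have h6 : Real.log (Real.exp 1) ≤ Real.log L := by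
      apply Real.log_le_log (Real.exp_pos 1)
      have := Real.exp_one_lt_d9
      linarith
    rwa [Real.log_exp] at h6
  have hVmle : Vm ≤ Cv * (2 * Real.log L) ^ 2 := by
    by_cases h3m : 3 ≤ 2 * m
    · have h6 := hVlog (2 * m) h3m
      rw [← hVm] at h6
      refine h6.trans ?_
      apply mul_le_mul_of_nonneg_left _ (by linarith)
      apply pow_le_pow_left₀
      · apply Real.log_nonneg
        push_cast
        have : (1 : ℝ) ≤ m := by exact_mod_cast hm1'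
        linarith
      · have h7 : ((2 * m : ℕ) : ℝ) ≤ L ^ 2 := by
          push_cast
          nlinarith
        have h8 : (0 : ℝ) < ((2 * m : ℕ) : ℝ) := by exact_mod_cast (by omega : 0 < 2 * m)
        have h9 := Real.log_le_log h8 h7
        rw [Real.log_pow] at h9
        push_cast at h9 ⊢
        exact h9
    · have h6 : Vm ≤ (Vz 3)⁻¹ := by rw [hVm]; exact Vz_anti (by omega)
      have h7 := hVlog 3 le_rfl
      refine h6.trans (h7.trans ?_)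
      apply mul_le_mul_of_nonneg_left _ (by linarith)
      apply pow_le_pow_left₀ (Real.log_nonneg (by norm_num))
      have h8 : Real.log ((3 : ℕ) : ℝ) ≤ Real.log L := by
        apply Real.log_le_log (by norm_num)
        push_cast
        linarith
      linarith
  have hmC : (m : ℝ) / L ≤ C0 := by rw [div_le_iff₀ hL0]; exact hm2
  have hmain : (X : ℝ) / W * (4 * m / L) ^ 2 * (r * Vw / W) ^ 2 ≤ C5 * X := by
    have k1 : r / W ≤ 1 := by rw [div_le_one hW0]; exact hrrle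
    have k2 : 0 ≤ r / W := by positivity
    have k3 : 0 ≤ (m : ℝ) / L := by positivity
    calc (X : ℝ) / W * (4 * m / L) ^ 2 * (r * Vw / W) ^ 2 = X / W * (16 * (m / L) ^ 2 * (Vw ^ 2 * (r / W) ^ 2)) := by ring
      _ ≤ X / 1 * (16 * C0 ^ 2 * (Vw ^ 2 * 1 ^ 2)) := by gcongr
      _ = C5 * X := by rw [hC5]; ring
  have hD1 : ((S : ℝ) ^ 2 - (A : ℝ) ^ 2) / W ^ 2 ≤ X / W ^ 2 := div_le_div_of_nonneg_right a7 (by positivity)
  have hD2 : (1 - δ) * (X / W ^ 2) ≤ ((S : ℝ) ^ 2 - (A : ℝ) ^ 2) / W ^ 2 := by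
    rw [← mul_div_assoc]
    exact div_le_div_of_nonneg_right a8 (by positivity)
  have hSup : Sg ≤ 4 * (m : ℝ) ^ 2 * r ^ 2 / W * (1 + 2 / w) + 4 * m * r ^ 2 * Vm := by
    refine hup.trans (le_of_eq ?_)
    field_simp
    ring
  have hSlo : (1 - δ) * (4 * (m : ℝ) ^ 2 * r ^ 2 / W) - 2 * m * r ≤ Sg := by
    refine le_trans ?_ hlo
    apply sub_le_sub_right
    rw [← mul_div_assoc]
    apply div_le_div_of_nonneg_right _ hW0.le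
    rw [mul_pow]
    have k1 : (1 - δ) * (4 * (m : ℝ) ^ 2) ≤ (2 * m - 1) ^ 2 := by nlinarith
    have := mul_le_mul_of_nonneg_right k1 (sq_nonneg r)
    linarith
  have hR1 := small_R1 X W Vw r m L Vm δ Cv C0 (Real.log L) hX0 hPW1 hVw1 hrr0 hrrle hm0 hm2 hL1 hδ hCv hC0 hVm0 hVmle hlog1 (by
    refine le_trans ?_ hll4
    apply mul_le_mul_of_nonneg_right _ (by positivity)
    linarith)
  have hR2 := small_R2 X W Vw r m L δ C0 hX0 hPW1 hVw1 hrr0 hrrle hm0 hm2 hL1 hδ hC0 (by linarith)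
  have he2 := small_e2 X S Y W (Vz z)⁻¹ m L ((z : ℝ) ^ (C1 * b)) δ C0 (E * (C1 * b)) hX0 f4 (by
      have : (100 : ℝ) ≤ S := by exact_mod_cast f6
      linarith) a4 (Nat.cast_nonneg Y) hW0.le hWL
    (inv_pos.2 (Vz_pos z)).le hV hm0 hm2 (by linarith) (by positivity) (by
      rw [pow_mul L E]
      exact pow_le_pow_left₀ (Nat.cast_nonneg _) hzle _) hδ hC0 (by linarith) hLM
  have he1 : 4 * (m : ℝ) ^ 2 * (X / L ^ 5) ≤ δ * X := by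
    have k1 : 320 * C0 ^ 2 / δ ≤ L := by linarith
    rw [div_le_iff₀ hδ] at k1
    calc 4 * (m : ℝ) ^ 2 * (X / L ^ 5) ≤ 4 * (C0 * L) ^ 2 * (X / L ^ 5) := by gcongr
      _ = (4 * C0 ^ 2) * (X / L ^ 3) := by field_simp
      _ ≤ (L * δ) * (X / L ^ 3) := by
          apply mul_le_mul_of_nonneg_right _ (by positivity)
          have : 0 ≤ C0 ^ 2 := by positivity
          linarith
      _ = δ * (X / L ^ 2) := by field_simp
      _ ≤ δ * X := by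
          apply mul_le_mul_of_nonneg_left _ hδ.le
          exact div_le_self hX0 (one_le_pow₀ hL1)
  have key := arG2 (SS2 w K0 A S m) MM QQ Sg (((S : ℝ) ^ 2 - (A : ℝ) ^ 2) / W ^ 2) X W Vw r m L (wt A) (wt Y)
    ((1 / 2 : ℝ) ^ b) δ (4 * (m : ℝ) ^ 2 * (X / L ^ 5))
    (4 * (m : ℝ) ^ 2 * (W * (20 * ((S : ℝ) + Y + 1) * (Vz z)⁻¹ ^ 2 * (z : ℝ) ^ (C1 * b))))
    (4 * m * r ^ 2 * Vm) (2 * m * r) w (4 * m ^ 2 * r ^ 2 / W) C5 hδ hδ1 hL0 hX0 hW0 hw2r (by linarith) h1 h2 h2' hQQ0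
    (by convert hq using 2 <;> ring) hbq (by positivity) (by positivity) hSg0 rfl hSup hSlo (by positivity) (by positivity) hD1 hD2
    (wt_nonneg A) a5 a6 hR1 hR2 he1 he2 hmain
  refine key.trans ?_
  apply add_le_add le_rfl
  exact mul_le_mul_of_nonneg_right hδε hX0

end Pool.Agent.X40.VAR
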