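import Pool.Agent.X40.VAR.V9
import Pool.Agent.TH892.OW.B4

/-!
The first moment in a residue class.
-/

set_option autoImplicit false

namespace Pool.Agent.X40.VAR

open Finset Filter
open Pool.Agent.H373R2.T7 (pz Vz lamz mem_pz Vz_inv_small)
open Pool.Agent.TH892.OW (fac_pos fac_inv prod_fac_le pz_mono Vz_pos Vz_anti evt_ll Vz_log one_le_Vz_inv AP conv_sum ff_AP)
open Pool.Agent.H442R2.EHI (evt_log_pow evt_log_ge)
open Pool.Agent.TH892.SW (ff wt wt_nonneg wt_anti)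
open Pool.Agent.X40.HLK (P1 Mz Mz_nonneg ff_abs)

noncomputable def SS1 (w : ℕ) (K0 : ℤ) (A S m : ℕ) : ℝ :=
  ∑ i ∈ JJ m, ∑ s ∈ Ico A S, ∑ K ∈ celW (PW w) K0 s, P1 (((s : ℤ) + i) ^ 2 - K)

/-- one cell -/
lemma ff_cell (z : ℕ) (Y : ℕ) (Δ : ℝ) (W : ℕ) (hW : 1 ≤ W) (hAP : ∀ c N : ℤ, N ≤ Y → |AP (ff z) W c N| ≤ Δ) (K0 : ℤ) (A S m s : ℕ)
    (hm : m < A) (hs : A ≤ s) (hS : s < S) (hY : 2 * S * (m + 1) + m ^ 2 ≤ Y) (i : ℤ) (hi : i ∈ JJ m) :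
    |∑ K ∈ celW W K0 s, (P1 (((s : ℤ) + i) ^ 2 - K) - Mz z (((s : ℤ) + i) ^ 2 - K))| ≤ 2 * Δ := by
  classical
  have hff0 : ∀ v ≤ 0, ff z v = 0 := fun v hv => by unfold ff; rw [if_neg (by omega)]
  have hY' : (2 * S * (m + 1) + m ^ 2 : ℤ) ≤ Y := by exact_mod_cast hY
  obtain ⟨T, hT1, hT2, -, hT4⟩ := celW_prog W hW K0 s (fun K => P1 (((s : ℤ) + i) ^ 2 - K) - Mz z (((s : ℤ) + i) ^ 2 - K))
  rw [hT4]
  have hA0 : (0 : ℤ) ≤ A := Int.natCast_nonneg A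
  rcases (mem_JJ hi).2 with hneg | hpos
  · have e : ∑ t ∈ T, (P1 (((s : ℤ) + i) ^ 2 - (K0 + W * t)) - Mz z (((s : ℤ) + i) ^ 2 - (K0 + W * t))) =
        ∑ t ∈ T, ff z ((K0 - ((s : ℤ) + i) ^ 2) + W * t) := by
      refine sum_congr rfl fun t ht => ?_
      rw [← ff_abs]
      congr 1
      have h2 := (v_range A S m s hm hs hS i _ hi (hT2 t ht)).2.1 hneg
      rw [abs_of_nonpos (by linarith)]
      ring
    rw [e]
    apply conv_sum (ff z) hff0 W hW Δ Y hAP T hT1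
    intro t ht
    have h2 := (v_range A S m s hm hs hS i _ hi (hT2 t ht)).2.2
    have h3 := (abs_le.1 h2).1
    linarith
  · have e : ∑ t ∈ T, (P1 (((s : ℤ) + i) ^ 2 - (K0 + W * t)) - Mz z (((s : ℤ) + i) ^ 2 - (K0 + W * t))) =
        ∑ t ∈ T.image (fun t => -t), ff z ((((s : ℤ) + i) ^ 2 - K0) + W * t) := by
      rw [sum_image (fun a _ b _ h => by simpa using h)]
      refine sum_congr rfl fun t ht => ?_
      rw [← ff_abs]
      congr 1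
      have h2 := (v_range A S m s hm hs hS i _ hi (hT2 t ht)).1 hpos
      rw [abs_of_nonneg (by linarith)]
      ring
    rw [e]
    apply conv_sum (ff z) hff0 W hW Δ Y hAP
    · intro x hx y hy t h1 h2
      rw [mem_image] at hx hy ⊢
      obtain ⟨a, ha, rfl⟩ := hx
      obtain ⟨b, hb, rfl⟩ := hy
      exact ⟨-t, hT1 b hb a ha (-t) (by linarith) (by linarith), by ring⟩
    · intro t ht
      rw [mem_image] at ht
      obtain ⟨a, ha, rfl⟩ := ht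
      have h2 := (v_range A S m s hm hs hS i _ hi (hT2 a ha)).2.2
      have h3 := (abs_le.1 h2).2
      linarith

/-- the weights -/
lemma M_La1 (W : ℕ) (K0 : ℤ) (A S m z Y s : ℕ) (hm : m < A) (hA : 2 ≤ A) (hY : 2 * S * (m + 1) + m ^ 2 ≤ Y) (i : ℤ)
    (hi : i ∈ JJ m) (hs : s ∈ Ico A S) :
    wt Y * ∑ K ∈ celW W K0 s, La z (((s : ℤ) + i) ^ 2 - K) ≤ ∑ K ∈ celW W K0 s, Mz z (((s : ℤ) + i) ^ 2 - K) ∧
      ∑ K ∈ celW W K0 s, Mz z (((s : ℤ) + i) ^ 2 - K) ≤ wt A * ∑ K ∈ celW W K0 s, La z (((s : ℤ) + i) ^ 2 - K) := by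
  have hY' : (2 * S * (m + 1) + m ^ 2 : ℤ) ≤ Y := by exact_mod_cast hY
  have key : ∀ K ∈ celW W K0 s, wt Y * La z (((s : ℤ) + i) ^ 2 - K) ≤ Mz z (((s : ℤ) + i) ^ 2 - K) ∧
      Mz z (((s : ℤ) + i) ^ 2 - K) ≤ wt A * La z (((s : ℤ) + i) ^ 2 - K) := by
    intro K hK
    rw [mem_Ico] at hs
    unfold celW at hK
    rw [mem_filter] at hK
    obtain ⟨h1, h2, h3⟩ := v_range A S m s hm hs.1 hs.2 i K hi hK.1
    have hA' : (A : ℤ) ≤ |((s : ℤ) + i) ^ 2 - K| := by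
      rcases (mem_JJ hi).2 with h | h
      · have := h2 h
        rw [abs_of_nonpos (by have : (0 : ℤ) ≤ A := Int.natCast_nonneg A; linarith)]
        linarith
      · exact (h1 h).trans (le_abs_self _)
    generalize ((s : ℤ) + i) ^ 2 - K = v at *
    have hv1 : A ≤ v.natAbs := by
      rw [Int.abs_eq_natAbs] at hA'
      exact_mod_cast hA'
    have hv2 : v.natAbs ≤ Y := by
      have : |v| ≤ Y := h3.trans hY'
      rw [Int.abs_eq_natAbs] at this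
      exact_mod_cast this
    have hM : Mz z v = wt v.natAbs * La z v := by
      unfold Mz La
      rw [if_pos, mul_comm]
      have : (2 : ℤ) ≤ A := by exact_mod_cast hA
      linarith
    rw [hM]
    constructor
    · exact mul_le_mul_of_nonneg_right (wt_anti (hA.trans hv1) hv2) (La_nonneg z v)
    · exact mul_le_mul_of_nonneg_right (wt_anti hA hv1) (La_nonneg z v)
  rw [mul_sum, mul_sum]
  exact ⟨sum_le_sum fun K hK => (key K hK).1, sum_le_sum fun K hK => (key K hK).2⟩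

/-- all cells -/
theorem F_sum : ∃ C1 y0 : ℕ, 1 ≤ C1 ∧ 2 ≤ y0 ∧ ∀ b : ℕ, C1 ≤ b → ∀ w z : ℕ, w ≤ z → y0 ≤ z →
    ∀ (K0 : ℤ) (A S m : ℕ), 1 ≤ m → m < A → A ≤ S →
    |∑ i ∈ JJ m, ∑ s ∈ Ico A S, ∑ K ∈ celW (PW w) K0 s, La z (((s : ℤ) + i) ^ 2 - K) -
      ((S : ℝ) ^ 2 - (A : ℝ) ^ 2) / (PW w) ^ 2 * ((Vz w)⁻¹ * ((2 * m - 1) * rr w K0))| ≤
      (1 / 2 : ℝ) ^ b * (((S : ℝ) ^ 2 - (A : ℝ) ^ 2) / (PW w) ^ 2 * ((Vz w)⁻¹ * ((2 * m - 1) * rr w K0))) +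
      2 * m * (PW w * (S * (6 * (Vz z)⁻¹ + (z : ℝ) ^ (C1 * b)))) := by
  classical
  obtain ⟨C1, y0, hC1, hy0, h⟩ := FT_asymp
  refine ⟨C1, y0, hC1, hy0, fun b hb w z hwz hz K0 A S m hm hmA hAS => ?_⟩
  obtain ⟨D, hD⟩ : ∃ D : ℝ, D = ((S : ℝ) ^ 2 - (A : ℝ) ^ 2) / (PW w : ℕ) ^ 2 := ⟨_, rfl⟩
  obtain ⟨E, hE⟩ : ∃ E : ℝ, E = S * (6 * (Vz z)⁻¹ + (z : ℝ) ^ (C1 * b)) := ⟨_, rfl⟩
  rw [← hD, ← hE]
  have hVz0 := inv_pos.2 (Vz_pos z)
  have hE0 : 0 ≤ E := by rw [hE]; positivity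
  obtain ⟨q, hq⟩ : ∃ q : ℝ, q = (1 / 2 : ℝ) ^ b := ⟨_, rfl⟩
  rw [← hq]
  have hone : ∀ i ∈ JJ m, |∑ s ∈ Ico A S, ∑ K ∈ celW (PW w) K0 s, La z (((s : ℤ) + i) ^ 2 - K) - D * ((Vz w)⁻¹ * rr w K0)| ≤
      q * (D * ((Vz w)⁻¹ * rr w K0)) + PW w * E := by
    intro i hi
    have e0 : ∑ s ∈ Ico A S, ∑ K ∈ celW (PW w) K0 s, La z (((s : ℤ) + i) ^ 2 - K) =
        ∑ ν ∈ range (PW w), FT (PW w) K0 A S z ν i := by
      unfold FT SA
      rw [sum_fiberwise_of_maps_to]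
      intro s _
      rw [mem_range]
      exact Nat.mod_lt _ (PW_pos w)
    have e1 : D * ((Vz w)⁻¹ * rr w K0) = ∑ ν ∈ range (PW w), D * ((Vz w)⁻¹ * rI w K0 ((ν : ℤ) + i)) := by
      rw [← rr_shift w K0 i, mul_sum, mul_sum]
    rw [e0, e1, ← sum_sub_distrib]
    refine (abs_sum_le_sum_abs _ _).trans ?_
    have h2 : ∀ ν ∈ range (PW w), |FT (PW w) K0 A S z ν i - D * ((Vz w)⁻¹ * rI w K0 ((ν : ℤ) + i))| ≤
        q * (D * ((Vz w)⁻¹ * rI w K0 ((ν : ℤ) + i))) + E := by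
      intro ν hν
      have h3 := h b hb z hz (PW w) K0 A S m ν i (mem_range.1 hν) hmA hAS hi
      rw [Gz1 w z hwz K0 (ν + i), ← hD, ← hE, ← hq] at h3
      have e4 : (if Rw w K0 ((ν : ℤ) + i) then (Vz w)⁻¹ else 0) = (Vz w)⁻¹ * rI w K0 ((ν : ℤ) + i) := by
        unfold rI
        by_cases h4 : Rw w K0 ((ν : ℤ) + i)
        · rw [if_pos h4, if_pos h4, mul_one]
        · rw [if_neg h4, if_neg h4, mul_zero]
      rw [e4] at h3
      exact h3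
    refine (sum_le_sum h2).trans (le_of_eq ?_)
    rw [sum_add_distrib, ← mul_sum, sum_const, card_range, nsmul_eq_mul]
  have hc : ((2 * m - 1 : ℕ) : ℝ) = 2 * (m : ℝ) - 1 := by
    rw [Nat.cast_sub (by omega)]
    push_cast
    ring
  have e1 : D * ((Vz w)⁻¹ * ((2 * (m : ℝ) - 1) * rr w K0)) = ∑ _i ∈ JJ m, D * ((Vz w)⁻¹ * rr w K0) := by
    rw [sum_const, JJ_card m hm, nsmul_eq_mul, hc]
    ring
  rw [e1, ← sum_sub_distrib]
  refine (abs_sum_le_sum_abs _ _).trans ((sum_le_sum hone).trans ?_)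
  rw [sum_add_distrib, ← mul_sum]
  apply add_le_add le_rfl
  rw [sum_const, JJ_card m hm, nsmul_eq_mul]
  apply mul_le_mul_of_nonneg_right _ (by positivity)
  exact_mod_cast (by omega : 2 * m - 1 ≤ 2 * m)

/-- the final arithmetic -/
lemma arG1 (SS MM F D X W Vw r m L wA wY q δ e1 e2 C6 : ℝ)
    (hδ : 0 < δ) (hδ1 : δ ≤ 1 / 10) (hL : 0 < L) (hX : 0 ≤ X) (hW : 0 < W) (hVw : 0 ≤ Vw) (hr : 0 ≤ r) (hm : 0 ≤ m)
    (h1 : |SS - MM| ≤ e1) (h2 : wY * F ≤ MM) (h2' : MM ≤ wA * F) (hF : 0 ≤ F)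
    (h3 : |F - D * (Vw * ((2 * m - 1) * r))| ≤ q * (D * (Vw * ((2 * m - 1) * r))) + e2) (hq : q ≤ δ) (hq0 : 0 ≤ q)
    (hmδ : 1 ≤ δ * m) (hD : D ≤ X / W ^ 2) (hD' : (1 - δ) * (X / W ^ 2) ≤ D) (he20 : 0 ≤ e2)
    (hwA0 : 0 ≤ wA) (hwA : wA ≤ 2 / L * (1 + δ)) (hwY : 2 / L * (1 - δ) ≤ wY)
    (he1 : e1 ≤ δ * X) (he2' : 2 / L * e2 ≤ δ * X)
    (hC6 : X / W * (4 * m / L) * (r * Vw / W) ≤ C6 * X) :
    |SS - X / W * (4 * m / L) * (r * Vw / W)| ≤ δ * (8 * C6 + 10) * X := by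
  obtain ⟨u, hu⟩ : ∃ u, u = 2 / L := ⟨_, rfl⟩
  obtain ⟨T, hT⟩ : ∃ T, T = X / W ^ 2 * Vw := ⟨_, rfl⟩
  obtain ⟨P, hP⟩ : ∃ P, P = 2 * m * r := ⟨_, rfl⟩
  have hu0 : 0 < u := by rw [hu]; positivity
  have hT0 : 0 ≤ T := by rw [hT]; positivity
  have hM : X / W * (4 * m / L) * (r * Vw / W) = u * T * P := by
    rw [hu, hT, hP]
    field_simp
    ring
  rw [hM] at hC6 ⊢
  rw [← hu] at he2' hwA hwY
  have hP0 : 0 ≤ P := by rw [hP]; positivity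
  have hM0 : 0 ≤ u * T * P := by positivity
  have hD0 : 0 ≤ D := by
    refine le_trans ?_ hD'
    have : 0 ≤ X / W ^ 2 := by positivity
    apply mul_nonneg _ this
    linarith
  have hDV : D * Vw ≤ T := by
    rw [hT]
    exact mul_le_mul_of_nonneg_right hD hVw
  have hDV' : (1 - δ) * T ≤ D * Vw := by
    rw [hT, ← mul_assoc]
    exact mul_le_mul_of_nonneg_right hD' hVw
  obtain ⟨Q, hQ⟩ : ∃ Q, Q = (2 * m - 1) * r := ⟨_, rfl⟩
  rw [← hQ] at h3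
  have hQ1 : Q ≤ P := by rw [hQ, hP]; nlinarith
  have hQ2 : (1 - δ) * P ≤ Q := by
    rw [hQ, hP]
    have : (1 - δ) * (2 * m) ≤ 2 * m - 1 := by nlinarith
    have := mul_le_mul_of_nonneg_right this hr
    linarith
  have hd0 : 0 ≤ 1 - δ := by linarith
  have hQ0 : 0 ≤ Q := le_trans (by positivity) hQ2
  have h3a := abs_le.1 h3
  have hDQ0 : 0 ≤ D * (Vw * Q) := by positivity
  have up : MM ≤ u * T * P + 4 * δ * (u * T * P) + 2 * (δ * X) := by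
    have k1 : F ≤ (1 + δ) * (T * P) + e2 := by
      have k2 : D * (Vw * Q) ≤ T * P := by
        calc D * (Vw * Q) = (D * Vw) * Q := by ring
          _ ≤ T * P := mul_le_mul hDV hQ1 hQ0 hT0
      have k3 : (1 + δ) * (D * (Vw * Q)) ≤ (1 + δ) * (T * P) := mul_le_mul_of_nonneg_left k2 (by linarith)
      have k4 : q * (D * (Vw * Q)) ≤ δ * (D * (Vw * Q)) := mul_le_mul_of_nonneg_right hq hDQ0
      linarith [h3a.2]
    have k5 : MM ≤ (u * (1 + δ)) * ((1 + δ) * (T * P) + e2) := by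
      refine h2'.trans ?_
      exact mul_le_mul hwA k1 hF (by positivity)
    have k6 : (u * (1 + δ)) * ((1 + δ) * (T * P) + e2) = (1 + δ) ^ 2 * (u * T * P) + (1 + δ) * (u * e2) := by ring
    have k7 : (1 + δ) ^ 2 ≤ 1 + 4 * δ := by nlinarith
    have k8 : (1 + δ) ^ 2 * (u * T * P) ≤ (1 + 4 * δ) * (u * T * P) := mul_le_mul_of_nonneg_right k7 hM0
    have k9 : (1 + δ) * (u * e2) ≤ 2 * (δ * X) := mul_le_mul (by linarith) he2' (by positivity) (by norm_num)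
    rw [k6] at k5
    linarith
  have lo : (1 - 4 * δ) * (u * T * P) - δ * X ≤ MM := by
    have k1 : (1 - δ) ^ 3 * (T * P) - e2 ≤ F := by
      have k2 : (1 - δ) * T * ((1 - δ) * P) ≤ (D * Vw) * Q := mul_le_mul hDV' hQ2 (by positivity) (by positivity)
      have k3 : (1 - δ) * ((1 - δ) * T * ((1 - δ) * P)) ≤ (1 - δ) * ((D * Vw) * Q) := mul_le_mul_of_nonneg_left k2 hd0
      have k4 : q * (D * (Vw * Q)) ≤ δ * (D * (Vw * Q)) := mul_le_mul_of_nonneg_right hq hDQ0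
      nlinarith [h3a.1]
    have k5 : (u * (1 - δ)) * ((1 - δ) ^ 3 * (T * P) - e2) ≤ MM := by
      have k6 : (u * (1 - δ)) * ((1 - δ) ^ 3 * (T * P) - e2) ≤ (u * (1 - δ)) * F := mul_le_mul_of_nonneg_left k1 (by positivity)
      exact k6.trans ((mul_le_mul_of_nonneg_right hwY hF).trans h2)
    have k6 : (u * (1 - δ)) * ((1 - δ) ^ 3 * (T * P) - e2) = (1 - δ) ^ 4 * (u * T * P) - (1 - δ) * (u * e2) := by ring
    have k7 : 1 - 4 * δ ≤ (1 - δ) ^ 4 := by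
      have := one_add_mul_le_pow (show (-2 : ℝ) ≤ -δ by linarith) 4
      have e : (1 : ℝ) + -δ = 1 - δ := by ring
      rw [e] at this
      push_cast at this
      linarith
    have k8 : (1 - 4 * δ) * (u * T * P) ≤ (1 - δ) ^ 4 * (u * T * P) := mul_le_mul_of_nonneg_right k7 hM0
    have k9 : (1 - δ) * (u * e2) ≤ 1 * (δ * X) := mul_le_mul (by linarith) he2' (by positivity) (by norm_num)
    rw [k6] at k5
    linarith
  have h1a := abs_le.1 h1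
  have hδM : δ * (u * T * P) ≤ δ * (C6 * X) := mul_le_mul_of_nonneg_left hC6 hδ.le
  have hδX : 0 ≤ δ * X := by positivity
  have e5 : δ * (8 * C6 + 10) * X = 8 * (δ * (C6 * X)) + 10 * (δ * X) := by ring
  have e6 : 0 ≤ δ * (u * T * P) := by positivity
  rw [abs_le, e5]
  constructor <;> linarith [h1a.1, h1a.2]

end Pool.Agent.X40.VAR
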