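import Pool.Agent.X40.VAR.V10
import Pool.Agent.X40.VAR.V11

/-!
The first moment in a residue class: the theorem.
-/

set_option autoImplicit false

namespace Pool.Agent.X40.VAR

open Finset Filter
open Pool.Agent.H373R2.T7 (pz Vz lamz mem_pz Vz_inv_small)
open Pool.Agent.TH892.OW (fac_pos fac_inv prod_fac_le pz_mono Vz_pos Vz_anti evt_ll Vz_log one_le_Vz_inv AP conv_sum ff_AP)
open Pool.Agent.H442R2.EHI (evt_log_pow evt_log_ge)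
open Pool.Agent.TH892.SW (ff wt wt_nonneg wt_anti)
open Pool.Agent.X40.HLK (P1 Mz Mz_nonneg ff_abs)

lemma small_e3 (X S W Vz m L Z δ C0 : ℝ) (n : ℕ) (hX : 0 ≤ X) (hSX : S ≤ √X) (hS0 : 0 ≤ S) (hW : 0 ≤ W)
    (hWL : W ≤ L) (hVz : Vz ≤ L) (hm0 : 0 ≤ m) (hm : m ≤ C0 * L) (hL : 3 ≤ L) (hZ : Z ≤ L ^ n) (hδ : 0 < δ)
    (hVz0 : 0 ≤ Vz) (hZ0 : 0 ≤ Z) (hC0 : 1 ≤ C0) (hc : 320 * C0 ^ 2 / δ ≤ L) (hM : L ^ (n + 7) ≤ √X) :
    2 / L * (2 * m * (W * (S * (6 * Vz + Z)))) ≤ δ * X := by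
  have hL0 : 0 < L := by linarith
  have hL1 : 1 ≤ L := by linarith
  rw [div_le_iff₀ hδ] at hc
  have h1 : 6 * Vz + Z ≤ 7 * L ^ (n + 1) := by
    have h2 : L ≤ L ^ (n + 1) := le_self_pow₀ hL1 (by omega)
    have h3 : L ^ n ≤ L ^ (n + 1) := pow_le_pow_right₀ hL1 (by omega)
    linarith
  calc 2 / L * (2 * m * (W * (S * (6 * Vz + Z)))) ≤ 2 / L * (2 * (C0 * L) * (L * (√X * (7 * L ^ (n + 1))))) := by gcongr
    _ = (28 * C0) * (L ^ (n + 2) * √X) := by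
        rw [pow_succ L (n + 1)]; field_simp; ring
    _ ≤ (L * δ) * (L ^ (n + 2) * √X) := by
        apply mul_le_mul_of_nonneg_right _ (by positivity)
        nlinarith
    _ = δ * (L ^ (n + 3) * √X) := by rw [pow_succ L (n + 2)]; ring
    _ ≤ δ * (L ^ (n + 7) * √X) := by
        have : L ^ (n + 3) ≤ L ^ (n + 7) := pow_le_pow_right₀ hL1 (by omega)
        gcongr
    _ ≤ δ * (√X * √X) := by gcongr
    _ = δ * X := by rw [Real.mul_self_sqrt hX]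

theorem G1 (w : ℕ) (c0 C0 : ℝ) (hc0 : 0 < c0) (hC0 : 1 ≤ C0) (ε : ℝ) (hε : 0 < ε) : ∃ X0 : ℕ, ∀ X : ℕ, X0 ≤ X →
    ∀ m : ℕ, c0 * Real.log X ≤ m → (m : ℝ) ≤ C0 * Real.log X → ∀ K0 : ℤ,
      |SS1 w K0 (AA X) (Nat.sqrt X) m - (X : ℝ) / PW w * (4 * m / Real.log X) * HW w K0| ≤ ε * X := by
  obtain ⟨C1, y0, hC1, hy0, hF⟩ := F_sum
  obtain ⟨Vw, hVw⟩ : ∃ Vw, Vw = (Vz w)⁻¹ := ⟨_, rfl⟩
  have hVw1 : 1 ≤ Vw := by rw [hVw]; exact one_le_Vz_inv w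
  obtain ⟨C6, hC6⟩ : ∃ C6 : ℝ, C6 = 4 * C0 * Vw := ⟨_, rfl⟩
  have hC60 : 0 ≤ C6 := by rw [hC6]; positivity
  obtain ⟨δ, hδd⟩ : ∃ δ, δ = min (1 / 10) (ε / (8 * C6 + 10)) := ⟨_, rfl⟩
  have hδ : 0 < δ := by rw [hδd]; positivity
  have hδ1 : δ ≤ 1 / 10 := by rw [hδd]; exact min_le_left _ _
  have hδε : δ * (8 * C6 + 10) ≤ ε := by
    have : δ ≤ ε / (8 * C6 + 10) := by rw [hδd]; exact min_le_right _ _
    rwa [le_div_iff₀ (by positivity)] at this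
  obtain ⟨b0, hb0⟩ := exists_pow_lt_of_lt_one hδ (show (1 / 2 : ℝ) < 1 by norm_num)
  obtain ⟨b, hb⟩ : ∃ b, b = max C1 b0 := ⟨_, rfl⟩
  have hbq : (1 / 2 : ℝ) ^ b ≤ δ := by
    have h1 : (1 / 2 : ℝ) ^ b ≤ (1 / 2 : ℝ) ^ b0 := by
      apply pow_le_pow_of_le_one (by norm_num) (by norm_num)
      rw [hb]; exact le_max_right _ _
    linarith
  obtain ⟨E0, hA⟩ := ff_AP 6
  obtain ⟨E, hE⟩ : ∃ E, E = E0 + 1 := ⟨_, rfl⟩
  obtain ⟨X1, hX1⟩ := hA E (by omega)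
  obtain ⟨X2, hX2⟩ := Vz_inv_small E
  obtain ⟨c, hcd⟩ : ∃ c : ℝ, c = 320 * C0 ^ 2 / δ + 1 / (c0 * δ) + w + y0 + 1 + PW w + 3 := ⟨_, rfl⟩
  have hp3 : 0 < 320 * C0 ^ 2 / δ := by positivity
  have hp4 : 0 < 1 / (c0 * δ) := by positivity
  have hc : 0 < c := by rw [hcd]; positivity
  obtain ⟨X3, hX3⟩ := eventually_atTop.1 (evt_G C0 δ c hc (E * (C1 * b) + 7))
  refine ⟨max (max X1 X2) X3, fun X hX m hm1 hm2 K0 => ?_⟩
  obtain ⟨-, hpA⟩ := hX1 X (((le_max_left _ _).trans (le_max_left _ _)).trans hX)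
  have hVs := hX2 X (((le_max_right _ _).trans (le_max_left _ _)).trans hX)
  obtain ⟨hL, hll, hLδ, hL12, hLC, hLM, hll4, hLc⟩ := hX3 X ((le_max_right _ _).trans hX)
  obtain ⟨a1, a2, a3, a4, a5, a6, a7, a8⟩ := A_facts X δ C0 hδ hδ1 hC0 hL hll hLδ hL12 m hm2 hLC
  obtain ⟨f1, f2, f3, f4, -, f6, f7⟩ := Pool.Agent.TH892.OW.S_facts X hL
  obtain ⟨z, hz⟩ : ∃ z, z = ⌊Real.log X ^ E⌋₊ := ⟨_, rfl⟩
  rw [← hz] at hpA
  obtain ⟨A, hAd⟩ : ∃ A, A = AA X := ⟨_, rfl⟩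
  obtain ⟨S, hSd⟩ : ∃ S, S = Nat.sqrt X := ⟨_, rfl⟩
  rw [← hSd] at a3 a4 a6 a7 a8 f2 f3 f4 f6 f7 ⊢
  rw [← hAd] at a1 a2 a3 a5 a7 a8 ⊢
  obtain ⟨L, hLd⟩ : ∃ L, L = Real.log X := ⟨_, rfl⟩
  rw [← hLd] at hL hll hLδ hL12 hLC hLM hll4 hLc hm1 hm2 a4 a5 a6 hz hVs hpA ⊢
  obtain ⟨Y, hY⟩ : ∃ Y : ℕ, Y = 2 * S * (m + 1) + m ^ 2 := ⟨_, rfl⟩
  rw [← hY] at a4 a6
  have hL0 : 0 < L := by linarith
  have hL1 : 1 ≤ L := by linarith
  have hXr : (1 : ℝ) ≤ X := by exact_mod_cast f1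
  have hX0 : (0 : ℝ) ≤ X := Nat.cast_nonneg X
  have hm0 : (0 : ℝ) ≤ m := Nat.cast_nonneg m
  have hy0r : (0 : ℝ) ≤ y0 := Nat.cast_nonneg _
  have hwr0 : (0 : ℝ) ≤ w := Nat.cast_nonneg _
  have hPW0 : (0 : ℝ) ≤ PW w := Nat.cast_nonneg _
  have hS100 : (100 : ℝ) ≤ S := by exact_mod_cast f6
  have hLE : L ≤ L ^ E := le_self_pow₀ hL1 (by omega)
  have hzle : (z : ℝ) ≤ L ^ E := by rw [hz]; exact Nat.floor_le (by positivity)
  have hzge : L - 1 ≤ z := by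
    have h1 := Nat.lt_floor_add_one (L ^ E)
    rw [← hz] at h1
    linarith
  have hwz : w ≤ z := by
    have : (w : ℝ) ≤ z := by linarith
    exact_mod_cast this
  have hyz : y0 ≤ z := by
    have : (y0 : ℝ) ≤ z := by linarith
    exact_mod_cast this
  have hz1 : 1 ≤ z := by omega
  have hV := hVs z hz1 hzle
  have hWL : (PW w : ℝ) ≤ L := by linarith
  have hmδ : 1 ≤ δ * m := by
    have h1 : 1 / (c0 * δ) ≤ L := by linarith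
    rw [div_le_iff₀ (by positivity)] at h1
    nlinarith
  have hm1' : 1 ≤ m := by
    have : (1 : ℝ) ≤ m := by nlinarith
    exact_mod_cast this
  have hYS : √(X : ℝ) ≤ Y := by
    rw [hY]; push_cast
    nlinarith
  have hYX : Y ≤ X := by
    have h1 : (Y : ℝ) ≤ X := by
      have h2 : L ^ 2 ≤ √(X : ℝ) := by
        refine le_trans ?_ hL12
        exact pow_le_pow_right₀ hL1 (by norm_num)
      calc (Y : ℝ) ≤ S * L ^ 2 := a4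
        _ ≤ √(X : ℝ) * √(X : ℝ) := mul_le_mul f4 h2 (by positivity) (Real.sqrt_nonneg _)
        _ = X := Real.mul_self_sqrt hX0
    exact_mod_cast h1
  have hAPW := hpA Y hYS hYX (PW w) (PW_pos w)
  obtain ⟨MM, hMM⟩ : ∃ MM, MM = ∑ i ∈ JJ m, ∑ s ∈ Ico A S, ∑ K ∈ celW (PW w) K0 s, Mz z (((s : ℤ) + i) ^ 2 - K) := ⟨_, rfl⟩
  obtain ⟨F, hFd⟩ : ∃ F, F = ∑ i ∈ JJ m, ∑ s ∈ Ico A S, ∑ K ∈ celW (PW w) K0 s, La z (((s : ℤ) + i) ^ 2 - K) := ⟨_, rfl⟩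
  have hq := hF b (by rw [hb]; exact le_max_left _ _) w z hwz hyz K0 A S m hm1' a1 a3
  rw [← hFd] at hq
  have hF0 : 0 ≤ F := by
    rw [hFd]
    exact sum_nonneg fun i _ => sum_nonneg fun s _ => sum_nonneg fun K _ => La_nonneg _ _
  have h2 : wt Y * F ≤ MM := by
    rw [hFd, hMM, mul_sum]
    refine sum_le_sum fun i hi => ?_
    rw [mul_sum]
    exact sum_le_sum fun s hs => (M_La1 (PW w) K0 A S m z Y s a1 a2 (by rw [hY]) i hi hs).1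
  have h2' : MM ≤ wt A * F := by
    rw [hFd, hMM, mul_sum]
    refine sum_le_sum fun i hi => ?_
    rw [mul_sum]
    exact sum_le_sum fun s hs => (M_La1 (PW w) K0 A S m z Y s a1 a2 (by rw [hY]) i hi hs).2
  have h1 : |SS1 w K0 A S m - MM| ≤ 2 * m * (S * (2 * (Y / L ^ 6))) := by
    rw [hMM]
    unfold SS1
    rw [← sum_sub_distrib]
    refine (abs_sum_le_sum_abs _ _).trans ?_
    have h3 : ∀ i ∈ JJ m, |∑ s ∈ Ico A S, ∑ K ∈ celW (PW w) K0 s, P1 (((s : ℤ) + i) ^ 2 - K) -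
        ∑ s ∈ Ico A S, ∑ K ∈ celW (PW w) K0 s, Mz z (((s : ℤ) + i) ^ 2 - K)| ≤ S * (2 * (Y / L ^ 6)) := by
      intro i hi
      rw [← sum_sub_distrib]
      simp_rw [← sum_sub_distrib]
      refine (abs_sum_le_sum_abs _ _).trans ?_
      refine (sum_le_sum fun s hs => ff_cell z Y (Y / L ^ 6) (PW w) (PW_pos w) (fun c N hN => hAPW c N hN) K0 A S m s a1
        (mem_Ico.1 hs).1 (mem_Ico.1 hs).2 (by rw [hY]) i hi).trans ?_
      rw [sum_const, Nat.card_Ico, nsmul_eq_mul]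
      apply mul_le_mul_of_nonneg_right _ (by positivity)
      exact_mod_cast Nat.sub_le S A
    refine (sum_le_sum h3).trans ?_
    rw [sum_const, JJ_card m hm1', nsmul_eq_mul]
    apply mul_le_mul_of_nonneg_right _ (by positivity)
    exact_mod_cast (by omega : 2 * m - 1 ≤ 2 * m)
  have hrr0 := rr_nonneg w K0
  have hrrle := rr_le w K0
  have hPW1 : (1 : ℝ) ≤ PW w := by exact_mod_cast PW_pos w
  obtain ⟨r, hr⟩ : ∃ r, r = rr w K0 := ⟨_, rfl⟩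
  obtain ⟨W, hW⟩ : ∃ W : ℝ, W = PW w := ⟨_, rfl⟩
  have hHW : HW w K0 = r * Vw / W := by unfold HW; rw [hr, hVw, hW]
  rw [hHW]
  rw [← hr] at hrr0 hrrle hq
  rw [← hW] at hrrle hPW1 hWL hq ⊢
  rw [← hVw] at hq
  have hW0 : 0 < W := by linarith
  have hmC : (m : ℝ) / L ≤ C0 := by rw [div_le_iff₀ hL0]; exact hm2
  have hmain : (X : ℝ) / W * (4 * m / L) * (r * Vw / W) ≤ C6 * X := by
    have k1 : r / W ≤ 1 := by rw [div_le_one hW0]; exact hrrle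
    have k2 : 0 ≤ r / W := by positivity
    have k3 : 0 ≤ (m : ℝ) / L := by positivity
    calc (X : ℝ) / W * (4 * m / L) * (r * Vw / W) = X / W * (4 * (m / L) * (Vw * (r / W))) := by ring
      _ ≤ X / 1 * (4 * C0 * (Vw * 1)) := by gcongr
      _ = C6 * X := by rw [hC6]; ring
  have hD1 : ((S : ℝ) ^ 2 - (A : ℝ) ^ 2) / W ^ 2 ≤ X / W ^ 2 := div_le_div_of_nonneg_right a7 (by positivity)
  have hD2 : (1 - δ) * (X / W ^ 2) ≤ ((S : ℝ) ^ 2 - (A : ℝ) ^ 2) / W ^ 2 := by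
    rw [← mul_div_assoc]
    exact div_le_div_of_nonneg_right a8 (by positivity)
  have he2 := small_e3 X S W (Vz z)⁻¹ m L ((z : ℝ) ^ (C1 * b)) δ C0 (E * (C1 * b)) hX0 f4 (by linarith) hW0.le hWL hV hm0 hm2
    (by linarith) (by
      rw [pow_mul L E]
      exact pow_le_pow_left₀ (Nat.cast_nonneg _) hzle _) hδ (inv_pos.2 (Vz_pos z)).le (by positivity) hC0 (by linarith) hLM
  have he1 : 2 * (m : ℝ) * (S * (2 * (Y / L ^ 6))) ≤ δ * X := by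
    have k1 : 320 * C0 ^ 2 / δ ≤ L := by linarith
    rw [div_le_iff₀ hδ] at k1
    calc 2 * (m : ℝ) * (S * (2 * (Y / L ^ 6))) ≤ 2 * (C0 * L) * (S * (2 * (S * L ^ 2 / L ^ 6))) := by gcongr
      _ = (4 * C0) * (S ^ 2 / L ^ 3) := by field_simp; ring
      _ ≤ (L * δ) * (X / L ^ 3) := by
          apply mul_le_mul _ (div_le_div_of_nonneg_right f2 (by positivity)) (by positivity) (by positivity)
          nlinarith
      _ = δ * (X / L ^ 2) := by field_simp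
      _ ≤ δ * X := by
          apply mul_le_mul_of_nonneg_left _ hδ.le
          exact div_le_self hX0 (one_le_pow₀ hL1)
  have hVz0 := (inv_pos.2 (Vz_pos z)).le
  have key := arG1 (SS1 w K0 A S m) MM F (((S : ℝ) ^ 2 - (A : ℝ) ^ 2) / W ^ 2) X W Vw r m L (wt A) (wt Y)
    ((1 / 2 : ℝ) ^ b) δ (2 * m * (S * (2 * (Y / L ^ 6)))) (2 * m * (W * (S * (6 * (Vz z)⁻¹ + (z : ℝ) ^ (C1 * b))))) C6
    hδ hδ1 hL0 hX0 hW0 (by linarith) hrr0 hm0 h1 h2 h2' hF0 hq hbq (by positivity) hmδ hD1 hD2 (by positivity)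
    (wt_nonneg A) a5 a6 he1 he2 hmain
  refine key.trans ?_
  exact mul_le_mul_of_nonneg_right hδε hX0

end Pool.Agent.X40.VAR
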