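import Pool.Agent.X40.VAR.V12

/-!
From the cells to the counting function near the square root.
-/

set_option autoImplicit false

namespace Pool.Agent.X40.VAR

open Finset Filter
open Pool.Agent.H373R2.T7 (pz Vz lamz mem_pz Vz_inv_small)
open Pool.Agent.TH892.OW (primes_int)
open Pool.Agent.X40.HLK (P1 P1_nonneg P1_le)

/-- the number of primes `|n² - K|` with `|n - √K| ≤ R` -/
noncomputable def NL (R : ℝ) (K : ℕ) : ℝ :=
  ∑ n ∈ (range (⌊√(K : ℝ) + R⌋₊ + 1)).filter (fun n : ℕ => |(n : ℝ) - √(K : ℝ)| ≤ R), P1 ((n : ℤ) ^ 2 - K)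

/-- the part given by the indices in `JJ m` -/
noncomputable def NJ (m : ℕ) (K : ℕ) : ℝ := ∑ i ∈ JJ m, P1 (((Nat.sqrt K : ℤ) + i) ^ 2 - K)

/-- the two middle indices -/
noncomputable def NC (K : ℕ) : ℝ := P1 ((Nat.sqrt K : ℤ) ^ 2 - K) + P1 (((Nat.sqrt K : ℤ) + 1) ^ 2 - K)

lemma sqrt_bounds (K : ℕ) : (Nat.sqrt K : ℝ) ≤ √(K : ℝ) ∧ √(K : ℝ) ≤ Nat.sqrt K + 1 := by
  constructor
  · apply Real.le_sqrt_of_sq_le
    exact_mod_cast Nat.sqrt_le' K
  · rw [Real.sqrt_le_left (by positivity)]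
    exact_mod_cast (Nat.lt_succ_sqrt' K).le

lemma NL_nonneg (R : ℝ) (K : ℕ) : 0 ≤ NL R K := sum_nonneg fun _ _ => P1_nonneg _

lemma NJ_nonneg (m K : ℕ) : 0 ≤ NJ m K := sum_nonneg fun _ _ => P1_nonneg _

lemma NC_nonneg (K : ℕ) : 0 ≤ NC K := add_nonneg (P1_nonneg _) (P1_nonneg _)

lemma NC_le (K : ℕ) : NC K ≤ 2 := by
  unfold NC
  linarith [P1_le ((Nat.sqrt K : ℤ) ^ 2 - K), P1_le (((Nat.sqrt K : ℤ) + 1) ^ 2 - K)]

lemma NL_low (R : ℝ) (K m : ℕ) (hm : (m : ℝ) + 1 ≤ R) (hs : m ≤ Nat.sqrt K) : NJ m K ≤ NL R K := by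
  classical
  obtain ⟨h1, h2⟩ := sqrt_bounds K
  unfold NJ NL
  have hpos : ∀ i ∈ JJ m, ((((Nat.sqrt K : ℤ) + i).toNat : ℕ) : ℤ) = (Nat.sqrt K : ℤ) + i := by
    intro i hi
    have h3 := abs_le.1 (mem_JJ hi).1
    apply Int.toNat_of_nonneg
    have : (m : ℤ) ≤ Nat.sqrt K := by exact_mod_cast hs
    linarith
  have e : ∑ i ∈ JJ m, P1 (((Nat.sqrt K : ℤ) + i) ^ 2 - K) =
      ∑ n ∈ (JJ m).image (fun i => ((Nat.sqrt K : ℤ) + i).toNat), P1 ((n : ℤ) ^ 2 - K) := by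
    rw [sum_image]
    · refine sum_congr rfl fun i hi => ?_
      rw [hpos i hi]
    · intro i hi j hj hij
      have h3 := hpos i hi
      have h4 := hpos j hj
      simp only at hij
      rw [hij] at h3
      linarith
  rw [e]
  apply sum_le_sum_of_subset_of_nonneg _ (fun _ _ _ => P1_nonneg _)
  intro n hn
  rw [mem_image] at hn
  obtain ⟨i, hi, rfl⟩ := hn
  have h3 := hpos i hi
  have h4 := abs_le.1 (mem_JJ hi).1
  obtain ⟨n, hn⟩ : ∃ n : ℕ, n = ((Nat.sqrt K : ℤ) + i).toNat := ⟨_, rfl⟩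
  rw [← hn] at h3 ⊢
  have h5 : (n : ℝ) = Nat.sqrt K + i := by exact_mod_cast congrArg (fun x : ℤ => (x : ℝ)) h3
  have h6 : -(m : ℝ) ≤ i := by exact_mod_cast h4.1
  have h7 : (i : ℝ) ≤ m := by exact_mod_cast h4.2
  have h8 : |(n : ℝ) - √(K : ℝ)| ≤ R := by
    rw [h5, abs_le]
    constructor <;> linarith
  rw [mem_filter, mem_range, Nat.lt_succ_iff]
  refine ⟨?_, h8⟩
  apply Nat.le_floor
  linarith [(abs_le.1 h8).2]

lemma NL_up (R : ℝ) (K m : ℕ) (hm : R + 1 ≤ m) : NL R K ≤ NJ m K + NC K := by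
  classical
  obtain ⟨h1, h2⟩ := sqrt_bounds K
  unfold NL NJ NC
  have e : ∑ n ∈ (range (⌊√(K : ℝ) + R⌋₊ + 1)).filter (fun n : ℕ => |(n : ℝ) - √(K : ℝ)| ≤ R), P1 ((n : ℤ) ^ 2 - K) =
      ∑ i ∈ ((range (⌊√(K : ℝ) + R⌋₊ + 1)).filter (fun n : ℕ => |(n : ℝ) - √(K : ℝ)| ≤ R)).image (fun n : ℕ => (n : ℤ) - Nat.sqrt K),
        P1 (((Nat.sqrt K : ℤ) + i) ^ 2 - K) := by
    rw [sum_image (fun a _ b _ h => by simpa using h)]
    refine sum_congr rfl fun n _ => ?_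
    congr 2
    ring
  rw [e]
  have h3 : ∀ (i : ℤ), i ∈ ((range (⌊√(K : ℝ) + R⌋₊ + 1)).filter (fun n : ℕ => |(n : ℝ) - √(K : ℝ)| ≤ R)).image
      (fun n : ℕ => (n : ℤ) - Nat.sqrt K) → i ∈ JJ m ∪ {0, 1} := by
    intro i hi
    rw [mem_image] at hi
    obtain ⟨n, hn, rfl⟩ := hi
    rw [mem_filter] at hn
    have h4 := abs_le.1 hn.2
    have h5 : -(m : ℤ) ≤ (n : ℤ) - Nat.sqrt K := by
      have : -(m : ℝ) ≤ (n : ℝ) - Nat.sqrt K := by linarith [h4.1]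
      exact_mod_cast this
    have h6 : (n : ℤ) - Nat.sqrt K ≤ m := by
      have : (n : ℝ) - Nat.sqrt K ≤ m := by linarith [h4.2]
      exact_mod_cast this
    rw [mem_union]
    by_cases h7 : (n : ℤ) - Nat.sqrt K = 0 ∨ (n : ℤ) - Nat.sqrt K = 1
    · right
      rw [mem_insert, mem_singleton]
      exact h7
    · left
      unfold JJ
      rw [mem_filter, mem_Icc]
      push Not at h7
      exact ⟨⟨h5, h6⟩, h7⟩
  refine (sum_le_sum_of_subset_of_nonneg (fun i hi => h3 i hi) (fun _ _ _ => P1_nonneg _)).trans ?_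
  rw [sum_union]
  · apply add_le_add le_rfl
    rw [sum_pair (by norm_num), add_zero]
  · rw [disjoint_left]
    intro i hi hi2
    unfold JJ at hi
    rw [mem_filter] at hi
    rw [mem_insert, mem_singleton] at hi2
    rcases hi2 with h | h
    · exact hi.2.1 h
    · exact hi.2.2 h

lemma NL_triv (R : ℝ) (K m : ℕ) (h : 1 ≤ m) (hm : R + 1 ≤ m) : NL R K ≤ 2 * m + 1 := by
  have h1 := NL_up R K m hm
  have h3 : ∑ i ∈ JJ m, P1 (((Nat.sqrt K : ℤ) + i) ^ 2 - K) ≤ 2 * m - 1 := by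
    refine (sum_le_sum fun i _ => P1_le _).trans ?_
    rw [sum_const, JJ_card m h, nsmul_eq_mul, mul_one, Nat.cast_sub (by omega)]
    push_cast
    exact le_rfl
  have h2 := NC_le K
  unfold NJ at h1
  linarith

/-- sums over the cells -/
lemma cells_sum (F : ℕ → ℝ) (A S : ℕ) (hAS : A ≤ S) :
    ∑ K ∈ Ico (A ^ 2) (S ^ 2), F K = ∑ s ∈ Ico A S, ∑ K ∈ Icc (s ^ 2) (s ^ 2 + 2 * s), F K := by
  induction S, hAS using Nat.le_induction with
  | base => simp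
  | succ S hS ih =>
    rw [sum_Ico_succ_top hS, ← ih, ← sum_Ico_consecutive F (show A ^ 2 ≤ S ^ 2 from Nat.pow_le_pow_left hS 2)
      (show S ^ 2 ≤ (S + 1) ^ 2 from Nat.pow_le_pow_left (Nat.le_succ S) 2)]
    congr 1
    apply sum_congr _ (fun _ _ => rfl)
    ext K
    rw [mem_Ico, mem_Icc]
    have : (S + 1) ^ 2 = S ^ 2 + 2 * S + 1 := by ring
    omega

lemma sqrt_cell (s K : ℕ) (h : K ∈ Icc (s ^ 2) (s ^ 2 + 2 * s)) : Nat.sqrt K = s := by
  rw [mem_Icc] at h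
  symm
  rw [Nat.eq_sqrt']
  constructor
  · exact h.1
  · have : (s + 1) ^ 2 = s ^ 2 + 2 * s + 1 := by ring
    omega

lemma cell_cast (W : ℕ) (K0 : ℤ) (s : ℕ) (G : ℤ → ℝ) :
    ∑ K ∈ Icc (s ^ 2) (s ^ 2 + 2 * s), (if (W : ℤ) ∣ (K : ℤ) - K0 then G K else 0) = ∑ K ∈ celW W K0 s, G K := by
  classical
  rw [← sum_filter]
  unfold celW cel
  refine sum_nbij' (fun K : ℕ => (K : ℤ)) (fun K : ℤ => K.toNat) ?_ ?_ ?_ ?_ ?_
  · intro K hK
    rw [mem_filter, mem_Icc] at hK ⊢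
    refine ⟨⟨by exact_mod_cast hK.1.1, by exact_mod_cast hK.1.2⟩, hK.2⟩
  · intro K hK
    rw [mem_filter, mem_Icc] at hK ⊢
    have h0 : (0 : ℤ) ≤ K := le_trans (sq_nonneg _) hK.1.1
    have h1 : ((K.toNat : ℕ) : ℤ) = K := Int.toNat_of_nonneg h0
    refine ⟨⟨?_, ?_⟩, by rw [h1]; exact hK.2⟩
    · have : ((s ^ 2 : ℕ) : ℤ) ≤ ((K.toNat : ℕ) : ℤ) := by rw [h1]; push_cast; exact hK.1.1
      exact_mod_cast this
    · have : ((K.toNat : ℕ) : ℤ) ≤ ((s ^ 2 + 2 * s : ℕ) : ℤ) := by rw [h1]; push_cast; exact hK.1.2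
      exact_mod_cast this
  · intro K _; simp
  · intro K hK
    rw [mem_filter, mem_Icc] at hK
    exact Int.toNat_of_nonneg (le_trans (sq_nonneg _) hK.1.1)
  · intro K _; rfl

/-- the sum over the residue class up to `X` -/
noncomputable def CL (W : ℕ) (K0 : ℤ) (X : ℕ) (F : ℕ → ℝ) : ℝ := ∑ K ∈ Icc 1 X, if (W : ℤ) ∣ (K : ℤ) - K0 then F K else 0

/-- the part in the cells -/
noncomputable def CC (W : ℕ) (K0 : ℤ) (A S : ℕ) (F : ℕ → ℝ) : ℝ :=
  ∑ K ∈ Ico (A ^ 2) (S ^ 2), if (W : ℤ) ∣ (K : ℤ) - K0 then F K else 0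

lemma CC_le_CL (W : ℕ) (K0 : ℤ) (A S X : ℕ) (hA : 1 ≤ A) (hS : S ^ 2 ≤ X) (F : ℕ → ℝ) (hF : ∀ K, 0 ≤ F K) :
    CC W K0 A S F ≤ CL W K0 X F := by
  unfold CC CL
  apply sum_le_sum_of_subset_of_nonneg
  · intro K hK
    rw [mem_Ico] at hK
    rw [mem_Icc]
    have : 1 ≤ A ^ 2 := Nat.one_le_pow _ _ hA
    omega
  · intro K _ _
    split_ifs
    · exact hF K
    · exact le_rfl

lemma CL_le_CC (W : ℕ) (K0 : ℤ) (A S X : ℕ) (hAS : A ≤ S) (hX : X < (S + 1) ^ 2) (F : ℕ → ℝ) (hF : ∀ K, 0 ≤ F K) (B : ℝ)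
    (hB : ∀ K, F K ≤ B) : CL W K0 X F ≤ CC W K0 A S F + (A ^ 2 + 2 * S + 1) * B := by
  classical
  have hB0 : 0 ≤ B := (hF 0).trans (hB 0)
  have hterm : ∀ K : ℕ, 0 ≤ (if (W : ℤ) ∣ (K : ℤ) - K0 then F K else 0) ∧ (if (W : ℤ) ∣ (K : ℤ) - K0 then F K else 0) ≤ B := by
    intro K
    split_ifs
    · exact ⟨hF K, hB K⟩
    · exact ⟨le_rfl, hB0⟩
  unfold CC CL
  have hsub : Icc 1 X ⊆ Ico (A ^ 2) (S ^ 2) ∪ (range (A ^ 2) ∪ Ico (S ^ 2) ((S + 1) ^ 2)) := by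
    intro K hK
    rw [mem_Icc] at hK
    rw [mem_union, mem_union, mem_Ico, mem_range, mem_Ico]
    omega
  refine (sum_le_sum_of_subset_of_nonneg hsub (fun K _ _ => (hterm K).1)).trans ?_
  have h1 : ∀ (T1 T2 : Finset ℕ), ∑ K ∈ T1 ∪ T2, (if (W : ℤ) ∣ (K : ℤ) - K0 then F K else 0) ≤
      ∑ K ∈ T1, (if (W : ℤ) ∣ (K : ℤ) - K0 then F K else 0) + ∑ K ∈ T2, (if (W : ℤ) ∣ (K : ℤ) - K0 then F K else 0) := by
    intro T1 T2
    rw [← sum_union_inter]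
    have : 0 ≤ ∑ K ∈ T1 ∩ T2, (if (W : ℤ) ∣ (K : ℤ) - K0 then F K else 0) := sum_nonneg fun K _ => (hterm K).1
    linarith
  refine (h1 _ _).trans ?_
  apply add_le_add le_rfl
  have h2 : ∑ K ∈ range (A ^ 2) ∪ Ico (S ^ 2) ((S + 1) ^ 2), (if (W : ℤ) ∣ (K : ℤ) - K0 then F K else 0) ≤
      #(range (A ^ 2) ∪ Ico (S ^ 2) ((S + 1) ^ 2)) * B := by
    refine (sum_le_sum fun K _ => (hterm K).2).trans (le_of_eq ?_)
    rw [sum_const, nsmul_eq_mul]
  refine h2.trans ?_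
  apply mul_le_mul_of_nonneg_right _ hB0
  have h3 := card_union_le (range (A ^ 2)) (Ico (S ^ 2) ((S + 1) ^ 2))
  rw [card_range, Nat.card_Ico] at h3
  have h4 : (S + 1) ^ 2 - S ^ 2 = 2 * S + 1 := by
    have : (S + 1) ^ 2 = S ^ 2 + 2 * S + 1 := by ring
    omega
  rw [h4] at h3
  have h5 : #(range (A ^ 2) ∪ Ico (S ^ 2) ((S + 1) ^ 2)) ≤ A ^ 2 + 2 * S + 1 := by omega
  exact_mod_cast h5

/-- the moments of `NJ` over the cells -/
lemma CC_NJ (w : ℕ) (K0 : ℤ) (A S m : ℕ) (hAS : A ≤ S) :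
    CC (PW w) K0 A S (NJ m) = SS1 w K0 A S m ∧ CC (PW w) K0 A S (fun K => NJ m K ^ 2) = SS1 w K0 A S m + SS2 w K0 A S m := by
  classical
  have hsq : ∀ v : ℤ, P1 v * P1 v = P1 v := by intro v; unfold P1; split_ifs <;> norm_num
  constructor
  · unfold CC
    rw [cells_sum _ A S hAS]
    have h1 : ∀ s ∈ Ico A S, ∑ K ∈ Icc (s ^ 2) (s ^ 2 + 2 * s), (if ((PW w : ℕ) : ℤ) ∣ (K : ℤ) - K0 then NJ m K else 0) =
        ∑ K ∈ celW (PW w) K0 s, ∑ i ∈ JJ m, P1 (((s : ℤ) + i) ^ 2 - K) := by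
      intro s _
      rw [← cell_cast]
      refine sum_congr rfl fun K hK => ?_
      unfold NJ
      rw [sqrt_cell s K hK]
    rw [sum_congr rfl h1]
    unfold SS1
    rw [sum_comm]
    refine sum_congr rfl fun s _ => ?_
    rw [sum_comm]
  · unfold CC
    rw [cells_sum _ A S hAS]
    have h1 : ∀ s ∈ Ico A S, ∑ K ∈ Icc (s ^ 2) (s ^ 2 + 2 * s), (if ((PW w : ℕ) : ℤ) ∣ (K : ℤ) - K0 then NJ m K ^ 2 else 0) =
        ∑ K ∈ celW (PW w) K0 s, ∑ i ∈ JJ m, (P1 (((s : ℤ) + i) ^ 2 - K) +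
          ∑ j ∈ (JJ m).erase i, P1 (((s : ℤ) + i) ^ 2 - K) * P1 (((s : ℤ) + j) ^ 2 - K)) := by
      intro s _
      rw [← cell_cast (PW w) K0 s (fun K => ∑ i ∈ JJ m, (P1 (((s : ℤ) + i) ^ 2 - K) +
          ∑ j ∈ (JJ m).erase i, P1 (((s : ℤ) + i) ^ 2 - K) * P1 (((s : ℤ) + j) ^ 2 - K)))]
      refine sum_congr rfl fun K hK => ?_
      unfold NJ
      rw [sqrt_cell s K hK]
      congr 1
      rw [sq, sum_mul_sum]
      refine sum_congr rfl fun i hi => ?_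
      rw [← add_sum_erase _ _ hi, hsq]
    rw [sum_congr rfl h1]
    have h2 : ∀ s ∈ Ico A S, ∑ K ∈ celW (PW w) K0 s, ∑ i ∈ JJ m, (P1 (((s : ℤ) + i) ^ 2 - K) +
          ∑ j ∈ (JJ m).erase i, P1 (((s : ℤ) + i) ^ 2 - K) * P1 (((s : ℤ) + j) ^ 2 - K)) =
        ∑ i ∈ JJ m, (∑ K ∈ celW (PW w) K0 s, P1 (((s : ℤ) + i) ^ 2 - K) +
          ∑ j ∈ (JJ m).erase i, ∑ K ∈ celW (PW w) K0 s, P1 (((s : ℤ) + i) ^ 2 - K) * P1 (((s : ℤ) + j) ^ 2 - K)) := by
      intro s _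
      rw [sum_comm]
      refine sum_congr rfl fun i _ => ?_
      rw [sum_add_distrib]
      congr 1
      rw [sum_comm]
    rw [sum_congr rfl h2, sum_comm]
    unfold SS1 SS2 QT
    rw [← sum_add_distrib]
    refine sum_congr rfl fun i _ => ?_
    rw [sum_add_distrib]
    congr 1
    rw [sum_comm]

/-- the middle indices -/
lemma CC_NC (W : ℕ) (K0 : ℤ) (A S : ℕ) (hAS : A ≤ S) (hS2 : 2 ≤ S) : CC W K0 A S NC ≤ S * (2 * (60 * (S / Real.log S))) := by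
  classical
  have hS0 : (2 : ℝ) ≤ S := by exact_mod_cast hS2
  have hl0 : 0 < Real.log S := Real.log_pos (by linarith)
  have h0 : CC W K0 A S NC ≤ ∑ K ∈ Ico (A ^ 2) (S ^ 2), NC K := by
    unfold CC
    refine sum_le_sum fun K _ => ?_
    split_ifs
    · exact le_rfl
    · exact NC_nonneg K
  refine h0.trans ?_
  rw [cells_sum _ A S hAS]
  have h1 : ∀ s ∈ Ico A S, ∑ K ∈ Icc (s ^ 2) (s ^ 2 + 2 * s), NC K ≤ 2 * (60 * (S / Real.log S)) := by
    intro s hs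
    rw [mem_Ico] at hs
    have hsS : (s : ℤ) ≤ S := by exact_mod_cast hs.2.le
    have e1 : ∑ K ∈ Icc (s ^ 2) (s ^ 2 + 2 * s), NC K = ∑ K ∈ Icc (s ^ 2) (s ^ 2 + 2 * s), P1 ((s : ℤ) ^ 2 - K) +
        ∑ K ∈ Icc (s ^ 2) (s ^ 2 + 2 * s), P1 (((s : ℤ) + 1) ^ 2 - K) := by
      rw [← sum_add_distrib]
      refine sum_congr rfl fun K hK => ?_
      unfold NC
      rw [sqrt_cell s K hK]
    have key : ∀ (ε : ℤ) (a : ℤ), (ε = 1 ∨ ε = -1) → ∑ K ∈ Icc (s ^ 2) (s ^ 2 + 2 * s), P1 (a - K) ≤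
        (((Icc (s ^ 2) (s ^ 2 + 2 * s)).image (fun K : ℕ => ε * (a - K))).filter (fun v : ℤ => v.toNat.Prime ∨ (-v).toNat.Prime)).card := by
      intro ε a hε
      have e2 : ∑ K ∈ Icc (s ^ 2) (s ^ 2 + 2 * s), P1 (a - K) =
          (((Icc (s ^ 2) (s ^ 2 + 2 * s)).filter (fun K : ℕ => (a - K).natAbs.Prime)).card : ℝ) := by
        unfold P1
        rw [sum_boole]
      rw [e2, Nat.cast_le]
      apply card_le_card_of_injOn (fun K : ℕ => ε * (a - K))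
      · intro K hK
        rw [mem_coe, mem_filter] at hK
        rw [mem_coe, mem_filter]
        refine ⟨mem_image_of_mem _ hK.1, ?_⟩
        have h4 := hK.2
        rcases hε with h | h <;> subst h <;> rcases le_or_gt 0 (a - K) with h5 | h5
        · left
          have h6 : ((1 : ℤ) * (a - K)).toNat = (a - K).natAbs := by omega
          show ((1 : ℤ) * (a - K)).toNat.Prime
          rw [h6]; exact h4
        · right
          have h6 : (-((1 : ℤ) * (a - K))).toNat = (a - K).natAbs := by omega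
          show (-((1 : ℤ) * (a - K))).toNat.Prime
          rw [h6]; exact h4
        · right
          have h6 : (-((-1 : ℤ) * (a - K))).toNat = (a - K).natAbs := by omega
          show (-((-1 : ℤ) * (a - K))).toNat.Prime
          rw [h6]; exact h4
        · left
          have h6 : ((-1 : ℤ) * (a - K)).toNat = (a - K).natAbs := by omega
          show ((-1 : ℤ) * (a - K)).toNat.Prime
          rw [h6]; exact h4
      · intro K _ K' _ h
        simp only at h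
        rcases hε with h' | h' <;> subst h' <;> omega
    have k1 : ∑ K ∈ Icc (s ^ 2) (s ^ 2 + 2 * s), P1 ((s : ℤ) ^ 2 - K) ≤ 60 * (S / Real.log S) := by
      refine (key (-1) _ (Or.inr rfl)).trans ?_
      refine le_trans ?_ (primes_int S hS2 0 ((Icc (s ^ 2) (s ^ 2 + 2 * s)).image (fun K : ℕ => (-1 : ℤ) * ((s : ℤ) ^ 2 - K))) ?_)
      · rw [Nat.cast_le]
        apply card_le_card
        intro v hv
        rw [mem_filter] at hv ⊢
        refine ⟨hv.1, ?_⟩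
        rcases hv.2 with h4 | h4
        · exact h4
        · exfalso
          rw [mem_image] at hv
          obtain ⟨⟨K, hK, hKv⟩, -⟩ := hv
          rw [mem_Icc] at hK
          have h5 : ((s ^ 2 : ℕ) : ℤ) ≤ K := by exact_mod_cast hK.1
          push_cast at h5
          have h6 := h4.two_le
          omega
      · intro v hv
        rw [mem_image] at hv
        obtain ⟨K, hK, hKv⟩ := hv
        rw [mem_Icc] at hK
        have h5 : ((s ^ 2 : ℕ) : ℤ) ≤ K := by exact_mod_cast hK.1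
        have h6 : (K : ℤ) ≤ ((s ^ 2 + 2 * s : ℕ) : ℤ) := by exact_mod_cast hK.2
        push_cast at h5 h6
        constructor <;> linarith
    have k2 : ∑ K ∈ Icc (s ^ 2) (s ^ 2 + 2 * s), P1 (((s : ℤ) + 1) ^ 2 - K) ≤ 60 * (S / Real.log S) := by
      refine (key 1 _ (Or.inl rfl)).trans ?_
      refine le_trans ?_ (primes_int S hS2 1 ((Icc (s ^ 2) (s ^ 2 + 2 * s)).image (fun K : ℕ => (1 : ℤ) * (((s : ℤ) + 1) ^ 2 - K))) ?_)
      · rw [Nat.cast_le]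
        apply card_le_card
        intro v hv
        rw [mem_filter] at hv ⊢
        refine ⟨hv.1, ?_⟩
        rcases hv.2 with h4 | h4
        · exact h4
        · exfalso
          rw [mem_image] at hv
          obtain ⟨⟨K, hK, hKv⟩, -⟩ := hv
          rw [mem_Icc] at hK
          have h5 : (K : ℤ) ≤ ((s ^ 2 + 2 * s : ℕ) : ℤ) := by exact_mod_cast hK.2
          push_cast at h5
          have h6 := h4.two_le
          have h7 : ((s : ℤ) + 1) ^ 2 = (s : ℤ) ^ 2 + 2 * s + 1 := by ring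
          omega
      · intro v hv
        rw [mem_image] at hv
        obtain ⟨K, hK, hKv⟩ := hv
        rw [mem_Icc] at hK
        have h5 : ((s ^ 2 : ℕ) : ℤ) ≤ K := by exact_mod_cast hK.1
        have h6 : (K : ℤ) ≤ ((s ^ 2 + 2 * s : ℕ) : ℤ) := by exact_mod_cast hK.2
        push_cast at h5 h6
        have h7 : ((s : ℤ) + 1) ^ 2 = (s : ℤ) ^ 2 + 2 * s + 1 := by ring
        constructor <;> linarith
    rw [e1]
    linarith
  refine (sum_le_sum h1).trans ?_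
  rw [sum_const, Nat.card_Ico, nsmul_eq_mul]
  apply mul_le_mul_of_nonneg_right _ (by positivity)
  exact_mod_cast Nat.sub_le S A

end Pool.Agent.X40.VAR
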