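import Pool.Agent.X40.VAR.V13

/-!
The first two moments of the number of primes `|n² - K|` with `n` near `√K`, `K` in a residue class.
-/

set_option autoImplicit false

namespace Pool.Agent.X40.VAR

open Finset Filter
open Pool.Agent.H373R2.T7 (pz Vz lamz mem_pz Vz_inv_small)
open Pool.Agent.TH892.OW (primes_int Vz_pos one_le_Vz_inv evt_ll)
open Pool.Agent.H442R2.EHI (evt_log_pow evt_log_ge)
open Pool.Agent.X40.HLK (P1 P1_nonneg P1_le)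

lemma arCM (X Y h B u u1 u2 η q e τ c t1 t2 s11 s12 s21 s22 N1 N2 ε : ℝ) (hX : 0 ≤ X) (hY : 0 ≤ Y) (hh : 0 ≤ h)
    (hB1 : Y * h ≤ B * X) (hB2 : Y * h ^ 2 ≤ B * X) (hB : 0 ≤ B) (hu : 0 ≤ u) (hu1 : 0 ≤ u1) (hu1' : u1 ≤ u) (hu2 : u ≤ u2)
    (h1 : u - u1 ≤ η) (h2 : u2 - u ≤ η) (hη1 : η ≤ 1) (hη : 0 ≤ η) (hq : 0 ≤ q) (hq1 : q ≤ 1) (he : 0 ≤ e) (hτ : 0 < τ) (hτ1 : τ ≤ 1)
    (g11 : |s11 - Y * u1 * h| ≤ e * X) (g12 : |s12 - Y * u2 * h| ≤ e * X)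
    (g21 : |s21 - Y * u1 ^ 2 * h ^ 2| ≤ q * (Y * u1 ^ 2 * h ^ 2) + e * X)
    (g22 : |s22 - Y * u2 ^ 2 * h ^ 2| ≤ q * (Y * u2 ^ 2 * h ^ 2) + e * X)
    (n1 : s11 ≤ N1) (n1' : N1 ≤ s12 + c + t1) (n2 : s11 + s21 ≤ N2)
    (n2' : N2 ≤ (1 + τ) * (s12 + s22) + (1 + 1 / τ) * (2 * c) + t2)
    (hc : c ≤ e * X) (hcτ : (1 + 1 / τ) * (2 * c) ≤ e * X) (ht1 : t1 ≤ e * X) (ht2 : t2 ≤ e * X)
    (hε1 : η * B + 3 * e ≤ ε)
    (hε2 : τ * ((u + 2 * u ^ 2) * B) + (2 * η * B + 4 * η * (2 * u + 1) * B + 6 * e) ≤ ε) :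
    |N1 - Y * u * h| ≤ ε * X ∧ |N2 - Y * (u * h + u ^ 2 * h ^ 2)| ≤ q * (Y * (u ^ 2 * h ^ 2)) + ε * X := by
  obtain ⟨P, hP⟩ : ∃ P, P = Y * h := ⟨_, rfl⟩
  obtain ⟨Q, hQ⟩ : ∃ Q, Q = Y * h ^ 2 := ⟨_, rfl⟩
  have hP0 : 0 ≤ P := by rw [hP]; positivity
  have hQ0 : 0 ≤ Q := by rw [hQ]; positivity
  rw [← hP] at hB1
  rw [← hQ] at hB2
  have e1 : Y * u1 * h = u1 * P := by rw [hP]; ring
  have e2 : Y * u2 * h = u2 * P := by rw [hP]; ring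
  have e3 : Y * u1 ^ 2 * h ^ 2 = u1 ^ 2 * Q := by rw [hQ]; ring
  have e4 : Y * u2 ^ 2 * h ^ 2 = u2 ^ 2 * Q := by rw [hQ]; ring
  have e5 : Y * u * h = u * P := by rw [hP]; ring
  have e6 : Y * (u * h + u ^ 2 * h ^ 2) = u * P + u ^ 2 * Q := by rw [hP, hQ]; ring
  have e7 : Y * (u ^ 2 * h ^ 2) = u ^ 2 * Q := by rw [hQ]; ring
  rw [e1] at g11
  rw [e2] at g12
  rw [e3] at g21
  rw [e4] at g22
  rw [e5, e6, e7]
  obtain ⟨g11a, g11b⟩ := abs_le.1 g11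
  obtain ⟨g12a, g12b⟩ := abs_le.1 g12
  obtain ⟨g21a, g21b⟩ := abs_le.1 g21
  obtain ⟨g22a, g22b⟩ := abs_le.1 g22
  have k1 : (u - η) * P ≤ u1 * P := mul_le_mul_of_nonneg_right (by linarith) hP0
  have k2 : u2 * P ≤ (u + η) * P := mul_le_mul_of_nonneg_right (by linarith) hP0
  have k3 : η * P ≤ η * (B * X) := mul_le_mul_of_nonneg_left hB1 hη
  have w1 : u ^ 2 - η * (2 * u + 1) ≤ u1 ^ 2 := by nlinarith
  have w2 : u2 ^ 2 ≤ u ^ 2 + η * (2 * u + 1) := by nlinarith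
  have k4 : (u ^ 2 - η * (2 * u + 1)) * Q ≤ u1 ^ 2 * Q := mul_le_mul_of_nonneg_right w1 hQ0
  have k5 : u2 ^ 2 * Q ≤ (u ^ 2 + η * (2 * u + 1)) * Q := mul_le_mul_of_nonneg_right w2 hQ0
  have k6 : η * (2 * u + 1) * Q ≤ η * (2 * u + 1) * (B * X) := mul_le_mul_of_nonneg_left hB2 (by positivity)
  have hεX1 : (η * B + 3 * e) * X ≤ ε * X := mul_le_mul_of_nonneg_right hε1 hX
  have hεX2 : (τ * ((u + 2 * u ^ 2) * B) + (2 * η * B + 4 * η * (2 * u + 1) * B + 6 * e)) * X ≤ ε * X :=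
    mul_le_mul_of_nonneg_right hε2 hX
  have heX : 0 ≤ e * X := by positivity
  have hηBX : 0 ≤ η * (B * X) := by positivity
  have hηuBX : 0 ≤ η * (2 * u + 1) * (B * X) := by positivity
  have hτBX : 0 ≤ τ * ((u + 2 * u ^ 2) * (B * X)) := by positivity
  constructor
  · rw [abs_le]
    constructor <;> nlinarith
  · -- the second moment
    have lo : u * P + u ^ 2 * Q - (q * (u ^ 2 * Q) + (η * (B * X) + η * (2 * u + 1) * (B * X) + 2 * (e * X))) ≤ N2 := by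
      have k7 : (1 - q) * ((u ^ 2 - η * (2 * u + 1)) * Q) ≤ (1 - q) * (u1 ^ 2 * Q) := mul_le_mul_of_nonneg_left k4 (by linarith)
      have k8 : (1 - q) * (η * (2 * u + 1) * Q) ≤ 1 * (η * (2 * u + 1) * Q) := mul_le_mul_of_nonneg_right (by linarith) (by positivity)
      nlinarith
    have up : N2 ≤ u * P + u ^ 2 * Q + (q * (u ^ 2 * Q) + (τ * ((u + 2 * u ^ 2) * (B * X)) +
        (2 * (η * (B * X)) + 4 * (η * (2 * u + 1) * (B * X)) + 6 * (e * X)))) := by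
      have k7 : s12 + s22 ≤ (u + η) * P + e * X + ((1 + q) * ((u ^ 2 + η * (2 * u + 1)) * Q) + e * X) := by
        have k8 : (1 + q) * (u2 ^ 2 * Q) ≤ (1 + q) * ((u ^ 2 + η * (2 * u + 1)) * Q) := mul_le_mul_of_nonneg_left k5 (by linarith)
        nlinarith
      have k9 : (1 + q) * (η * (2 * u + 1) * Q) ≤ 2 * (η * (2 * u + 1) * Q) := mul_le_mul_of_nonneg_right (by linarith) (by positivity)
      have k10 : s12 + s22 ≤ u * P + (1 + q) * (u ^ 2 * Q) + (η * (B * X) + 2 * (η * (2 * u + 1) * (B * X)) + 2 * (e * X)) := by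
        nlinarith
      have k11 := mul_le_mul_of_nonneg_left k10 (show 0 ≤ 1 + τ by linarith)
      have k12 : u * P + (1 + q) * (u ^ 2 * Q) ≤ (u + 2 * u ^ 2) * (B * X) := by
        have a1 : u * P ≤ u * (B * X) := mul_le_mul_of_nonneg_left hB1 hu
        have a2 : u ^ 2 * Q ≤ u ^ 2 * (B * X) := mul_le_mul_of_nonneg_left hB2 (by positivity)
        have a3 : (1 + q) * (u ^ 2 * Q) ≤ 2 * (u ^ 2 * Q) := mul_le_mul_of_nonneg_right (by linarith) (by positivity)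
        linarith
      have k13 := mul_le_mul_of_nonneg_left k12 hτ.le
      have k14 : τ * (η * (B * X) + 2 * (η * (2 * u + 1) * (B * X)) + 2 * (e * X)) ≤
          1 * (η * (B * X) + 2 * (η * (2 * u + 1) * (B * X)) + 2 * (e * X)) :=
        mul_le_mul_of_nonneg_right hτ1 (by positivity)
      nlinarith
    rw [abs_le]
    constructor <;> nlinarith

/-- sums over the residue class are monotone -/
lemma CL_mono (W : ℕ) (K0 : ℤ) (X : ℕ) (F G : ℕ → ℝ) (h : ∀ K, F K ≤ G K) : CL W K0 X F ≤ CL W K0 X G := by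
  unfold CL
  refine sum_le_sum fun K _ => ?_
  split_ifs
  · exact h K
  · exact le_rfl

lemma CC_mono (W : ℕ) (K0 : ℤ) (A S : ℕ) (F G : ℕ → ℝ) (h : ∀ K, A ^ 2 ≤ K → F K ≤ G K) : CC W K0 A S F ≤ CC W K0 A S G := by
  unfold CC
  refine sum_le_sum fun K hK => ?_
  split_ifs
  · exact h K (mem_Ico.1 hK).1
  · exact le_rfl

lemma CC_add (W : ℕ) (K0 : ℤ) (A S : ℕ) (F G : ℕ → ℝ) : CC W K0 A S (fun K => F K + G K) = CC W K0 A S F + CC W K0 A S G := by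
  unfold CC
  rw [← sum_add_distrib]
  refine sum_congr rfl fun K _ => ?_
  split_ifs <;> ring

lemma CC_smul (W : ℕ) (K0 : ℤ) (A S : ℕ) (a : ℝ) (F : ℕ → ℝ) : CC W K0 A S (fun K => a * F K) = a * CC W K0 A S F := by
  unfold CC
  rw [mul_sum]
  refine sum_congr rfl fun K _ => ?_
  split_ifs <;> ring

/-- the sandwich -/
lemma sandwich (w : ℕ) (K0 : ℤ) (A S X m1 m2 : ℕ) (R τ : ℝ) (hτ : 0 < τ) (hA : 1 ≤ A) (hAS : A ≤ S) (hSX : S ^ 2 ≤ X) (hXS : X < (S + 1) ^ 2)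
    (hm1 : (m1 : ℝ) + 1 ≤ R) (hm1A : m1 ≤ A) (hm2 : R + 1 ≤ m2) (hm2' : 1 ≤ m2) :
    SS1 w K0 A S m1 ≤ CL (PW w) K0 X (NL R) ∧
    CL (PW w) K0 X (NL R) ≤ SS1 w K0 A S m2 + CC (PW w) K0 A S NC + (A ^ 2 + 2 * S + 1) * (2 * m2 + 1) ∧
    SS1 w K0 A S m1 + SS2 w K0 A S m1 ≤ CL (PW w) K0 X (fun K => NL R K ^ 2) ∧
    CL (PW w) K0 X (fun K => NL R K ^ 2) ≤ (1 + τ) * (SS1 w K0 A S m2 + SS2 w K0 A S m2) + (1 + 1 / τ) * (2 * CC (PW w) K0 A S NC) +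
      (A ^ 2 + 2 * S + 1) * (2 * m2 + 1) ^ 2 := by
  obtain ⟨a1, a2⟩ := CC_NJ w K0 A S m1 hAS
  obtain ⟨b1, b2⟩ := CC_NJ w K0 A S m2 hAS
  have hsq : ∀ K, A ^ 2 ≤ K → m1 ≤ Nat.sqrt K := by
    intro K hK
    refine hm1A.trans ?_
    exact Nat.le_sqrt'.2 hK
  refine ⟨?_, ?_, ?_, ?_⟩
  · rw [← a1]
    exact (CC_mono _ _ _ _ _ _ fun K hK => NL_low R K m1 hm1 (hsq K hK)).trans
      (CC_le_CL _ _ _ _ _ hA hSX _ (fun K => NL_nonneg R K))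
  · rw [← b1]
    refine (CL_le_CC (PW w) K0 A S X hAS hXS (NL R) (fun K => NL_nonneg R K) (2 * m2 + 1) (fun K => NL_triv R K m2 hm2' hm2)).trans ?_
    apply add_le_add _ le_rfl
    rw [← CC_add]
    exact CC_mono _ _ _ _ _ _ fun K _ => NL_up R K m2 hm2
  · rw [← a2]
    refine (CC_mono _ _ _ _ _ (fun K => NL R K ^ 2) fun K hK => ?_).trans (CC_le_CL _ _ _ _ _ hA hSX _ (fun K => sq_nonneg _))
    exact pow_le_pow_left₀ (NJ_nonneg _ _) (NL_low R K m1 hm1 (hsq K hK)) 2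
  · rw [← b2]
    refine (CL_le_CC (PW w) K0 A S X hAS hXS (fun K => NL R K ^ 2) (fun K => sq_nonneg _) ((2 * m2 + 1) ^ 2)
      (fun K => pow_le_pow_left₀ (NL_nonneg _ _) (NL_triv R K m2 hm2' hm2) 2)).trans ?_
    apply add_le_add _ le_rfl
    have e1 : (1 + τ) * CC (PW w) K0 A S (fun K => NJ m2 K ^ 2) + (1 + 1 / τ) * (2 * CC (PW w) K0 A S NC) =
        CC (PW w) K0 A S (fun K => (1 + τ) * NJ m2 K ^ 2 + (1 + 1 / τ) * (2 * NC K)) := by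
      rw [CC_add, CC_smul, CC_smul, CC_smul]
    rw [e1]
    refine CC_mono _ _ _ _ _ _ fun K _ => ?_
    have h1 := NL_up R K m2 hm2
    have h2 := NC_nonneg K
    have h3 := NC_le K
    have h4 := NJ_nonneg m2 K
    have h5 : NL R K ^ 2 ≤ (NJ m2 K + NC K) ^ 2 := pow_le_pow_left₀ (NL_nonneg _ _) h1 2
    refine h5.trans ?_
    have h6 : NC K ^ 2 ≤ 2 * NC K := by nlinarith
    have h7 : (NJ m2 K + NC K) ^ 2 ≤ (1 + τ) * NJ m2 K ^ 2 + (1 + 1 / τ) * NC K ^ 2 := by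
      have h8 : (1 + τ) * NJ m2 K ^ 2 + (1 + 1 / τ) * NC K ^ 2 - (NJ m2 K + NC K) ^ 2 = (τ * NJ m2 K - NC K) ^ 2 / τ := by
        field_simp
        ring
      have h9 : 0 ≤ (τ * NJ m2 K - NC K) ^ 2 / τ := by positivity
      linarith
    have h8 : (1 + 1 / τ) * NC K ^ 2 ≤ (1 + 1 / τ) * (2 * NC K) := mul_le_mul_of_nonneg_left h6 (by positivity)
    linarith

end Pool.Agent.X40.VAR
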