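import Pool.Agent.X40.VAR.V14

/-!
The first two moments in a residue class: the theorem.
-/

set_option autoImplicit false

namespace Pool.Agent.X40.VAR

open Finset Filter
open Pool.Agent.H373R2.T7 (pz Vz lamz mem_pz Vz_inv_small)
open Pool.Agent.TH892.OW (primes_int Vz_pos one_le_Vz_inv evt_ll)
open Pool.Agent.H442R2.EHI (evt_log_pow evt_log_ge)
open Pool.Agent.X40.HLK (P1 P1_nonneg P1_le)

/-- the trash terms -/
lemma trash (X S A m L C0 e lS : ℝ) (hX : 1 ≤ X) (hS0 : 1 ≤ S) (hSX : S ^ 2 ≤ X) (hA : A ≤ S / L ^ 2) (hA0 : 0 ≤ A) (hL : 10000 ≤ L)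
    (hm0 : 0 ≤ m) (hm : m ≤ C0 * L) (hC0 : 1 ≤ C0) (hLS : L ^ 12 ≤ √X) (he : 0 < e) (hLe : 45 * C0 ^ 2 / e ≤ L)
    (hlS : 2 / 5 * L ≤ lS) (hc : 600 / e ≤ L) (τ : ℝ) (hτ : 0 < τ) (hcτ : 600 * (1 + 1 / τ) / e ≤ L) :
    (A ^ 2 + 2 * S + 1) * (2 * m + 1) ≤ e * X ∧ (A ^ 2 + 2 * S + 1) * (2 * m + 1) ^ 2 ≤ e * X ∧
    S * (2 * (60 * (S / lS))) ≤ e * X ∧ (1 + 1 / τ) * (2 * (S * (2 * (60 * (S / lS))))) ≤ e * X := by
  have hL0 : 0 < L := by linarith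
  have hL1 : 1 ≤ L := by linarith
  have hX0 : 0 ≤ X := by linarith
  have hlS0 : 0 < lS := by nlinarith
  have hsX : √X * √X = X := Real.mul_self_sqrt hX0
  have hS : S ≤ √X := Real.le_sqrt_of_sq_le hSX
  have hA2 : A ^ 2 ≤ X / L ^ 4 := by
    calc A ^ 2 ≤ (S / L ^ 2) ^ 2 := pow_le_pow_left₀ hA0 hA 2
      _ = S ^ 2 / L ^ 4 := by rw [div_pow, ← pow_mul]
      _ ≤ X / L ^ 4 := by gcongr
  have hSL : S ≤ X / L ^ 4 := by
    rw [le_div_iff₀ (by positivity)]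
    have h1 : L ^ 4 ≤ √X := (pow_le_pow_right₀ hL1 (by norm_num)).trans hLS
    calc S * L ^ 4 ≤ √X * √X := mul_le_mul hS h1 (by positivity) (Real.sqrt_nonneg _)
      _ = X := hsX
  have hD : A ^ 2 + 2 * S + 1 ≤ 4 * (X / L ^ 4) := by linarith
  have hm2 : 2 * m + 1 ≤ 3 * (C0 * L) := by nlinarith
  have hm1 : 1 ≤ 2 * m + 1 := by linarith
  have hm3 : (2 * m + 1) ^ 2 ≤ 9 * C0 ^ 2 * L ^ 2 := by
    calc (2 * m + 1) ^ 2 ≤ (3 * (C0 * L)) ^ 2 := pow_le_pow_left₀ (by linarith) hm2 2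
      _ = _ := by ring
  have hXL : X / L ≤ X / L := le_rfl
  have t2 : (A ^ 2 + 2 * S + 1) * (2 * m + 1) ^ 2 ≤ e * X := by
    have h1 : (A ^ 2 + 2 * S + 1) * (2 * m + 1) ^ 2 ≤ 4 * (X / L ^ 4) * (9 * C0 ^ 2 * L ^ 2) :=
      mul_le_mul hD hm3 (by positivity) (by positivity)
    refine h1.trans ?_
    have e1 : 4 * (X / L ^ 4) * (9 * C0 ^ 2 * L ^ 2) = 36 * C0 ^ 2 * X / L ^ 2 := by field_simp; ring
    rw [e1, div_le_iff₀ (by positivity)]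
    rw [div_le_iff₀ he] at hLe
    have h2 : L ≤ L ^ 2 := by nlinarith
    have h3 : 36 * C0 ^ 2 ≤ L ^ 2 * e := by
      have : L * e ≤ L ^ 2 * e := mul_le_mul_of_nonneg_right h2 he.le
      nlinarith [sq_nonneg C0]
    calc 36 * C0 ^ 2 * X ≤ L ^ 2 * e * X := mul_le_mul_of_nonneg_right h3 hX0
      _ = e * X * L ^ 2 := by ring
  have t1 : (A ^ 2 + 2 * S + 1) * (2 * m + 1) ≤ e * X := by
    refine le_trans ?_ t2
    apply mul_le_mul_of_nonneg_left _ (by positivity)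
    nlinarith
  have c0 : S * (2 * (60 * (S / lS))) ≤ 300 * X / L := by
    have h1 : S / lS ≤ S / (2 / 5 * L) := div_le_div_of_nonneg_left (by linarith) (by linarith) hlS
    calc S * (2 * (60 * (S / lS))) = 120 * S * (S / lS) := by ring
      _ ≤ 120 * S * (S / (2 / 5 * L)) := mul_le_mul_of_nonneg_left h1 (by linarith)
      _ = 300 * S ^ 2 / L := by field_simp; ring
      _ ≤ 300 * X / L := by gcongr
  have c1 : ∀ G : ℝ, 0 ≤ G → 600 * G / e ≤ L → G * (2 * (300 * X / L)) ≤ e * X := by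
    intro G hG hGe
    rw [div_le_iff₀ he] at hGe
    have e1 : G * (2 * (300 * X / L)) = (600 * G) * X / L := by ring
    rw [e1, div_le_iff₀ hL0]
    calc 600 * G * X ≤ L * e * X := mul_le_mul_of_nonneg_right hGe hX0
      _ = e * X * L := by ring
  have c2 : S * (2 * (60 * (S / lS))) ≤ e * X := by
    have h1 := c1 1 (by norm_num) (by rw [mul_one]; exact hc)
    have h2 : 0 ≤ 300 * X / L := by positivity
    linarith
  refine ⟨t1, t2, c2, ?_⟩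
  refine le_trans ?_ (c1 (1 + 1 / τ) (by positivity) hcτ)
  apply mul_le_mul_of_nonneg_left _ (by positivity)
  linarith

theorem CM (w : ℕ) (hw : 2 ≤ w) (lam : ℝ) (hlam : 0 < lam) (ε : ℝ) (hε : 0 < ε) : ∃ X0 : ℕ, ∀ X : ℕ, X0 ≤ X → ∀ K0 : ℤ,
    |CL (PW w) K0 X (NL (lam * Real.log X)) - (X : ℝ) / PW w * (4 * lam) * HW w K0| ≤ ε * X ∧
    |CL (PW w) K0 X (fun K => NL (lam * Real.log X) K ^ 2) - (X : ℝ) / PW w * ((4 * lam) * HW w K0 + (4 * lam) ^ 2 * HW w K0 ^ 2)| ≤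
      2 / w * ((X : ℝ) / PW w * ((4 * lam) ^ 2 * HW w K0 ^ 2)) + ε * X := by
  obtain ⟨V, hV⟩ : ∃ V, V = (Vz w)⁻¹ := ⟨_, rfl⟩
  have hV1 : 1 ≤ V := by rw [hV]; exact one_le_Vz_inv w
  obtain ⟨B, hB⟩ : ∃ B, B = V ^ 2 := ⟨_, rfl⟩
  have hB1 : 1 ≤ B := by rw [hB]; nlinarith
  obtain ⟨u, hu⟩ : ∃ u, u = 4 * lam := ⟨_, rfl⟩
  have hu0 : 0 < u := by rw [hu]; positivity
  obtain ⟨e, he⟩ : ∃ e, e = ε / 30 := ⟨_, rfl⟩
  have he0 : 0 < e := by rw [he]; positivity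
  obtain ⟨τ, hτ⟩ : ∃ τ, τ = min 1 (ε / (8 * ((u + 2 * u ^ 2) * B))) := ⟨_, rfl⟩
  have hτ0 : 0 < τ := by rw [hτ]; positivity
  have hτ1 : τ ≤ 1 := by rw [hτ]; exact min_le_left _ _
  have hτ2 : τ * ((u + 2 * u ^ 2) * B) ≤ ε / 8 := by
    have h1 : τ ≤ ε / (8 * ((u + 2 * u ^ 2) * B)) := by rw [hτ]; exact min_le_right _ _
    rw [le_div_iff₀ (by positivity)] at h1
    linarith
  obtain ⟨C0, hC0⟩ : ∃ C0, C0 = lam + 1 := ⟨_, rfl⟩
  have hC01 : 1 ≤ C0 := by rw [hC0]; linarith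
  have hlam2 : 0 < lam / 2 := by positivity
  obtain ⟨X1, hX1⟩ := G1 w (lam / 2) C0 hlam2 hC01 e he0
  obtain ⟨X2, hX2⟩ := G2 w hw (lam / 2) C0 hlam2 hC01 e he0
  obtain ⟨ct, hct⟩ : ∃ ct : ℝ, ct = 45 * C0 ^ 2 / e + 600 / e + 600 * (1 + 1 / τ) / e + 8 / lam + 10 + 8 + 80 * (2 * u + 1) * B / ε := ⟨_, rfl⟩
  have hp : 0 ≤ 45 * C0 ^ 2 / e ∧ 0 ≤ 600 / e ∧ 0 ≤ 600 * (1 + 1 / τ) / e ∧ 0 ≤ 8 / lam ∧ 0 ≤ 80 * (2 * u + 1) * B / ε := by
    refine ⟨by positivity, by positivity, by positivity, by positivity, by positivity⟩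
  obtain ⟨hp1, hp2, hp3, hp4, hp5⟩ := hp
  have hct0 : 0 < ct := by rw [hct]; linarith
  obtain ⟨X3, hX3⟩ := eventually_atTop.1 (evt_G C0 (1 / 10) ct hct0 1)
  refine ⟨max (max X1 X2) X3, fun X hX K0 => ?_⟩
  have h1 := hX1 X (((le_max_left _ _).trans (le_max_left _ _)).trans hX)
  have h2 := hX2 X (((le_max_right _ _).trans (le_max_left _ _)).trans hX)
  obtain ⟨hL, hll, hLδ, hL12, hLC, -, -, hLc⟩ := hX3 X ((le_max_right _ _).trans hX)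
  obtain ⟨f1, f2, f3, f4, f5, f6, f7⟩ := Pool.Agent.TH892.OW.S_facts X hL
  have hXS := Nat.lt_succ_sqrt' X
  have hSX := Nat.sqrt_le' X
  obtain ⟨L, hLd⟩ : ∃ L, L = Real.log X := ⟨_, rfl⟩
  obtain ⟨M, hM⟩ : ∃ M : ℕ, M = ⌊lam * L⌋₊ := ⟨_, rfl⟩
  have hL0 : 0 < L := by rw [hLd]; linarith
  have hM1 : (M : ℝ) ≤ lam * L := by rw [hM]; exact Nat.floor_le (by positivity)
  have hM2 : lam * L < M + 1 := by rw [hM]; exact Nat.lt_floor_add_one _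
  have hlL : 8 ≤ lam * L := by
    have : 8 / lam ≤ L := by rw [hLd]; linarith
    rw [div_le_iff₀ hlam] at this
    linarith
  have hM3 : 1 ≤ M := by
    have : (1 : ℝ) < M + 1 := by linarith
    have h3 : (0 : ℝ) < M := by linarith
    exact_mod_cast h3
  have hm1c : ((M - 1 : ℕ) : ℝ) = M - 1 := by
    rw [Nat.cast_sub hM3]; norm_num
  have hm1a : lam / 2 * Real.log X ≤ ((M - 1 : ℕ) : ℝ) := by rw [hm1c, ← hLd]; linarith
  have hm1b : ((M - 1 : ℕ) : ℝ) ≤ C0 * Real.log X := by rw [hm1c, ← hLd, hC0]; linarith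
  have hm2a : lam / 2 * Real.log X ≤ ((M + 2 : ℕ) : ℝ) := by push_cast; rw [← hLd]; linarith
  have hm2b : ((M + 2 : ℕ) : ℝ) ≤ C0 * Real.log X := by push_cast; rw [← hLd, hC0]; linarith
  obtain ⟨a1, a2, a3, -, -, -, -, -⟩ := A_facts X (1 / 10) C0 (by norm_num) le_rfl hC01 hL hll hLδ hL12 (M + 2) hm2b hLC
  have hAfl : (AA X : ℝ) ≤ (Nat.sqrt X : ℝ) / Real.log X ^ 2 := by
    unfold AA
    exact Nat.floor_le (by positivity)
  have hS0 : (1 : ℝ) ≤ Nat.sqrt X := by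
    have : (100 : ℝ) ≤ Nat.sqrt X := by exact_mod_cast f6
    linarith
  obtain ⟨T1, T2, T3, T4⟩ := trash X (Nat.sqrt X) (AA X) ((M + 2 : ℕ) : ℝ) (Real.log X) C0 e (Real.log (Nat.sqrt X)) (by exact_mod_cast f1)
    hS0 f2 hAfl (Nat.cast_nonneg _) hL (Nat.cast_nonneg _) hm2b hC01 hL12 he0 (by linarith) f5 (by linarith) τ hτ0 (by linarith)
  have hcc := CC_NC (PW w) K0 (AA X) (Nat.sqrt X) a3 (by omega)
  have hsand := sandwich w K0 (AA X) (Nat.sqrt X) X (M - 1) (M + 2) (lam * Real.log X) τ hτ0 (by omega) a3 hSX hXS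
    (by rw [hm1c, ← hLd]; linarith) (by omega) (by push_cast; rw [← hLd]; linarith) (by omega)
  obtain ⟨s1, s2, s3, s4⟩ := hsand
  have g11 := h1 (M - 1) hm1a hm1b K0
  have g12 := h1 (M + 2) hm2a hm2b K0
  have g21 := h2 (M - 1) hm1a hm1b K0
  have g22 := h2 (M + 2) hm2a hm2b K0
  obtain ⟨h, hh⟩ : ∃ h, h = HW w K0 := ⟨_, rfl⟩
  have hh0 : 0 ≤ h := by rw [hh]; exact HW_nonneg w K0
  have hhV : h ≤ V := by rw [hh, hV]; exact HW_le w K0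
  obtain ⟨Y, hY⟩ : ∃ Y : ℝ, Y = (X : ℝ) / PW w := ⟨_, rfl⟩
  have hX0 : (0 : ℝ) ≤ X := Nat.cast_nonneg X
  have hPW1 : (1 : ℝ) ≤ PW w := by exact_mod_cast PW_pos w
  have hYX : Y ≤ X := by rw [hY]; exact div_le_self hX0 hPW1
  have hY0 : 0 ≤ Y := by rw [hY]; positivity
  rw [← hY, ← hh] at g11 g12 g21 g22 ⊢
  rw [← hu]
  obtain ⟨η, hη⟩ : ∃ η, η = 8 / L := ⟨_, rfl⟩
  have hη0 : 0 ≤ η := by rw [hη]; positivity
  have hLc' : ct ≤ L := by rw [hLd]; exact hLc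
  have hη1 : η ≤ 1 := by rw [hη, div_le_one hL0]; linarith
  have hη2 : η * (2 * u + 1) * B ≤ ε / 10 := by
    rw [hη]
    have h3 : 80 * (2 * u + 1) * B / ε ≤ L := by linarith
    rw [div_le_iff₀ hε] at h3
    have e1 : 8 / L * (2 * u + 1) * B = 8 * (2 * u + 1) * B / L := by ring
    rw [e1, div_le_iff₀ hL0]
    linarith
  have hη3 : η * B ≤ ε / 10 := by
    refine le_trans ?_ hη2
    have : η * B * 1 ≤ η * B * (2 * u + 1) := mul_le_mul_of_nonneg_left (by linarith) (by positivity)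
    linarith
  have hYh : Y * h ≤ B * X := by
    have h3 : Y * h ≤ X * V := mul_le_mul hYX hhV hh0 hX0
    have h4 : V ≤ B := by rw [hB]; nlinarith
    have h5 : X * V ≤ X * B := mul_le_mul_of_nonneg_left h4 hX0
    linarith
  have hYh2 : Y * h ^ 2 ≤ B * X := by
    have h3 : Y * h ^ 2 ≤ X * V ^ 2 := mul_le_mul hYX (pow_le_pow_left₀ hh0 hhV 2) (by positivity) hX0
    rw [hB]; linarith
  have hw0 : (2 : ℝ) ≤ w := by exact_mod_cast hw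
  have hfin1 : η * B + 3 * e ≤ ε := by linarith
  have hfin2 : τ * ((u + 2 * u ^ 2) * B) + (2 * η * B + 4 * η * (2 * u + 1) * B + 6 * e) ≤ ε := by
    have q1 : 2 * η * B = 2 * (η * B) := by ring
    have q2 : 4 * η * (2 * u + 1) * B = 4 * (η * (2 * u + 1) * B) := by ring
    rw [q1, q2]
    linarith
  have key := arCM X Y h B u (4 * ((M - 1 : ℕ) : ℝ) / L) (4 * ((M + 2 : ℕ) : ℝ) / L) η (2 / w) e τ (CC (PW w) K0 (AA X) (Nat.sqrt X) NC)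
    ((((AA X : ℕ) : ℝ) ^ 2 + 2 * (Nat.sqrt X : ℝ) + 1) * (2 * ((M + 2 : ℕ) : ℝ) + 1))
    ((((AA X : ℕ) : ℝ) ^ 2 + 2 * (Nat.sqrt X : ℝ) + 1) * (2 * ((M + 2 : ℕ) : ℝ) + 1) ^ 2)
    (SS1 w K0 (AA X) (Nat.sqrt X) (M - 1)) (SS1 w K0 (AA X) (Nat.sqrt X) (M + 2))
    (SS2 w K0 (AA X) (Nat.sqrt X) (M - 1)) (SS2 w K0 (AA X) (Nat.sqrt X) (M + 2))
    (CL (PW w) K0 X (NL (lam * Real.log X))) (CL (PW w) K0 X (fun K => NL (lam * Real.log X) K ^ 2)) ε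
    hX0 hY0 hh0 hYh hYh2 (by linarith) hu0.le (by positivity)
    (by rw [div_le_iff₀ hL0, hm1c, hu]; linarith) (by rw [le_div_iff₀ hL0, hu]; push_cast; linarith)
    (by
      rw [hm1c, hu, hη, sub_le_iff_le_add, ← add_div, le_div_iff₀ hL0]
      linarith)
    (by
      rw [hu, hη, sub_le_iff_le_add, div_le_iff₀ hL0, add_mul, div_mul_cancel₀ _ hL0.ne']
      push_cast
      linarith)
    hη1 hη0 (by positivity) (by rw [div_le_one (by linarith)]; exact hw0) he0.le hτ0 hτ1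
    (by rw [hLd]; exact g11) (by rw [hLd]; exact g12)
    (by rw [hLd]; exact g21) (by rw [hLd]; exact g22)
    s1 s2 s3 s4 (hcc.trans T3) ?_ T1 T2 hfin1 hfin2
  · obtain ⟨k1, k2⟩ := key
    refine ⟨k1, ?_⟩
    exact k2
  · refine le_trans ?_ T4
    apply mul_le_mul_of_nonneg_left _ (by positivity)
    linarith

end Pool.Agent.X40.VAR
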