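import Pool.Agent.X40.VAR.V15

/-!
The density constant as an Euler product, and its mean values over the residue classes.
-/

set_option autoImplicit false

namespace Pool.Agent.X40.VAR

open Finset Filter
open Pool.Agent.H373R2.T7 (pz Vz lamz mem_pz Vz_inv_small)
open Pool.Agent.TH892.OW (primes_int Vz_pos one_le_Vz_inv evt_ll)
open Pool.Agent.TH892.SW (HP rk root_card prod_rk js_le)
open Pool.Agent.H442R2.EHI (evt_log_pow evt_log_ge)
open Pool.Agent.X40.HLK (P1 P1_nonneg P1_le)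

/-- the Chinese remainder theorem for sums -/
lemma crt_sum (a b : ℕ) (ha : 1 ≤ a) (hb : 1 ≤ b) (hab : Nat.Coprime a b) (f g : ℕ → ℝ) (hf : ∀ n, f (n % a) = f n)
    (hg : ∀ n, g (n % b) = g n) : ∑ n ∈ range (a * b), f n * g n = (∑ n ∈ range a, f n) * ∑ n ∈ range b, g n := by
  rw [sum_mul_sum, ← sum_product']
  symm
  refine sum_nbij' (fun q : ℕ × ℕ => (Nat.chineseRemainder hab q.1 q.2 : ℕ)) (fun n => (n % a, n % b)) ?_ ?_ ?_ ?_ ?_
  · intro q _
    rw [mem_range]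
    exact Nat.chineseRemainder_lt_mul hab q.1 q.2 (by omega) (by omega)
  · intro n _
    rw [mem_product, mem_range, mem_range]
    exact ⟨Nat.mod_lt _ (by omega), Nat.mod_lt _ (by omega)⟩
  · intro q hq
    rw [mem_product, mem_range, mem_range] at hq
    have h1 := (Nat.chineseRemainder hab q.1 q.2).2.1
    have h2 := (Nat.chineseRemainder hab q.1 q.2).2.2
    apply Prod.ext
    · simp only
      have : (Nat.chineseRemainder hab q.1 q.2 : ℕ) % a = q.1 % a := h1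
      rw [this, Nat.mod_eq_of_lt hq.1]
    · simp only
      have : (Nat.chineseRemainder hab q.1 q.2 : ℕ) % b = q.2 % b := h2
      rw [this, Nat.mod_eq_of_lt hq.2]
  · intro n hn
    rw [mem_range] at hn
    symm
    have h1 := (Nat.chineseRemainder hab (n % a) (n % b)).2.1
    have h2 := (Nat.chineseRemainder hab (n % a) (n % b)).2.2
    have h3 := Nat.chineseRemainder_lt_mul hab (n % a) (n % b) (by omega) (by omega)
    have h4 : n ≡ (Nat.chineseRemainder hab (n % a) (n % b) : ℕ) [MOD a * b] := by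
      rw [← Nat.modEq_and_modEq_iff_modEq_mul hab]
      exact ⟨(Nat.mod_modEq n a).symm.trans h1.symm, (Nat.mod_modEq n b).symm.trans h2.symm⟩
    have h5 : n % (a * b) = (Nat.chineseRemainder hab (n % a) (n % b) : ℕ) % (a * b) := h4
    rwa [Nat.mod_eq_of_lt hn, Nat.mod_eq_of_lt h3] at h5
  · intro q hq
    rw [mem_product, mem_range, mem_range] at hq
    have h1 : (Nat.chineseRemainder hab q.1 q.2 : ℕ) % a = q.1 % a := (Nat.chineseRemainder hab q.1 q.2).2.1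
    have h2 : (Nat.chineseRemainder hab q.1 q.2 : ℕ) % b = q.2 % b := (Nat.chineseRemainder hab q.1 q.2).2.2
    rw [← hf (Nat.chineseRemainder hab q.1 q.2 : ℕ), ← hg (Nat.chineseRemainder hab q.1 q.2 : ℕ), h1, h2,
      Nat.mod_eq_of_lt hq.1, Nat.mod_eq_of_lt hq.2]

/-- products of functions with prime periods -/
lemma crt_prod (T : Finset ℕ) (hT : ∀ p ∈ T, p.Prime) (f : ℕ → ℕ → ℝ) (hf : ∀ p ∈ T, ∀ n, f p (n % p) = f p n) :
    ∑ n ∈ range (∏ p ∈ T, p), ∏ p ∈ T, f p n = ∏ p ∈ T, ∑ n ∈ range p, f p n := by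
  classical
  induction T using Finset.induction_on with
  | empty => simp
  | insert q T hq ih =>
    have hT' : ∀ p ∈ T, p.Prime := fun p hp => hT p (mem_insert_of_mem hp)
    have hf' : ∀ p ∈ T, ∀ n, f p (n % p) = f p n := fun p hp => hf p (mem_insert_of_mem hp)
    have hqp := hT q (mem_insert_self _ _)
    simp_rw [prod_insert hq]
    rw [← ih hT' hf']
    apply crt_sum q _ hqp.one_le (Nat.one_le_iff_ne_zero.2 (prod_ne_zero_iff.2 fun p hp => (hT' p hp).ne_zero)) _ (f q)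
      (fun n => ∏ p ∈ T, f p n) (hf q (mem_insert_self _ _))
    · intro n
      refine prod_congr rfl fun p hp => ?_
      rw [← hf' p hp (n % ∏ p ∈ T, p), Nat.mod_mod_of_dvd _ (dvd_prod_of_mem _ hp), hf' p hp]
    · apply Nat.Coprime.prod_right
      intro p hp
      exact (Nat.coprime_primes hqp (hT' p hp)).2 (fun h => hq (h ▸ hp))

lemma mod_dvd (p : ℕ) (n : ℕ) : (p : ℤ) ∣ ((n % p : ℕ) : ℤ) - n := by
  refine ⟨-((n / p : ℕ) : ℤ), ?_⟩
  have h : ((n % p + p * (n / p) : ℕ) : ℤ) = n := by rw [Nat.mod_add_div]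
  push_cast at h ⊢
  linarith

lemma rI_prod (w : ℕ) (K0 x : ℤ) : rI w K0 x = ∏ p ∈ pz w, (if (p : ℤ) ∣ x ^ 2 - K0 then (0 : ℝ) else 1) := by
  unfold rI Rw
  by_cases h : ∀ p ∈ pz w, ¬ (p : ℤ) ∣ x ^ 2 - K0
  · rw [if_pos h, prod_eq_one]
    intro p hp
    rw [if_neg (h p hp)]
  · rw [if_neg h]
    push Not at h
    obtain ⟨p, hp, hpd⟩ := h
    symm
    apply prod_eq_zero hp
    rw [if_pos hpd]

/-- the number of good residues -/
lemma rr_prod (w : ℕ) (K0 : ℤ) : rr w K0 = ∏ p ∈ pz w, ((p : ℝ) - rk K0 p) := by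
  unfold rr PW
  simp_rw [rI_prod]
  rw [crt_prod (pz w) (fun p hp => (mem_pz.1 hp).2) (fun p n => if (p : ℤ) ∣ (n : ℤ) ^ 2 - K0 then (0 : ℝ) else 1)]
  · refine prod_congr rfl fun p hp => ?_
    have h1 := root_card p (mem_pz.1 hp).2 0 K0
    have h2 : ∑ n ∈ range p, (if (p : ℤ) ∣ (n : ℤ) ^ 2 - K0 then (0 : ℝ) else 1) =
        (p : ℝ) - (((range p).filter (fun a : ℕ => (p : ℤ) ∣ ((0 : ℤ) + a) ^ 2 - K0)).card : ℝ) := by
      have h3 : ∀ n ∈ range p, (if (p : ℤ) ∣ (n : ℤ) ^ 2 - K0 then (0 : ℝ) else 1) =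
          1 - (if (p : ℤ) ∣ ((0 : ℤ) + n) ^ 2 - K0 then (1 : ℝ) else 0) := by
        intro n _
        rw [zero_add]
        split_ifs <;> norm_num
      rw [sum_congr rfl h3, sum_sub_distrib, sum_const, card_range, nsmul_eq_mul, mul_one, sum_boole]
    rw [h2, h1]
    unfold rk
    rfl
  · intro p _ n
    have h1 : (p : ℤ) ∣ ((n % p : ℕ) : ℤ) ^ 2 - K0 ↔ (p : ℤ) ∣ (n : ℤ) ^ 2 - K0 := by
      have e : ((n % p : ℕ) : ℤ) ^ 2 - K0 = ((n : ℤ) ^ 2 - K0) + (((n % p : ℕ) : ℤ) - n) * (((n % p : ℕ) : ℤ) + n) := by ring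
      rw [e]
      exact dvd_add_left ((mod_dvd p n).mul_right _)
    simp only [h1]

/-- the constant is the Euler product -/
theorem HW_eq (w : ℕ) (K0 : ℤ) : HW w K0 = HP K0 w := by
  have hPW : (PW w : ℝ) = ∏ p ∈ pz w, (p : ℝ) := by unfold PW; push_cast; rfl
  have hV := (Vz_pos w).ne'
  have hPW0 : (PW w : ℝ) ≠ 0 := by have := PW_pos w; positivity
  have h1 : rr w K0 = PW w * (Vz w * HP K0 w) := by
    rw [← prod_rk, rr_prod, hPW, ← prod_mul_distrib]
    refine prod_congr rfl fun p hp => ?_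
    have hp0 : (p : ℝ) ≠ 0 := by exact_mod_cast (mem_pz.1 hp).2.ne_zero
    field_simp
  unfold HW
  rw [h1]
  field_simp

lemma rI_congr (w : ℕ) (K K0 x : ℤ) (h : (PW w : ℤ) ∣ K - K0) : rI w K x = rI w K0 x := by
  rw [rI_prod, rI_prod]
  refine prod_congr rfl fun p hp => ?_
  have h1 : (p : ℤ) ∣ K - K0 := ((dvd_PWz (mem_pz.1 hp).2).2 hp).trans h
  have h2 : (p : ℤ) ∣ x ^ 2 - K ↔ (p : ℤ) ∣ x ^ 2 - K0 := by
    have e : x ^ 2 - K0 = (x ^ 2 - K) + (K - K0) := by ring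
    rw [e]
    exact (dvd_add_left h1).symm
  simp only [h2]

/-- the constant depends only on the residue class -/
lemma HP_congr (w : ℕ) (K K0 : ℤ) (h : (PW w : ℤ) ∣ K - K0) : HP K w = HP K0 w := by
  rw [← HW_eq, ← HW_eq]
  unfold HW rr
  congr 2
  exact sum_congr rfl fun ν _ => rI_congr w K K0 ν h

/-- one Euler factor -/
noncomputable def gp (K : ℤ) (p : ℕ) : ℝ := if p ≠ 2 then 1 - (jacobiSym K p : ℝ) / ((p : ℝ) - 1) else 1

lemma HP_gp (K : ℤ) (y : ℕ) : HP K y = ∏ p ∈ pz y, gp K p := by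
  unfold HP gp
  rw [← prod_filter]
  apply prod_congr _ fun _ _ => rfl
  ext p
  rw [mem_filter, mem_filter, mem_range, mem_pz, Nat.lt_succ_iff]
  tauto

lemma gp_per (p n : ℕ) : gp ((n % p : ℕ) : ℤ) p = gp (n : ℤ) p := by
  unfold gp
  rw [jacobiSym.mod_left (n : ℤ) p]
  push_cast
  rfl

lemma sum_jac (p : ℕ) (hp : p.Prime) (h2 : p ≠ 2) : ∑ n ∈ range p, (jacobiSym (n : ℤ) p : ℝ) = 0 := by
  have h1 : ∀ n ∈ range p, (jacobiSym (n : ℤ) p : ℝ) =
      ∑ a ∈ range p, (if (p : ℤ) ∣ ((0 : ℤ) + a) ^ 2 - (n : ℤ) then (1 : ℝ) else 0) - 1 := by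
    intro n _
    have := root_card p hp 0 (n : ℤ)
    rw [if_neg h2] at this
    rw [sum_boole, this]
    ring
  rw [sum_congr rfl h1, sum_sub_distrib, sum_comm, sum_const, card_range, nsmul_eq_mul, mul_one]
  have h3 : ∀ a ∈ range p, ∑ n ∈ range p, (if (p : ℤ) ∣ ((0 : ℤ) + a) ^ 2 - (n : ℤ) then (1 : ℝ) else 0) = 1 := by
    intro a _
    rw [sum_eq_single (a ^ 2 % p)]
    · rw [if_pos]
      have := mod_dvd p (a ^ 2)
      have e : ((0 : ℤ) + a) ^ 2 - ((a ^ 2 % p : ℕ) : ℤ) = -(((a ^ 2 % p : ℕ) : ℤ) - ((a ^ 2 : ℕ) : ℤ)) := by push_cast; ring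
      rw [e, dvd_neg]
      exact this
    · intro n hn hne
      rw [if_neg]
      intro hd
      apply hne
      rw [mem_range] at hn
      have h4 : (n : ℤ) ≡ ((a ^ 2 : ℕ) : ℤ) [ZMOD p] := by
        rw [Int.modEq_iff_dvd]
        push_cast
        rwa [zero_add] at hd
      have h5 : n ≡ a ^ 2 [MOD p] := (Int.natCast_modEq_iff).1 h4
      have h6 : n % p = a ^ 2 % p := h5
      rw [← h6, Nat.mod_eq_of_lt hn]
    · intro h
      exact absurd (mem_range.2 (Nat.mod_lt _ hp.pos)) h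
  rw [sum_congr rfl h3, sum_const, card_range, nsmul_eq_mul, mul_one, sub_self]

lemma sum_gp (p : ℕ) (hp : p.Prime) : ∑ n ∈ range p, gp (n : ℤ) p = p := by
  unfold gp
  by_cases h2 : p = 2
  · simp [h2]
  · have h1 : ∀ n ∈ range p, (if p ≠ 2 then 1 - (jacobiSym (n : ℤ) p : ℝ) / ((p : ℝ) - 1) else 1) =
        1 - (jacobiSym (n : ℤ) p : ℝ) * (1 / ((p : ℝ) - 1)) := by
      intro n _
      rw [if_pos h2]; ring
    rw [sum_congr rfl h1, sum_sub_distrib, ← sum_mul, sum_jac p hp h2, zero_mul, sub_zero, sum_const, card_range,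
      nsmul_eq_mul, mul_one]

/-- the bound for the mean square of one factor -/
noncomputable def vq (p : ℕ) : ℝ := if p ≠ 2 then 1 + 1 / ((p : ℝ) - 1) ^ 2 else 1

lemma sum_gp_sq (p : ℕ) (hp : p.Prime) : ∑ n ∈ range p, gp (n : ℤ) p ^ 2 ≤ p * vq p := by
  have h0 : ∑ n ∈ range p, gp (n : ℤ) p ^ 2 = ∑ n ∈ range p, ((gp (n : ℤ) p - 1) ^ 2 + (2 * gp (n : ℤ) p - 1)) := by
    refine sum_congr rfl fun n _ => ?_
    ring
  rw [h0, sum_add_distrib, sum_sub_distrib, ← mul_sum, sum_gp p hp, sum_const, card_range, nsmul_eq_mul, mul_one]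
  have h1 : ∑ n ∈ range p, (gp (n : ℤ) p - 1) ^ 2 ≤ p * (vq p - 1) := by
    have h2 : ∀ n ∈ range p, (gp (n : ℤ) p - 1) ^ 2 ≤ vq p - 1 := by
      intro n _
      unfold gp vq
      split_ifs with h
      · have h3 := abs_le.1 (js_le (n : ℤ) p)
        have h4 : (jacobiSym (n : ℤ) p : ℝ) ^ 2 ≤ 1 := by nlinarith
        have e : (1 - (jacobiSym (n : ℤ) p : ℝ) / ((p : ℝ) - 1) - 1) ^ 2 = (jacobiSym (n : ℤ) p : ℝ) ^ 2 * (1 / ((p : ℝ) - 1) ^ 2) := by
          rw [sub_sub_cancel_left, neg_sq, div_pow]; ring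
        rw [e, add_sub_cancel_left]
        have h5 : 0 ≤ 1 / ((p : ℝ) - 1) ^ 2 := by positivity
        nlinarith
      · norm_num
    refine (sum_le_sum h2).trans ?_
    rw [sum_const, card_range, nsmul_eq_mul]
  linarith

lemma vq_one (p : ℕ) : 1 ≤ vq p := by
  unfold vq
  split_ifs
  · have : 0 ≤ 1 / ((p : ℝ) - 1) ^ 2 := by positivity
    linarith
  · exact le_rfl

/-- a product over large primes -/
lemma prod_vq (w z : ℕ) (hw : 2 ≤ w) (hwz : w ≤ z) : ∏ p ∈ pz z \ pz w, vq p ≤ Real.exp (1 / ((w : ℝ) - 1)) := by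
  have h1 : ∏ p ∈ pz z \ pz w, vq p ≤ ∏ p ∈ Ioc w z, Real.exp (1 / ((p : ℝ) - 1) ^ 2) := by
    have h2 : ∏ p ∈ pz z \ pz w, vq p ≤ ∏ p ∈ pz z \ pz w, Real.exp (1 / ((p : ℝ) - 1) ^ 2) := by
      apply Finset.prod_le_prod
      · intro p _
        linarith [vq_one p]
      · intro p _
        unfold vq
        split_ifs
        · have := Real.add_one_le_exp (1 / ((p : ℝ) - 1) ^ 2)
          linarith
        · exact Real.one_le_exp (by positivity)
    refine h2.trans ?_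
    apply Finset.prod_le_prod_of_subset_of_one_le
    · intro p hp
      rw [Finset.mem_sdiff, mem_pz, mem_pz] at hp
      rw [mem_Ioc]
      have := hp.1.2
      refine ⟨?_, hp.1.1⟩
      by_contra h
      exact hp.2 ⟨by omega, this⟩
    · intro p _
      exact (Real.exp_pos _).le
    · intro p _ _
      exact Real.one_le_exp (by positivity)
  refine h1.trans ?_
  rw [← Real.exp_sum, Real.exp_le_exp]
  have h3 : ∀ y : ℕ, w ≤ y → ∑ p ∈ Ioc w y, 1 / ((p : ℝ) - 1) ^ 2 ≤ 1 / ((w : ℝ) - 1) - 1 / ((y : ℝ) - 1) := by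
    intro y hy
    induction y, hy using Nat.le_induction with
    | base => simp
    | succ y hy ih =>
      rw [sum_Ioc_succ_top hy]
      have hy2 : (2 : ℝ) ≤ y := by exact_mod_cast hw.trans hy
      push_cast
      have h4 : 1 / ((y : ℝ) + 1 - 1) ^ 2 ≤ 1 / ((y : ℝ) - 1) - 1 / ((y : ℝ) + 1 - 1) := by
        rw [add_sub_cancel_right, div_sub_div _ _ (by linarith) (by linarith), div_le_div_iff₀ (by positivity) (by nlinarith)]
        nlinarith
      linarith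
  have h5 := h3 z hwz
  have hz : (2 : ℝ) ≤ z := by exact_mod_cast hw.trans hwz
  have h6 : 0 ≤ 1 / ((z : ℝ) - 1) := by
    apply div_nonneg zero_le_one
    linarith
  linarith

end Pool.Agent.X40.VAR
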