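import Pool.Agent.X40.VAR.V16

/-!
Mean values of the constants over the residue classes.
-/

set_option autoImplicit false

namespace Pool.Agent.X40.VAR

open Finset Filter
open Pool.Agent.H373R2.T7 (pz Vz lamz mem_pz Vz_inv_small)
open Pool.Agent.TH892.OW (pz_mono)
open Pool.Agent.TH892.SW (HP rk root_card prod_rk js_le)

/-- the mean of the constant -/
lemma HP_mean (w : ℕ) : ∑ n ∈ range (PW w), HP (n : ℤ) w = PW w := by
  simp_rw [HP_gp]
  have h := crt_prod (pz w) (fun p hp => (mem_pz.1 hp).2) (fun p n => gp (n : ℤ) p) (fun p _ n => gp_per p n)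
  have h2 : ∏ p ∈ pz w, ∑ n ∈ range p, gp (n : ℤ) p = PW w := by
    unfold PW
    push_cast
    exact prod_congr rfl fun p hp => sum_gp p (mem_pz.1 hp).2
  rw [← h2, ← h]
  rfl

lemma prod_sq_le (T : Finset ℕ) (hT : ∀ p ∈ T, p.Prime) :
    ∑ n ∈ range (∏ p ∈ T, p), (∏ p ∈ T, gp (n : ℤ) p) ^ 2 ≤ ((∏ p ∈ T, p : ℕ) : ℝ) * ∏ p ∈ T, vq p := by
  simp_rw [← prod_pow]
  rw [crt_prod T hT (fun p n => gp (n : ℤ) p ^ 2) (fun p _ n => by simp only [gp_per])]
  push_cast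
  rw [← prod_mul_distrib]
  apply Finset.prod_le_prod
  · intro p _
    exact sum_nonneg fun n _ => sq_nonneg _
  · intro p hp
    exact sum_gp_sq p (hT p hp)

/-- the mean square of the constant -/
lemma HP_sq_mean (w : ℕ) (hw : 2 ≤ w) : ∑ n ∈ range (PW w), HP (n : ℤ) w ^ 2 ≤ 3 * PW w := by
  simp_rw [HP_gp]
  have h := prod_sq_le (pz w) (fun p hp => (mem_pz.1 hp).2)
  have e : ∏ p ∈ pz w, p = PW w := rfl
  rw [e] at h
  refine h.trans ?_
  have h1 : ∏ p ∈ pz w, vq p ≤ 3 := by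
    have h2 := prod_vq 2 w le_rfl hw
    have h3 : ∏ p ∈ pz w, vq p = ∏ p ∈ pz w \ pz 2, vq p := by
      rw [← prod_sdiff (pz_mono hw)]
      have h4 : ∏ p ∈ pz 2, vq p = 1 := by
        apply prod_eq_one
        intro p hp
        rw [mem_pz] at hp
        have := hp.2.two_le
        have : p = 2 := by omega
        unfold vq
        rw [if_neg (not_not.2 this)]
      rw [h4, mul_one]
    rw [h3]
    refine h2.trans ?_
    have : (1 : ℝ) / ((2 : ℕ) - 1 : ℝ) = 1 := by norm_num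
    rw [this]
    have := Real.exp_one_lt_d9
    linarith
  have h0 : (0 : ℝ) ≤ PW w := Nat.cast_nonneg _
  nlinarith

/-- the mean square of the difference of two cuts -/
lemma HP_diff_mean (w z : ℕ) (hw : 2 ≤ w) (hwz : w ≤ z) :
    ∑ n ∈ range (PW z), (HP (n : ℤ) z - HP (n : ℤ) w) ^ 2 ≤ 6 / ((w : ℝ) - 1) * PW z := by
  obtain ⟨Q, hQ⟩ : ∃ Q : ℕ, Q = ∏ p ∈ pz z \ pz w, p := ⟨_, rfl⟩
  have hsub := pz_mono hwz
  have hw0 : (2 : ℝ) ≤ w := by exact_mod_cast hw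
  have hTp : ∀ p ∈ pz z \ pz w, p.Prime := fun p hp => (mem_pz.1 (Finset.mem_sdiff.1 hp).1).2
  have hPQ : PW z = PW w * Q := by
    unfold PW
    rw [hQ, mul_comm, prod_sdiff hsub]
  have hcop : Nat.Coprime (PW w) Q := by
    rw [hQ]
    unfold PW
    apply Nat.Coprime.prod_left
    intro p hp
    apply Nat.Coprime.prod_right
    intro q hq
    rw [Finset.mem_sdiff] at hq
    exact (Nat.coprime_primes (mem_pz.1 hp).2 (mem_pz.1 hq.1).2).2 (fun h => hq.2 (h ▸ hp))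
  have hQ1 : 1 ≤ Q := by rw [hQ]; exact Nat.one_le_iff_ne_zero.2 (prod_ne_zero_iff.2 fun p hp => (hTp p hp).ne_zero)
  obtain ⟨R, hR⟩ : ∃ R : ℕ → ℝ, ∀ n, R n = ∏ p ∈ pz z \ pz w, gp (n : ℤ) p := ⟨_, fun _ => rfl⟩
  have h1 : ∀ n ∈ range (PW z), (HP (n : ℤ) z - HP (n : ℤ) w) ^ 2 = HP (n : ℤ) w ^ 2 * (R n - 1) ^ 2 := by
    intro n _
    have e : HP (n : ℤ) z = R n * HP (n : ℤ) w := by rw [hR, HP_gp, HP_gp, prod_sdiff hsub]
    rw [e]; ring
  rw [sum_congr rfl h1]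
  have hRper : ∀ n, R (n % Q) = R n := by
    intro n
    rw [hR, hR]
    refine prod_congr rfl fun p hp => ?_
    rw [← gp_per p (n % Q), hQ, Nat.mod_mod_of_dvd _ (dvd_prod_of_mem _ hp), gp_per]
  have h2 := crt_sum (PW w) Q (PW_pos w) hQ1 hcop (fun n => HP (n : ℤ) w ^ 2) (fun n => (R n - 1) ^ 2)
    (fun n => by
      rw [HP_congr w ((n % PW w : ℕ) : ℤ) (n : ℤ) (mod_dvd (PW w) n)])
    (fun n => by simp only [hRper])
  rw [hPQ, h2]
  have hsum1 : ∑ n ∈ range Q, R n = Q := by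
    have h := crt_prod (pz z \ pz w) hTp (fun p n => gp (n : ℤ) p) (fun p _ n => gp_per p n)
    have h3 : ∏ p ∈ pz z \ pz w, ∑ n ∈ range p, gp (n : ℤ) p = Q := by
      rw [hQ]
      push_cast
      exact prod_congr rfl fun p hp => sum_gp p (hTp p hp)
    rw [h3, ← hQ] at h
    rw [← h]
    exact sum_congr rfl fun n _ => hR n
  have hsum2 : ∑ n ∈ range Q, R n ^ 2 ≤ Q * Real.exp (1 / ((w : ℝ) - 1)) := by
    have h := prod_sq_le (pz z \ pz w) hTp
    rw [← hQ] at h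
    have h3 : ∑ n ∈ range Q, R n ^ 2 = ∑ n ∈ range Q, (∏ p ∈ pz z \ pz w, gp (n : ℤ) p) ^ 2 := by
      refine sum_congr rfl fun n _ => ?_
      rw [hR]
    rw [h3]
    exact h.trans (mul_le_mul_of_nonneg_left (prod_vq w z hw hwz) (Nat.cast_nonneg Q))
  have hsum3 : ∑ n ∈ range Q, (R n - 1) ^ 2 ≤ Q * (2 / ((w : ℝ) - 1)) := by
    have e : ∑ n ∈ range Q, (R n - 1) ^ 2 = ∑ n ∈ range Q, R n ^ 2 - Q := by
      have e1 : ∀ n ∈ range Q, (R n - 1) ^ 2 = R n ^ 2 - 2 * R n + 1 := fun n _ => by ring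
      rw [sum_congr rfl e1, sum_add_distrib, sum_sub_distrib, ← mul_sum, hsum1, sum_const, card_range, nsmul_eq_mul]
      ring
    rw [e]
    have hx0 : 0 ≤ 1 / ((w : ℝ) - 1) := by apply div_nonneg zero_le_one; linarith
    have hx1 : 1 / ((w : ℝ) - 1) ≤ 1 := by rw [div_le_one (by linarith)]; linarith
    have h4 : Real.exp (1 / ((w : ℝ) - 1)) ≤ 1 + 2 * (1 / ((w : ℝ) - 1)) := by
      have h5 := Real.abs_exp_sub_one_le (x := 1 / ((w : ℝ) - 1)) (by rw [abs_of_nonneg hx0]; exact hx1)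
      rw [abs_of_nonneg hx0] at h5
      have h6 := (abs_le.1 h5).2
      linarith
    have h5 : (Q : ℝ) * Real.exp (1 / ((w : ℝ) - 1)) ≤ Q * (1 + 2 * (1 / ((w : ℝ) - 1))) :=
      mul_le_mul_of_nonneg_left h4 (Nat.cast_nonneg Q)
    have e2 : (Q : ℝ) * (2 / ((w : ℝ) - 1)) = Q * (2 * (1 / ((w : ℝ) - 1))) := by ring
    rw [e2]
    linarith
  have h6 := HP_sq_mean w hw
  push_cast
  calc (∑ n ∈ range (PW w), HP (n : ℤ) w ^ 2) * ∑ n ∈ range Q, (R n - 1) ^ 2 ≤ (3 * PW w) * (Q * (2 / ((w : ℝ) - 1))) :=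
        mul_le_mul h6 hsum3 (sum_nonneg fun _ _ => sq_nonneg _) (by positivity)
    _ = _ := by ring

lemma sum_range_mul_per (Q m : ℕ) (F : ℕ → ℝ) (hF : ∀ n, F (n % Q) = F n) : ∑ n ∈ range (Q * m), F n = m * ∑ n ∈ range Q, F n := by
  induction m with
  | zero => simp
  | succ m ih =>
    rw [mul_add, mul_one, sum_range_add, ih]
    have : ∑ x ∈ range Q, F (Q * m + x) = ∑ x ∈ range Q, F x := by
      refine sum_congr rfl fun x _ => ?_
      rw [← hF (Q * m + x), Nat.mul_add_mod, hF]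
    rw [this]
    push_cast
    ring

/-- sums of nonnegative periodic functions -/
lemma per_sum_le (Q X : ℕ) (hQ : 1 ≤ Q) (F : ℕ → ℝ) (hF : ∀ n, F (n % Q) = F n) (hF0 : ∀ n, 0 ≤ F n) (C : ℝ)
    (hC : ∑ n ∈ range Q, F n ≤ C * Q) (hQX : Q ≤ X) : ∑ K ∈ Icc 1 X, F K ≤ 2 * C * X := by
  have hC0 : 0 ≤ C := by
    have h1 : 0 ≤ C * Q := (sum_nonneg fun n _ => hF0 n).trans hC
    have h2 : (0 : ℝ) < Q := by exact_mod_cast hQ
    exact nonneg_of_mul_nonneg_left h1 h2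
  have hsub : Icc 1 X ⊆ range (Q * (X / Q + 1)) := by
    intro K hK
    rw [mem_Icc] at hK
    rw [mem_range]
    have := Nat.lt_mul_div_succ X (show 0 < Q by omega)
    have e : Q * (X / Q + 1) = Q * (X / Q).succ := rfl
    omega
  refine (sum_le_sum_of_subset_of_nonneg hsub (fun K _ _ => hF0 K)).trans ?_
  rw [sum_range_mul_per Q _ F hF]
  have h1 : ((X / Q + 1 : ℕ) : ℝ) * Q ≤ 2 * X := by
    have h2 : X / Q * Q ≤ X := Nat.div_mul_le_self X Q
    have h3 : (X / Q + 1) * Q ≤ 2 * X := by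
      have : (X / Q + 1) * Q = X / Q * Q + Q := by ring
      omega
    exact_mod_cast h3
  calc ((X / Q + 1 : ℕ) : ℝ) * ∑ n ∈ range Q, F n ≤ ((X / Q + 1 : ℕ) : ℝ) * (C * Q) := mul_le_mul_of_nonneg_left hC (Nat.cast_nonneg _)
    _ = C * (((X / Q + 1 : ℕ) : ℝ) * Q) := by ring
    _ ≤ C * (2 * X) := mul_le_mul_of_nonneg_left h1 hC0
    _ = _ := by ring

lemma PW_le (w : ℕ) : PW w ≤ 4 ^ w := by
  have h : PW w = primorial w := by
    unfold PW primorial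
    apply prod_congr _ fun _ _ => rfl
    ext p
    rw [mem_pz, mem_filter, mem_range, Nat.lt_succ_iff]
  rw [h]
  exact primorial_le_four_pow w

end Pool.Agent.X40.VAR
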