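import Pool.Agent.X40.VAR.V17
import Pool.Agent.TH892.OW.B8

/-!
The constant cut at a power of `log X` is close in mean square to the constant cut at a small
power of `log X`.
-/

set_option autoImplicit false

namespace Pool.Agent.X40.VAR

open Finset Filter
open Pool.Agent.H373R2.T7 (pz Vz lamz mem_pz Vz_inv_small)
open Pool.Agent.TH892.OW (pz_mono Vz_anti one_le_Vz_inv GG GG_ep ep isE_ep fz lz second_fz abs_vn evt_ll evt_ll_ge Vz_log)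
open Pool.Agent.TH892.SW (HP rk root_card prod_rk js_le HP_nonneg vn model)
open Pool.Agent.H442R2.EHI (evt_log_pow evt_log_ge)

lemma HP_le (K : ℤ) (z : ℕ) : HP K z ≤ (Vz z)⁻¹ := by
  rw [← HW_eq]; exact HW_le z K

/-- pointwise -/
lemma HP_point (C1 y0 b w z K L : ℕ)
    (hmod : ∀ z : ℕ, y0 ≤ z → ∀ K a n : ℕ, a ≤ n → |∑ i ∈ Ioc a n, (lamz z (vn K i) - HP K z)| ≤
      2 * (1 / 2 : ℝ) ^ b * HP K z * ((n : ℝ) - a) + 3 * (z : ℝ) ^ (C1 * b) * HP K z)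
    (hw : y0 ≤ w) (hwz : w ≤ z) (δ : ℝ) (hδ : 0 < δ) (hδ2 : δ ≤ 1 / 2) (hb : 2 * (1 / 2 : ℝ) ^ b ≤ δ / 2) (hL : 1 ≤ L)
    (hzL : 3 * (z : ℝ) ^ (C1 * b) ≤ δ / 2 * L) :
    (HP K z - HP K w) ^ 2 ≤ 32 * δ ^ 2 * HP K w ^ 2 +
      8 / (L : ℝ) ^ 2 * GG (fz w z) ep L (Nat.sqrt K : ℕ) ((K : ℤ) - (Nat.sqrt K : ℤ) ^ 2) ^ 2 := by
  have hL0 : (1 : ℝ) ≤ L := by exact_mod_cast hL
  have hLp : (0 : ℝ) < L := by linarith
  obtain ⟨G, hG⟩ : ∃ G, G = GG (fz w z) ep L (Nat.sqrt K : ℕ) ((K : ℤ) - (Nat.sqrt K : ℤ) ^ 2) := ⟨_, rfl⟩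
  rw [← hG]
  rw [GG_ep] at hG
  have hH := HP_nonneg K w
  have hHz := HP_nonneg K z
  have one : ∀ y : ℕ, y0 ≤ y → y ≤ z → |∑ i ∈ Ioc (Nat.sqrt K) (Nat.sqrt K + L), lamz y (vn K i) - L * HP K y| ≤ δ * (L * HP K y) := by
    intro y hy hyz
    have h1 := hmod y hy K (Nat.sqrt K) (Nat.sqrt K + L) (by omega)
    rw [sum_sub_distrib, sum_const, Nat.card_Ioc, nsmul_eq_mul, Nat.add_sub_cancel_left] at h1
    push_cast at h1
    rw [add_sub_cancel_left] at h1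
    refine h1.trans ?_
    have hHy := HP_nonneg K y
    have h2 : 3 * (y : ℝ) ^ (C1 * b) ≤ δ / 2 * L := by
      refine le_trans ?_ hzL
      have : (y : ℝ) ^ (C1 * b) ≤ (z : ℝ) ^ (C1 * b) := pow_le_pow_left₀ (Nat.cast_nonneg _) (by exact_mod_cast hyz) _
      linarith
    have h3 : 2 * (1 / 2 : ℝ) ^ b * HP K y * L ≤ δ / 2 * HP K y * L :=
      mul_le_mul_of_nonneg_right (mul_le_mul_of_nonneg_right hb hHy) hLp.le
    have h4 : 3 * (y : ℝ) ^ (C1 * b) * HP K y ≤ δ / 2 * L * HP K y := mul_le_mul_of_nonneg_right h2 hHy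
    linarith
  have h1 := abs_le.1 (one z (hw.trans hwz) le_rfl)
  have h2 := abs_le.1 (one w hw hwz)
  have h3 : G = ∑ i ∈ Ioc (Nat.sqrt K) (Nat.sqrt K + L), lamz z (vn K i) - ∑ i ∈ Ioc (Nat.sqrt K) (Nat.sqrt K + L), lamz w (vn K i) := by
    rw [hG, ← sum_sub_distrib]
    refine sum_congr rfl fun n hn => ?_
    rw [abs_vn]
    unfold fz lz
    have h4 : 1 ≤ vn K n := by
      rw [mem_Ioc] at hn
      have h5 := Nat.lt_succ_sqrt' K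
      have h6 : (Nat.sqrt K + 1) ^ 2 ≤ n ^ 2 := Nat.pow_le_pow_left hn.1 2
      have h7 : (K : ℤ) < (n : ℤ) ^ 2 := by exact_mod_cast (lt_of_lt_of_le h5 h6)
      unfold vn
      omega
    have h5 : (1 : ℤ) ≤ (vn K n : ℤ) := by exact_mod_cast h4
    rw [if_pos h5, if_pos h5, Int.toNat_natCast]
  obtain ⟨D, hD⟩ : ∃ D, D = HP K z - HP K w := ⟨_, rfl⟩
  rw [← hD]
  have h4 : |L * D| ≤ δ * (L * (HP K z + HP K w)) + |G| := by
    have h5 : L * D = G - ((∑ i ∈ Ioc (Nat.sqrt K) (Nat.sqrt K + L), lamz z (vn K i)) - L * HP K z) +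
      ((∑ i ∈ Ioc (Nat.sqrt K) (Nat.sqrt K + L), lamz w (vn K i)) - L * HP K w) := by rw [h3, hD]; ring
    have h6 := neg_abs_le G
    have h7 := le_abs_self G
    rw [h5, abs_le]
    constructor <;> linarith [h1.1, h1.2, h2.1, h2.2]
  rw [abs_mul, abs_of_pos hLp] at h4
  have h5 : HP K z + HP K w ≤ |D| + 2 * HP K w := by
    have := le_abs_self D
    rw [hD] at this ⊢
    linarith
  have h6 : δ * (L * (HP K z + HP K w)) ≤ 1 / 2 * (L * |D|) + δ * (L * (2 * HP K w)) := by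
    have a1 : δ * (L * (HP K z + HP K w)) ≤ δ * (L * (|D| + 2 * HP K w)) := by
      apply mul_le_mul_of_nonneg_left _ hδ.le
      exact mul_le_mul_of_nonneg_left h5 hLp.le
    have a2 : δ * (L * |D|) ≤ 1 / 2 * (L * |D|) := mul_le_mul_of_nonneg_right hδ2 (by positivity)
    have e : δ * (L * (|D| + 2 * HP K w)) = δ * (L * |D|) + δ * (L * (2 * HP K w)) := by ring
    linarith
  have h7 : |D| ≤ 4 * δ * HP K w + 2 * (|G| / L) := by
    have h8 : L * |D| ≤ L * (4 * δ * HP K w) + 2 * |G| := by nlinarith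
    have h9 : L * |D| ≤ L * (4 * δ * HP K w + 2 * (|G| / L)) := by
      have e : L * (4 * δ * HP K w + 2 * (|G| / L)) = L * (4 * δ * HP K w) + 2 * |G| := by field_simp
      rw [e]; exact h8
    exact le_of_mul_le_mul_left h9 hLp
  have h8 : D ^ 2 ≤ (4 * δ * HP K w + 2 * (|G| / L)) ^ 2 := by
    rw [← sq_abs D]
    exact pow_le_pow_left₀ (abs_nonneg _) h7 2
  have h9 : (4 * δ * HP K w + 2 * (|G| / L)) ^ 2 ≤ 2 * (4 * δ * HP K w) ^ 2 + 2 * (2 * (|G| / L)) ^ 2 := by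
    nlinarith [sq_nonneg (4 * δ * HP K w - 2 * (|G| / L))]
  have e1 : 2 * (2 * (|G| / L)) ^ 2 = 8 / (L : ℝ) ^ 2 * G ^ 2 := by
    rw [mul_pow, div_pow, sq_abs]; ring
  rw [e1] at h9
  nlinarith

/-- from the sum over `K` to the sum over the pairs -/
lemma sum_pairs (F : ℤ → ℤ → ℝ) (hF : ∀ s r, 0 ≤ F s r) (X A : ℕ) :
    ∑ K ∈ (Icc 1 X).filter (fun K => A ≤ Nat.sqrt K), F (Nat.sqrt K : ℕ) ((K : ℤ) - (Nat.sqrt K : ℤ) ^ 2) ≤
      ∑ s ∈ Icc (A : ℤ) ((Nat.sqrt X : ℕ) : ℤ), ∑ r ∈ Icc (0 : ℤ) (2 * s), F s r := by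
  classical
  rw [sum_sigma']
  have e : ∑ K ∈ (Icc 1 X).filter (fun K => A ≤ Nat.sqrt K), F (Nat.sqrt K : ℕ) ((K : ℤ) - (Nat.sqrt K : ℤ) ^ 2) =
      ∑ x ∈ ((Icc 1 X).filter (fun K => A ≤ Nat.sqrt K)).image
        (fun K : ℕ => (⟨((Nat.sqrt K : ℕ) : ℤ), (K : ℤ) - (Nat.sqrt K : ℤ) ^ 2⟩ : (_ : ℤ) × ℤ)), F x.1 x.2 := by
    rw [sum_image]
    intro K _ K' _ h
    simp only [Sigma.mk.injEq, heq_eq_eq] at h
    obtain ⟨h1, h2⟩ := h
    rw [h1] at h2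
    omega
  rw [e]
  apply sum_le_sum_of_subset_of_nonneg
  · intro x hx
    rw [mem_image] at hx
    obtain ⟨K, hK, rfl⟩ := hx
    rw [mem_filter, mem_Icc] at hK
    have h1 := Nat.sqrt_le' K
    have h2 := Nat.lt_succ_sqrt' K
    have h3 := Nat.sqrt_le_sqrt hK.1.2
    rw [mem_sigma, mem_Icc, mem_Icc]
    have h4 : ((Nat.sqrt K ^ 2 : ℕ) : ℤ) ≤ K := by exact_mod_cast h1
    have h5 : (K : ℤ) < (((Nat.sqrt K).succ ^ 2 : ℕ) : ℤ) := by exact_mod_cast h2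
    push_cast at h4 h5
    have h6 : (A : ℤ) ≤ (Nat.sqrt K : ℤ) := by exact_mod_cast hK.2
    have h7 : (Nat.sqrt K : ℤ) ≤ (Nat.sqrt X : ℤ) := by exact_mod_cast h3
    refine ⟨⟨h6, h7⟩, ?_, ?_⟩
    · simp only; linarith
    · simp only
      have e2 : ((Nat.sqrt K : ℤ) + 1) ^ 2 = (Nat.sqrt K : ℤ) ^ 2 + 2 * Nat.sqrt K + 1 := by ring
      rw [e2] at h5
      linarith
  · intro x _ _
    exact hF _ _

end Pool.Agent.X40.VAR
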