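import Pool.Agent.X40.VAR.V18

/-!
The constant cut at a power of `log X` is close in mean square to the constant cut at a small
power of `log X`: the theorem.
-/

set_option autoImplicit false

namespace Pool.Agent.X40.VAR

open Finset Filter
open Pool.Agent.H373R2.T7 (pz Vz lamz mem_pz Vz_inv_small)
open Pool.Agent.TH892.OW (pz_mono Vz_anti one_le_Vz_inv GG GG_ep ep isE_ep fz lz second_fz abs_vn evt_ll evt_ll_ge Vz_log)
open Pool.Agent.TH892.SW (HP rk root_card prod_rk js_le HP_nonneg vn model)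
open Pool.Agent.H442R2.EHI (evt_log_pow evt_log_ge)

theorem HP_dist (E u : ℕ) (hE : 1 ≤ E) (hu : 1 ≤ u) (κ : ℝ) (hκ : 0 < κ) : ∃ X0 : ℕ, ∀ X : ℕ, X0 ≤ X →
    ∑ K ∈ Icc 1 X, (HP (K : ℤ) ⌊Real.log X ^ E⌋₊ - HP (K : ℤ) ⌊Real.log X ^ (1 / (u : ℝ))⌋₊) ^ 2 ≤
      κ * (X + ∑ K ∈ Icc 1 X, HP (K : ℤ) ⌊Real.log X ^ (1 / (u : ℝ))⌋₊ ^ 2) := by
  classical
  obtain ⟨C1, y0, hC1, hy0, hmod⟩ := model
  obtain ⟨δ, hδd⟩ : ∃ δ, δ = min (1 / 2) (κ / 64) := ⟨_, rfl⟩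
  have hδ : 0 < δ := by rw [hδd]; positivity
  have hδ1 : δ ≤ 1 / 2 := by rw [hδd]; exact min_le_left _ _
  have hδκ : 32 * δ ^ 2 ≤ κ := by
    have : δ ≤ κ / 64 := by rw [hδd]; exact min_le_right _ _
    nlinarith
  obtain ⟨b0, hb0⟩ := exists_pow_lt_of_lt_one (show 0 < δ / 4 by positivity) (show (1 / 2 : ℝ) < 1 by norm_num)
  obtain ⟨b, hb⟩ : ∃ b, b = max C1 b0 := ⟨_, rfl⟩
  have hbδ : 2 * (1 / 2 : ℝ) ^ b ≤ δ / 2 := by
    have h1 : (1 / 2 : ℝ) ^ b ≤ (1 / 2 : ℝ) ^ b0 := by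
      apply pow_le_pow_of_le_one (by norm_num) (by norm_num)
      rw [hb]; exact le_max_right _ _
    linarith
  have hbC : C1 ≤ b := by rw [hb]; exact le_max_left _ _
  obtain ⟨B, hB⟩ : ∃ B, B = E * (C1 * b) + 1 := ⟨_, rfl⟩
  obtain ⟨X1, hX1⟩ := second_fz B E u hE hu
  obtain ⟨X2, hX2⟩ := Vz_inv_small E
  have hev : ∀ᶠ X : ℕ in atTop, (3 : ℝ) ≤ Real.log X ∧ 12 / δ ≤ Real.log X ∧ (y0 + 1 : ℝ) ≤ Real.log X ^ (1 / (u : ℝ)) ∧
      16 * 2 / κ + 1 ≤ Real.log (Real.log X) ∧ (16 / κ) ^ 2 * 16 ≤ Real.log X ∧ Real.log X ^ (2 * B + 3) ≤ (X : ℝ) ^ (1 : ℝ) ∧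
      8 / κ ≤ Real.log X ∧ 1 ≤ X := by
    have hlim : Tendsto (fun X : ℕ => Real.log (X : ℝ) ^ (1 / (u : ℝ))) atTop atTop := by
      have h1 : (0 : ℝ) < 1 / (u : ℝ) := by
        have : (0 : ℝ) < u := by exact_mod_cast hu
        positivity
      exact (tendsto_rpow_atTop h1).comp (Real.tendsto_log_atTop.comp (tendsto_natCast_atTop_atTop (R := ℝ)))
    filter_upwards [evt_log_ge 3, evt_log_ge (12 / δ), hlim.eventually_ge_atTop (y0 + 1 : ℝ), evt_ll_ge (16 * 2 / κ + 1),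
      evt_log_ge ((16 / κ) ^ 2 * 16), evt_log_pow (2 * B + 3) 1 (by norm_num), evt_log_ge (8 / κ), eventually_ge_atTop 1] with X h1 h2 h3 h4 h5 h6 h7 h8
    exact ⟨h1, h2, h3, h4, h5, h6, h7, h8⟩
  obtain ⟨X3, hX3⟩ := eventually_atTop.1 hev
  refine ⟨max (max X1 X2) X3, fun X hX => ?_⟩
  have h1 := hX1 X (((le_max_left _ _).trans (le_max_left _ _)).trans hX)
  have hVs := hX2 X (((le_max_right _ _).trans (le_max_left _ _)).trans hX)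
  obtain ⟨hL3, hLδ, hLy, hll, hLκ, hLX, hLκ2, hX1'⟩ := hX3 X ((le_max_right _ _).trans hX)
  rw [Real.rpow_one] at hLX
  obtain ⟨l, hl⟩ : ∃ l, l = Real.log X := ⟨_, rfl⟩
  rw [← hl] at h1 hVs hL3 hLδ hLy hll hLκ hLX hLκ2 ⊢
  obtain ⟨z, hz⟩ : ∃ z, z = ⌊l ^ E⌋₊ := ⟨_, rfl⟩
  obtain ⟨w, hw⟩ : ∃ w, w = ⌊l ^ (1 / (u : ℝ))⌋₊ := ⟨_, rfl⟩
  rw [← hz, ← hw] at h1 ⊢
  have hl0 : 0 < l := by linarith
  have hl1 : 1 ≤ l := by linarith
  have hur : (1 : ℝ) ≤ u := by exact_mod_cast hu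
  have hwz : w ≤ z := by
    rw [hw, hz]
    apply Nat.floor_le_floor
    calc l ^ (1 / (u : ℝ)) ≤ l ^ (1 : ℝ) := by
          apply Real.rpow_le_rpow_of_exponent_le hl1
          rw [div_le_one (by linarith)]; exact hur
      _ = l ^ 1 := by rw [Real.rpow_one, pow_one]
      _ ≤ l ^ E := pow_le_pow_right₀ hl1 hE
  have hwy : y0 ≤ w := by
    rw [hw]
    apply Nat.le_floor
    linarith
  have hzE : (z : ℝ) ≤ l ^ E := by rw [hz]; exact Nat.floor_le (by positivity)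
  have hz1 : 1 ≤ z := by omega
  have hVz := hVs z hz1 hzE
  obtain ⟨L, hLd⟩ : ∃ L : ℕ, L = ⌊l ^ B⌋₊ := ⟨_, rfl⟩
  have hlB : l ≤ l ^ B := le_self_pow₀ hl1 (by omega)
  have hL1 : (L : ℝ) ≤ l ^ B := by rw [hLd]; exact Nat.floor_le (by positivity)
  have hL2 : l ^ B / 2 ≤ L := by
    have : l ^ B < L + 1 := by rw [hLd]; exact Nat.lt_floor_add_one _
    linarith
  have hLpos : 1 ≤ L := by
    have : (1 : ℝ) ≤ L := by linarith
    exact_mod_cast this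
  have hzL : 3 * (z : ℝ) ^ (C1 * b) ≤ δ / 2 * L := by
    have a1 : (z : ℝ) ^ (C1 * b) ≤ (l ^ E) ^ (C1 * b) := pow_le_pow_left₀ (Nat.cast_nonneg _) hzE _
    rw [← pow_mul] at a1
    have a2 : l ^ B = l ^ (E * (C1 * b)) * l := by rw [hB, pow_succ]
    rw [div_le_iff₀ hδ] at hLδ
    have a3 : 12 * l ^ (E * (C1 * b)) ≤ l * δ * l ^ (E * (C1 * b)) := mul_le_mul_of_nonneg_right hLδ (by positivity)
    have a4 : δ * (l ^ B / 2) ≤ δ * L := mul_le_mul_of_nonneg_left hL2 hδ.le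
    rw [a2] at a4
    nlinarith
  obtain ⟨A, hA⟩ : ∃ A : ℕ, A = ⌈l ^ B⌉₊ := ⟨_, rfl⟩
  have hA1 : l ^ B ≤ A := by rw [hA]; exact Nat.le_ceil _
  have hA2 : (A : ℝ) ≤ 2 * l ^ B := by
    have : (A : ℝ) < l ^ B + 1 := by rw [hA]; exact Nat.ceil_lt_add_one (by positivity)
    linarith
  have h2 := h1 ep (A : ℤ) L isE_ep (by exact_mod_cast hA1) hL1 hLpos
  obtain ⟨M, hM⟩ : ∃ M, M = ∑ s ∈ Icc (A : ℤ) ((Nat.sqrt X : ℕ) : ℤ), ∑ r ∈ Icc (0 : ℤ) (2 * s), GG (fz w z) ep L s r ^ 2 := ⟨_, rfl⟩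
  rw [← hM] at h2
  obtain ⟨T, hT⟩ : ∃ T, T = (Icc 1 X).filter (fun K => A ≤ Nat.sqrt K) := ⟨_, rfl⟩
  have hLp : (0 : ℝ) < L := by exact_mod_cast hLpos
  have hX0 : (0 : ℝ) ≤ X := Nat.cast_nonneg X
  -- the large `K`
  have big : ∑ K ∈ T, (HP (K : ℤ) z - HP (K : ℤ) w) ^ 2 ≤ κ * ∑ K ∈ Icc 1 X, HP (K : ℤ) w ^ 2 + κ / 2 * X := by
    have a1 : ∑ K ∈ T, (HP (K : ℤ) z - HP (K : ℤ) w) ^ 2 ≤ ∑ K ∈ T, (32 * δ ^ 2 * HP (K : ℤ) w ^ 2 +
        8 / (L : ℝ) ^ 2 * GG (fz w z) ep L (Nat.sqrt K : ℕ) ((K : ℤ) - (Nat.sqrt K : ℤ) ^ 2) ^ 2) :=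
      sum_le_sum fun K _ => HP_point C1 y0 b w z K L (hmod b hbC) hwy hwz δ hδ hδ1 hbδ hLpos hzL
    refine a1.trans ?_
    rw [sum_add_distrib, ← mul_sum, ← mul_sum]
    have a2 := sum_pairs (fun s r => GG (fz w z) ep L s r ^ 2) (fun s r => sq_nonneg _) X A
    rw [← hM, ← hT] at a2
    have a3 : ∑ K ∈ T, HP (K : ℤ) w ^ 2 ≤ ∑ K ∈ Icc 1 X, HP (K : ℤ) w ^ 2 := by
      rw [hT]
      exact sum_le_sum_of_subset_of_nonneg (filter_subset _ _) (fun _ _ _ => sq_nonneg _)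
    have a4 : 32 * δ ^ 2 * ∑ K ∈ T, HP (K : ℤ) w ^ 2 ≤ κ * ∑ K ∈ Icc 1 X, HP (K : ℤ) w ^ 2 :=
      mul_le_mul hδκ a3 (sum_nonneg fun _ _ => sq_nonneg _) hκ.le
    have a5 : 8 / (L : ℝ) ^ 2 * ∑ K ∈ T, GG (fz w z) ep L (Nat.sqrt K : ℕ) ((K : ℤ) - (Nat.sqrt K : ℤ) ^ 2) ^ 2 ≤ κ / 2 * X := by
      have b1 : 8 / (L : ℝ) ^ 2 * ∑ K ∈ T, GG (fz w z) ep L (Nat.sqrt K : ℕ) ((K : ℤ) - (Nat.sqrt K : ℤ) ^ 2) ^ 2 ≤
          8 / (L : ℝ) ^ 2 * (X * (L * √l + (L : ℝ) ^ 2 / Real.log l ^ 2)) :=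
        mul_le_mul_of_nonneg_left (a2.trans h2) (by positivity)
      refine b1.trans ?_
      have e1 : 8 / (L : ℝ) ^ 2 * (X * (L * √l + (L : ℝ) ^ 2 / Real.log l ^ 2)) = X * (8 * √l / L + 8 / Real.log l ^ 2) := by
        field_simp
      rw [e1]
      have hkk : 0 < 16 * 2 / κ := by positivity
      have hll0 : 0 < Real.log l := by linarith
      have b2 : 8 / Real.log l ^ 2 ≤ κ / 4 := by
        have c1 : 16 * 2 / κ ≤ Real.log l ^ 2 := by nlinarith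
        rw [div_le_iff₀ (by positivity)]
        rw [div_le_iff₀ hκ] at c1
        linarith
      have b3 : 8 * √l / L ≤ κ / 4 := by
        have c1 : 16 / κ * 4 ≤ √l := by
          apply Real.le_sqrt_of_sq_le
          nlinarith
        have c2 : √l * √l = l := Real.mul_self_sqrt hl0.le
        have c3 : l / 2 ≤ L := by linarith
        have c4 : 0 < √l := Real.sqrt_pos.2 hl0
        rw [div_le_iff₀ hLp]
        have c5 : 64 ≤ κ * √l := by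
          rw [div_mul_eq_mul_div, div_le_iff₀ hκ] at c1
          linarith
        have c6 : κ / 4 * (l / 2) ≤ κ / 4 * L := mul_le_mul_of_nonneg_left c3 (by positivity)
        have c7 : κ / 4 * (l / 2) = κ * √l * √l / 8 := by rw [mul_assoc κ, c2]; ring
        have c8 : 64 * √l ≤ κ * √l * √l := mul_le_mul_of_nonneg_right c5 c4.le
        linarith
      calc (X : ℝ) * (8 * √l / L + 8 / Real.log l ^ 2) ≤ X * (κ / 4 + κ / 4) := mul_le_mul_of_nonneg_left (add_le_add b3 b2) hX0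
        _ = _ := by ring
    linarith
  -- the small `K`
  have small : ∑ K ∈ (Icc 1 X).filter (fun K => ¬ A ≤ Nat.sqrt K), (HP (K : ℤ) z - HP (K : ℤ) w) ^ 2 ≤ κ / 2 * X := by
    have a1 : ∀ K ∈ (Icc 1 X).filter (fun K => ¬ A ≤ Nat.sqrt K), (HP (K : ℤ) z - HP (K : ℤ) w) ^ 2 ≤ l ^ 2 := by
      intro K _
      have b1 := HP_nonneg K z
      have b2 := HP_nonneg K w
      have b3 := (HP_le K z).trans hVz
      have b4 := ((HP_le K w).trans (Vz_anti hwz)).trans hVz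
      exact sq_le_sq' (by linarith) (by linarith)
    refine (sum_le_sum a1).trans ?_
    rw [sum_const, nsmul_eq_mul]
    have a2 : #((Icc 1 X).filter (fun K => ¬ A ≤ Nat.sqrt K)) ≤ A ^ 2 := by
      have b1 : (Icc 1 X).filter (fun K => ¬ A ≤ Nat.sqrt K) ⊆ range (A ^ 2) := by
        intro K hK
        rw [mem_filter] at hK
        rw [mem_range]
        by_contra hc
        push Not at hc
        exact hK.2 (Nat.le_sqrt'.2 hc)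
      exact (card_le_card b1).trans (by rw [card_range])
    have a3 : (#((Icc 1 X).filter (fun K => ¬ A ≤ Nat.sqrt K)) : ℝ) ≤ 4 * l ^ (2 * B) := by
      have b1 : (#((Icc 1 X).filter (fun K => ¬ A ≤ Nat.sqrt K)) : ℝ) ≤ (A : ℝ) ^ 2 := by exact_mod_cast a2
      refine b1.trans ?_
      calc (A : ℝ) ^ 2 ≤ (2 * l ^ B) ^ 2 := pow_le_pow_left₀ (Nat.cast_nonneg A) hA2 2
        _ = 4 * l ^ (2 * B) := by rw [mul_pow, ← pow_mul]; ring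
    have a4 : 4 * l ^ (2 * B) * l ^ 2 ≤ κ / 2 * X := by
      have e1 : l ^ (2 * B + 3) = l ^ (2 * B) * l ^ 2 * l := by rw [pow_add]; ring
      rw [e1] at hLX
      rw [div_le_iff₀ hκ] at hLκ2
      have b1 : 8 * (l ^ (2 * B) * l ^ 2) ≤ l * κ * (l ^ (2 * B) * l ^ 2) := mul_le_mul_of_nonneg_right hLκ2 (by positivity)
      have b2 : κ * (l ^ (2 * B) * l ^ 2 * l) ≤ κ * X := mul_le_mul_of_nonneg_left hLX hκ.le
      linarith
    calc (#((Icc 1 X).filter (fun K => ¬ A ≤ Nat.sqrt K)) : ℝ) * l ^ 2 ≤ 4 * l ^ (2 * B) * l ^ 2 :=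
          mul_le_mul_of_nonneg_right a3 (by positivity)
      _ ≤ _ := a4
  rw [← sum_filter_add_sum_filter_not (Icc 1 X) (fun K => A ≤ Nat.sqrt K), ← hT]
  rw [mul_add]
  linarith

end Pool.Agent.X40.VAR
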