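import Pool.Agent.X40.VAR.V1
import Pool.Agent.TH892.OW.B5a
import Pool.Agent.H373R2.T7.LamZ2

/-!
Primes and model: the pair sums agree.
-/

set_option autoImplicit false

namespace Pool.Agent.X40.VAR

open Finset Filter
open Pool.Agent.W110.HV (ES)
open Pool.Agent.TH892.SW (ff)
open Pool.Agent.H373R2.T7 (pz Vz lamz mem_pz Vz_inv_small)
open Pool.Agent.H442R2.EHI (evt_log_pow evt_log_ge)
open Pool.Agent.X40.HLK (P1 Mz ff_abs P1_nonneg P1_le Mz_nonneg Mz_le sup_even)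

lemma arA (X S Y q W C0 L Z lY : ℝ) (hL : 10000 ≤ L) (hLC : 10 * C0 ≤ L) (hC0 : 1 ≤ C0) (hW0 : 0 ≤ W) (hWL : W ≤ L)
    (hX : 0 ≤ X) (hS0 : 0 ≤ S) (hS : S ^ 2 ≤ X) (hY0 : 0 < Y) (hY : Y ≤ S * L ^ 2) (hq0 : 0 < q) (hq : q ≤ Y / L ^ 12)
    (hYq : Y / q ≤ 4 * L ^ 12) (hZ : Z = Y / L ^ 21) (hlY0 : 0 ≤ lY) (hlY : lY ≤ 4 * L) :
    W * (8 * Y * √(Y / q) * lY ^ 2 * Z * (3 * L) + 2 * q * (3 * L) ^ 2 * S) ≤ X / L ^ 6 := by
  have hL0 : 0 < L := by linarith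
  have hL1 : 1 ≤ L := by linarith
  have a2 : √(Y / q) ≤ 2 * L ^ 6 := by
    rw [Real.sqrt_le_left (by positivity)]
    refine hYq.trans (le_of_eq ?_)
    ring
  have hY2 : Y ^ 2 ≤ X * L ^ 4 := by
    calc Y ^ 2 ≤ (S * L ^ 2) ^ 2 := pow_le_pow_left₀ hY0.le hY 2
      _ = S ^ 2 * L ^ 4 := by ring
      _ ≤ _ := mul_le_mul_of_nonneg_right hS (by positivity)
  have t1 : 8 * Y * √(Y / q) * lY ^ 2 * Z * (3 * L) ≤ 768 * X / L ^ 8 := by
    rw [hZ]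
    calc 8 * Y * √(Y / q) * lY ^ 2 * (Y / L ^ 21) * (3 * L) ≤ 8 * Y * (2 * L ^ 6) * (4 * L) ^ 2 * (Y / L ^ 21) * (3 * L) := by
          gcongr
      _ = 768 * (Y ^ 2 / L ^ 12) := by field_simp; ring
      _ ≤ 768 * (X * L ^ 4 / L ^ 12) := by gcongr
      _ = _ := by field_simp
  have t2 : 2 * q * (3 * L) ^ 2 * S ≤ 18 * X / L ^ 8 := by
    calc 2 * q * (3 * L) ^ 2 * S ≤ 2 * (Y / L ^ 12) * (3 * L) ^ 2 * S := by gcongr
      _ ≤ 2 * (S * L ^ 2 / L ^ 12) * (3 * L) ^ 2 * S := by gcongr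
      _ = 18 * S ^ 2 / L ^ 8 := by field_simp; ring
      _ ≤ _ := by gcongr
  have t3 : 0 ≤ X / L ^ 8 := by positivity
  calc W * (8 * Y * √(Y / q) * lY ^ 2 * Z * (3 * L) + 2 * q * (3 * L) ^ 2 * S) ≤ L * (768 * X / L ^ 8 + 18 * X / L ^ 8) := by
        apply mul_le_mul hWL (add_le_add t1 t2) _ hL0.le
        rw [hZ]; positivity
    _ = 786 * L * (X / L ^ 8) := by ring
    _ ≤ L ^ 2 * (X / L ^ 8) := by
        apply mul_le_mul_of_nonneg_right _ t3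
        nlinarith
    _ = _ := by field_simp

lemma QT_split (W : ℕ) (K0 : ℤ) (A S : ℕ) (P M : ℤ → ℝ) (i j : ℤ) :
    QT W K0 A S P P i j - QT W K0 A S M M i j =
      QT W K0 A S P (fun v => P v - M v) j i + QT W K0 A S M (fun v => P v - M v) i j := by
  rw [QT_comm W K0 A S P (fun v => P v - M v) j i]
  unfold QT
  rw [← sum_sub_distrib, ← sum_add_distrib]
  refine sum_congr rfl fun s _ => ?_
  rw [← sum_sub_distrib, ← sum_add_distrib]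
  refine sum_congr rfl fun K _ => ?_
  ring

theorem partA (W : ℕ) (hW : 1 ≤ W) (C0 : ℝ) (hC0 : 1 ≤ C0) : ∃ E1 : ℕ, 1 ≤ E1 ∧ ∀ E : ℕ, E1 ≤ E → ∃ X0 : ℕ, ∀ X : ℕ, X0 ≤ X →
    ∀ m A : ℕ, (m : ℝ) ≤ C0 * Real.log X → m < A → ∀ K0 i j : ℤ, |i| ≤ m → |j| ≤ m → i ≠ j →
      |QT W K0 A (Nat.sqrt X) P1 P1 i j -
        QT W K0 A (Nat.sqrt X) (Mz ⌊Real.log X ^ E⌋₊) (Mz ⌊Real.log X ^ E⌋₊) i j| ≤ X / Real.log X ^ 5 := by
  obtain ⟨E1, hE1, hsup⟩ := sup_even 21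
  refine ⟨E1, hE1, fun E hE => ?_⟩
  obtain ⟨X1, hX1⟩ := hsup E hE
  obtain ⟨X2, hX2⟩ := Vz_inv_small E
  have hev : ∀ᶠ X : ℕ in atTop, (10000 : ℝ) ≤ Real.log X ∧ 10 * C0 ≤ Real.log X ∧ (W : ℝ) ≤ Real.log X ∧
      Real.log X ^ 12 ≤ (X : ℝ) ^ (1 / 2 : ℝ) := by
    filter_upwards [evt_log_ge 10000, evt_log_ge (10 * C0), evt_log_ge W, evt_log_pow 12 (1 / 2) (by norm_num)] with X h1 h2 h3 h4
    exact ⟨h1, h2, h3, h4⟩
  obtain ⟨X3, hX3⟩ := eventually_atTop.1 hev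
  refine ⟨max (max X1 X2) X3, fun X hX m A hm hmA K0 i j hi hj hij => ?_⟩
  obtain ⟨hL, hLC, hLW, hLS⟩ := hX3 X ((le_max_right _ _).trans hX)
  obtain ⟨hffb, hES⟩ := hX1 X (((le_max_left _ _).trans (le_max_left _ _)).trans hX)
  have hVs := hX2 X (((le_max_right _ _).trans (le_max_left _ _)).trans hX)
  obtain ⟨f1, f2, f3, f4, -, f6, f7⟩ := Pool.Agent.TH892.OW.S_facts X hL
  rw [← Real.sqrt_eq_rpow] at hLS
  obtain ⟨z, hz⟩ : ∃ z, z = ⌊Real.log X ^ E⌋₊ := ⟨_, rfl⟩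
  rw [← hz] at hffb hES ⊢
  obtain ⟨L, hLd⟩ : ∃ L, L = Real.log X := ⟨_, rfl⟩
  rw [← hLd] at hL hLC hLW hLS hffb hES hVs hz hm ⊢
  obtain ⟨S, hSd⟩ : ∃ S, S = Nat.sqrt X := ⟨_, rfl⟩
  rw [← hSd] at f2 f3 f4 f6 f7 ⊢
  have hL0 : 0 < L := by linarith
  have hL1 : 1 ≤ L := by linarith
  have hLE : L ≤ L ^ E := le_self_pow₀ hL1 (by omega)
  have hz1 : 1 ≤ z := by
    rw [hz]
    apply Nat.le_floor
    push_cast
    linarith
  have hzle : (z : ℝ) ≤ L ^ E := by rw [hz]; exact Nat.floor_le (by positivity)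
  have hV := hVs z hz1 hzle
  have hXr : (1 : ℝ) ≤ X := by exact_mod_cast f1
  have hX0 : (0 : ℝ) < X := by linarith
  have hS0 : (100 : ℝ) ≤ S := by exact_mod_cast f6
  obtain ⟨Y, hY⟩ : ∃ Y : ℕ, Y = 2 * S * (m + 1) + m ^ 2 := ⟨_, rfl⟩
  have hYr : (Y : ℝ) = 2 * S * (m + 1) + m ^ 2 := by rw [hY]; push_cast; ring
  have hm0 : (0 : ℝ) ≤ m := Nat.cast_nonneg m
  have hYS : √(X : ℝ) ≤ Y := by rw [hYr]; nlinarith
  have hmL : (m : ℝ) ≤ L ^ 2 / 10 := by nlinarith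
  have hsq : L ^ 2 ≤ √(X : ℝ) := by
    refine le_trans ?_ hLS
    exact pow_le_pow_right₀ hL1 (by norm_num)
  have hYle : (Y : ℝ) ≤ S * L ^ 2 := by
    rw [hYr]
    have h0 : (m : ℝ) ≤ S := by linarith
    have h1 : (m : ℝ) ^ 2 ≤ S * m := by
      rw [sq]
      exact mul_le_mul_of_nonneg_right h0 hm0
    have h2 : S * (3 * (m : ℝ) + 2) ≤ S * L ^ 2 := by
      apply mul_le_mul_of_nonneg_left _ (by linarith)
      nlinarith
    linarith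
  have hYX : Y ≤ X ^ 2 := by
    have h1 : (Y : ℝ) ≤ (X : ℝ) ^ 2 := by
      calc (Y : ℝ) ≤ S * L ^ 2 := hYle
        _ ≤ X * √(X : ℝ) := mul_le_mul f7 hsq (by positivity) hX0.le
        _ ≤ X * X := by
            apply mul_le_mul_of_nonneg_left _ hX0.le
            rw [Real.sqrt_le_left hX0.le]
            nlinarith
        _ = _ := by ring
    exact_mod_cast h1
  have hY0 : (0 : ℝ) < Y := lt_of_lt_of_le (Real.sqrt_pos.2 hX0) hYS
  obtain ⟨q, hq⟩ : ∃ q : ℕ, q = ⌊(Y : ℝ) / L ^ 12⌋₊ := ⟨_, rfl⟩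
  have hqle : (q : ℝ) ≤ Y / L ^ 12 := by rw [hq]; exact Nat.floor_le (by positivity)
  have hqge : (Y : ℝ) / L ^ 12 < q + 1 := by rw [hq]; exact Nat.lt_floor_add_one _
  have hq1 : 1 ≤ q := by
    rw [hq]
    apply Nat.le_floor
    push_cast
    rw [le_div_iff₀ (by positivity), one_mul]
    linarith
  have hq1r : (1 : ℝ) ≤ q := by exact_mod_cast hq1
  have hqY : q ≤ Y := by
    have h1 : (q : ℝ) ≤ Y := hqle.trans (div_le_self hY0.le (one_le_pow₀ hL1))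
    exact_mod_cast h1
  have hYq : (Y : ℝ) / q ≤ 4 * L ^ 12 := by
    rw [div_le_iff₀ (by linarith)]
    rw [div_lt_iff₀ (by positivity)] at hqge
    have : 0 < L ^ 12 := by positivity
    nlinarith
  have hG : ∀ v : ℤ, |P1 v - Mz z v| ≤ 3 * L := by
    intro v
    rw [← ff_abs]
    exact hffb _
  have hG1 : ∀ v : ℤ, |P1 v| ≤ 3 * L := by
    intro v
    rw [abs_of_nonneg (P1_nonneg v)]
    exact (P1_le v).trans (by linarith)
  have hG2 : ∀ v : ℤ, |Mz z v| ≤ 3 * L := by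
    intro v
    rw [abs_of_nonneg (Mz_nonneg z hz1 v)]
    exact (Mz_le z hz1 v).trans (by linarith)
  have hsupY : ∀ α : ℝ, ‖ES (-(Y : ℤ)) Y (fun n => ((P1 n - Mz z n : ℝ) : ℂ)) α‖ ≤ Y / L ^ 21 := by
    intro α
    have h1 := hES Y hYS hYX α
    have e : (fun n : ℤ => ((P1 n - Mz z n : ℝ) : ℂ)) = fun n : ℤ => (ff z |n| : ℂ) := by
      funext n
      rw [ff_abs]
    rw [e]
    exact h1
  have hlog : 1 + Real.log (2 * Y) ≤ 4 * L := by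
    have h1 : (2 * Y : ℝ) ≤ (X : ℝ) ^ 2 := by
      calc (2 * Y : ℝ) ≤ 2 * (S * L ^ 2) := by linarith
        _ ≤ X * (√(X : ℝ) * 2) := by nlinarith [mul_le_mul f7 hsq (by positivity) hX0.le]
        _ ≤ X * X := by
            apply mul_le_mul_of_nonneg_left _ hX0.le
            have h4 : 100 ≤ √(X : ℝ) := by linarith
            have h5 := Real.sq_sqrt hX0.le
            nlinarith
        _ = _ := by ring
    have h2 : Real.log (2 * Y) ≤ Real.log ((X : ℝ) ^ 2) := Real.log_le_log (by linarith) h1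
    rw [Real.log_pow, ← hLd] at h2
    push_cast at h2
    linarith
  have hlog0 : 0 ≤ 1 + Real.log (2 * Y) := by
    have : 0 ≤ Real.log (2 * Y : ℝ) := Real.log_nonneg (by linarith)
    linarith
  have har := arA X S Y q W C0 L (Y / L ^ 21) (1 + Real.log (2 * Y)) hL hLC hC0 (Nat.cast_nonneg W) hLW hX0.le (by linarith) f2 hY0 hYle
    (by linarith) hqle hYq rfl hlog0 hlog
  have hZ0 : 0 ≤ (Y : ℝ) / L ^ 21 := by positivity
  have b1 := (QT_pairs W hW K0 A S m hmA P1 (fun v => P1 v - Mz z v) (Y / L ^ 21) (3 * L) hZ0 (by linarith) hG1 hG Y q hq1 hqY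
    (by rw [hY]) hsupY j i hj hi (Ne.symm hij)).trans har
  have b2 := (QT_pairs W hW K0 A S m hmA (Mz z) (fun v => P1 v - Mz z v) (Y / L ^ 21) (3 * L) hZ0 (by linarith) hG2 hG Y q hq1 hqY
    (by rw [hY]) hsupY i j hi hj hij).trans har
  rw [QT_split]
  refine (abs_add_le _ _).trans ((add_le_add b1 b2).trans ?_)
  have h6 : (X : ℝ) / L ^ 5 = L * (X / L ^ 6) := by field_simp
  rw [h6]
  have h7 : 0 ≤ (X : ℝ) / L ^ 6 := by positivity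
  nlinarith

end Pool.Agent.X40.VAR
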