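import Pool.Agent.X40.VAR.V19
import Pool.Agent.TH892.SW.S10

/-!
The true constant is close in mean square to the constant cut at a fixed `w`.
-/

set_option autoImplicit false

namespace Pool.Agent.X40.VAR

open Finset Filter Topology
open Pool.Agent.H373R2.T7 (pz Vz lamz mem_pz Vz_inv_small)
open Pool.Agent.TH892.OW (pz_mono Vz_anti one_le_Vz_inv near_sqD evt_ll evt_ll_ge Vz_log)
open Pool.Agent.TH892.SW (HP rk root_card prod_rk js_le HP_nonneg vn model hK_most)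
open Pool.Agent.H442R2.EHI (evt_log_pow evt_log_ge)

/-- mean square of the constant cut at a small `w` -/
lemma HP_sq_sum (w X : ℕ) (hw : 2 ≤ w) (hWX : PW w ≤ X) : ∑ K ∈ Icc 1 X, HP (K : ℤ) w ^ 2 ≤ 6 * X := by
  have h := per_sum_le (PW w) X (PW_pos w) (fun K => HP (K : ℤ) w ^ 2)
    (fun n => by rw [HP_congr w ((n % PW w : ℕ) : ℤ) (n : ℤ) (mod_dvd (PW w) n)]) (fun n => sq_nonneg _) 3 (HP_sq_mean w hw) hWX
  refine h.trans (le_of_eq (by ring))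

lemma HP_diff_sum (w z X : ℕ) (hw : 2 ≤ w) (hwz : w ≤ z) (hWX : PW z ≤ X) :
    ∑ K ∈ Icc 1 X, (HP (K : ℤ) z - HP (K : ℤ) w) ^ 2 ≤ 12 / ((w : ℝ) - 1) * X := by
  have hdvd : (PW w : ℤ) ∣ (PW z : ℤ) := by
    have : PW w ∣ PW z := prod_dvd_prod_of_subset _ _ _ (pz_mono hwz)
    exact_mod_cast this
  have h := per_sum_le (PW z) X (PW_pos z) (fun K => (HP (K : ℤ) z - HP (K : ℤ) w) ^ 2)
    (fun n => by
      rw [HP_congr z ((n % PW z : ℕ) : ℤ) (n : ℤ) (mod_dvd (PW z) n),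
        HP_congr w ((n % PW z : ℕ) : ℤ) (n : ℤ) (hdvd.trans (mod_dvd (PW z) n))]) (fun n => sq_nonneg _) (6 / ((w : ℝ) - 1))
    (HP_diff_mean w z hw hwz) hWX
  refine h.trans (le_of_eq (by ring))

theorem h_mean (U w : ℕ) (hw : 2 ≤ w) (κ : ℝ) (hκ : 0 < κ) : ∃ X0 : ℕ, ∀ X : ℕ, X0 ≤ X → ∃ Bad : Finset ℕ, Bad ⊆ Icc 1 X ∧
    (#Bad : ℝ) ≤ X / Real.log X ^ U ∧ ∃ h : ℕ → ℝ,
      (∀ K ∈ Icc 1 X, K ∉ Bad → ¬ IsSquare (K : ℤ) ∧ 0 < h K ∧ Tendsto (fun N => HP (K : ℤ) N) atTop (𝓝 (h K))) ∧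
      ∑ K ∈ Icc 1 X \ Bad, (HP (K : ℤ) w - h K) ^ 2 ≤ (36 / ((w : ℝ) - 1) + κ) * X := by
  classical
  obtain ⟨E1, hE1⟩ := hK_most (U + 1) 1
  obtain ⟨E, hE⟩ : ∃ E, E = E1 + 1 := ⟨_, rfl⟩
  obtain ⟨X1, hX1⟩ := hE1 E (by omega)
  obtain ⟨κ', hκ'⟩ : ∃ κ', κ' = κ / 42 := ⟨_, rfl⟩
  have hκ'0 : 0 < κ' := by rw [hκ']; positivity
  obtain ⟨X2, hX2⟩ := HP_dist E 2 (by omega) (by norm_num) κ' hκ'0
  have hev : ∀ᶠ X : ℕ in atTop, (2 : ℝ) ≤ Real.log X ∧ (14 * κ' + 12) * 12 / κ * 2 ≤ Real.log X ∧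
      Real.log X ^ (U + 1) ≤ (X : ℝ) ^ (1 / 4 : ℝ) ∧ (w : ℝ) ^ 2 + 4 ≤ Real.log X ∧ 16 ≤ X ∧ (10 : ℝ) ^ 4 ≤ (X : ℝ) := by
    filter_upwards [evt_log_ge 2, evt_log_ge ((14 * κ' + 12) * 12 / κ * 2), evt_log_pow (U + 1) (1 / 4) (by norm_num),
      evt_log_ge ((w : ℝ) ^ 2 + 4), eventually_ge_atTop 16, (tendsto_natCast_atTop_atTop (R := ℝ)).eventually_ge_atTop ((10 : ℝ) ^ 4)] with X h1 h2 h3 h4 h5 h6
    exact ⟨h1, h2, h3, h4, h5, h6⟩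
  obtain ⟨X3, hX3⟩ := eventually_atTop.1 hev
  refine ⟨max (max X1 X2) X3, fun X hX => ?_⟩
  obtain ⟨B, hB, hK⟩ := hX1 X (((le_max_left _ _).trans (le_max_left _ _)).trans hX)
  have hD := hX2 X (((le_max_right _ _).trans (le_max_left _ _)).trans hX)
  obtain ⟨hL2, hLκ, hLU, hLw, hX16, hXbig⟩ := hX3 X ((le_max_right _ _).trans hX)
  obtain ⟨l, hl⟩ : ∃ l, l = Real.log X := ⟨_, rfl⟩
  rw [← hl] at hB hK hD hL2 hLκ hLU hLw ⊢
  have hl0 : 0 < l := by linarith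
  have hX0 : (0 : ℝ) < X := by linarith
  obtain ⟨z, hz⟩ : ∃ z, z = ⌊l ^ E⌋₊ := ⟨_, rfl⟩
  obtain ⟨w0, hw0⟩ : ∃ w0, w0 = ⌊l ^ (1 / ((2 : ℕ) : ℝ))⌋₊ := ⟨_, rfl⟩
  rw [← hz, ← hw0] at hD
  rw [← hz] at hK
  have hsq : l ^ (1 / ((2 : ℕ) : ℝ)) = √l := by rw [Real.sqrt_eq_rpow]; norm_num
  rw [hsq] at hw0
  have hw0' : (w0 : ℝ) ≤ √l := by rw [hw0]; exact Nat.floor_le (Real.sqrt_nonneg _)
  have hww0 : w ≤ w0 := by
    rw [hw0]
    apply Nat.le_floor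
    apply Real.le_sqrt_of_sq_le
    linarith
  have hPWX : PW w0 ≤ X := by
    have h1 : (PW w0 : ℝ) ≤ X := by
      have h2 : (PW w0 : ℝ) ≤ 4 ^ w0 := by exact_mod_cast PW_le w0
      refine h2.trans ?_
      have h3 : (4 : ℝ) ^ w0 = Real.exp (w0 * Real.log 4) := by
        rw [mul_comm, Real.exp_mul, Real.exp_log (by norm_num), Real.rpow_natCast]
      rw [h3, ← Real.exp_log hX0, ← hl, Real.exp_le_exp]
      have h4 : Real.log 4 ≤ 2 := by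
        have : (4 : ℝ) = 2 ^ 2 := by norm_num
        rw [this, Real.log_pow]
        have := Real.log_two_lt_d9
        push_cast
        linarith
      have h5 : √l * √l = l := Real.mul_self_sqrt hl0.le
      have h6 : 2 ≤ √l := by
        apply Real.le_sqrt_of_sq_le
        nlinarith [sq_nonneg (w : ℝ)]
      have h7 : 0 ≤ Real.log 4 := Real.log_nonneg (by norm_num)
      calc (w0 : ℝ) * Real.log 4 ≤ √l * 2 := mul_le_mul hw0' h4 h7 (Real.sqrt_nonneg _)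
        _ ≤ √l * √l := mul_le_mul_of_nonneg_left h6 (Real.sqrt_nonneg _)
        _ = l := h5
    exact_mod_cast h1
  obtain ⟨Bad, hBad⟩ : ∃ Bad, Bad = (Icc 1 X).filter (fun K => K ∈ B ∨ IsSquare (K : ℤ)) := ⟨_, rfl⟩
  have hex : ∀ K : ℕ, ∃ h : ℝ, K ∈ Icc 1 X → K ∉ Bad → ¬ IsSquare (K : ℤ) ∧ 0 < h ∧ Tendsto (fun N => HP (K : ℤ) N) atTop (𝓝 h) ∧
      |HP (K : ℤ) z - h| ≤ 1 / l ^ 1 * h := by
    intro K
    by_cases h1 : K ∈ Icc 1 X ∧ K ∉ Bad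
    · have h2 : ¬ (K ∈ B ∨ IsSquare (K : ℤ)) := by
        intro hc
        apply h1.2
        rw [hBad, mem_filter]
        exact ⟨h1.1, hc⟩
      push Not at h2
      obtain ⟨h, a1, a2, a3⟩ := hK K h1.1 h2.1 h2.2
      exact ⟨h, fun _ _ => ⟨h2.2, a1, a2, a3⟩⟩
    · exact ⟨0, fun h2 h3 => absurd ⟨h2, h3⟩ h1⟩
  choose h hh using hex
  refine ⟨Bad, by rw [hBad]; exact filter_subset _ _, ?_, h, fun K hK1 hK2 => ⟨(hh K hK1 hK2).1, (hh K hK1 hK2).2.1, (hh K hK1 hK2).2.2.1⟩, ?_⟩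
  · -- the number of exceptions
    have a1 : Bad ⊆ B ∪ (Icc 1 X).filter (fun K : ℕ => ∃ n : ℕ, vn K n ≤ 0) := by
      intro K hK1
      rw [hBad, mem_filter] at hK1
      rw [mem_union, mem_filter]
      rcases hK1.2 with h1 | h1
      · left; exact h1
      · right
        refine ⟨hK1.1, ?_⟩
        obtain ⟨r, hr⟩ := h1
        refine ⟨r.natAbs, ?_⟩
        unfold vn
        have : ((r.natAbs : ℕ) : ℤ) ^ 2 = K := by rw [Int.natAbs_sq, sq]; exact hr.symm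
        rw [this]
        simp
    have a2 := card_le_card a1
    have a3 := card_union_le B ((Icc 1 X).filter (fun K : ℕ => ∃ n : ℕ, vn K n ≤ 0))
    have a4 := near_sqD X 0 (Nat.zero_le _)
    have a5 : (#Bad : ℝ) ≤ #B + #((Icc 1 X).filter (fun K : ℕ => ∃ n : ℕ, vn K n ≤ 0)) := by exact_mod_cast a2.trans a3
    have a6 : ((Nat.sqrt X : ℕ) : ℝ) ≤ √(X : ℝ) := Real.le_sqrt_of_sq_le (by exact_mod_cast Nat.sqrt_le' X)
    have hs4 : (X : ℝ) ^ (1 / 4 : ℝ) * (X : ℝ) ^ (1 / 4 : ℝ) = √(X : ℝ) := by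
      rw [Real.sqrt_eq_rpow, ← Real.rpow_add hX0]; norm_num
    obtain ⟨q, hq⟩ : ∃ q, q = (X : ℝ) ^ (1 / 4 : ℝ) := ⟨_, rfl⟩
    rw [← hq] at hs4 hLU
    have hq0 : 0 < q := by rw [hq]; positivity
    have hqX : q ^ 4 = X := by
      have : √(X : ℝ) * √(X : ℝ) = X := Real.mul_self_sqrt hX0.le
      rw [← hs4] at this
      linarith [this, show q ^ 4 = q * q * (q * q) by ring]
    have hq10 : 10 ≤ q := by
      by_contra hc
      push Not at hc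
      have : q ^ 4 < 10 ^ 4 := pow_lt_pow_left₀ hc hq0.le (by norm_num)
      rw [hqX] at this
      linarith
    have hlU0 : 0 < l ^ U := by positivity
    have hlU : l ^ U * l ≤ q := by rw [← pow_succ]; exact hLU
    have a7 : √(X : ℝ) + 3 ≤ 1 / 2 * (X / l ^ U) := by
      rw [← hs4, ← hqX, mul_div_assoc', le_div_iff₀ hlU0]
      have b1 : l ^ U ≤ q := by nlinarith
      have b2 : q * q + 3 ≤ 2 * (q * q) := by nlinarith
      calc (q * q + 3) * l ^ U ≤ 2 * (q * q) * q := mul_le_mul b2 b1 hlU0.le (by positivity)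
        _ ≤ 1 / 2 * q ^ 4 := by nlinarith [mul_pos (mul_pos hq0 hq0) hq0]
    have a8 : (X : ℝ) / l ^ (U + 1) ≤ 1 / 2 * (X / l ^ U) := by
      rw [pow_succ, ← div_div, div_le_iff₀ hl0]
      have : 0 ≤ X / l ^ U := by positivity
      nlinarith
    rw [show (2 * ((0 : ℕ) : ℝ) + 1) * ((Nat.sqrt X : ℝ) + 3) = (Nat.sqrt X : ℝ) + 3 by push_cast; ring] at a4
    linarith
  · -- the mean square
    have s1 := HP_diff_sum w w0 X hw hww0 hPWX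
    have s2 := HP_sq_sum w0 X (hw.trans hww0) hPWX
    have s3 : ∑ K ∈ Icc 1 X, (HP (K : ℤ) z - HP (K : ℤ) w0) ^ 2 ≤ 7 * κ' * X := by
      refine hD.trans ?_
      have : κ' * (X + ∑ K ∈ Icc 1 X, HP (K : ℤ) w0 ^ 2) ≤ κ' * (X + 6 * X) := mul_le_mul_of_nonneg_left (by linarith) hκ'0.le
      linarith
    have s4 : ∑ K ∈ Icc 1 X, HP (K : ℤ) z ^ 2 ≤ (14 * κ' + 12) * X := by
      have a1 : ∀ K ∈ Icc 1 X, HP (K : ℤ) z ^ 2 ≤ 2 * (HP (K : ℤ) z - HP (K : ℤ) w0) ^ 2 + 2 * HP (K : ℤ) w0 ^ 2 := by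
        intro K _
        nlinarith [sq_nonneg (HP (K : ℤ) z - 2 * HP (K : ℤ) w0)]
      refine (sum_le_sum a1).trans ?_
      rw [sum_add_distrib, ← mul_sum, ← mul_sum]
      linarith
    have hG : ∀ K ∈ Icc 1 X \ Bad, (HP (K : ℤ) w - h K) ^ 2 ≤ 3 * (HP (K : ℤ) w0 - HP (K : ℤ) w) ^ 2 +
        3 * (HP (K : ℤ) z - HP (K : ℤ) w0) ^ 2 + 12 / l * HP (K : ℤ) z ^ 2 := by
      intro K hK1
      rw [Finset.mem_sdiff] at hK1
      obtain ⟨-, b1, -, b2⟩ := hh K hK1.1 hK1.2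
      rw [pow_one] at b2
      have b3 := abs_le.1 b2
      have hHz := HP_nonneg K z
      have b4 : h K ≤ 2 * HP (K : ℤ) z := by
        have : 1 / l * h K ≤ 1 / 2 * h K := by
          apply mul_le_mul_of_nonneg_right _ b1.le
          rw [div_le_div_iff₀ hl0 (by norm_num)]
          linarith
        linarith [b3.1]
      have b5 : (HP (K : ℤ) z - h K) ^ 2 ≤ 4 / l * HP (K : ℤ) z ^ 2 := by
        have c1 : |HP (K : ℤ) z - h K| ≤ 1 / l * (2 * HP (K : ℤ) z) := b2.trans (mul_le_mul_of_nonneg_left b4 (by positivity))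
        have c2 : (HP (K : ℤ) z - h K) ^ 2 ≤ (1 / l * (2 * HP (K : ℤ) z)) ^ 2 := by
          rw [← sq_abs]
          exact pow_le_pow_left₀ (abs_nonneg _) c1 2
        refine c2.trans ?_
        have e : (1 / l * (2 * HP (K : ℤ) z)) ^ 2 = 4 / l * HP (K : ℤ) z ^ 2 * (1 / l) := by field_simp; ring
        rw [e]
        have c3 : 1 / l ≤ 1 := by rw [div_le_one hl0]; linarith
        have c4 : 0 ≤ 4 / l * HP (K : ℤ) z ^ 2 := by positivity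
        nlinarith
      have b6 : (HP (K : ℤ) w - h K) ^ 2 ≤ 3 * (HP (K : ℤ) w0 - HP (K : ℤ) w) ^ 2 +
        3 * (HP (K : ℤ) z - HP (K : ℤ) w0) ^ 2 + 3 * (HP (K : ℤ) z - h K) ^ 2 := by
        obtain ⟨x1, hx1⟩ : ∃ x1, x1 = HP (K : ℤ) w0 - HP (K : ℤ) w := ⟨_, rfl⟩
        obtain ⟨x2, hx2⟩ : ∃ x2, x2 = HP (K : ℤ) z - HP (K : ℤ) w0 := ⟨_, rfl⟩
        obtain ⟨x3, hx3⟩ : ∃ x3, x3 = HP (K : ℤ) z - h K := ⟨_, rfl⟩
        rw [← hx1, ← hx2, ← hx3, show HP (K : ℤ) w - h K = x3 - x2 - x1 by rw [hx1, hx2, hx3]; ring]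
        nlinarith [sq_nonneg (x1 - x2), sq_nonneg (x1 + x3), sq_nonneg (x2 + x3)]
      have b7 : 3 * (4 / l * HP (K : ℤ) z ^ 2) = 12 / l * HP (K : ℤ) z ^ 2 := by ring
      linarith
    refine (sum_le_sum hG).trans ?_
    rw [sum_add_distrib, sum_add_distrib, ← mul_sum, ← mul_sum, ← mul_sum]
    have sub : ∀ F : ℕ → ℝ, (∀ K, 0 ≤ F K) → ∑ K ∈ Icc 1 X \ Bad, F K ≤ ∑ K ∈ Icc 1 X, F K := fun F hF =>
      sum_le_sum_of_subset_of_nonneg sdiff_subset (fun K _ _ => hF K)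
    have t1 := sub (fun K => (HP (K : ℤ) w0 - HP (K : ℤ) w) ^ 2) (fun K => sq_nonneg _)
    have t2 := sub (fun K => (HP (K : ℤ) z - HP (K : ℤ) w0) ^ 2) (fun K => sq_nonneg _)
    have t3 := sub (fun K => HP (K : ℤ) z ^ 2) (fun K => sq_nonneg _)
    have t4 : 12 / l * ∑ K ∈ Icc 1 X \ Bad, HP (K : ℤ) z ^ 2 ≤ κ / 2 * X := by
      have b1 : 12 / l * ∑ K ∈ Icc 1 X \ Bad, HP (K : ℤ) z ^ 2 ≤ 12 / l * ((14 * κ' + 12) * X) :=
        mul_le_mul_of_nonneg_left (t3.trans s4) (by positivity)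
      refine b1.trans ?_
      have e : 12 / l * ((14 * κ' + 12) * X) = (14 * κ' + 12) * 12 / l * X := by ring
      rw [e]
      apply mul_le_mul_of_nonneg_right _ hX0.le
      rw [div_le_iff₀ hl0]
      rw [div_mul_eq_mul_div, div_le_iff₀ hκ] at hLκ
      linarith
    have t5 : 3 * ∑ K ∈ Icc 1 X \ Bad, (HP (K : ℤ) w0 - HP (K : ℤ) w) ^ 2 ≤ 36 / ((w : ℝ) - 1) * X := by
      have b1 := t1.trans s1
      have e : 36 / ((w : ℝ) - 1) * X = 3 * (12 / ((w : ℝ) - 1) * X) := by ring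
      rw [e]
      linarith
    have t6 : 3 * ∑ K ∈ Icc 1 X \ Bad, (HP (K : ℤ) z - HP (K : ℤ) w0) ^ 2 ≤ κ / 2 * X := by
      have b1 := t2.trans s3
      rw [hκ'] at b1
      linarith
    linarith

end Pool.Agent.X40.VAR
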