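import Pool.Agent.X40.VAR.V20

/-!
The variance with the constant cut at a fixed `w`.
-/

set_option autoImplicit false

namespace Pool.Agent.X40.VAR

open Finset Filter Topology
open Pool.Agent.H373R2.T7 (pz Vz lamz mem_pz Vz_inv_small)
open Pool.Agent.TH892.OW (pz_mono Vz_anti one_le_Vz_inv near_sqD evt_ll evt_ll_ge Vz_log)
open Pool.Agent.TH892.SW (HP rk root_card prod_rk js_le HP_nonneg vn model hK_most)
open Pool.Agent.H442R2.EHI (evt_log_pow evt_log_ge)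

lemma CL_split (W : ℕ) (hW : 1 ≤ W) (X : ℕ) (F : ℕ → ℝ) :
    ∑ K0 ∈ range W, CL W (K0 : ℤ) X F = ∑ K ∈ Icc 1 X, F K := by
  unfold CL
  rw [sum_comm]
  refine sum_congr rfl fun K _ => ?_
  rw [sum_eq_single (K % W)]
  · rw [if_pos]
    have := mod_dvd W K
    rw [← dvd_neg, neg_sub] at this
    exact this
  · intro n hn hne
    rw [if_neg]
    intro hd
    apply hne
    rw [mem_range] at hn
    have h4 : (n : ℤ) ≡ (K : ℤ) [ZMOD W] := by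
      rw [Int.modEq_iff_dvd]
      exact hd
    have h5 : n % W = K % W := (Int.natCast_modEq_iff).1 h4
    rw [← h5, Nat.mod_eq_of_lt hn]
  · intro h
    exact absurd (mem_range.2 (Nat.mod_lt _ (by omega))) h

lemma CL_one (W : ℕ) (hW : 1 ≤ W) (K0 X : ℕ) : |CL W (K0 : ℤ) X (fun _ => 1) - (X : ℝ) / W| ≤ 1 := by
  have e : CL W (K0 : ℤ) X (fun _ => 1) = (#{x ∈ Ioc 0 X | x ≡ K0 [MOD W]} : ℝ) := by
    unfold CL
    rw [sum_boole]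
    congr 1
    have : Icc 1 X = Ioc 0 X := rfl
    rw [this]
    congr 1
    apply filter_congr
    intro x _
    rw [← Nat.modEq_iff_dvd]
    exact ⟨fun h => h.symm, fun h => h.symm⟩
  rw [e]
  have h := Nat.Ioc_filter_modEq_card 0 X (show 0 < W by omega) K0
  have hW0 : (0 : ℝ) < W := by exact_mod_cast hW
  have h1 : ((#{x ∈ Ioc 0 X | x ≡ K0 [MOD W]} : ℤ) : ℝ) =
      ((max (⌊((X : ℚ) - K0) / W⌋ - ⌊(((0 : ℕ) : ℚ) - K0) / W⌋) 0 : ℤ) : ℝ) := by rw [h]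
  rw [Int.cast_natCast] at h1
  rw [h1]
  have a1 : ((⌊((X : ℚ) - K0) / W⌋ : ℚ)) ≤ ((X : ℚ) - K0) / W := Int.floor_le _
  have a2 : ((X : ℚ) - K0) / W < (⌊((X : ℚ) - K0) / W⌋ : ℚ) + 1 := Int.lt_floor_add_one _
  have a3 : ((⌊(((0 : ℕ) : ℚ) - K0) / W⌋ : ℚ)) ≤ (((0 : ℕ) : ℚ) - K0) / W := Int.floor_le _
  have a4 : (((0 : ℕ) : ℚ) - K0) / W < (⌊(((0 : ℕ) : ℚ) - K0) / W⌋ : ℚ) + 1 := Int.lt_floor_add_one _
  generalize ⌊((X : ℚ) - K0) / W⌋ = f1 at *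
  generalize ⌊(((0 : ℕ) : ℚ) - K0) / W⌋ = f2 at *
  have e2 : ((X : ℚ) - K0) / W - (((0 : ℕ) : ℚ) - K0) / W = (X : ℚ) / W := by
    rw [← sub_div]; congr 1; push_cast; ring
  have a5 : ((f1 : ℚ) - f2) ≤ (X : ℚ) / W + 1 := by linarith
  have a6 : (X : ℚ) / W - 1 ≤ ((f1 : ℚ) - f2) := by linarith
  have a5' : (((f1 : ℚ) - f2 : ℚ) : ℝ) ≤ (((X : ℚ) / W + 1 : ℚ) : ℝ) := by exact_mod_cast a5
  have a6' : (((X : ℚ) / W - 1 : ℚ) : ℝ) ≤ (((f1 : ℚ) - f2 : ℚ) : ℝ) := by exact_mod_cast a6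
  push_cast at a5' a6'
  have a7 : (0 : ℝ) ≤ (X : ℝ) / W := by positivity
  push_cast
  rcases le_total ((f1 : ℝ) - f2) 0 with h2 | h2
  · rw [max_eq_right h2, abs_le]
    constructor <;> linarith
  · rw [max_eq_left h2, abs_le]
    constructor <;> linarith

/-- one class -/
lemma class_sq (w X : ℕ) (K0 : ℕ) (F : ℕ → ℝ) (c : ℝ) :
    CL (PW w) (K0 : ℤ) X (fun K => (F K - c * HP (K : ℤ) w) ^ 2) =
      CL (PW w) (K0 : ℤ) X (fun K => F K ^ 2) - 2 * (c * HP (K0 : ℤ) w) * CL (PW w) (K0 : ℤ) X F +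
        (c * HP (K0 : ℤ) w) ^ 2 * CL (PW w) (K0 : ℤ) X (fun _ => 1) := by
  unfold CL
  rw [mul_sum, mul_sum, ← sum_sub_distrib, ← sum_add_distrib]
  refine sum_congr rfl fun K _ => ?_
  beta_reduce
  split_ifs with h
  · rw [HP_congr w (K : ℤ) (K0 : ℤ) h]; ring
  · ring

theorem S1_main (lam ε : ℝ) (hlam : 0 < lam) (hε : 0 < ε) : ∃ w0 : ℕ, ∀ w : ℕ, w0 ≤ w → 2 ≤ w → ∃ X0 : ℕ, ∀ X : ℕ, X0 ≤ X →
    |∑ K ∈ Icc 1 X, (NL (lam * Real.log X) K - 4 * lam * HP (K : ℤ) w) ^ 2 - 4 * lam * X| ≤ ε * X := by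
  obtain ⟨u, hu⟩ : ∃ u, u = 4 * lam := ⟨_, rfl⟩
  have hu0 : 0 < u := by rw [hu]; positivity
  obtain ⟨w0, hw0⟩ := exists_nat_ge (6 * u ^ 2 * 4 / ε)
  refine ⟨w0, fun w hww hw2 => ?_⟩
  have hwr : (2 : ℝ) ≤ w := by exact_mod_cast hw2
  have hw1 : 6 * u ^ 2 * 4 / ε ≤ w := hw0.trans (by exact_mod_cast hww)
  have hPW := PW_pos w
  obtain ⟨W, hW⟩ : ∃ W : ℝ, W = (PW w : ℝ) := ⟨_, rfl⟩
  have hW1 : 1 ≤ W := by rw [hW]; exact_mod_cast hPW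
  obtain ⟨e, he⟩ : ∃ e, e = ε / (4 * (W * (1 + 2 * u))) := ⟨_, rfl⟩
  have he0 : 0 < e := by rw [he]; positivity
  obtain ⟨X1, hX1⟩ := CM w hw2 lam hlam e he0
  obtain ⟨X2, hX2⟩ := exists_nat_ge (3 * u ^ 2 * W * 4 / ε)
  refine ⟨max X1 X2, fun X hX => ?_⟩
  have hCM := hX1 X ((le_max_left _ _).trans hX)
  have hXb : 3 * u ^ 2 * W * 4 / ε ≤ X := hX2.trans (by exact_mod_cast (le_max_right _ _).trans hX)
  have hX0 : (0 : ℝ) ≤ X := Nat.cast_nonneg X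
  rw [← hu]
  rw [← hu, ← hW] at hCM
  obtain ⟨Y, hY⟩ : ∃ Y : ℝ, Y = (X : ℝ) / W := ⟨_, rfl⟩
  rw [← hY] at hCM
  have hY0 : 0 ≤ Y := by rw [hY]; positivity
  -- each class
  have one : ∀ K0 ∈ range (PW w), |CL (PW w) (K0 : ℤ) X (fun K => (NL (lam * Real.log X) K - u * HP (K : ℤ) w) ^ 2) -
      u * Y * HP (K0 : ℤ) w| ≤ 2 / w * (Y * (u ^ 2 * HP (K0 : ℤ) w ^ 2)) + e * X + 2 * (u * HP (K0 : ℤ) w) * (e * X) +
        (u * HP (K0 : ℤ) w) ^ 2 := by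
    intro K0 _
    rw [class_sq]
    obtain ⟨c1, c2⟩ := hCM K0
    have c3 := CL_one (PW w) hPW K0 X
    rw [← hW, ← hY] at c3
    rw [HW_eq] at c1 c2
    have hh := HP_nonneg (K0 : ℤ) w
    obtain ⟨h, hh'⟩ : ∃ h, h = HP (K0 : ℤ) w := ⟨_, rfl⟩
    rw [← hh'] at c1 c2 hh ⊢
    obtain ⟨c1a, c1b⟩ := abs_le.1 c1
    obtain ⟨c2a, c2b⟩ := abs_le.1 c2
    obtain ⟨c3a, c3b⟩ := abs_le.1 c3
    have d1 : 2 * (u * h) * (CL (PW w) (K0 : ℤ) X (NL (lam * Real.log X)) - Y * u * h) ≤ 2 * (u * h) * (e * X) :=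
      mul_le_mul_of_nonneg_left c1b (by positivity)
    have d2 : 2 * (u * h) * (-(e * X)) ≤ 2 * (u * h) * (CL (PW w) (K0 : ℤ) X (NL (lam * Real.log X)) - Y * u * h) :=
      mul_le_mul_of_nonneg_left c1a (by positivity)
    have d3 : (u * h) ^ 2 * (CL (PW w) (K0 : ℤ) X (fun _ => 1) - Y) ≤ (u * h) ^ 2 * 1 := mul_le_mul_of_nonneg_left c3b (by positivity)
    have d4 : (u * h) ^ 2 * (-1) ≤ (u * h) ^ 2 * (CL (PW w) (K0 : ℤ) X (fun _ => 1) - Y) := mul_le_mul_of_nonneg_left c3a (by positivity)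
    rw [abs_le]
    constructor <;> nlinarith
  -- sum over the classes
  rw [← CL_split (PW w) hPW X (fun K => (NL (lam * Real.log X) K - u * HP (K : ℤ) w) ^ 2)]
  have hmean := HP_mean w
  have hsq := HP_sq_mean w hw2
  rw [← hW] at hmean hsq
  have hmain : u * X = ∑ K0 ∈ range (PW w), u * Y * HP (K0 : ℤ) w := by
    rw [← mul_sum, hmean, hY]
    field_simp
  rw [hmain, ← sum_sub_distrib]
  refine (abs_sum_le_sum_abs _ _).trans ?_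
  refine (sum_le_sum one).trans ?_
  have e1 : ∑ K0 ∈ range (PW w), (2 / w * (Y * (u ^ 2 * HP (K0 : ℤ) w ^ 2)) + e * X + 2 * (u * HP (K0 : ℤ) w) * (e * X) +
        (u * HP (K0 : ℤ) w) ^ 2) = 2 / w * (Y * u ^ 2) * ∑ K0 ∈ range (PW w), HP (K0 : ℤ) w ^ 2 + W * (e * X) +
        2 * u * (e * X) * ∑ K0 ∈ range (PW w), HP (K0 : ℤ) w + u ^ 2 * ∑ K0 ∈ range (PW w), HP (K0 : ℤ) w ^ 2 := by
    have hWs : W * (e * X) = ∑ _K0 ∈ range (PW w), e * X := by rw [sum_const, card_range, nsmul_eq_mul, hW]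
    rw [hWs, mul_sum, mul_sum, mul_sum, ← sum_add_distrib, ← sum_add_distrib, ← sum_add_distrib]
    refine sum_congr rfl fun K0 _ => ?_
    ring
  rw [e1, hmean]
  have hw00 : (0 : ℝ) < w := by linarith
  have b1 : 2 / w * (Y * u ^ 2) * ∑ K0 ∈ range (PW w), HP (K0 : ℤ) w ^ 2 ≤ ε / 4 * X := by
    have c1 : 2 / w * (Y * u ^ 2) * ∑ K0 ∈ range (PW w), HP (K0 : ℤ) w ^ 2 ≤ 2 / w * (Y * u ^ 2) * (3 * W) :=
      mul_le_mul_of_nonneg_left hsq (by positivity)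
    refine c1.trans ?_
    have e2 : 2 / w * (Y * u ^ 2) * (3 * W) = 6 * u ^ 2 / w * X := by
      rw [hY]; field_simp; ring
    rw [e2]
    apply mul_le_mul_of_nonneg_right _ hX0
    rw [div_le_iff₀ hw00]
    rw [div_le_iff₀ hε] at hw1
    linarith
  have b2 : W * (e * X) + 2 * u * (e * X) * W = ε / 4 * X := by
    rw [he]
    field_simp
  have b3 : u ^ 2 * ∑ K0 ∈ range (PW w), HP (K0 : ℤ) w ^ 2 ≤ ε / 4 * X := by
    have c1 : u ^ 2 * ∑ K0 ∈ range (PW w), HP (K0 : ℤ) w ^ 2 ≤ u ^ 2 * (3 * W) := mul_le_mul_of_nonneg_left hsq (by positivity)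
    refine c1.trans ?_
    rw [div_le_iff₀ hε] at hXb
    linarith
  have b4 : 0 ≤ ε / 4 * X := by positivity
  linarith

end Pool.Agent.X40.VAR
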