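import Pool.Agent.X40.VAR.V1
import Pool.Agent.TH892.OW.B3

/-!
The sieve model summed over the cells.
-/

set_option autoImplicit false

namespace Pool.Agent.X40.VAR

open Finset
open Pool.Agent.H373R2.T7 (pz Vz lamz mem_pz)
open Pool.Agent.TH892.OW (Gz lz lz_ap Gz_shift Gz_nonneg Gz_le fac_pos fac_inv prod_fac_le)
open Pool.Agent.TH892.SW (wt wt_nonneg wt_anti)
open Pool.Agent.X40.HLK (Mz)

/-- the model without the weight -/
noncomputable def La (z : ℕ) (v : ℤ) : ℝ := lamz z v.natAbs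

lemma La_nonneg (z : ℕ) (v : ℤ) : 0 ≤ La z v := by
  unfold La lamz
  split_ifs
  · exact (inv_pos.2 (Pool.Agent.H373R2.T7.Vz_pos z)).le
  · exact le_rfl

lemma La_le (z : ℕ) (v : ℤ) : La z v ≤ (Vz z)⁻¹ := by
  unfold La lamz
  split_ifs
  · exact le_rfl
  · exact (inv_pos.2 (Pool.Agent.H373R2.T7.Vz_pos z)).le

lemma La_pos (z : ℕ) (v : ℤ) (hv : 1 ≤ v) : La z v = lz z v := by
  unfold La lz
  rw [if_pos hv]
  congr 1
  omega

lemma La_neg (z : ℕ) (v : ℤ) : La z (-v) = La z v := by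
  unfold La
  rw [Int.natAbs_neg]

lemma La_zero (z : ℕ) (v : ℤ) (p : ℕ) (hp : p ∈ pz z) (hd : (p : ℤ) ∣ v) : La z v = 0 := by
  unfold La lamz
  rw [if_neg]
  intro h
  exact h p hp (Int.natCast_dvd.1 hd)

/-- the indices -/
noncomputable def JJ (m : ℕ) : Finset ℤ := (Icc (-(m : ℤ)) m).filter (fun i => i ≠ 0 ∧ i ≠ 1)

lemma mem_JJ {m : ℕ} {i : ℤ} (h : i ∈ JJ m) : |i| ≤ m ∧ (i ≤ -1 ∨ 2 ≤ i) := by
  unfold JJ at h
  rw [mem_filter, mem_Icc] at h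
  refine ⟨abs_le.2 h.1, ?_⟩
  omega

lemma mem_cel {s : ℕ} {K : ℤ} : K ∈ cel s ↔ (s : ℤ) ^ 2 ≤ K ∧ K ≤ (s : ℤ) ^ 2 + 2 * s := by
  unfold cel; rw [mem_Icc]

/-- the size of the values -/
lemma v_range (A S m s : ℕ) (hm : m < A) (hs : A ≤ s) (hS : s < S) (i K : ℤ) (hi : i ∈ JJ m) (hK : K ∈ cel s) :
    (2 ≤ i → (A : ℤ) ≤ ((s : ℤ) + i) ^ 2 - K) ∧ (i ≤ -1 → ((s : ℤ) + i) ^ 2 - K ≤ -(A : ℤ)) ∧
      |((s : ℤ) + i) ^ 2 - K| ≤ 2 * S * (m + 1) + m ^ 2 := by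
  obtain ⟨h1, h2⟩ := mem_JJ hi
  rw [mem_cel] at hK
  have h1' := abs_le.1 h1
  have hsz : (A : ℤ) ≤ s := by exact_mod_cast hs
  have hmz : (m : ℤ) < A := by exact_mod_cast hm
  have hSz : (s : ℤ) < S := by exact_mod_cast hS
  have hm0 : (0 : ℤ) ≤ m := Int.natCast_nonneg m
  have hs0 : (0 : ℤ) < s := by linarith
  refine ⟨?_, ?_, ?_⟩
  · intro hi2
    nlinarith [sq_nonneg i, mul_le_mul_of_nonneg_left hi2 hs0.le]
  · intro hi2
    have h3 : (0 : ℤ) < 2 * s + i := by linarith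
    have h4 : i * (2 * s + i) ≤ (-1) * (2 * s + i) := mul_le_mul_of_nonneg_right hi2 h3.le
    nlinarith
  · have k1 : |2 * (s : ℤ) * i| ≤ 2 * s * m := by
      rw [abs_mul, abs_of_nonneg (by positivity : (0 : ℤ) ≤ 2 * s)]
      exact mul_le_mul_of_nonneg_left h1 (by positivity)
    have k3 : i ^ 2 ≤ (m : ℤ) ^ 2 := by rw [sq_le_sq, Nat.abs_cast]; exact h1
    have k5 : 2 * (s : ℤ) * m ≤ 2 * S * m := by
      apply mul_le_mul_of_nonneg_right _ hm0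
      linarith
    have k1' := abs_le.1 k1
    have k6 : 0 ≤ i ^ 2 := sq_nonneg _
    rw [abs_le]
    constructor <;> nlinarith [k1'.1, k1'.2]

/-- the weights -/
lemma QT_M_La (W : ℕ) (K0 : ℤ) (A S m z Y : ℕ) (hm : m < A) (hA : 2 ≤ A) (hY : 2 * S * (m + 1) + m ^ 2 ≤ Y) (i j : ℤ)
    (hi : i ∈ JJ m) (hj : j ∈ JJ m) :
    wt Y ^ 2 * QT W K0 A S (La z) (La z) i j ≤ QT W K0 A S (Mz z) (Mz z) i j ∧
      QT W K0 A S (Mz z) (Mz z) i j ≤ wt A ^ 2 * QT W K0 A S (La z) (La z) i j := by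
  have hY' : (2 * S * (m + 1) + m ^ 2 : ℤ) ≤ Y := by exact_mod_cast hY
  have key : ∀ s ∈ Ico A S, ∀ K ∈ celW W K0 s, ∀ i ∈ JJ m, wt Y * La z (((s : ℤ) + i) ^ 2 - K) ≤ Mz z (((s : ℤ) + i) ^ 2 - K) ∧
      Mz z (((s : ℤ) + i) ^ 2 - K) ≤ wt A * La z (((s : ℤ) + i) ^ 2 - K) := by
    intro s hs K hK i hi
    rw [mem_Ico] at hs
    unfold celW at hK
    rw [mem_filter] at hK
    obtain ⟨h1, h2, h3⟩ := v_range A S m s hm hs.1 hs.2 i K hi hK.1
    have hA' : (A : ℤ) ≤ |((s : ℤ) + i) ^ 2 - K| := by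
      rcases (mem_JJ hi).2 with h | h
      · have := h2 h
        rw [abs_of_nonpos (by have : (0 : ℤ) ≤ A := Int.natCast_nonneg A; linarith)]
        linarith
      · exact (h1 h).trans (le_abs_self _)
    generalize ((s : ℤ) + i) ^ 2 - K = v at *
    have hv1 : A ≤ v.natAbs := by
      rw [Int.abs_eq_natAbs] at hA'
      exact_mod_cast hA'
    have hv2 : v.natAbs ≤ Y := by
      have : |v| ≤ Y := h3.trans hY'
      rw [Int.abs_eq_natAbs] at this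
      exact_mod_cast this
    have hM : Mz z v = wt v.natAbs * La z v := by
      unfold Mz La
      rw [if_pos, mul_comm]
      have : (2 : ℤ) ≤ A := by exact_mod_cast hA
      linarith
    rw [hM]
    constructor
    · exact mul_le_mul_of_nonneg_right (wt_anti (hA.trans hv1) hv2) (La_nonneg z v)
    · exact mul_le_mul_of_nonneg_right (wt_anti hA hv1) (La_nonneg z v)
  unfold QT
  rw [mul_sum, mul_sum]
  simp_rw [mul_sum]
  constructor
  · refine sum_le_sum fun s hs => sum_le_sum fun K hK => ?_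
    have h1 := key s hs K hK i hi
    have h2 := key s hs K hK j hj
    have hw := wt_nonneg Y
    calc wt Y ^ 2 * (La z (((s : ℤ) + i) ^ 2 - K) * La z (((s : ℤ) + j) ^ 2 - K)) =
        (wt Y * La z (((s : ℤ) + i) ^ 2 - K)) * (wt Y * La z (((s : ℤ) + j) ^ 2 - K)) := by ring
      _ ≤ _ := mul_le_mul h1.1 h2.1 (mul_nonneg hw (La_nonneg _ _)) ((mul_nonneg hw (La_nonneg _ _)).trans h1.1)
  · refine sum_le_sum fun s hs => sum_le_sum fun K hK => ?_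
    have h1 := key s hs K hK i hi
    have h2 := key s hs K hK j hj
    have hw := wt_nonneg Y
    have hw2 := wt_nonneg A
    calc Mz z (((s : ℤ) + i) ^ 2 - K) * Mz z (((s : ℤ) + j) ^ 2 - K) ≤
        (wt A * La z (((s : ℤ) + i) ^ 2 - K)) * (wt A * La z (((s : ℤ) + j) ^ 2 - K)) :=
          mul_le_mul h1.2 h2.2 ((mul_nonneg hw (La_nonneg _ _)).trans h2.1) (mul_nonneg hw2 (La_nonneg _ _))
      _ = _ := by ring

/-- the cell in a residue class as a progression -/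
lemma celW_prog (W : ℕ) (hW : 1 ≤ W) (K0 : ℤ) (s : ℕ) (F : ℤ → ℝ) : ∃ T : Finset ℤ,
    (∀ x ∈ T, ∀ y ∈ T, ∀ t, x ≤ t → t ≤ y → t ∈ T) ∧ (∀ t ∈ T, K0 + W * t ∈ cel s) ∧
    |(#T : ℝ) - (2 * s + 1) / W| ≤ 1 ∧ ∑ K ∈ celW W K0 s, F K = ∑ t ∈ T, F (K0 + W * t) := by
  classical
  have hW0 : (0 : ℤ) < W := by exact_mod_cast hW
  obtain ⟨a, ha⟩ : ∃ a : ℤ, a = (K0 - (s : ℤ) ^ 2) / W := ⟨_, rfl⟩
  obtain ⟨b, hb⟩ : ∃ b : ℤ, b = ((s : ℤ) ^ 2 + 2 * s - K0) / W := ⟨_, rfl⟩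
  have ha1 : (W : ℤ) * a ≤ K0 - (s : ℤ) ^ 2 := by rw [ha]; exact Int.mul_ediv_self_le hW0.ne'
  have ha2 : K0 - (s : ℤ) ^ 2 < W * a + W := by rw [ha]; exact Int.lt_mul_ediv_self_add hW0
  have hb1 : (W : ℤ) * b ≤ (s : ℤ) ^ 2 + 2 * s - K0 := by rw [hb]; exact Int.mul_ediv_self_le hW0.ne'
  have hb2 : (s : ℤ) ^ 2 + 2 * s - K0 < W * b + W := by rw [hb]; exact Int.lt_mul_ediv_self_add hW0
  have hmem : ∀ t : ℤ, t ∈ Icc (-a) b ↔ K0 + W * t ∈ cel s := by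
    intro t
    rw [mem_cel, mem_Icc]
    constructor
    · rintro ⟨h1, h2⟩
      have h3 : (W : ℤ) * (-a) ≤ W * t := mul_le_mul_of_nonneg_left h1 hW0.le
      have h4 : (W : ℤ) * t ≤ W * b := mul_le_mul_of_nonneg_left h2 hW0.le
      constructor <;> nlinarith
    · rintro ⟨h1, h2⟩
      constructor
      · by_contra hc
        push Not at hc
        have h3 : (W : ℤ) * (t + 1) ≤ W * (-a) := mul_le_mul_of_nonneg_left (by omega) hW0.le
        nlinarith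
      · by_contra hc
        push Not at hc
        have h3 : (W : ℤ) * (b + 1) ≤ W * t := mul_le_mul_of_nonneg_left (by omega) hW0.le
        nlinarith
  refine ⟨Icc (-a) b, ?_, fun t ht => (hmem t).1 ht, ?_, ?_⟩
  · intro x hx y hy t h1 h2
    rw [mem_Icc] at hx hy ⊢
    constructor <;> linarith [hx.1, hy.2]
  · have hs0 : (0 : ℤ) ≤ s := Int.natCast_nonneg s
    have h0 : 0 ≤ b + 1 + a := by
      by_contra hc
      push Not at hc
      have h3 : (W : ℤ) * (b + 1 + a) ≤ W * (-1) := mul_le_mul_of_nonneg_left (by omega) hW0.le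
      nlinarith
    have hc : ((#(Icc (-a) b) : ℕ) : ℝ) = b + 1 + a := by
      rw [Int.card_Icc]
      have e : (((b + 1 - -a).toNat : ℕ) : ℤ) = b + 1 + a := by omega
      have e2 : (((b + 1 - -a).toNat : ℕ) : ℝ) = (((b + 1 + a : ℤ)) : ℝ) := by exact_mod_cast congrArg (fun x : ℤ => (x : ℝ)) e
      rw [e2]
      push_cast
      ring
    rw [hc]
    have hWr : (0 : ℝ) < W := by exact_mod_cast hW
    have k1 : (W : ℝ) * (b + a) ≤ 2 * s := by
      have : (W : ℤ) * (b + a) ≤ 2 * s := by nlinarith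
      exact_mod_cast this
    have k2 : 2 * (s : ℝ) + 2 ≤ W * (b + a) + 2 * W := by
      have : 2 * (s : ℤ) + 2 ≤ W * (b + a) + 2 * W := by nlinarith
      exact_mod_cast this
    have e : ((b : ℝ) + 1 + a) - (2 * s + 1) / W = ((b + 1 + a) * W - (2 * s + 1)) / W := by field_simp
    rw [e, abs_div, abs_of_pos hWr, div_le_one hWr, abs_le]
    constructor <;> nlinarith
  · unfold celW
    have hWr : (W : ℤ) ≠ 0 := hW0.ne'
    refine sum_nbij' (fun K => (K - K0) / W) (fun t => K0 + W * t) ?_ ?_ ?_ ?_ ?_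
    · intro K hK
      rw [mem_filter] at hK
      rw [hmem, Int.mul_ediv_cancel' hK.2]
      have : K0 + (K - K0) = K := by ring
      rw [this]
      exact hK.1
    · intro t ht
      rw [mem_filter]
      refine ⟨(hmem t).1 ht, t, by ring⟩
    · intro K hK
      rw [mem_filter] at hK
      rw [Int.mul_ediv_cancel' hK.2]
      ring
    · intro t _
      simp only [add_sub_cancel_left]
      rw [Int.mul_ediv_cancel_left _ hWr]
    · intro K hK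
      rw [mem_filter] at hK
      rw [Int.mul_ediv_cancel' hK.2]
      congr 1
      ring

lemma Gz_neg1 (y : ℕ) (c q : ℤ) : Gz y (-c) q = Gz y c q := by
  unfold Gz
  simp only [dvd_neg]

lemma Gz_neg2 (y : ℕ) (c q : ℤ) : Gz y c (-q) = Gz y c q := by
  unfold Gz
  simp only [dvd_neg]

/-- one cell -/
theorem single : ∃ C1 y0 : ℕ, 1 ≤ C1 ∧ 2 ≤ y0 ∧ ∀ b : ℕ, C1 ≤ b → ∀ z : ℕ, y0 ≤ z → ∀ (W : ℕ) (K0 : ℤ) (A S m s : ℕ) (i : ℤ), 1 ≤ W →
    m < A → A ≤ s → s < S → i ∈ JJ m →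
    |∑ K ∈ celW W K0 s, La z (((s : ℤ) + i) ^ 2 - K) - (2 * s + 1) / W * Gz z (((s : ℤ) + i) ^ 2 - K0) W| ≤
      (1 / 2 : ℝ) ^ b * ((2 * s + 1) / W * Gz z (((s : ℤ) + i) ^ 2 - K0) W) + 2 * (Vz z)⁻¹ + (z : ℝ) ^ (C1 * b) := by
  obtain ⟨C1, y0, hC1, hy0, h⟩ := lz_ap
  refine ⟨C1, y0, hC1, hy0, fun b hb z hz W K0 A S m s i hW hm hA hS hi => ?_⟩
  obtain ⟨T, hT1, hT2, hT3, hT4⟩ := celW_prog W hW K0 s (fun K => La z (((s : ℤ) + i) ^ 2 - K))
  rw [hT4]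
  obtain ⟨c, hc⟩ : ∃ c : ℤ, c = ((s : ℤ) + i) ^ 2 - K0 := ⟨_, rfl⟩
  rw [← hc]
  have hA1 : (1 : ℤ) ≤ A := by exact_mod_cast (by omega : 1 ≤ A)
  have main : |∑ t ∈ T, La z (((s : ℤ) + i) ^ 2 - (K0 + W * t)) - #T * Gz z c W| ≤
      (1 / 2 : ℝ) ^ b * (#T * Gz z c W) + (z : ℝ) ^ (C1 * b) := by
    rcases (mem_JJ hi).2 with hneg | hpos
    · have h1 := h b hb z hz T hT1 (-c) W (by
        intro t ht
        have h2 := (v_range A S m s hm hA hS i _ hi (hT2 t ht)).2.1 hneg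
        rw [hc]; linarith)
      rw [Gz_neg1] at h1
      have e : ∑ t ∈ T, La z (((s : ℤ) + i) ^ 2 - (K0 + W * t)) = ∑ t ∈ T, lz z (-c + W * t) := by
        refine sum_congr rfl fun t ht => ?_
        have h2 := (v_range A S m s hm hA hS i _ hi (hT2 t ht)).2.1 hneg
        rw [← La_neg, La_pos z _ (by linarith)]
        congr 1
        rw [hc]; ring
      rw [e]
      exact h1
    · have h1 := h b hb z hz T hT1 c (-(W : ℤ)) (by
        intro t ht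
        have h2 := (v_range A S m s hm hA hS i _ hi (hT2 t ht)).1 hpos
        rw [hc]; linarith)
      rw [Gz_neg2] at h1
      have e : ∑ t ∈ T, La z (((s : ℤ) + i) ^ 2 - (K0 + W * t)) = ∑ t ∈ T, lz z (c + -(W : ℤ) * t) := by
        refine sum_congr rfl fun t ht => ?_
        have h2 := (v_range A S m s hm hA hS i _ hi (hT2 t ht)).1 hpos
        rw [La_pos z _ (by linarith)]
        congr 1
        rw [hc]; ring
      rw [e]
      exact h1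
  obtain ⟨G, hG⟩ : ∃ G, G = Gz z c W := ⟨_, rfl⟩
  rw [← hG] at main ⊢
  have hG0 : 0 ≤ G := by rw [hG]; exact Gz_nonneg _ _ _
  have hG1 : G ≤ (Vz z)⁻¹ := by rw [hG]; exact Gz_le _ _ _
  have hT3' := abs_le.1 hT3
  obtain ⟨n, hn⟩ : ∃ n : ℝ, n = #T := ⟨_, rfl⟩
  obtain ⟨x, hx⟩ : ∃ x : ℝ, x = (2 * s + 1) / W := ⟨_, rfl⟩
  rw [← hn] at main hT3'
  rw [← hx] at hT3' ⊢
  have hb1 : (1 / 2 : ℝ) ^ b ≤ 1 := pow_le_one₀ (by norm_num) (by norm_num)
  have hb0 : (0 : ℝ) < (1 / 2 : ℝ) ^ b := by positivity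
  have e1 : |n * G - x * G| ≤ G := by
    rw [← sub_mul, abs_mul, abs_of_nonneg hG0]
    have : |n - x| ≤ 1 := abs_le.2 hT3'
    nlinarith
  have e2 : n * G ≤ x * G + G := by nlinarith
  have e3 : (1 / 2 : ℝ) ^ b * (n * G) ≤ (1 / 2 : ℝ) ^ b * (x * G) + G := by
    have : (1 / 2 : ℝ) ^ b * (n * G) ≤ (1 / 2 : ℝ) ^ b * (x * G + G) := mul_le_mul_of_nonneg_left e2 hb0.le
    nlinarith
  have h1 := abs_le.1 main
  have h2 := abs_le.1 e1
  rw [abs_le]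
  constructor <;> linarith [h1.1, h1.2, h2.1, h2.2]

end Pool.Agent.X40.VAR
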