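import Pool.Agent.X40.VAR.V3

/-!
The sieve model: sums over all cells with `s` in a residue class, and the pair sums.
-/

set_option autoImplicit false

namespace Pool.Agent.X40.VAR

open Finset
open Pool.Agent.H373R2.T7 (pz Vz lamz mem_pz)
open Pool.Agent.TH892.OW (Gz lz lz_ap Gz_shift Gz_nonneg Gz_le fac_pos fac_inv prod_fac_le)

/-- the `s` in a residue class -/
def SA (A S W ν : ℕ) : Finset ℕ := (Ico A S).filter (fun s => s % W = ν)

lemma block_one (W a ν : ℕ) (hν : ν < W) : ∃ s0, a ≤ s0 ∧ s0 < a + W ∧ SA a (a + W) W ν = {s0} := by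
  have hW : 0 < W := by omega
  obtain ⟨r, hr⟩ : ∃ r, r = (ν + W - a % W) % W := ⟨_, rfl⟩
  have hr1 : r < W := by rw [hr]; exact Nat.mod_lt _ hW
  have ha : a % W < W := Nat.mod_lt _ hW
  have h1 : (a + r) % W = ν := by
    rw [hr, Nat.add_mod, Nat.mod_mod]
    rcases le_or_gt (a % W) ν with h | h
    · have e : ν + W - a % W = (ν - a % W) + W := by omega
      rw [e, Nat.add_mod_right, Nat.mod_eq_of_lt (show ν - a % W < W by omega)]
      have : a % W + (ν - a % W) = ν := by omega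
      rw [this, Nat.mod_eq_of_lt hν]
    · rw [Nat.mod_eq_of_lt (show ν + W - a % W < W by omega)]
      have : a % W + (ν + W - a % W) = ν + W := by omega
      rw [this, Nat.add_mod_right, Nat.mod_eq_of_lt hν]
  refine ⟨a + r, by omega, by omega, ?_⟩
  ext s
  unfold SA
  rw [mem_filter, mem_Ico, mem_singleton]
  constructor
  · rintro ⟨⟨h2, h3⟩, h4⟩
    have h5 : s ≡ a + r [MOD W] := by
      unfold Nat.ModEq
      rw [h4, h1]
    rcases le_or_gt s (a + r) with h | h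
    · have h6 : W ∣ a + r - s := (Nat.modEq_iff_dvd' h).1 h5
      have h7 := Nat.eq_zero_of_dvd_of_lt h6 (by omega)
      omega
    · have h6 : W ∣ s - (a + r) := (Nat.modEq_iff_dvd' h.le).1 h5.symm
      have h7 := Nat.eq_zero_of_dvd_of_lt h6 (by omega)
      omega
  · intro h
    subst h
    exact ⟨⟨by omega, by omega⟩, h1⟩

lemma SA_sum (W ν A : ℕ) (hν : ν < W) : ∀ S : ℕ, A ≤ S →
    |(W : ℝ) * ∑ s ∈ SA A S W ν, (2 * (s : ℝ) + 1) - ((S : ℝ) ^ 2 - (A : ℝ) ^ 2)| ≤ 2 * W * S := by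
  intro S
  induction S using Nat.strong_induction_on with
  | _ S ih =>
    intro hAS
    have hW : 0 < W := by omega
    have hWr : (1 : ℝ) ≤ W := by exact_mod_cast hW
    have hASr : (A : ℝ) ≤ S := by exact_mod_cast hAS
    have hA0 : (0 : ℝ) ≤ A := Nat.cast_nonneg A
    by_cases h : S < A + W
    · obtain ⟨s0, h1, h2, h3⟩ := block_one W A ν hν
      have hsub : SA A S W ν ⊆ {s0} := by
        rw [← h3]
        unfold SA
        apply filter_subset_filter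
        exact Ico_subset_Ico_right h.le
      have h4 : ∑ s ∈ SA A S W ν, (2 * (s : ℝ) + 1) ≤ 2 * S := by
        rcases subset_singleton_iff.1 hsub with he | he
        · rw [he, sum_empty]; positivity
        · rw [he, sum_singleton]
          have h5 : s0 ∈ SA A S W ν := by rw [he]; exact mem_singleton_self _
          unfold SA at h5
          rw [mem_filter, mem_Ico] at h5
          have : (s0 : ℝ) + 1 ≤ S := by exact_mod_cast h5.1.2
          linarith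
      have h5 : 0 ≤ ∑ s ∈ SA A S W ν, (2 * (s : ℝ) + 1) := sum_nonneg fun s _ => by positivity
      have h6 : (S : ℝ) ≤ A + W := by exact_mod_cast h.le
      have h7 : (S : ℝ) ^ 2 - (A : ℝ) ^ 2 ≤ 2 * W * S := by nlinarith
      have h8 : 0 ≤ (S : ℝ) ^ 2 - (A : ℝ) ^ 2 := by nlinarith
      have h9 : (W : ℝ) * ∑ s ∈ SA A S W ν, (2 * (s : ℝ) + 1) ≤ W * (2 * S) := mul_le_mul_of_nonneg_left h4 (by linarith)
      have h10 : 0 ≤ (W : ℝ) * ∑ s ∈ SA A S W ν, (2 * (s : ℝ) + 1) := by positivity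
      rw [abs_le]
      constructor <;> linarith
    · push Not at h
      have ih' := ih (S - W) (by omega) (by omega)
      obtain ⟨s0, h1, h2, h3⟩ := block_one W (S - W) ν hν
      have e0 : S - W + W = S := by omega
      rw [e0] at h2 h3
      have e1 : ∑ s ∈ SA A S W ν, (2 * (s : ℝ) + 1) = ∑ s ∈ SA A (S - W) W ν, (2 * (s : ℝ) + 1) + (2 * s0 + 1) := by
        have : SA A S W ν = SA A (S - W) W ν ∪ SA (S - W) S W ν := by
          unfold SA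
          rw [← filter_union, Ico_union_Ico_eq_Ico (by omega) (by omega)]
        rw [this, sum_union, h3, sum_singleton]
        unfold SA
        apply disjoint_filter_filter
        exact Ico_disjoint_Ico_consecutive _ _ _
      rw [e1]
      have hc : ((S - W : ℕ) : ℝ) = (S : ℝ) - W := by
        rw [Nat.cast_sub (by omega)]
      rw [hc] at ih'
      have h4 : (S : ℝ) - W ≤ s0 := by rw [← hc]; exact_mod_cast h1
      have h5 : (s0 : ℝ) + 1 ≤ S := by exact_mod_cast h2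
      have ih1 := (abs_le.1 ih').1
      have ih2 := (abs_le.1 ih').2
      generalize ∑ s ∈ SA A (S - W) W ν, (2 * (s : ℝ) + 1) = x at *
      have k1 : (W : ℝ) * (2 * s0 + 1) ≤ W * (2 * S - 1) := mul_le_mul_of_nonneg_left (by linarith) (by linarith)
      have k2 : (W : ℝ) * (2 * (S - W) + 1) ≤ W * (2 * s0 + 1) := mul_le_mul_of_nonneg_left (by linarith) (by linarith)
      rw [abs_le]
      constructor <;> nlinarith

/-- the sum over all cells in a residue class -/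
noncomputable def FT (W : ℕ) (K0 : ℤ) (A S z ν : ℕ) (i : ℤ) : ℝ :=
  ∑ s ∈ SA A S W ν, ∑ K ∈ celW W K0 s, La z (((s : ℤ) + i) ^ 2 - K)

lemma SA_mem {A S W ν s : ℕ} (h : s ∈ SA A S W ν) : A ≤ s ∧ s < S ∧ ∃ k : ℤ, (s : ℤ) = ν + W * k ∧ 0 ≤ k ∧ k ≤ s := by
  unfold SA at h
  rw [mem_filter, mem_Ico] at h
  refine ⟨h.1.1, h.1.2, ((s / W : ℕ) : ℤ), ?_, Int.natCast_nonneg _, by exact_mod_cast Nat.div_le_self s W⟩
  have := Nat.mod_add_div s W
  rw [h.2] at this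
  exact_mod_cast this.symm

theorem FT_asymp : ∃ C1 y0 : ℕ, 1 ≤ C1 ∧ 2 ≤ y0 ∧ ∀ b : ℕ, C1 ≤ b → ∀ z : ℕ, y0 ≤ z → ∀ (W : ℕ) (K0 : ℤ) (A S m ν : ℕ) (i : ℤ),
    ν < W → m < A → A ≤ S → i ∈ JJ m →
    |FT W K0 A S z ν i - ((S : ℝ) ^ 2 - (A : ℝ) ^ 2) / W ^ 2 * Gz z (((ν : ℤ) + i) ^ 2 - K0) W| ≤
      (1 / 2 : ℝ) ^ b * (((S : ℝ) ^ 2 - (A : ℝ) ^ 2) / W ^ 2 * Gz z (((ν : ℤ) + i) ^ 2 - K0) W) +
      S * (6 * (Vz z)⁻¹ + (z : ℝ) ^ (C1 * b)) := by
  obtain ⟨C1, y0, hC1, hy0, h⟩ := single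
  refine ⟨C1, y0, hC1, hy0, fun b hb z hz W K0 A S m ν i hν hm hAS hi => ?_⟩
  have hW : 1 ≤ W := by omega
  have hWr : (1 : ℝ) ≤ W := by exact_mod_cast hW
  obtain ⟨G, hG⟩ : ∃ G, G = Gz z (((ν : ℤ) + i) ^ 2 - K0) W := ⟨_, rfl⟩
  rw [← hG]
  have hG0 : 0 ≤ G := by rw [hG]; exact Gz_nonneg _ _ _
  have hG1 : G ≤ (Vz z)⁻¹ := by rw [hG]; exact Gz_le _ _ _
  have hV0 : 0 ≤ (Vz z)⁻¹ := hG0.trans hG1
  have hb1 : (1 / 2 : ℝ) ^ b ≤ 1 := pow_le_one₀ (by norm_num) (by norm_num)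
  have hb0 : (0 : ℝ) < (1 / 2 : ℝ) ^ b := by positivity
  have h1 : ∀ s ∈ SA A S W ν, |∑ K ∈ celW W K0 s, La z (((s : ℤ) + i) ^ 2 - K) - (2 * s + 1) / W * G| ≤
      (1 / 2 : ℝ) ^ b * ((2 * s + 1) / W * G) + (2 * (Vz z)⁻¹ + (z : ℝ) ^ (C1 * b)) := by
    intro s hs
    obtain ⟨h2, h3, k, hk, -, -⟩ := SA_mem hs
    have h4 := h b hb z hz W K0 A S m s i hW hm h2 h3 hi
    have e : Gz z (((s : ℤ) + i) ^ 2 - K0) W = G := by
      rw [hG, ← Gz_shift z (((ν : ℤ) + i) ^ 2 - K0) W (k * (2 * ν + W * k + 2 * i)), hk]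
      congr 1
      ring
    rw [e] at h4
    linarith
  have hcard : ((#(SA A S W ν) : ℕ) : ℝ) ≤ S := by
    have : #(SA A S W ν) ≤ S := by
      unfold SA
      refine (card_filter_le _ _).trans ?_
      rw [Nat.card_Ico]; omega
    exact_mod_cast this
  obtain ⟨σ, hσ⟩ : ∃ σ : ℝ, σ = ∑ s ∈ SA A S W ν, (2 * (s : ℝ) + 1) := ⟨_, rfl⟩
  have hσ1 := SA_sum W ν A hν S hAS
  rw [← hσ] at hσ1
  have h5 : |FT W K0 A S z ν i - σ / W * G| ≤ (1 / 2 : ℝ) ^ b * (σ / W * G) + S * (2 * (Vz z)⁻¹ + (z : ℝ) ^ (C1 * b)) := by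
    have e1 : σ / W * G = ∑ s ∈ SA A S W ν, (2 * (s : ℝ) + 1) / W * G := by
      rw [hσ, sum_div, sum_mul]
    rw [e1]
    unfold FT
    rw [← sum_sub_distrib]
    refine (abs_sum_le_sum_abs _ _).trans ((sum_le_sum h1).trans ?_)
    rw [sum_add_distrib, ← mul_sum, sum_const, nsmul_eq_mul]
    apply add_le_add le_rfl
    exact mul_le_mul_of_nonneg_right hcard (by positivity)
  obtain ⟨D, hD⟩ : ∃ D : ℝ, D = ((S : ℝ) ^ 2 - (A : ℝ) ^ 2) / W ^ 2 := ⟨_, rfl⟩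
  rw [← hD]
  have hσD : |σ / W - D| ≤ 2 * S := by
    have e : σ / W - D = (W * σ - ((S : ℝ) ^ 2 - (A : ℝ) ^ 2)) / W ^ 2 := by
      rw [hD]
      field_simp
    have hW2 : (0 : ℝ) < (W : ℝ) ^ 2 := by positivity
    rw [e, abs_div, abs_of_pos hW2, div_le_iff₀ hW2]
    refine hσ1.trans ?_
    have hS0 : (0 : ℝ) ≤ S := Nat.cast_nonneg S
    have : (W : ℝ) ≤ (W : ℝ) ^ 2 := by nlinarith
    nlinarith
  have h6 : |σ / W * G - D * G| ≤ 2 * S * (Vz z)⁻¹ := by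
    rw [← sub_mul, abs_mul, abs_of_nonneg hG0]
    exact mul_le_mul hσD hG1 hG0 (by positivity)
  have h7 := abs_le.1 h6
  have h8 : (1 / 2 : ℝ) ^ b * (σ / W * G) ≤ (1 / 2 : ℝ) ^ b * (D * G) + 2 * S * (Vz z)⁻¹ := by
    have h9 : (1 / 2 : ℝ) ^ b * (σ / W * G) ≤ (1 / 2 : ℝ) ^ b * (D * G + 2 * S * (Vz z)⁻¹) :=
      mul_le_mul_of_nonneg_left (by linarith [h7.2]) hb0.le
    have h10 : (1 / 2 : ℝ) ^ b * (2 * S * (Vz z)⁻¹) ≤ 1 * (2 * S * (Vz z)⁻¹) := mul_le_mul_of_nonneg_right hb1 (by positivity)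
    linarith
  have h9 := abs_le.1 h5
  rw [abs_le]
  constructor <;> nlinarith [h9.1, h9.2, h7.1, h7.2]

/-- the `t` with `u` in the range of the values at `s = ν + W t` -/
noncomputable def TT (A S W ν : ℕ) (i u : ℤ) : Finset ℤ :=
  (Icc 0 (S : ℤ)).filter (fun t => (A : ℤ) ≤ ν + W * t ∧ (ν : ℤ) + W * t < S ∧
    2 * ((ν : ℤ) + W * t) * i + i ^ 2 - 2 * (ν + W * t) ≤ u ∧ u ≤ 2 * ((ν : ℤ) + W * t) * i + i ^ 2)

lemma lin_conv (a b x y t : ℤ) (hxt : x ≤ t) (hty : t ≤ y) (h1 : 0 ≤ a + b * x) (h2 : 0 ≤ a + b * y) : 0 ≤ a + b * t := by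
  rcases le_or_gt 0 b with hb | hb
  · have := mul_le_mul_of_nonneg_left hxt hb
    linarith
  · have := mul_le_mul_of_nonpos_left hty hb.le
    linarith

lemma TT_conv (A S W ν : ℕ) (i u : ℤ) : ∀ x ∈ TT A S W ν i u, ∀ y ∈ TT A S W ν i u, ∀ t, x ≤ t → t ≤ y → t ∈ TT A S W ν i u := by
  intro x hx y hy t hxt hty
  unfold TT at *
  rw [mem_filter, mem_Icc] at hx hy ⊢
  obtain ⟨⟨a1, a2⟩, a3, a4, a5, a6⟩ := hx
  obtain ⟨⟨b1, b2⟩, b3, b4, b5, b6⟩ := hy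
  refine ⟨⟨by omega, by omega⟩, ?_, ?_, ?_, ?_⟩
  · have := lin_conv (ν - A) W x y t hxt hty (by linarith) (by linarith)
    linarith
  · have := lin_conv (S - 1 - ν) (-(W : ℤ)) x y t hxt hty (by linarith) (by linarith)
    linarith
  · have := lin_conv (u - (2 * ν * i + i ^ 2 - 2 * ν)) (-(2 * W * i - 2 * W)) x y t hxt hty (by linarith) (by linarith)
    linarith
  · have := lin_conv (2 * ν * i + i ^ 2 - u) (2 * W * i) x y t hxt hty (by linarith) (by linarith)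
    linarith

lemma conv_pairs (W : ℕ) (K0 : ℤ) (A S m ν Y : ℕ) (hW : 1 ≤ W) (hm : m < A) (hY : 2 * S * (m + 1) + m ^ 2 ≤ Y) (hν : ν < W)
    (φ ψ : ℤ → ℝ) (i j : ℤ) (hi : i ∈ JJ m) :
    ∑ s ∈ SA A S W ν, ∑ K ∈ celW W K0 s, φ (((s : ℤ) + i) ^ 2 - K) * ψ (((s : ℤ) + j) ^ 2 - K) =
      ∑ u ∈ (Icc (-(Y : ℤ)) Y).filter (fun u => (W : ℤ) ∣ ((ν : ℤ) + i) ^ 2 - u - K0), φ u *
        ∑ t ∈ TT A S W ν i u, ψ ((u + (j - i) * (2 * ν + i + j)) + (2 * (j - i) * W) * t) := by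
  classical
  have hWz : (0 : ℤ) < W := by exact_mod_cast hW
  have hY' : (2 * S * (m + 1) + m ^ 2 : ℤ) ≤ Y := by exact_mod_cast hY
  obtain ⟨U, hU⟩ : ∃ U, U = (Icc (-(Y : ℤ)) Y).filter (fun u => (W : ℤ) ∣ ((ν : ℤ) + i) ^ 2 - u - K0) := ⟨_, rfl⟩
  rw [← hU]
  have h1 : ∀ s ∈ SA A S W ν, ∑ K ∈ celW W K0 s, φ (((s : ℤ) + i) ^ 2 - K) * ψ (((s : ℤ) + j) ^ 2 - K) =
      ∑ u ∈ U, if 2 * (s : ℤ) * i + i ^ 2 - 2 * s ≤ u ∧ u ≤ 2 * (s : ℤ) * i + i ^ 2 then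
        φ u * ψ (u + (j - i) * (2 * s + i + j)) else 0 := by
    intro s hs
    obtain ⟨h2, h3, k, hk, -, -⟩ := SA_mem hs
    rw [← sum_filter]
    have hdv : ∀ K : ℤ, ((W : ℤ) ∣ K - K0) ↔ ((W : ℤ) ∣ ((ν : ℤ) + i) ^ 2 - (((s : ℤ) + i) ^ 2 - K) - K0) := by
      intro K
      have e : ((ν : ℤ) + i) ^ 2 - (((s : ℤ) + i) ^ 2 - K) - K0 = (K - K0) - W * (k * (2 * ν + W * k + 2 * i)) := by
        rw [hk]; ring
      rw [e]
      exact (dvd_sub_left (dvd_mul_right _ _)).symm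
    refine sum_nbij' (fun K => ((s : ℤ) + i) ^ 2 - K) (fun u => ((s : ℤ) + i) ^ 2 - u) ?_ ?_ ?_ ?_ ?_
    · intro K hK
      unfold celW at hK
      rw [mem_filter] at hK
      have h4 := (v_range A S m s hm h2 h3 i K hi hK.1).2.2.trans hY'
      have h5 := abs_le.1 h4
      have h6 := mem_cel.1 hK.1
      rw [hU, mem_filter, mem_filter, mem_Icc]
      refine ⟨⟨⟨h5.1, h5.2⟩, (hdv K).1 hK.2⟩, by linarith [h6.2], by linarith [h6.1]⟩
    · intro u hu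
      rw [hU, mem_filter, mem_filter] at hu
      unfold celW
      rw [mem_filter, mem_cel]
      refine ⟨⟨by linarith [hu.2.2], by linarith [hu.2.1]⟩, ?_⟩
      rw [hdv]
      have e : ((s : ℤ) + i) ^ 2 - (((s : ℤ) + i) ^ 2 - u) = u := by ring
      rw [e]
      exact hu.1.2
    · intro K _; ring
    · intro u _; ring
    · intro K _
      congr 2
      ring
  rw [sum_congr rfl h1, sum_comm]
  refine sum_congr rfl fun u hu => ?_
  rw [← sum_filter, mul_sum]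
  refine sum_nbij' (fun s => ((s / W : ℕ) : ℤ)) (fun t => ((ν : ℤ) + W * t).toNat) ?_ ?_ ?_ ?_ ?_
  · intro s hs
    rw [mem_filter] at hs
    obtain ⟨h2, h3, k, hk, hk0, hks⟩ := SA_mem hs.1
    have hkk : ((s / W : ℕ) : ℤ) = k := by
      have h4 : ((s : ℤ)) / W = k := by
        rw [hk, Int.add_mul_ediv_left _ _ hWz.ne', Int.ediv_eq_zero_of_lt (Int.natCast_nonneg ν) (by exact_mod_cast hν), zero_add]
      rw [← h4]
      exact Int.natCast_ediv s W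
    simp only [hkk]
    unfold TT
    rw [mem_filter, mem_Icc, ← hk]
    exact ⟨⟨hk0, by omega⟩, by exact_mod_cast h2, by exact_mod_cast h3, hs.2⟩
  · intro t ht
    unfold TT at ht
    rw [mem_filter, mem_Icc] at ht
    obtain ⟨⟨t1, t2⟩, t3, t4, t5, t6⟩ := ht
    have h0 : (((((ν : ℤ) + W * t).toNat : ℕ)) : ℤ) = ν + W * t := Int.toNat_of_nonneg (by omega)
    rw [mem_filter, h0]
    refine ⟨?_, t5, t6⟩
    unfold SA
    rw [mem_filter, mem_Ico]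
    refine ⟨⟨by omega, by omega⟩, ?_⟩
    have h7 : ((((((ν : ℤ) + W * t).toNat) % W : ℕ)) : ℤ) = ν := by
      rw [Int.natCast_mod, h0, Int.add_mul_emod_self_left, Int.emod_eq_of_lt (Int.natCast_nonneg ν) (by exact_mod_cast hν)]
    exact_mod_cast h7
  · intro s hs
    rw [mem_filter] at hs
    obtain ⟨h2, h3, k, hk, hk0, hks⟩ := SA_mem hs.1
    have h4 := Nat.mod_add_div s W
    have h5 : s % W = ν := by
      have := hs.1
      unfold SA at this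
      exact (mem_filter.1 this).2
    rw [h5] at h4
    have h6 : ((ν : ℤ) + W * ((s / W : ℕ) : ℤ)) = s := by exact_mod_cast h4
    rw [h6, Int.toNat_natCast]
  · intro t ht
    unfold TT at ht
    rw [mem_filter, mem_Icc] at ht
    obtain ⟨⟨t1, t2⟩, t3, t4, t5, t6⟩ := ht
    have h0 : (((((ν : ℤ) + W * t).toNat : ℕ)) : ℤ) = ν + W * t := Int.toNat_of_nonneg (by omega)
    rw [Int.natCast_ediv, h0, Int.add_mul_ediv_left _ _ hWz.ne', Int.ediv_eq_zero_of_lt (Int.natCast_nonneg ν) (by exact_mod_cast hν), zero_add]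
  · intro s hs
    rw [mem_filter] at hs
    obtain ⟨h2, h3, k, hk, hk0, hks⟩ := SA_mem hs.1
    have hkk : ((s / W : ℕ) : ℤ) = k := by
      have h4 : ((s : ℤ)) / W = k := by
        rw [hk, Int.add_mul_ediv_left _ _ hWz.ne', Int.ediv_eq_zero_of_lt (Int.natCast_nonneg ν) (by exact_mod_cast hν), zero_add]
      rw [← h4]
      exact Int.natCast_ediv s W
    simp only [hkk]
    congr 2
    rw [hk]
    ring

end Pool.Agent.X40.VAR
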