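import Pool.Agent.X40.VAR.V4

/-!
The pair sums of the sieve model.
-/

set_option autoImplicit false

namespace Pool.Agent.X40.VAR

open Finset
open Pool.Agent.H373R2.T7 (pz Vz lamz mem_pz)
open Pool.Agent.TH892.OW (Gz lz lz_ap Gz_shift Gz_nonneg Gz_le fac_pos fac_inv prod_fac_le pz_mono Vz_pos)

/-- the product of the primes up to `w` -/
def PW (w : ℕ) : ℕ := ∏ p ∈ pz w, p

lemma PW_pos (w : ℕ) : 1 ≤ PW w := by
  unfold PW
  exact Nat.one_le_iff_ne_zero.2 (prod_ne_zero_iff.2 fun p hp => (mem_pz.1 hp).2.ne_zero)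

lemma dvd_PW {w p : ℕ} (hp : p.Prime) : p ∣ PW w ↔ p ∈ pz w := by
  unfold PW
  rw [Prime.dvd_finset_prod_iff hp.prime]
  constructor
  · rintro ⟨r, hr, hpr⟩
    rw [(Nat.prime_dvd_prime_iff_eq hp (mem_pz.1 hr).2).1 hpr]
    exact hr
  · intro h
    exact ⟨p, h, dvd_rfl⟩

lemma dvd_PWz {w p : ℕ} (hp : p.Prime) : (p : ℤ) ∣ (PW w : ℤ) ↔ p ∈ pz w := by
  rw [Int.natCast_dvd_natCast]
  exact dvd_PW hp

/-- no small prime divides `x² - K0` -/
def Rw (w : ℕ) (K0 x : ℤ) : Prop := ∀ p ∈ pz w, ¬ (p : ℤ) ∣ x ^ 2 - K0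

/-- the factor of the large primes dividing `h` -/
noncomputable def cc (w z : ℕ) (h : ℤ) : ℝ := ∏ p ∈ (pz z).filter (fun p : ℕ => w < p ∧ (p : ℤ) ∣ h), (1 - 1 / (p : ℝ))⁻¹

lemma cc_one (w z : ℕ) (h : ℤ) : 1 ≤ cc w z h := by
  unfold cc
  calc (1 : ℝ) = ∏ _p ∈ (pz z).filter (fun p : ℕ => w < p ∧ (p : ℤ) ∣ h), 1 := by rw [prod_const_one]
    _ ≤ _ := prod_le_prod (fun _ _ => zero_le_one) (fun p hp => fac_inv (mem_pz.1 (mem_filter.1 hp).1).2)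

lemma cc_le (w z : ℕ) (hwz : w ≤ z) (h : ℤ) : (Vz w)⁻¹ * cc w z h ≤ (Vz z)⁻¹ := by
  have h1 : (Vz w)⁻¹ = ∏ p ∈ pz w, (1 - 1 / (p : ℝ))⁻¹ := by
    unfold Vz; rw [prod_inv_distrib]
  rw [h1]
  unfold cc
  rw [← prod_union]
  · apply prod_fac_le
    apply union_subset (pz_mono hwz) (filter_subset _ _)
  · rw [disjoint_left]
    intro p hp hp2
    rw [mem_pz] at hp
    rw [mem_filter] at hp2
    omega

open Classical in
lemma Gz1 (w z : ℕ) (hwz : w ≤ z) (K0 x : ℤ) : Gz z (x ^ 2 - K0) (PW w) = if Rw w K0 x then (Vz w)⁻¹ else 0 := by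
  have hiff : (∃ p ∈ pz z, (p : ℤ) ∣ x ^ 2 - K0 ∧ (p : ℤ) ∣ (PW w : ℤ)) ↔ ¬ Rw w K0 x := by
    unfold Rw
    push Not
    constructor
    · rintro ⟨p, hp, h1, h2⟩
      exact ⟨p, (dvd_PWz (mem_pz.1 hp).2).1 h2, h1⟩
    · rintro ⟨p, hp, h1⟩
      exact ⟨p, pz_mono hwz hp, h1, (dvd_PWz (mem_pz.1 hp).2).2 hp⟩
  unfold Gz
  by_cases h : Rw w K0 x
  · rw [if_neg (by rw [hiff]; exact not_not.2 h), if_pos h]
    have e : (pz z).filter (fun p : ℕ => (p : ℤ) ∣ (PW w : ℤ)) = pz w := by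
      ext p
      rw [mem_filter]
      constructor
      · rintro ⟨h1, h2⟩
        exact (dvd_PWz (mem_pz.1 h1).2).1 h2
      · intro h1
        exact ⟨pz_mono hwz h1, (dvd_PWz (mem_pz.1 h1).2).2 h1⟩
    rw [e]
    unfold Vz
    rw [prod_inv_distrib]
  · rw [if_pos (hiff.2 h), if_neg h]

open Classical in
lemma Gz2 (w z : ℕ) (hw : 2 ≤ w) (hwz : w ≤ z) (K0 u ν i j : ℤ) (hu : ∀ p ∈ pz z, ¬ (p : ℤ) ∣ u)
    (hU : (PW w : ℤ) ∣ (ν + i) ^ 2 - u - K0) :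
    Gz z (u + (j - i) * (2 * ν + i + j)) (2 * (j - i) * (PW w)) = if Rw w K0 (ν + j) then (Vz w)⁻¹ * cc w z (j - i) else 0 := by
  have h2 : (2 : ℕ) ∈ pz w := by rw [mem_pz]; exact ⟨hw, Nat.prime_two⟩
  have hq : ∀ p : ℕ, p.Prime → ((p : ℤ) ∣ 2 * (j - i) * (PW w : ℤ) ↔ (p ∈ pz w ∨ (p : ℤ) ∣ (j - i))) := by
    intro p hp
    have hpz : Prime (p : ℤ) := Nat.prime_iff_prime_int.1 hp
    rw [hpz.dvd_mul, hpz.dvd_mul, dvd_PWz hp]
    constructor
    · rintro ((h | h) | h)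
      · left
        have h3 : p ∣ 2 := by exact_mod_cast h
        rw [(Nat.prime_dvd_prime_iff_eq hp Nat.prime_two).1 h3]
        exact h2
      · right; exact h
      · left; exact h
    · rintro (h | h)
      · right; exact h
      · left; right; exact h
  have hc : ∀ p ∈ pz w, ((p : ℤ) ∣ u + (j - i) * (2 * ν + i + j) ↔ (p : ℤ) ∣ (ν + j) ^ 2 - K0) := by
    intro p hp
    have h3 : (p : ℤ) ∣ (ν + i) ^ 2 - u - K0 := ((dvd_PWz (mem_pz.1 hp).2).2 hp).trans hU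
    have e : (ν + j) ^ 2 - K0 = (u + (j - i) * (2 * ν + i + j)) + ((ν + i) ^ 2 - u - K0) := by ring
    rw [e]
    exact (dvd_add_left h3).symm
  have hiff : (∃ p ∈ pz z, (p : ℤ) ∣ u + (j - i) * (2 * ν + i + j) ∧ (p : ℤ) ∣ 2 * (j - i) * (PW w : ℤ)) ↔ ¬ Rw w K0 (ν + j) := by
    unfold Rw
    push Not
    constructor
    · rintro ⟨p, hp, h3, h4⟩
      rcases (hq p (mem_pz.1 hp).2).1 h4 with h5 | h5
      · exact ⟨p, h5, (hc p h5).1 h3⟩
      · exfalso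
        apply hu p hp
        exact (dvd_add_left (h5.mul_right _)).1 h3
    · rintro ⟨p, hp, h3⟩
      exact ⟨p, pz_mono hwz hp, (hc p hp).2 h3, (hq p (mem_pz.1 hp).2).2 (Or.inl hp)⟩
  unfold Gz
  by_cases h : Rw w K0 (ν + j)
  · rw [if_neg (by rw [hiff]; exact not_not.2 h), if_pos h]
    have e : (pz z).filter (fun p : ℕ => (p : ℤ) ∣ 2 * (j - i) * (PW w : ℤ)) =
        pz w ∪ (pz z).filter (fun p : ℕ => w < p ∧ (p : ℤ) ∣ (j - i)) := by
      ext p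
      rw [mem_filter, mem_union, mem_filter]
      constructor
      · rintro ⟨h3, h4⟩
        rcases (hq p (mem_pz.1 h3).2).1 h4 with h5 | h5
        · left; exact h5
        · by_cases hpw : p ≤ w
          · left; rw [mem_pz]; exact ⟨hpw, (mem_pz.1 h3).2⟩
          · right; exact ⟨h3, by omega, h5⟩
      · rintro (h3 | ⟨h3, h4, h5⟩)
        · exact ⟨pz_mono hwz h3, (hq p (mem_pz.1 h3).2).2 (Or.inl h3)⟩
        · exact ⟨h3, (hq p (mem_pz.1 h3).2).2 (Or.inr h5)⟩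
    rw [e, prod_union]
    · unfold cc Vz
      rw [prod_inv_distrib]
    · rw [disjoint_left]
      intro p hp hp2
      rw [mem_pz] at hp
      rw [mem_filter] at hp2
      omega
  · rw [if_pos (hiff.2 h), if_neg h]

open Classical in
/-- the pair sums -/
theorem QTnu : ∃ C1 y0 : ℕ, 1 ≤ C1 ∧ 2 ≤ y0 ∧ ∀ b : ℕ, C1 ≤ b → ∀ w z : ℕ, 2 ≤ w → w ≤ z → y0 ≤ z →
    ∀ (K0 : ℤ) (A S m ν Y : ℕ) (i j : ℤ), m < A → A ≤ S → 2 * S * (m + 1) + m ^ 2 ≤ Y → ν < PW w → i ∈ JJ m → j ∈ JJ m →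
    |∑ s ∈ SA A S (PW w) ν, ∑ K ∈ celW (PW w) K0 s, La z (((s : ℤ) + i) ^ 2 - K) * La z (((s : ℤ) + j) ^ 2 - K) -
      ((S : ℝ) ^ 2 - (A : ℝ) ^ 2) / (PW w) ^ 2 * (if Rw w K0 (ν + i) ∧ Rw w K0 (ν + j) then (Vz w)⁻¹ ^ 2 * cc w z (j - i) else 0)| ≤
      3 * (1 / 2 : ℝ) ^ b * (((S : ℝ) ^ 2 - (A : ℝ) ^ 2) / (PW w) ^ 2 *
        (if Rw w K0 (ν + i) ∧ Rw w K0 (ν + j) then (Vz w)⁻¹ ^ 2 * cc w z (j - i) else 0)) +
      20 * ((S : ℝ) + Y + 1) * (Vz z)⁻¹ ^ 2 * (z : ℝ) ^ (C1 * b) := by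
  obtain ⟨C1, y0, hC1, hy0, h⟩ := lz_ap
  obtain ⟨C2, y2, hC2, hy2, hFT⟩ := FT_asymp
  refine ⟨C1 + C2, y0 + y2, by omega, by omega, fun b hb w z hw hwz hz K0 A S m ν Y i j hm hAS hY hν hi hj => ?_⟩
  have hW := PW_pos w
  obtain ⟨W, hWd⟩ : ∃ W, W = PW w := ⟨_, rfl⟩
  have hA1 : (1 : ℤ) ≤ A := by exact_mod_cast (by omega : 1 ≤ A)
  have hz1 : (1 : ℝ) ≤ z := by exact_mod_cast (by omega : 1 ≤ z)
  obtain ⟨Z, hZ⟩ : ∃ Z, Z = (z : ℝ) ^ ((C1 + C2) * b) := ⟨_, rfl⟩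
  have hZ1 : (z : ℝ) ^ (C1 * b) ≤ Z := by
    rw [hZ]; apply pow_le_pow_right₀ hz1; nlinarith
  have hZ2 : (z : ℝ) ^ (C2 * b) ≤ Z := by
    rw [hZ]; apply pow_le_pow_right₀ hz1; nlinarith
  have hZ0 : 1 ≤ Z := by rw [hZ]; exact one_le_pow₀ hz1
  rw [← hZ]
  have hVz : 1 ≤ (Vz z)⁻¹ := Pool.Agent.TH892.OW.one_le_Vz_inv z
  have hVw : 0 < (Vz w)⁻¹ := inv_pos.2 (Vz_pos w)
  have hb1 : (1 / 2 : ℝ) ^ b ≤ 1 := pow_le_one₀ (by norm_num) (by norm_num)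
  have hb0 : (0 : ℝ) < (1 / 2 : ℝ) ^ b := by positivity
  obtain ⟨U, hU⟩ : ∃ U, U = (Icc (-(Y : ℤ)) Y).filter (fun u => ((PW w : ℕ) : ℤ) ∣ ((ν : ℤ) + i) ^ 2 - u - K0) := ⟨_, rfl⟩
  obtain ⟨g2, hg2⟩ : ∃ g2 : ℝ, g2 = if Rw w K0 (ν + j) then (Vz w)⁻¹ * cc w z (j - i) else 0 := ⟨_, rfl⟩
  have hcc := cc_one w z (j - i)
  have hg20 : 0 ≤ g2 := by
    rw [hg2]
    split_ifs
    · positivity
    · exact le_rfl
  have hg2le : g2 ≤ (Vz z)⁻¹ := by
    rw [hg2]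
    split_ifs
    · exact cc_le w z hwz _
    · linarith
  obtain ⟨N, hN⟩ : ∃ N : ℤ → ℝ, N = fun u => (#(TT A S (PW w) ν i u) : ℝ) := ⟨_, rfl⟩
  have hN0 : ∀ u, 0 ≤ N u := fun u => by rw [hN]; exact Nat.cast_nonneg _
  have e1 := conv_pairs (PW w) K0 A S m ν Y hW hm hY hν (La z) (La z) i j hi
  have e2 := conv_pairs (PW w) K0 A S m ν Y hW hm hY hν (La z) (fun _ => 1) i j hi
  have e3 : FT (PW w) K0 A S z ν i = ∑ u ∈ U, La z u * N u := by
    have : FT (PW w) K0 A S z ν i = ∑ s ∈ SA A S (PW w) ν, ∑ K ∈ celW (PW w) K0 s, La z (((s : ℤ) + i) ^ 2 - K) * 1 := by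
      unfold FT
      refine sum_congr rfl fun s _ => sum_congr rfl fun K _ => (mul_one _).symm
    rw [this, e2, hU]
    refine sum_congr rfl fun u _ => ?_
    rw [sum_const, nsmul_eq_mul, mul_one, hN]
  rw [e1, ← hU]
  have hone : ∀ u ∈ U, |La z u * ∑ t ∈ TT A S (PW w) ν i u, La z ((u + (j - i) * (2 * ν + i + j)) + (2 * (j - i) * (PW w : ℕ)) * t) -
      g2 * (La z u * N u)| ≤ (1 / 2 : ℝ) ^ b * (g2 * (La z u * N u)) + (Vz z)⁻¹ * Z := by
    intro u hu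
    by_cases hL : La z u = 0
    · rw [hL]
      simp only [zero_mul, mul_zero, sub_zero, abs_zero, zero_add]
      positivity
    · have hup : ∀ p ∈ pz z, ¬ (p : ℤ) ∣ u := fun p hp hd => hL (La_zero z u p hp hd)
      rw [hU, mem_filter] at hu
      have hG := Gz2 w z hw hwz K0 u ν i j hup hu.2
      rw [← hg2] at hG
      have hcell : ∀ t ∈ TT A S (PW w) ν i u, ∃ s : ℕ, (s : ℤ) = ν + (PW w : ℕ) * t ∧ A ≤ s ∧ s < S ∧ ((s : ℤ) + i) ^ 2 - u ∈ cel s := by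
        intro t ht
        unfold TT at ht
        rw [mem_filter, mem_Icc] at ht
        obtain ⟨⟨t1, t2⟩, t3, t4, t5, t6⟩ := ht
        obtain ⟨s, hs⟩ : ∃ s : ℕ, (s : ℤ) = ν + (PW w : ℕ) * t := ⟨((ν : ℤ) + (PW w : ℕ) * t).toNat, Int.toNat_of_nonneg (by omega)⟩
        rw [← hs] at t3 t4 t5 t6
        refine ⟨s, hs, by omega, by omega, ?_⟩
        rw [mem_cel]
        constructor <;> linarith
      have main : |∑ t ∈ TT A S (PW w) ν i u, La z ((u + (j - i) * (2 * ν + i + j)) + (2 * (j - i) * (PW w : ℕ)) * t) - N u * g2| ≤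
          (1 / 2 : ℝ) ^ b * (N u * g2) + Z := by
        rcases (mem_JJ hj).2 with hneg | hpos
        · have hval : ∀ t ∈ TT A S (PW w) ν i u, (u + (j - i) * (2 * ν + i + j)) + (2 * (j - i) * (PW w : ℕ)) * t ≤ -(A : ℤ) := by
            intro t ht
            obtain ⟨s, hs, h1, h2, h3⟩ := hcell t ht
            have h4 := (v_range A S m s hm h1 h2 j _ hj h3).2.1 hneg
            have e : (u + (j - i) * (2 * ν + i + j)) + (2 * (j - i) * (PW w : ℕ)) * t = ((s : ℤ) + j) ^ 2 - (((s : ℤ) + i) ^ 2 - u) := by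
              rw [hs]; ring
            rw [e]; exact h4
          have h1 := h b (by omega) z (by omega) _ (TT_conv A S (PW w) ν i u) (-(u + (j - i) * (2 * ν + i + j)))
            (-(2 * (j - i) * (PW w : ℕ))) (by
              intro t ht
              have := hval t ht
              linarith)
          rw [Gz_neg1, Gz_neg2, hG] at h1
          have e : ∑ t ∈ TT A S (PW w) ν i u, La z ((u + (j - i) * (2 * ν + i + j)) + (2 * (j - i) * (PW w : ℕ)) * t) =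
              ∑ t ∈ TT A S (PW w) ν i u, lz z (-(u + (j - i) * (2 * ν + i + j)) + (-(2 * (j - i) * (PW w : ℕ))) * t) := by
            refine sum_congr rfl fun t ht => ?_
            have := hval t ht
            rw [← La_neg, La_pos z _ (by linarith)]
            congr 1
            ring
          rw [e, hN]
          exact h1.trans (by linarith)
        · have hval : ∀ t ∈ TT A S (PW w) ν i u, (A : ℤ) ≤ (u + (j - i) * (2 * ν + i + j)) + (2 * (j - i) * (PW w : ℕ)) * t := by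
            intro t ht
            obtain ⟨s, hs, h1, h2, h3⟩ := hcell t ht
            have h4 := (v_range A S m s hm h1 h2 j _ hj h3).1 hpos
            have e : (u + (j - i) * (2 * ν + i + j)) + (2 * (j - i) * (PW w : ℕ)) * t = ((s : ℤ) + j) ^ 2 - (((s : ℤ) + i) ^ 2 - u) := by
              rw [hs]; ring
            rw [e]; exact h4
          have h1 := h b (by omega) z (by omega) _ (TT_conv A S (PW w) ν i u) (u + (j - i) * (2 * ν + i + j))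
            (2 * (j - i) * (PW w : ℕ)) (by
              intro t ht
              have := hval t ht
              linarith)
          rw [hG] at h1
          have e : ∑ t ∈ TT A S (PW w) ν i u, La z ((u + (j - i) * (2 * ν + i + j)) + (2 * (j - i) * (PW w : ℕ)) * t) =
              ∑ t ∈ TT A S (PW w) ν i u, lz z ((u + (j - i) * (2 * ν + i + j)) + (2 * (j - i) * (PW w : ℕ)) * t) := by
            refine sum_congr rfl fun t ht => ?_
            have := hval t ht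
            rw [La_pos z _ (by linarith)]
          rw [e, hN]
          exact h1.trans (by linarith)
      have hL0 := La_nonneg z u
      have hL1 := La_le z u
      have e5 : La z u * ∑ t ∈ TT A S (PW w) ν i u, La z ((u + (j - i) * (2 * ν + i + j)) + (2 * (j - i) * (PW w : ℕ)) * t) -
          g2 * (La z u * N u) = La z u * (∑ t ∈ TT A S (PW w) ν i u, La z ((u + (j - i) * (2 * ν + i + j)) +
            (2 * (j - i) * (PW w : ℕ)) * t) - N u * g2) := by ring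
      rw [e5, abs_mul, abs_of_nonneg hL0]
      calc La z u * _ ≤ La z u * ((1 / 2 : ℝ) ^ b * (N u * g2) + Z) := mul_le_mul_of_nonneg_left main hL0
        _ = (1 / 2 : ℝ) ^ b * (g2 * (La z u * N u)) + La z u * Z := by ring
        _ ≤ _ := by
            apply add_le_add le_rfl
            exact mul_le_mul_of_nonneg_right hL1 (by linarith)
  have hUc : ((#U : ℕ) : ℝ) ≤ 2 * Y + 1 := by
    have : #U ≤ 2 * Y + 1 := by
      rw [hU]
      refine (card_filter_le _ _).trans ?_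
      rw [Int.card_Icc]; omega
    exact_mod_cast this
  have h5 : |∑ u ∈ U, La z u * ∑ t ∈ TT A S (PW w) ν i u, La z ((u + (j - i) * (2 * ν + i + j)) + (2 * (j - i) * (PW w : ℕ)) * t) -
      g2 * FT (PW w) K0 A S z ν i| ≤ (1 / 2 : ℝ) ^ b * (g2 * FT (PW w) K0 A S z ν i) + (2 * Y + 1) * ((Vz z)⁻¹ * Z) := by
    rw [e3, mul_sum, ← sum_sub_distrib]
    refine (abs_sum_le_sum_abs _ _).trans ((sum_le_sum hone).trans ?_)
    rw [sum_add_distrib, ← mul_sum, sum_const, nsmul_eq_mul]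
    apply add_le_add le_rfl
    exact mul_le_mul_of_nonneg_right hUc (by positivity)
  have h6 := hFT b (by omega) z (by omega) (PW w) K0 A S m ν i hν hm hAS hi
  rw [Gz1 w z hwz K0 (ν + i)] at h6
  obtain ⟨g1, hg1⟩ : ∃ g1 : ℝ, g1 = if Rw w K0 (ν + i) then (Vz w)⁻¹ else 0 := ⟨_, rfl⟩
  rw [← hg1] at h6
  obtain ⟨D, hD⟩ : ∃ D : ℝ, D = ((S : ℝ) ^ 2 - (A : ℝ) ^ 2) / (PW w : ℕ) ^ 2 := ⟨_, rfl⟩
  have hg12 : (if Rw w K0 (ν + i) ∧ Rw w K0 (ν + j) then (Vz w)⁻¹ ^ 2 * cc w z (j - i) else 0) = g1 * g2 := by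
    rw [hg1, hg2]
    by_cases ha : Rw w K0 (ν + i)
    · by_cases hb : Rw w K0 (ν + j)
      · rw [if_pos ⟨ha, hb⟩, if_pos ha, if_pos hb]; ring
      · rw [if_neg (fun h => hb h.2), if_neg hb, mul_zero]
    · rw [if_neg (fun h => ha h.1), if_neg ha, zero_mul]
  rw [hg12, ← hD]
  rw [← hD] at h6
  have hASr : (A : ℝ) ≤ S := by exact_mod_cast hAS
  have hD0 : 0 ≤ D := by
    rw [hD]
    apply div_nonneg _ (by positivity)
    have : (0 : ℝ) ≤ A := Nat.cast_nonneg A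
    nlinarith
  have hg10 : 0 ≤ g1 := by
    rw [hg1]
    split_ifs
    · exact hVw.le
    · exact le_rfl
  obtain ⟨F, hF⟩ : ∃ F, F = FT (PW w) K0 A S z ν i := ⟨_, rfl⟩
  rw [← hF] at h5 h6
  obtain ⟨Q, hQ⟩ : ∃ Q, Q = ∑ u ∈ U, La z u * ∑ t ∈ TT A S (PW w) ν i u, La z ((u + (j - i) * (2 * ν + i + j)) +
    (2 * (j - i) * (PW w : ℕ)) * t) := ⟨_, rfl⟩
  rw [← hQ] at h5 ⊢
  obtain ⟨V, hVd⟩ : ∃ V, V = (Vz z)⁻¹ := ⟨_, rfl⟩
  rw [← hVd] at h5 h6 hg2le hVz ⊢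
  have hS0 : (0 : ℝ) ≤ S := Nat.cast_nonneg S
  have hY0 : (0 : ℝ) ≤ Y := Nat.cast_nonneg Y
  have hE2 : (S : ℝ) * (6 * V + (z : ℝ) ^ (C2 * b)) ≤ 7 * S * V * Z := by
    have h7 : 6 * V + (z : ℝ) ^ (C2 * b) ≤ 7 * (V * Z) := by nlinarith
    calc (S : ℝ) * (6 * V + (z : ℝ) ^ (C2 * b)) ≤ S * (7 * (V * Z)) := mul_le_mul_of_nonneg_left h7 hS0
      _ = _ := by ring
  obtain ⟨q, hqd⟩ : ∃ q : ℝ, q = (1 / 2 : ℝ) ^ b := ⟨_, rfl⟩
  rw [← hqd] at h5 h6 hb1 hb0 ⊢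
  have h6' : |F - D * g1| ≤ q * (D * g1) + 7 * S * V * Z := h6.trans (by linarith)
  have h8 := abs_le.1 h6'
  have h9 : |g2 * F - D * (g1 * g2)| ≤ q * (D * (g1 * g2)) + 7 * S * V ^ 2 * Z := by
    have e : g2 * F - D * (g1 * g2) = g2 * (F - D * g1) := by ring
    rw [e, abs_mul, abs_of_nonneg hg20]
    calc g2 * |F - D * g1| ≤ g2 * (q * (D * g1) + 7 * S * V * Z) := mul_le_mul_of_nonneg_left h6' hg20
      _ = q * (D * (g1 * g2)) + g2 * (7 * S * V * Z) := by ring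
      _ ≤ q * (D * (g1 * g2)) + V * (7 * S * V * Z) := by
          apply add_le_add le_rfl
          exact mul_le_mul_of_nonneg_right hg2le (by positivity)
      _ = _ := by ring
  have hT0 : 0 ≤ D * (g1 * g2) := by positivity
  have h10 : g2 * F ≤ (1 + q) * (D * (g1 * g2)) + 7 * S * V ^ 2 * Z := by linarith [(abs_le.1 h9).2]
  have h11 : q * (g2 * F) ≤ q * ((1 + q) * (D * (g1 * g2))) + 7 * S * V ^ 2 * Z := by
    have h12 : q * (g2 * F) ≤ q * ((1 + q) * (D * (g1 * g2)) + 7 * S * V ^ 2 * Z) := mul_le_mul_of_nonneg_left h10 hb0.le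
    have h13 : q * (7 * S * V ^ 2 * Z) ≤ 1 * (7 * S * V ^ 2 * Z) := mul_le_mul_of_nonneg_right hb1 (by positivity)
    linarith
  have h14 : q * ((1 + q) * (D * (g1 * g2))) ≤ 2 * q * (D * (g1 * g2)) := by
    have : q * q * (D * (g1 * g2)) ≤ q * (D * (g1 * g2)) := by
      apply mul_le_mul_of_nonneg_right _ hT0
      nlinarith
    linarith
  have h15 : (2 * (Y : ℝ) + 1) * (V * Z) ≤ (2 * Y + 1) * (V ^ 2 * Z) := by
    apply mul_le_mul_of_nonneg_left _ (by positivity)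
    apply mul_le_mul_of_nonneg_right _ (by linarith)
    nlinarith
  have h16 := abs_le.1 h5
  have h17 := abs_le.1 h9
  have h18 : 0 ≤ V ^ 2 * Z := by positivity
  have h19 : 20 * ((S : ℝ) + Y + 1) * V ^ 2 * Z = 20 * S * (V ^ 2 * Z) + 20 * Y * (V ^ 2 * Z) + 20 * (V ^ 2 * Z) := by ring
  have h20 : 0 ≤ (S : ℝ) * (V ^ 2 * Z) := by positivity
  have h21 : 0 ≤ (Y : ℝ) * (V ^ 2 * Z) := by positivity
  rw [abs_le, h19]
  constructor <;> linarith [h16.1, h16.2, h17.1, h17.2]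

end Pool.Agent.X40.VAR
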