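import Pool.Agent.X40.VAR.V5

/-!
The average over the pairs of indices.
-/

set_option autoImplicit false

namespace Pool.Agent.X40.VAR

open Finset
open Pool.Agent.H373R2.T7 (pz Vz lamz mem_pz)
open Pool.Agent.TH892.OW (fac_pos fac_inv prod_fac_le pz_mono Vz_pos)

lemma fac_one_add {p : ℕ} (hp : p.Prime) : (1 - 1 / (p : ℝ))⁻¹ = 1 + 1 / ((p : ℝ) - 1) := by
  have h2 : (2 : ℝ) ≤ p := by exact_mod_cast hp.two_le
  have h3 : (p : ℝ) - 1 ≠ 0 := by linarith
  have h4 : (p : ℝ) ≠ 0 := by linarith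
  field_simp
  ring

lemma tele (w : ℕ) (hw : 1 ≤ w) : ∀ H : ℕ, w ≤ H → ∑ n ∈ Ioc w H, 1 / (((n : ℝ) - 1) * n) = 1 / w - 1 / H := by
  intro H hH
  induction H, hH using Nat.le_induction with
  | base => simp
  | succ H hH ih =>
    rw [sum_Ioc_succ_top (by omega), ih]
    have h1 : (H : ℝ) ≠ 0 := by
      have : (1 : ℝ) ≤ H := by exact_mod_cast (by omega : 1 ≤ H)
      linarith
    have h2 : (H : ℝ) + 1 ≠ 0 := by
      have : (0 : ℝ) ≤ H := Nat.cast_nonneg H
      linarith
    push_cast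
    rw [add_sub_cancel_right]
    field_simp
    ring

/-- progressions in `[1, H]` -/
lemma card_ap (H Q : ℕ) (hQ : 1 ≤ Q) (T : Finset ℕ) (hT : T ⊆ Icc 1 H) (hd : ∀ x ∈ T, ∀ y ∈ T, (Q : ℤ) ∣ (x : ℤ) - y) :
    (#T : ℝ) ≤ H / Q + 1 := by
  have h1 : #T ≤ H / Q + 1 := by
    rw [← card_range (H / Q + 1)]
    apply card_le_card_of_injOn (fun x => x / Q)
    · intro x hx
      have := mem_Icc.1 (hT hx)
      rw [mem_coe, mem_range, Nat.lt_succ_iff]
      exact Nat.div_le_div_right this.2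
    · intro x hx y hy hxy
      simp only at hxy
      have h2 := hd x hx y hy
      have h3 := Nat.div_add_mod x Q
      have h4 := Nat.div_add_mod y Q
      have h5 := Nat.mod_lt x (show Q > 0 by omega)
      have h6 := Nat.mod_lt y (show Q > 0 by omega)
      rw [hxy] at h3
      obtain ⟨k, hk⟩ := h2
      have h7 : (Q : ℤ) * k < Q * 1 := by
        rw [← hk]; push_cast; omega
      have h8 : (Q : ℤ) * (-1) < Q * k := by
        rw [← hk]; omega
      have hQ0 : (0 : ℤ) < Q := by exact_mod_cast hQ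
      have h9 : k < 1 := lt_of_mul_lt_mul_left h7 hQ0.le
      have h10 : -1 < k := lt_of_mul_lt_mul_left h8 hQ0.le
      have h11 : k = 0 := by omega
      rw [h11, mul_zero] at hk
      omega
  have h2 : (#T : ℝ) ≤ ((H / Q : ℕ) : ℝ) + 1 := by exact_mod_cast h1
  refine h2.trans ?_
  have := Nat.cast_div_le (m := H) (n := Q) (α := ℝ)
  linarith

/-- the average of the arithmetic factor -/
lemma cc_avg (w z H : ℕ) (hw : 2 ≤ w) (h0 : ℤ) :
    ∑ h ∈ (Icc 1 H).filter (fun h : ℕ => (PW w : ℤ) ∣ (h : ℤ) - h0), cc w z h ≤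
      (H : ℝ) / PW w * (1 + 2 / w) + (Vz H)⁻¹ := by
  classical
  obtain ⟨PH, hPH⟩ : ∃ PH, PH = (pz H).filter (fun p => w < p) := ⟨_, rfl⟩
  have hPHp : ∀ p ∈ PH, p.Prime ∧ w < p := by
    intro p hp
    rw [hPH, mem_filter] at hp
    exact ⟨(mem_pz.1 hp.1).2, hp.2⟩
  obtain ⟨a, ha⟩ : ∃ a : ℕ → ℝ, a = fun p : ℕ => 1 / ((p : ℝ) - 1) := ⟨_, rfl⟩
  have ha0 : ∀ p ∈ PH, 0 ≤ a p := by
    intro p hp
    rw [ha]
    have : (2 : ℝ) ≤ p := by exact_mod_cast (hPHp p hp).1.two_le
    apply div_nonneg zero_le_one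
    linarith
  have hWpos : (0 : ℝ) < PW w := by exact_mod_cast PW_pos w
  have hwr : (2 : ℝ) ≤ w := by exact_mod_cast hw
  obtain ⟨I, hI⟩ : ∃ I, I = (Icc 1 H).filter (fun h : ℕ => (PW w : ℤ) ∣ (h : ℤ) - h0) := ⟨_, rfl⟩
  rw [← hI]
  have h1 : ∀ h ∈ I, cc w z h ≤ ∑ U ∈ PH.powerset, if ∀ p ∈ U, p ∣ h then ∏ p ∈ U, a p else 0 := by
    intro h hh
    rw [hI, mem_filter, mem_Icc] at hh
    have h2 : ∑ U ∈ PH.powerset, (if ∀ p ∈ U, p ∣ h then ∏ p ∈ U, a p else 0) =
        ∏ p ∈ PH.filter (fun p => p ∣ h), (1 + a p) := by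
      rw [prod_one_add, ← sum_filter]
      apply sum_congr _ (fun _ _ => rfl)
      ext U
      rw [mem_filter, mem_powerset, mem_powerset]
      constructor
      · rintro ⟨h3, h4⟩ p hp
        exact mem_filter.2 ⟨h3 hp, h4 p hp⟩
      · intro h3
        exact ⟨fun p hp => (mem_filter.1 (h3 hp)).1, fun p hp => (mem_filter.1 (h3 hp)).2⟩
    rw [h2]
    have h3 : ∏ p ∈ PH.filter (fun p => p ∣ h), (1 + a p) = ∏ p ∈ PH.filter (fun p => p ∣ h), (1 - 1 / (p : ℝ))⁻¹ := by
      refine prod_congr rfl fun p hp => ?_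
      rw [fac_one_add (hPHp p (mem_filter.1 hp).1).1, ha]
    rw [h3]
    unfold cc
    apply prod_le_prod_of_subset_of_one_le
    · intro p hp
      rw [mem_filter] at hp
      have hd : p ∣ h := by exact_mod_cast hp.2.2
      rw [mem_filter, hPH, mem_filter, mem_pz]
      exact ⟨⟨⟨(Nat.le_of_dvd (by omega) hd).trans hh.1.2, (mem_pz.1 hp.1).2⟩, hp.2.1⟩, hd⟩
    · intro p hp
      exact zero_le_one.trans (fac_inv (mem_pz.1 (mem_filter.1 hp).1).2)
    · intro p hp _
      exact fac_inv (hPHp p (mem_filter.1 hp).1).1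
  refine (sum_le_sum h1).trans ?_
  rw [sum_comm]
  have h2 : ∀ U ∈ PH.powerset, ∑ h ∈ I, (if ∀ p ∈ U, p ∣ h then ∏ p ∈ U, a p else 0) ≤
      (∏ p ∈ U, a p) * (H / (PW w * ∏ p ∈ U, (p : ℝ)) + 1) := by
    intro U hU
    rw [mem_powerset] at hU
    have hP0 : 0 ≤ ∏ p ∈ U, a p := prod_nonneg fun p hp => ha0 p (hU hp)
    rw [← sum_filter, sum_const, nsmul_eq_mul, mul_comm]
    apply mul_le_mul_of_nonneg_left _ hP0
    have hpr : ((∏ p ∈ U, p : ℕ) : ℝ) = ∏ p ∈ U, (p : ℝ) := by push_cast; rfl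
    have hUpos : 1 ≤ ∏ p ∈ U, p := Nat.one_le_iff_ne_zero.2 (prod_ne_zero_iff.2 fun p hp => (hPHp p (hU hp)).1.ne_zero)
    have h3 := card_ap H (PW w * ∏ p ∈ U, p) (Nat.mul_pos (PW_pos w) hUpos) (I.filter (fun h => ∀ p ∈ U, p ∣ h))
      (by
        intro x hx
        rw [mem_filter, hI, mem_filter] at hx
        exact hx.1.1)
      (by
        intro x hx y hy
        rw [mem_filter, hI, mem_filter] at hx hy
        have k1 : (PW w : ℤ) ∣ (x : ℤ) - y := by
          have := dvd_sub hx.1.2 hy.1.2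
          rwa [sub_sub_sub_cancel_right] at this
        have k2 : (∏ p ∈ U, p) ∣ ((x : ℤ) - y).natAbs := by
          apply Finset.prod_primes_dvd
          · intro p hp; exact (hPHp p (hU hp)).1.prime
          · intro p hp
            have h4 : (p : ℤ) ∣ (x : ℤ) := Int.natCast_dvd_natCast.2 (hx.2 p hp)
            have h5 : (p : ℤ) ∣ (y : ℤ) := Int.natCast_dvd_natCast.2 (hy.2 p hp)
            exact Int.natCast_dvd.1 (dvd_sub h4 h5)
        have k3 : Nat.Coprime (PW w) (∏ p ∈ U, p) := by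
          unfold PW
          apply Nat.Coprime.prod_left
          intro r hr
          apply Nat.Coprime.prod_right
          intro p hp
          rw [Nat.coprime_primes (mem_pz.1 hr).2 (hPHp p (hU hp)).1]
          have h6 := (mem_pz.1 hr).1
          have h7 := (hPHp p (hU hp)).2
          omega
        rw [Int.natCast_dvd]
        exact k3.mul_dvd_of_dvd_of_dvd (Int.natCast_dvd.1 k1) k2)
    refine h3.trans (le_of_eq ?_)
    push_cast
    rfl
  refine (sum_le_sum h2).trans ?_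
  have h3 : ∀ U ∈ PH.powerset, (∏ p ∈ U, a p) * (H / (PW w * ∏ p ∈ U, (p : ℝ)) + 1) =
      (H : ℝ) / PW w * ∏ p ∈ U, (a p / p) + ∏ p ∈ U, a p := by
    intro U hU
    rw [mem_powerset] at hU
    rw [prod_div_distrib]
    have : (∏ p ∈ U, (p : ℝ)) ≠ 0 := prod_ne_zero_iff.2 fun p hp => by
      exact_mod_cast (hPHp p (hU hp)).1.ne_zero
    field_simp
  rw [sum_congr rfl h3, sum_add_distrib, ← mul_sum, ← prod_one_add, ← prod_one_add]
  apply add_le_add
  · apply mul_le_mul_of_nonneg_left _ (by positivity)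
    have h4 : ∏ p ∈ PH, (1 + a p / p) ≤ Real.exp (∑ p ∈ PH, a p / p) := by
      rw [Real.exp_sum]
      apply prod_le_prod
      · intro p hp
        have := ha0 p hp
        positivity
      · intro p _
        have := Real.add_one_le_exp (a p / p)
        linarith
    have h5 : ∑ p ∈ PH, a p / p ≤ 1 / w := by
      have h6 : ∑ p ∈ PH, a p / (p : ℝ) ≤ ∑ n ∈ Ioc w H, 1 / (((n : ℝ) - 1) * n) := by
        have e : ∀ p ∈ PH, a p / (p : ℝ) = 1 / (((p : ℝ) - 1) * p) := by
          intro p _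
          rw [ha, div_div]
        rw [sum_congr rfl e]
        apply sum_le_sum_of_subset_of_nonneg
        · intro p hp
          rw [hPH, mem_filter, mem_pz] at hp
          rw [mem_Ioc]
          exact ⟨hp.2, hp.1.1⟩
        · intro n hn _
          rw [mem_Ioc] at hn
          have : (1 : ℝ) ≤ n := by exact_mod_cast (by omega : 1 ≤ n)
          apply div_nonneg zero_le_one
          apply mul_nonneg <;> linarith
      refine h6.trans ?_
      rcases le_or_gt w H with h7 | h7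
      · rw [tele w (by omega) H h7]
        have : (0 : ℝ) ≤ 1 / H := by positivity
        linarith
      · rw [Ioc_eq_empty (by omega), sum_empty]
        positivity
    refine h4.trans ((Real.exp_le_exp.2 h5).trans ?_)
    have h6 : (1 : ℝ) / w ≤ 1 / 2 := one_div_le_one_div_of_le (by norm_num) hwr
    have h7 := Real.exp_bound_div_one_sub_of_interval (x := 1 / (w : ℝ)) (by positivity) (by linarith)
    refine h7.trans ?_
    rw [div_le_iff₀ (by linarith)]
    have h8 : (0 : ℝ) < 1 / w := by positivity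
    have e : (2 : ℝ) / w = 2 * (1 / w) := by ring
    rw [e]
    nlinarith
  · have h4 : ∏ p ∈ PH, (1 + a p) = ∏ p ∈ PH, (1 - 1 / (p : ℝ))⁻¹ := by
      refine prod_congr rfl fun p hp => ?_
      rw [fac_one_add (hPHp p hp).1, ha]
    rw [h4]
    apply prod_fac_le
    rw [hPH]
    exact filter_subset _ _

end Pool.Agent.X40.VAR
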