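import Pool.Agent.X40.VAR.V6

/-!
The double sum over the indices.
-/

set_option autoImplicit false

namespace Pool.Agent.X40.VAR

open Finset
open Pool.Agent.H373R2.T7 (pz Vz lamz mem_pz)
open Pool.Agent.TH892.OW (fac_pos fac_inv prod_fac_le pz_mono Vz_pos Vz_anti)

open Classical in
/-- the indicator function -/
noncomputable def rI (w : ℕ) (K0 x : ℤ) : ℝ := if Rw w K0 x then 1 else 0

/-- the number of good residues -/
noncomputable def rr (w : ℕ) (K0 : ℤ) : ℝ := ∑ ν ∈ range (PW w), rI w K0 ν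

noncomputable def nn (w : ℕ) (K0 i j : ℤ) : ℝ := ∑ ν ∈ range (PW w), rI w K0 (ν + i) * rI w K0 (ν + j)

lemma rI_nonneg (w : ℕ) (K0 x : ℤ) : 0 ≤ rI w K0 x := by unfold rI; split_ifs <;> norm_num

lemma rI_le (w : ℕ) (K0 x : ℤ) : rI w K0 x ≤ 1 := by unfold rI; split_ifs <;> norm_num

lemma rI_sq (w : ℕ) (K0 x : ℤ) : rI w K0 x * rI w K0 x = rI w K0 x := by unfold rI; split_ifs <;> norm_num

lemma Rw_per (w : ℕ) (K0 x k : ℤ) : Rw w K0 (x + PW w * k) ↔ Rw w K0 x := by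
  unfold Rw
  refine forall₂_congr fun p hp => ?_
  have h1 : (p : ℤ) ∣ (PW w : ℤ) := (dvd_PWz (mem_pz.1 hp).2).2 hp
  have e : (x + PW w * k) ^ 2 - K0 = (x ^ 2 - K0) + PW w * (k * (2 * x + PW w * k)) := by ring
  rw [e, dvd_add_left (h1.mul_right _)]

lemma rI_iff (w : ℕ) (K0 x y : ℤ) (h : Rw w K0 x ↔ Rw w K0 y) : rI w K0 x = rI w K0 y := by
  unfold rI
  by_cases hx : Rw w K0 x
  · rw [if_pos hx, if_pos (h.1 hx)]
  · rw [if_neg hx, if_neg (fun hy => hx (h.2 hy))]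

lemma rI_per (w : ℕ) (K0 x k : ℤ) : rI w K0 (x + PW w * k) = rI w K0 x :=
  rI_iff w K0 _ _ (Rw_per w K0 x k)

lemma rI_mod (w : ℕ) (K0 x : ℤ) : rI w K0 (x % (PW w)) = rI w K0 x := by
  have h := Int.emod_add_mul_ediv x (PW w)
  rw [← rI_per w K0 (x % (PW w)) (x / (PW w)), h]

lemma rI_even (w : ℕ) (K0 x : ℤ) : rI w K0 (-x) = rI w K0 x := by
  apply rI_iff
  unfold Rw
  simp only [neg_sq]

/-- shifting a complete residue system -/
lemma shift_sum (W : ℕ) (hW : 1 ≤ W) (f : ℤ → ℝ) (hf : ∀ x : ℤ, f (x % W) = f x) (i : ℤ) :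
    ∑ ν ∈ range W, f ((ν : ℤ) + i) = ∑ ν ∈ range W, f ν := by
  have hW0 : (0 : ℤ) < W := by exact_mod_cast hW
  refine sum_nbij' (fun ν => (((ν : ℤ) + i) % W).toNat) (fun ν => (((ν : ℤ) - i) % W).toNat) ?_ ?_ ?_ ?_ ?_
  · intro ν _
    rw [mem_range]
    have h1 := Int.emod_lt_of_pos ((ν : ℤ) + i) hW0
    have h2 := Int.emod_nonneg ((ν : ℤ) + i) hW0.ne'
    omega
  · intro ν _
    rw [mem_range]
    have h1 := Int.emod_lt_of_pos ((ν : ℤ) - i) hW0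
    have h2 := Int.emod_nonneg ((ν : ℤ) - i) hW0.ne'
    omega
  · intro ν hν
    rw [mem_range] at hν
    have h2 := Int.emod_nonneg ((ν : ℤ) + i) hW0.ne'
    have e : (((((ν : ℤ) + i) % W).toNat : ℕ) : ℤ) = ((ν : ℤ) + i) % W := Int.toNat_of_nonneg h2
    rw [e, Int.emod_sub_emod, add_sub_cancel_right, Int.emod_eq_of_lt (Int.natCast_nonneg ν) (by exact_mod_cast hν)]
    simp
  · intro ν hν
    rw [mem_range] at hν
    have h2 := Int.emod_nonneg ((ν : ℤ) - i) hW0.ne'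
    have e : (((((ν : ℤ) - i) % W).toNat : ℕ) : ℤ) = ((ν : ℤ) - i) % W := Int.toNat_of_nonneg h2
    rw [e, Int.emod_add_emod, sub_add_cancel, Int.emod_eq_of_lt (Int.natCast_nonneg ν) (by exact_mod_cast hν)]
    simp
  · intro ν _
    have h2 := Int.emod_nonneg ((ν : ℤ) + i) hW0.ne'
    rw [Int.toNat_of_nonneg h2, hf]

lemma rr_shift (w : ℕ) (K0 i : ℤ) : ∑ ν ∈ range (PW w), rI w K0 ((ν : ℤ) + i) = rr w K0 :=
  shift_sum (PW w) (PW_pos w) (rI w K0) (rI_mod w K0) i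

lemma rr_nonneg (w : ℕ) (K0 : ℤ) : 0 ≤ rr w K0 := sum_nonneg fun ν _ => rI_nonneg _ _ _

lemma cc_neg (w z : ℕ) (h : ℤ) : cc w z (-h) = cc w z h := by
  unfold cc
  simp only [dvd_neg]

lemma cc_nonneg (w z : ℕ) (h : ℤ) : 0 ≤ cc w z h := zero_le_one.trans (cc_one w z h)

/-- one side -/
lemma half_sum (w z H : ℕ) (hw : 2 ≤ w) (K0 x : ℤ) :
    ∑ h ∈ Icc 1 H, rI w K0 (x + (h : ℤ)) * cc w z h ≤ rr w K0 * ((H : ℝ) / PW w * (1 + 2 / w) + (Vz H)⁻¹) := by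
  classical
  have hW0 : (0 : ℤ) < PW w := by exact_mod_cast PW_pos w
  have hmaps : ∀ h ∈ Icc 1 H, (((x + (h : ℤ)) % (PW w)).toNat) ∈ range (PW w) := by
    intro h _
    rw [mem_range]
    have h1 := Int.emod_lt_of_pos (x + (h : ℤ)) hW0
    have h2 := Int.emod_nonneg (x + (h : ℤ)) hW0.ne'
    omega
  rw [← sum_fiberwise_of_maps_to hmaps]
  unfold rr
  rw [sum_mul]
  refine sum_le_sum fun ρ hρ => ?_
  have h1 : ∀ h ∈ (Icc 1 H).filter (fun h : ℕ => ((x + (h : ℤ)) % (PW w)).toNat = ρ),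
      rI w K0 (x + (h : ℤ)) * cc w z h = rI w K0 ρ * cc w z h := by
    intro h hh
    rw [mem_filter] at hh
    have h2 := Int.emod_nonneg (x + (h : ℤ)) hW0.ne'
    have h3 : (x + (h : ℤ)) % (PW w) = ρ := by
      have := hh.2
      omega
    rw [← rI_mod w K0 (x + (h : ℤ)), h3]
  rw [sum_congr rfl h1, ← mul_sum]
  apply mul_le_mul_of_nonneg_left _ (rI_nonneg _ _ _)
  refine le_trans ?_ (cc_avg w z H hw ((ρ : ℤ) - x))
  apply sum_le_sum_of_subset_of_nonneg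
  · intro h hh
    rw [mem_filter] at hh ⊢
    refine ⟨hh.1, ?_⟩
    have h2 := Int.emod_nonneg (x + (h : ℤ)) hW0.ne'
    have h3 : (x + (h : ℤ)) % (PW w) = ρ := by
      have := hh.2
      omega
    have e : (h : ℤ) - ((ρ : ℤ) - x) = (x + h) - ρ := by ring
    rw [e, ← h3]
    exact Int.dvd_self_sub_emod
  · intro h _ _
    exact cc_nonneg _ _ _

lemma JJ_card (m : ℕ) (hm : 1 ≤ m) : #(JJ m) = 2 * m - 1 := by
  have e : JJ m = ((Icc (-(m : ℤ)) m).erase 0).erase 1 := by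
    unfold JJ
    ext i
    simp only [mem_filter, mem_erase, ne_eq, mem_Icc]
    tauto
  rw [e, card_erase_of_mem, card_erase_of_mem, Int.card_Icc]
  · omega
  · rw [mem_Icc]; omega
  · rw [mem_erase, mem_Icc]; omega

/-- the inner sum -/
lemma inner_sum (w z m : ℕ) (hw : 2 ≤ w) (K0 ν i : ℤ) (hi : |i| ≤ m) :
    ∑ j ∈ (JJ m).erase i, rI w K0 (ν + j) * cc w z (j - i) ≤
      rr w K0 * ((2 * m : ℝ) / PW w * (1 + 2 / w) + 2 * (Vz (2 * m))⁻¹) := by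
  classical
  have hi' := abs_le.1 hi
  obtain ⟨F, hF⟩ : ∃ F : ℤ → ℝ, F = fun j => rI w K0 (ν + j) * cc w z (j - i) := ⟨_, rfl⟩
  have hF0 : ∀ j, 0 ≤ F j := fun j => by rw [hF]; exact mul_nonneg (rI_nonneg _ _ _) (cc_nonneg _ _ _)
  obtain ⟨H1, hH1⟩ : ∃ H1 : ℕ, (H1 : ℤ) = m - i := ⟨((m : ℤ) - i).toNat, Int.toNat_of_nonneg (by linarith)⟩
  obtain ⟨H2, hH2⟩ : ∃ H2 : ℕ, (H2 : ℤ) = m + i := ⟨((m : ℤ) + i).toNat, Int.toNat_of_nonneg (by linarith)⟩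
  have h1 : ∑ j ∈ (JJ m).erase i, F j ≤ ∑ h ∈ Icc 1 H1, F (i + h) + ∑ h ∈ Icc 1 H2, F (i - h) := by
    have hsub : (JJ m).erase i ⊆ (Icc 1 H1).image (fun h : ℕ => i + (h : ℤ)) ∪ (Icc 1 H2).image (fun h : ℕ => i - (h : ℤ)) := by
      intro j hj
      rw [mem_erase] at hj
      have h2 := abs_le.1 (mem_JJ hj.2).1
      rw [mem_union, mem_image, mem_image]
      rcases lt_or_gt_of_ne hj.1 with h | h
      · right
        refine ⟨(i - j).toNat, ?_, ?_⟩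
        · rw [mem_Icc]; omega
        · omega
      · left
        refine ⟨(j - i).toNat, ?_, ?_⟩
        · rw [mem_Icc]; omega
        · omega
    refine (sum_le_sum_of_subset_of_nonneg hsub (fun j _ _ => hF0 j)).trans ?_
    refine (le_of_eq_of_le (sum_union ?_) ?_)
    · rw [disjoint_left]
      intro j hj hj2
      rw [mem_image] at hj hj2
      obtain ⟨a, ha, rfl⟩ := hj
      obtain ⟨b, hb, hab⟩ := hj2
      rw [mem_Icc] at ha hb
      omega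
    · rw [sum_image (fun a _ b _ h => by simpa using h), sum_image (fun a _ b _ h => by simpa using h)]
  have h2 : ∑ h ∈ Icc 1 H1, F (i + h) ≤ rr w K0 * ((H1 : ℝ) / PW w * (1 + 2 / w) + (Vz H1)⁻¹) := by
    refine le_trans (le_of_eq ?_) (half_sum w z H1 hw K0 (ν + i))
    refine sum_congr rfl fun h _ => ?_
    rw [hF]
    simp only [add_sub_cancel_left]
    congr 2
    ring
  have h3 : ∑ h ∈ Icc 1 H2, F (i - h) ≤ rr w K0 * ((H2 : ℝ) / PW w * (1 + 2 / w) + (Vz H2)⁻¹) := by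
    refine le_trans (le_of_eq ?_) (half_sum w z H2 hw K0 (-(ν + i)))
    refine sum_congr rfl fun h _ => ?_
    rw [hF]
    simp only
    have e1 : i - (h : ℤ) - i = -(h : ℤ) := by ring
    have e2 : -(ν + i) + (h : ℤ) = -(ν + (i - h)) := by ring
    rw [e1, cc_neg, e2, rI_even]
  have hV1 : (Vz H1)⁻¹ ≤ (Vz (2 * m))⁻¹ := Vz_anti (by omega)
  have hV2 : (Vz H2)⁻¹ ≤ (Vz (2 * m))⁻¹ := Vz_anti (by omega)
  have hsum : (H1 : ℝ) + H2 = 2 * m := by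
    have : (H1 : ℤ) + H2 = 2 * m := by rw [hH1, hH2]; ring
    exact_mod_cast this
  have hr := rr_nonneg w K0
  rw [hF] at h1 h2 h3
  refine h1.trans ((add_le_add h2 h3).trans ?_)
  rw [← mul_add]
  apply mul_le_mul_of_nonneg_left _ hr
  have e : (2 * (m : ℝ)) / PW w * (1 + 2 / w) = (H1 : ℝ) / PW w * (1 + 2 / w) + (H2 : ℝ) / PW w * (1 + 2 / w) := by
    rw [← hsum]; ring
  rw [e]
  linarith

/-- the upper bound -/
theorem sig_up (w z m : ℕ) (hw : 2 ≤ w) (hm : 1 ≤ m) (K0 : ℤ) :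
    ∑ i ∈ JJ m, ∑ j ∈ (JJ m).erase i, nn w K0 i j * cc w z (j - i) ≤
      2 * m * rr w K0 * (rr w K0 * ((2 * m : ℝ) / PW w * (1 + 2 / w) + 2 * (Vz (2 * m))⁻¹)) := by
  obtain ⟨B, hB⟩ : ∃ B, B = rr w K0 * ((2 * m : ℝ) / PW w * (1 + 2 / w) + 2 * (Vz (2 * m))⁻¹) := ⟨_, rfl⟩
  have hr := rr_nonneg w K0
  have hB0 : 0 ≤ B := by
    rw [hB]
    have := inv_pos.2 (Vz_pos (2 * m))
    have : (0 : ℝ) < PW w := by exact_mod_cast PW_pos w
    positivity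
  rw [← hB]
  have h1 : ∀ i ∈ JJ m, ∑ j ∈ (JJ m).erase i, nn w K0 i j * cc w z (j - i) ≤ rr w K0 * B := by
    intro i hi
    unfold nn
    simp_rw [sum_mul]
    rw [sum_comm, ← rr_shift w K0 i, sum_mul]
    refine sum_le_sum fun ν _ => ?_
    have h2 := inner_sum w z m hw K0 ν i (mem_JJ hi).1
    rw [← hB] at h2
    calc ∑ j ∈ (JJ m).erase i, rI w K0 (ν + i) * rI w K0 (ν + j) * cc w z (j - i) =
        rI w K0 (ν + i) * ∑ j ∈ (JJ m).erase i, rI w K0 (ν + j) * cc w z (j - i) := by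
          rw [mul_sum]
          exact sum_congr rfl fun j _ => by ring
      _ ≤ _ := mul_le_mul_of_nonneg_left h2 (rI_nonneg _ _ _)
  refine (sum_le_sum h1).trans ?_
  rw [sum_const, JJ_card m hm, nsmul_eq_mul]
  have h2 : ((2 * m - 1 : ℕ) : ℝ) ≤ 2 * m := by exact_mod_cast (by omega : 2 * m - 1 ≤ 2 * m)
  calc ((2 * m - 1 : ℕ) : ℝ) * (rr w K0 * B) ≤ (2 * m) * (rr w K0 * B) := mul_le_mul_of_nonneg_right h2 (by positivity)
    _ = _ := by ring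

/-- the lower bound -/
theorem sig_lo (w z m : ℕ) (hm : 1 ≤ m) (K0 : ℤ) :
    (((2 * m : ℝ) - 1) * rr w K0) ^ 2 / PW w - (2 * m) * rr w K0 ≤
      ∑ i ∈ JJ m, ∑ j ∈ (JJ m).erase i, nn w K0 i j * cc w z (j - i) := by
  have hr := rr_nonneg w K0
  have hW : (0 : ℝ) < PW w := by exact_mod_cast PW_pos w
  have hnn : ∀ i j, 0 ≤ nn w K0 i j := fun i j => sum_nonneg fun ν _ => mul_nonneg (rI_nonneg _ _ _) (rI_nonneg _ _ _)
  have h1 : ∑ i ∈ JJ m, ∑ j ∈ (JJ m).erase i, nn w K0 i j ≤ ∑ i ∈ JJ m, ∑ j ∈ (JJ m).erase i, nn w K0 i j * cc w z (j - i) := by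
    refine sum_le_sum fun i _ => sum_le_sum fun j _ => ?_
    have := cc_one w z (j - i)
    nlinarith [hnn i j]
  refine le_trans ?_ h1
  have h2 : ∑ i ∈ JJ m, ∑ j ∈ JJ m, nn w K0 i j = ∑ ν ∈ range (PW w), (∑ i ∈ JJ m, rI w K0 (ν + i)) ^ 2 := by
    unfold nn
    simp_rw [sq, sum_mul_sum]
    rw [sum_comm]
    have : ∀ i ∈ JJ m, ∑ j ∈ JJ m, ∑ ν ∈ range (PW w), rI w K0 (ν + j) * rI w K0 (ν + i) =
        ∑ ν ∈ range (PW w), ∑ j ∈ JJ m, rI w K0 (ν + j) * rI w K0 (ν + i) := fun i _ => sum_comm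
    rw [sum_congr rfl this, sum_comm]
    refine sum_congr rfl fun ν _ => ?_
    rw [sum_comm]
  have h3 : ∑ ν ∈ range (PW w), ∑ i ∈ JJ m, rI w K0 (ν + i) = ((2 * m - 1 : ℕ) : ℝ) * rr w K0 := by
    rw [sum_comm]
    rw [sum_congr rfl fun i _ => rr_shift w K0 i, sum_const, JJ_card m hm, nsmul_eq_mul]
  have h4 := sq_sum_le_card_mul_sum_sq (s := range (PW w)) (f := fun ν => ∑ i ∈ JJ m, rI w K0 ((ν : ℤ) + i))
  rw [h3, card_range] at h4
  have h5 : ∑ i ∈ JJ m, ∑ j ∈ JJ m, nn w K0 i j = ∑ i ∈ JJ m, nn w K0 i i + ∑ i ∈ JJ m, ∑ j ∈ (JJ m).erase i, nn w K0 i j := by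
    rw [← sum_add_distrib]
    refine sum_congr rfl fun i hi => ?_
    rw [add_sum_erase _ _ hi]
  have h6 : ∑ i ∈ JJ m, nn w K0 i i = ((2 * m - 1 : ℕ) : ℝ) * rr w K0 := by
    have : ∀ i ∈ JJ m, nn w K0 i i = rr w K0 := by
      intro i _
      rw [← rr_shift w K0 i]
      unfold nn
      exact sum_congr rfl fun ν _ => rI_sq _ _ _
    rw [sum_congr rfl this, sum_const, JJ_card m hm, nsmul_eq_mul]
  have hc : ((2 * m - 1 : ℕ) : ℝ) = 2 * (m : ℝ) - 1 := by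
    rw [Nat.cast_sub (by omega)]
    push_cast
    ring
  rw [hc] at h4 h6
  rw [← h2, h5, h6] at h4
  have h7 : ((2 * (m : ℝ) - 1) * rr w K0) ^ 2 / PW w ≤ (2 * (m : ℝ) - 1) * rr w K0 +
      ∑ i ∈ JJ m, ∑ j ∈ (JJ m).erase i, nn w K0 i j := by
    rw [div_le_iff₀ hW]
    linarith
  nlinarith

end Pool.Agent.X40.VAR
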