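import Pool.Agent.X40.VAR.V7
import Pool.Agent.X40.VAR.V2

/-!
The second factorial moment in a residue class.
-/

set_option autoImplicit false

namespace Pool.Agent.X40.VAR

open Finset Filter
open Pool.Agent.H373R2.T7 (pz Vz lamz mem_pz Vz_inv_small)
open Pool.Agent.TH892.OW (fac_pos fac_inv prod_fac_le pz_mono Vz_pos Vz_anti evt_ll)
open Pool.Agent.H442R2.EHI (evt_log_pow evt_log_ge)
open Pool.Agent.TH892.SW (wt wt_nonneg wt_anti)
open Pool.Agent.X40.HLK (P1 Mz Mz_nonneg)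

/-- the local density constant cut at `w` -/
noncomputable def HW (w : ℕ) (K0 : ℤ) : ℝ := rr w K0 * (Vz w)⁻¹ / PW w

noncomputable def AA (X : ℕ) : ℕ := ⌊(Nat.sqrt X : ℝ) / Real.log X ^ 2⌋₊

noncomputable def SS2 (w : ℕ) (K0 : ℤ) (A S m : ℕ) : ℝ := ∑ i ∈ JJ m, ∑ j ∈ (JJ m).erase i, QT (PW w) K0 A S P1 P1 i j

lemma HW_nonneg (w : ℕ) (K0 : ℤ) : 0 ≤ HW w K0 := by
  unfold HW
  have h1 := rr_nonneg w K0
  have h2 := inv_pos.2 (Vz_pos w)
  positivity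

lemma rr_le (w : ℕ) (K0 : ℤ) : rr w K0 ≤ PW w := by
  unfold rr
  refine (sum_le_sum (fun (ν : ℕ) _ => rI_le w K0 (ν : ℤ))).trans (le_of_eq ?_)
  rw [sum_const, card_range, nsmul_eq_mul, mul_one]

lemma HW_le (w : ℕ) (K0 : ℤ) : HW w K0 ≤ (Vz w)⁻¹ := by
  unfold HW
  have h1 := rr_le w K0
  have h2 := inv_pos.2 (Vz_pos w)
  have h3 : (0 : ℝ) < PW w := by exact_mod_cast PW_pos w
  rw [div_le_iff₀ h3]
  nlinarith

/-- the size of the parameters -/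
lemma A_facts (X : ℕ) (δ C0 : ℝ) (hδ : 0 < δ) (hδ1 : δ ≤ 1 / 10) (hC0 : 1 ≤ C0) (hL : 10000 ≤ Real.log X)
    (hll : 10 / δ * Real.log (Real.log X) ≤ Real.log X) (hLδ : 10 / δ ≤ Real.log X)
    (hLS : Real.log X ^ 12 ≤ √(X : ℝ)) (m : ℕ) (hm : (m : ℝ) ≤ C0 * Real.log X) (hLC : 10 * C0 ≤ Real.log X) :
    m < AA X ∧ 2 ≤ AA X ∧ AA X ≤ Nat.sqrt X ∧
    ((2 * Nat.sqrt X * (m + 1) + m ^ 2 : ℕ) : ℝ) ≤ Nat.sqrt X * Real.log X ^ 2 ∧
    wt (AA X) ≤ 2 / Real.log X * (1 + δ) ∧ 2 / Real.log X * (1 - δ) ≤ wt (2 * Nat.sqrt X * (m + 1) + m ^ 2) ∧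
    ((Nat.sqrt X : ℕ) : ℝ) ^ 2 - (AA X : ℝ) ^ 2 ≤ X ∧ (1 - δ) * X ≤ ((Nat.sqrt X : ℕ) : ℝ) ^ 2 - (AA X : ℝ) ^ 2 := by
  obtain ⟨f1, f2, f3, f4, f5, f6, f7⟩ := Pool.Agent.TH892.OW.S_facts X hL
  have hsucc : (X : ℝ) < ((Nat.sqrt X : ℕ) + 1) ^ 2 := by exact_mod_cast Nat.lt_succ_sqrt' X
  unfold AA
  obtain ⟨L, hLd⟩ : ∃ L, L = Real.log X := ⟨_, rfl⟩
  rw [← hLd] at hL hll hLδ hLS hm hLC f5 ⊢
  obtain ⟨S, hSd⟩ : ∃ S, S = Nat.sqrt X := ⟨_, rfl⟩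
  rw [← hSd] at f2 f3 f4 f5 f6 f7 hsucc ⊢
  obtain ⟨A, hA⟩ : ∃ A : ℕ, A = ⌊(S : ℝ) / L ^ 2⌋₊ := ⟨_, rfl⟩
  rw [← hA]
  have hL0 : 0 < L := by linarith
  have hL1 : 1 ≤ L := by linarith
  have hXr : (1 : ℝ) ≤ X := by exact_mod_cast f1
  have hX0 : (0 : ℝ) < X := by linarith
  have hS0 : (100 : ℝ) ≤ S := by exact_mod_cast f6
  have hm0 : (0 : ℝ) ≤ m := Nat.cast_nonneg m
  have hmL : (m : ℝ) ≤ L ^ 2 / 10 := by nlinarith
  have hLS' : L ^ 12 ≤ 2 * S := by linarith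
  have hL2S : 4 * L ^ 5 ≤ 2 * S := by
    refine le_trans ?_ hLS'
    calc 4 * L ^ 5 ≤ L * L ^ 5 := mul_le_mul_of_nonneg_right (by linarith) (by positivity)
      _ = L ^ 6 := by ring
      _ ≤ L ^ 12 := pow_le_pow_right₀ hL1 (by norm_num)
  have hAle : (A : ℝ) ≤ S / L ^ 2 := by rw [hA]; exact Nat.floor_le (by positivity)
  have hAge : (S : ℝ) / L ^ 2 < A + 1 := by rw [hA]; exact Nat.lt_floor_add_one _
  have hSL : 2 * L ^ 3 ≤ S / L ^ 2 := by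
    rw [le_div_iff₀ (by positivity)]
    have e : 2 * L ^ 3 * L ^ 2 = 2 * L ^ 5 := by ring
    rw [e]; linarith
  have hAge2 : (S : ℝ) / L ^ 3 ≤ A := by
    have h1 : (S : ℝ) / L ^ 3 = S / L ^ 2 / L := by field_simp
    rw [h1]
    have h2 : (S : ℝ) / L ^ 2 / L ≤ S / L ^ 2 / 2 := by
      apply div_le_div_of_nonneg_left (by positivity) (by norm_num) (by linarith)
    have h3 : 1 ≤ L ^ 3 := one_le_pow₀ hL1
    linarith
  have hL3 : 1 ≤ L ^ 3 := one_le_pow₀ hL1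
  have hL23 : L ^ 2 ≤ L ^ 3 := pow_le_pow_right₀ hL1 (by norm_num)
  have hmA : (m : ℝ) < A := by linarith
  have hA2 : (2 : ℝ) ≤ A := by nlinarith
  have hAS : (A : ℝ) ≤ S := hAle.trans (div_le_self (by linarith) (one_le_pow₀ hL1))
  have hYle : ((2 * S * (m + 1) + m ^ 2 : ℕ) : ℝ) ≤ S * L ^ 2 := by
    push_cast
    have h0 : (m : ℝ) ≤ S := by linarith
    have h1 : (m : ℝ) ^ 2 ≤ S * m := by
      rw [sq]
      exact mul_le_mul_of_nonneg_right h0 hm0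
    have h2 : S * (3 * (m : ℝ) + 2) ≤ S * L ^ 2 := by
      apply mul_le_mul_of_nonneg_left _ (by linarith)
      nlinarith
    linarith
  -- logarithms
  have hlS1 : L / 2 - 1 ≤ Real.log S := by
    have h1 := Real.log_le_log (Real.sqrt_pos.2 hX0) f3
    rw [Real.log_sqrt hX0.le, ← hLd, Real.log_mul (by norm_num) (by linarith)] at h1
    have := Real.log_two_lt_d9
    linarith
  have hlS2 : Real.log S ≤ L / 2 := by
    have h1 := Real.log_le_log (by linarith : (0 : ℝ) < S) f4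
    rwa [Real.log_sqrt hX0.le, ← hLd] at h1
  have hll' : 10 * Real.log L ≤ δ * L := by
    rw [div_mul_eq_mul_div, div_le_iff₀ hδ] at hll
    linarith
  have hLδ' : 10 ≤ δ * L := by
    rw [div_le_iff₀ hδ] at hLδ
    linarith
  have hlL0 : 0 ≤ Real.log L := Real.log_nonneg hL1
  have hwA : wt A ≤ 2 / L * (1 + δ) := by
    have h1 : (1 - 4 / 5 * δ) * (L / 2) ≤ Real.log A := by
      have h2 := Real.log_le_log (by positivity : (0 : ℝ) < S / L ^ 3) hAge2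
      rw [Real.log_div (by linarith) (by positivity), Real.log_pow] at h2
      push_cast at h2
      nlinarith
    unfold wt
    have h3 : 0 < (1 - 4 / 5 * δ) * (L / 2) := by
      apply mul_pos <;> linarith
    refine (one_div_le_one_div_of_le h3 h1).trans ?_
    have e : 2 / L * (1 + δ) = 2 * (1 + δ) / L := by ring
    rw [e, div_le_div_iff₀ h3 hL0]
    have h4 : 1 ≤ (1 + δ) * (1 - 4 / 5 * δ) := by nlinarith
    nlinarith
  have hYpos : (1 : ℝ) < ((2 * S * (m + 1) + m ^ 2 : ℕ) : ℝ) := by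
    push_cast
    nlinarith
  have hwY : 2 / L * (1 - δ) ≤ wt (2 * S * (m + 1) + m ^ 2) := by
    have h1 : Real.log ((2 * S * (m + 1) + m ^ 2 : ℕ) : ℝ) ≤ (1 + δ) * (L / 2) := by
      have h2 := Real.log_le_log (by linarith) hYle
      rw [Real.log_mul (by linarith) (by positivity), Real.log_pow] at h2
      push_cast at h2 ⊢
      nlinarith
    unfold wt
    have e : 2 / L * (1 - δ) = 2 * (1 - δ) / L := by ring
    rw [e, div_le_div_iff₀ hL0 (Real.log_pos hYpos)]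
    have h3 : 0 ≤ 2 * (1 - δ) := by linarith
    have h4 := mul_le_mul_of_nonneg_left h1 h3
    refine h4.trans ?_
    have h5 : (1 - δ) * (1 + δ) ≤ 1 := by nlinarith
    nlinarith
  refine ⟨by exact_mod_cast hmA, by exact_mod_cast hA2, by exact_mod_cast hAS, hYle, hwA, hwY, ?_, ?_⟩
  · nlinarith [sq_nonneg (A : ℝ)]
  · have h1 : (A : ℝ) ^ 2 ≤ δ / 2 * X := by
      have h2 : (A : ℝ) ^ 2 ≤ (S / L ^ 2) ^ 2 := pow_le_pow_left₀ (Nat.cast_nonneg A) hAle 2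
      have h3 : ((S : ℝ) / L ^ 2) ^ 2 ≤ X / L ^ 4 := by
        rw [div_pow, ← pow_mul]
        gcongr
      have h4 : (X : ℝ) / L ^ 4 ≤ X / L := by
        apply div_le_div_of_nonneg_left hX0.le hL0
        exact le_self_pow₀ hL1 (by norm_num)
      have h5 : (X : ℝ) / L ≤ δ / 2 * X := by
        rw [div_le_iff₀ hL0]
        nlinarith
      linarith
    have h2 : (1 - δ / 2) * X ≤ (S : ℝ) ^ 2 := by
      have h3 : (X : ℝ) ≤ (S : ℝ) ^ 2 + 2 * S + 1 := by nlinarith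
      have h4 : 2 * (S : ℝ) + 1 ≤ δ / 2 * X := by
        have h5 : 3 * (S : ℝ) ≤ δ / 2 * S * S := by
          have h6 : 6 ≤ δ * S := by
            have : L ≤ S := by
              have : L ≤ L ^ 5 := le_self_pow₀ hL1 (by norm_num)
              linarith
            nlinarith
          nlinarith
        nlinarith
      nlinarith
    linarith

/-- the final arithmetic -/
lemma arG2 (SS MM QQ Sg D X W Vw rr m L wA wY q δ e1 e2 R1 R2 w P C5 : ℝ)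
    (hδ : 0 < δ) (hδ1 : δ ≤ 1 / 10) (hL : 0 < L) (hX : 0 ≤ X) (hW : 0 < W) (hw : 2 ≤ w) (hVw : 0 ≤ Vw)
    (h1 : |SS - MM| ≤ e1) (h2 : wY ^ 2 * QQ ≤ MM) (h2' : MM ≤ wA ^ 2 * QQ) (hQQ : 0 ≤ QQ)
    (h3 : |QQ - D * (Vw ^ 2 * Sg)| ≤ 3 * q * (D * (Vw ^ 2 * Sg)) + e2) (hq : 3 * q ≤ δ) (hq0 : 0 ≤ q) (he2 : 0 ≤ e2)
    (hSg : 0 ≤ Sg) (hP : P = 4 * m ^ 2 * rr ^ 2 / W) (h4 : Sg ≤ P * (1 + 2 / w) + R1) (h4' : (1 - δ) * P - R2 ≤ Sg)
    (hR1 : 0 ≤ R1) (hR2 : 0 ≤ R2) (hD : D ≤ X / W ^ 2) (hD' : (1 - δ) * (X / W ^ 2) ≤ D)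
    (hwA0 : 0 ≤ wA) (hwA : wA ≤ 2 / L * (1 + δ)) (hwY : 2 / L * (1 - δ) ≤ wY)
    (hR1' : 4 / L ^ 2 * (X / W ^ 2 * Vw ^ 2) * R1 ≤ δ * X) (hR2' : 4 / L ^ 2 * (X / W ^ 2 * Vw ^ 2) * R2 ≤ δ * X)
    (he1 : e1 ≤ δ * X) (he2' : 4 / L ^ 2 * e2 ≤ δ * X)
    (hC5 : X / W * (4 * m / L) ^ 2 * (rr * Vw / W) ^ 2 ≤ C5 * X) :
    |SS - X / W * (4 * m / L) ^ 2 * (rr * Vw / W) ^ 2| ≤
      2 / w * (X / W * (4 * m / L) ^ 2 * (rr * Vw / W) ^ 2) + δ * (8 * C5 + 10) * X := by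
  obtain ⟨u, hu⟩ : ∃ u, u = 4 / L ^ 2 := ⟨_, rfl⟩
  obtain ⟨T, hT⟩ : ∃ T, T = X / W ^ 2 * Vw ^ 2 := ⟨_, rfl⟩
  have hu0 : 0 < u := by rw [hu]; positivity
  have hT0 : 0 ≤ T := by rw [hT]; positivity
  have hM : X / W * (4 * m / L) ^ 2 * (rr * Vw / W) ^ 2 = u * T * P := by
    rw [hu, hT, hP]
    field_simp
  rw [hM] at hC5 ⊢
  rw [← hu, ← hT] at hR1' hR2'
  rw [← hu] at he2'
  have hP0 : 0 ≤ P := by rw [hP]; positivity
  have hM0 : 0 ≤ u * T * P := by positivity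
  have hD0 : 0 ≤ D := by
    refine le_trans ?_ hD'
    have : 0 ≤ X / W ^ 2 := by positivity
    apply mul_nonneg _ this
    linarith
  have hDV : D * Vw ^ 2 ≤ T := by
    rw [hT]
    exact mul_le_mul_of_nonneg_right hD (by positivity)
  have hDV' : (1 - δ) * T ≤ D * Vw ^ 2 := by
    rw [hT, ← mul_assoc]
    exact mul_le_mul_of_nonneg_right hD' (by positivity)
  have hw2 : 2 / w ≤ 1 := by rw [div_le_one (by linarith)]; exact hw
  have hw0 : 0 ≤ 2 / w := by positivity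
  have hwA2 : wA ^ 2 ≤ u * (1 + δ) ^ 2 := by
    calc wA ^ 2 ≤ (2 / L * (1 + δ)) ^ 2 := pow_le_pow_left₀ hwA0 hwA 2
      _ = _ := by rw [hu]; field_simp; ring
  have hwY2 : u * (1 - δ) ^ 2 ≤ wY ^ 2 := by
    have h5 : 0 ≤ 2 / L * (1 - δ) := by
      apply mul_nonneg (by positivity)
      linarith
    calc u * (1 - δ) ^ 2 = (2 / L * (1 - δ)) ^ 2 := by rw [hu]; field_simp; ring
      _ ≤ _ := pow_le_pow_left₀ h5 hwY 2
  have h3a := abs_le.1 h3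
  have hDS0 : 0 ≤ D * (Vw ^ 2 * Sg) := by positivity
  -- upper
  have up : MM ≤ u * T * P * (1 + 2 / w) + 8 * δ * (u * T * P) + 6 * δ * X := by
    have k1 : QQ ≤ (1 + δ) * (D * (Vw ^ 2 * Sg)) + e2 := by nlinarith [h3a.2]
    have k2 : D * (Vw ^ 2 * Sg) ≤ T * (P * (1 + 2 / w) + R1) := by
      calc D * (Vw ^ 2 * Sg) = (D * Vw ^ 2) * Sg := by ring
        _ ≤ T * (P * (1 + 2 / w) + R1) := mul_le_mul hDV h4 hSg hT0
    have k3 : MM ≤ (u * (1 + δ) ^ 2) * ((1 + δ) * (T * (P * (1 + 2 / w) + R1)) + e2) := by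
      refine h2'.trans ?_
      apply mul_le_mul hwA2 _ hQQ (by positivity)
      refine k1.trans ?_
      have := mul_le_mul_of_nonneg_left k2 (show 0 ≤ 1 + δ by linarith)
      linarith
    have k4 : (u * (1 + δ) ^ 2) * ((1 + δ) * (T * (P * (1 + 2 / w) + R1)) + e2) =
        (1 + δ) ^ 3 * ((u * T * P) * (1 + 2 / w)) + (1 + δ) ^ 3 * (u * T * R1) + (1 + δ) ^ 2 * (u * e2) := by ring
    have k5 : (1 + δ) ^ 3 ≤ 1 + 4 * δ := by nlinarith [mul_pos hδ hδ, mul_pos (mul_pos hδ hδ) hδ]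
    have k6 : (1 + δ) ^ 3 ≤ 2 := by linarith
    have k7 : (1 + δ) ^ 2 ≤ 2 := by nlinarith
    have k8 : (1 + δ) ^ 3 * ((u * T * P) * (1 + 2 / w)) ≤ (1 + 4 * δ) * ((u * T * P) * (1 + 2 / w)) :=
      mul_le_mul_of_nonneg_right k5 (by positivity)
    have k9 : 4 * δ * ((u * T * P) * (1 + 2 / w)) ≤ 4 * δ * ((u * T * P) * 2) := by
      apply mul_le_mul_of_nonneg_left _ (by positivity)
      apply mul_le_mul_of_nonneg_left _ hM0
      linarith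
    have k10 : (1 + δ) ^ 3 * (u * T * R1) ≤ 2 * (δ * X) := mul_le_mul k6 hR1' (by positivity) (by norm_num)
    have k11 : (1 + δ) ^ 2 * (u * e2) ≤ 2 * (δ * X) := mul_le_mul k7 he2' (by positivity) (by norm_num)
    have : 0 ≤ δ * X := by positivity
    rw [k4] at k3
    linarith
  -- lower
  have lo : (1 - 5 * δ) * (u * T * P) - 2 * δ * X ≤ MM := by
    have k1 : (1 - δ) * (D * (Vw ^ 2 * Sg)) - e2 ≤ QQ := by nlinarith [h3a.1]
    have k2 : (1 - δ) * (T * ((1 - δ) * P - R2)) ≤ D * (Vw ^ 2 * Sg) := by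
      have h5 : (1 - δ) * T * Sg ≤ D * Vw ^ 2 * Sg := mul_le_mul_of_nonneg_right hDV' hSg
      have h6 : (1 - δ) * T * ((1 - δ) * P - R2) ≤ (1 - δ) * T * Sg := by
        apply mul_le_mul_of_nonneg_left h4'
        apply mul_nonneg _ hT0
        linarith
      linarith
    have k3 : u * (1 - δ) ^ 2 * QQ ≤ MM := (mul_le_mul_of_nonneg_right hwY2 hQQ).trans h2
    have hd0 : 0 ≤ 1 - δ := by linarith
    have k4 : (1 - δ) * ((1 - δ) * (T * ((1 - δ) * P - R2))) - e2 ≤ QQ := by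
      have := mul_le_mul_of_nonneg_left k2 hd0
      linarith
    have k5 : u * (1 - δ) ^ 2 * ((1 - δ) * ((1 - δ) * (T * ((1 - δ) * P - R2))) - e2) ≤ MM :=
      (mul_le_mul_of_nonneg_left k4 (by positivity)).trans k3
    have k6 : u * (1 - δ) ^ 2 * ((1 - δ) * ((1 - δ) * (T * ((1 - δ) * P - R2))) - e2) =
        (1 - δ) ^ 5 * (u * T * P) - (1 - δ) ^ 4 * (u * T * R2) - (1 - δ) ^ 2 * (u * e2) := by ring
    have k7 : 1 - 5 * δ ≤ (1 - δ) ^ 5 := by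
      have := one_add_mul_le_pow (show (-2 : ℝ) ≤ -δ by linarith) 5
      have e : (1 : ℝ) + -δ = 1 - δ := by ring
      rw [e] at this
      push_cast at this
      linarith
    have k8 : (1 - 5 * δ) * (u * T * P) ≤ (1 - δ) ^ 5 * (u * T * P) := mul_le_mul_of_nonneg_right k7 hM0
    have k9 : (1 - δ) ^ 4 * (u * T * R2) ≤ 1 * (δ * X) :=
      mul_le_mul (pow_le_one₀ hd0 (by linarith)) hR2' (by positivity) (by norm_num)
    have k10 : (1 - δ) ^ 2 * (u * e2) ≤ 1 * (δ * X) :=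
      mul_le_mul (pow_le_one₀ hd0 (by linarith)) he2' (by positivity) (by norm_num)
    rw [k6] at k5
    linarith
  have h1a := abs_le.1 h1
  have hδM : δ * (u * T * P) ≤ δ * (C5 * X) := mul_le_mul_of_nonneg_left hC5 hδ.le
  have hδX : 0 ≤ δ * X := by positivity
  have e5 : δ * (8 * C5 + 10) * X = 8 * (δ * (C5 * X)) + 10 * (δ * X) := by ring
  have e6 : 0 ≤ δ * (u * T * P) := by positivity
  have e7 : 0 ≤ 2 / w * (u * T * P) := by positivity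
  rw [abs_le, e5]
  constructor <;> nlinarith [h1a.1, h1a.2]

end Pool.Agent.X40.VAR
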