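import Pool.Agent.X40.VAR.V8

/-!
The second factorial moment in a residue class: the theorem.
-/

set_option autoImplicit false

namespace Pool.Agent.X40.VAR

open Finset Filter
open Pool.Agent.H373R2.T7 (pz Vz lamz mem_pz Vz_inv_small)
open Pool.Agent.TH892.OW (fac_pos fac_inv prod_fac_le pz_mono Vz_pos Vz_anti evt_ll Vz_log one_le_Vz_inv)
open Pool.Agent.H442R2.EHI (evt_log_pow evt_log_ge)
open Pool.Agent.TH892.SW (wt wt_nonneg wt_anti)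
open Pool.Agent.X40.HLK (P1 Mz Mz_nonneg)

/-- splitting into residue classes of `s` -/
lemma QT_classes (W : ℕ) (hW : 1 ≤ W) (K0 : ℤ) (A S : ℕ) (φ ψ : ℤ → ℝ) (i j : ℤ) :
    QT W K0 A S φ ψ i j = ∑ ν ∈ range W, ∑ s ∈ SA A S W ν, ∑ K ∈ celW W K0 s, φ (((s : ℤ) + i) ^ 2 - K) * ψ (((s : ℤ) + j) ^ 2 - K) := by
  unfold QT SA
  rw [sum_fiberwise_of_maps_to]
  intro s _
  rw [mem_range]
  exact Nat.mod_lt _ (by omega)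

open Classical in
lemma ind_eq (w z : ℕ) (K0 ν i j : ℤ) : (if Rw w K0 (ν + i) ∧ Rw w K0 (ν + j) then (Vz w)⁻¹ ^ 2 * cc w z (j - i) else 0) =
    (Vz w)⁻¹ ^ 2 * (rI w K0 (ν + i) * rI w K0 (ν + j) * cc w z (j - i)) := by
  unfold rI
  by_cases h1 : Rw w K0 (ν + i)
  · by_cases h2 : Rw w K0 (ν + j)
    · rw [if_pos ⟨h1, h2⟩, if_pos h1, if_pos h2]; ring
    · rw [if_neg (fun h => h2 h.2), if_neg h2]; ring
  · rw [if_neg (fun h => h1 h.1), if_neg h1]; ring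

/-- all pairs -/
theorem QQ_sum : ∃ C1 y0 : ℕ, 1 ≤ C1 ∧ 2 ≤ y0 ∧ ∀ b : ℕ, C1 ≤ b → ∀ w z : ℕ, 2 ≤ w → w ≤ z → y0 ≤ z →
    ∀ (K0 : ℤ) (A S m Y : ℕ), 1 ≤ m → m < A → A ≤ S → 2 * S * (m + 1) + m ^ 2 ≤ Y →
    |∑ i ∈ JJ m, ∑ j ∈ (JJ m).erase i, QT (PW w) K0 A S (La z) (La z) i j -
      ((S : ℝ) ^ 2 - (A : ℝ) ^ 2) / (PW w) ^ 2 * ((Vz w)⁻¹ ^ 2 * ∑ i ∈ JJ m, ∑ j ∈ (JJ m).erase i, nn w K0 i j * cc w z (j - i))| ≤
      3 * (1 / 2 : ℝ) ^ b * (((S : ℝ) ^ 2 - (A : ℝ) ^ 2) / (PW w) ^ 2 *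
        ((Vz w)⁻¹ ^ 2 * ∑ i ∈ JJ m, ∑ j ∈ (JJ m).erase i, nn w K0 i j * cc w z (j - i))) +
      4 * (m : ℝ) ^ 2 * (PW w * (20 * ((S : ℝ) + Y + 1) * (Vz z)⁻¹ ^ 2 * (z : ℝ) ^ (C1 * b))) := by
  obtain ⟨C1, y0, hC1, hy0, h⟩ := QTnu
  refine ⟨C1, y0, hC1, hy0, fun b hb w z hw hwz hz K0 A S m Y hm hmA hAS hY => ?_⟩
  obtain ⟨D, hD⟩ : ∃ D : ℝ, D = ((S : ℝ) ^ 2 - (A : ℝ) ^ 2) / (PW w : ℕ) ^ 2 := ⟨_, rfl⟩
  obtain ⟨E, hE⟩ : ∃ E : ℝ, E = 20 * ((S : ℝ) + Y + 1) * (Vz z)⁻¹ ^ 2 * (z : ℝ) ^ (C1 * b) := ⟨_, rfl⟩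
  rw [← hD, ← hE]
  have hE0 : 0 ≤ E := by rw [hE]; positivity
  obtain ⟨q, hq⟩ : ∃ q : ℝ, q = 3 * (1 / 2 : ℝ) ^ b := ⟨_, rfl⟩
  rw [← hq]
  have hone : ∀ i ∈ JJ m, ∀ j ∈ (JJ m).erase i, |QT (PW w) K0 A S (La z) (La z) i j -
      D * ((Vz w)⁻¹ ^ 2 * (nn w K0 i j * cc w z (j - i)))| ≤ q * (D * ((Vz w)⁻¹ ^ 2 * (nn w K0 i j * cc w z (j - i)))) + PW w * E := by
    intro i hi j hj
    have hj' := (mem_erase.1 hj).2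
    rw [QT_classes (PW w) (PW_pos w)]
    have e1 : D * ((Vz w)⁻¹ ^ 2 * (nn w K0 i j * cc w z (j - i))) =
        ∑ ν ∈ range (PW w), D * ((Vz w)⁻¹ ^ 2 * (rI w K0 (ν + i) * rI w K0 (ν + j) * cc w z (j - i))) := by
      unfold nn
      rw [← mul_sum, ← mul_sum, ← sum_mul]
    rw [e1, ← sum_sub_distrib]
    refine (abs_sum_le_sum_abs _ _).trans ?_
    have h2 : ∀ ν ∈ range (PW w), |∑ s ∈ SA A S (PW w) ν, ∑ K ∈ celW (PW w) K0 s, La z (((s : ℤ) + i) ^ 2 - K) * La z (((s : ℤ) + j) ^ 2 - K) -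
        D * ((Vz w)⁻¹ ^ 2 * (rI w K0 (ν + i) * rI w K0 (ν + j) * cc w z (j - i)))| ≤
        q * (D * ((Vz w)⁻¹ ^ 2 * (rI w K0 (ν + i) * rI w K0 (ν + j) * cc w z (j - i)))) + E := by
      intro ν hν
      have h3 := h b hb w z hw hwz hz K0 A S m ν Y i j hmA hAS hY (mem_range.1 hν) hi hj'
      rw [ind_eq, ← hD, ← hE, ← hq] at h3
      exact h3
    refine (sum_le_sum h2).trans (le_of_eq ?_)
    rw [sum_add_distrib, ← mul_sum, sum_const, card_range, nsmul_eq_mul]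
  have e1 : D * ((Vz w)⁻¹ ^ 2 * ∑ i ∈ JJ m, ∑ j ∈ (JJ m).erase i, nn w K0 i j * cc w z (j - i)) =
      ∑ i ∈ JJ m, ∑ j ∈ (JJ m).erase i, D * ((Vz w)⁻¹ ^ 2 * (nn w K0 i j * cc w z (j - i))) := by
    simp_rw [mul_sum]
  rw [e1, ← sum_sub_distrib]
  simp_rw [← sum_sub_distrib]
  refine (abs_sum_le_sum_abs _ _).trans ((sum_le_sum fun i _ => abs_sum_le_sum_abs _ _).trans ?_)
  refine (sum_le_sum fun i hi => sum_le_sum fun j hj => hone i hi j hj).trans ?_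
  simp_rw [sum_add_distrib]
  apply add_le_add
  · simp_rw [← mul_sum]
    exact le_rfl
  simp_rw [sum_const, nsmul_eq_mul]
  have h4 : ∀ i ∈ JJ m, ((#((JJ m).erase i) : ℕ) : ℝ) * (PW w * E) ≤ 2 * m * (PW w * E) := by
    intro i hi
    apply mul_le_mul_of_nonneg_right _ (by positivity)
    rw [card_erase_of_mem hi, JJ_card m hm]
    exact_mod_cast (by omega : 2 * m - 1 - 1 ≤ 2 * m)
  refine (sum_le_sum h4).trans ?_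
  rw [sum_const, JJ_card m hm, nsmul_eq_mul]
  have h5 : ((2 * m - 1 : ℕ) : ℝ) ≤ 2 * m := by exact_mod_cast (by omega : 2 * m - 1 ≤ 2 * m)
  calc ((2 * m - 1 : ℕ) : ℝ) * (2 * m * (PW w * E)) ≤ (2 * m) * (2 * m * (PW w * E)) := mul_le_mul_of_nonneg_right h5 (by positivity)
    _ = _ := by ring

/-- eventual conditions -/
lemma evt_G (C0 δ c : ℝ) (hc : 0 < c) (M : ℕ) : ∀ᶠ X : ℕ in atTop, (10000 : ℝ) ≤ Real.log X ∧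
    10 / δ * Real.log (Real.log X) ≤ Real.log X ∧ 10 / δ ≤ Real.log X ∧ Real.log X ^ 12 ≤ √(X : ℝ) ∧ 10 * C0 ≤ Real.log X ∧
    Real.log X ^ M ≤ √(X : ℝ) ∧ c * Real.log (Real.log X) ^ 4 ≤ Real.log X ∧ c ≤ Real.log X := by
  filter_upwards [evt_log_ge 10000, evt_ll 1 1 (10 / δ) (by norm_num), evt_log_ge (10 / δ), evt_log_pow 12 (1 / 2) (by norm_num),
    evt_log_ge (10 * C0), evt_log_pow M (1 / 2) (by norm_num), evt_ll 4 1 c (by norm_num), evt_log_ge c] with X h1 h2 h3 h4 h5 h6 h7 h8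
  rw [← Real.sqrt_eq_rpow] at h4 h6
  rw [Real.rpow_one] at h2 h7
  rw [pow_one] at h2
  exact ⟨h1, h2, h3, h4, h5, h6, h7, h8⟩

end Pool.Agent.X40.VAR
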